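import Pool.Agent.H89.Alg.Step

set_option autoImplicit false

open Polynomial

namespace Pool.Agent.H89.Alg

/-- Nested intervals with requirements. -/
lemma nested (S : Set (ℝ × ℝ)) (hne : S.Nonempty) (hS : ∀ I ∈ S, I.1 ≤ I.2)
    (Φ : ℕ → ℝ × ℝ → Prop)
    (hstep : ∀ I ∈ S, ∀ B : ℕ, ∃ J ∈ S, I.1 ≤ J.1 ∧ J.2 ≤ I.2 ∧ Φ B J) :
    ∃ ξ : ℝ, ∀ B : ℕ, ∃ J ∈ S, Φ B J ∧ J.1 ≤ ξ ∧ ξ ≤ J.2 := by
  obtain ⟨I₀, hI₀⟩ := hne
  choose! next hnext using hstep
  let seq : ℕ → ℝ × ℝ := fun k => Nat.rec I₀ (fun k I => next I k) k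
  have hseqS : ∀ k, seq k ∈ S := by
    intro k
    induction k with
    | zero => exact hI₀
    | succ k ih => exact (hnext (seq k) ih k).1
  have hsucc : ∀ k, seq (k + 1) = next (seq k) k := fun k => rfl
  have hmono : Monotone (fun k => (seq k).1) := by
    refine monotone_nat_of_le_succ ?_
    intro k
    rw [hsucc]
    exact (hnext (seq k) (hseqS k) k).2.1
  have hanti : Antitone (fun k => (seq k).2) := by
    refine antitone_nat_of_succ_le ?_
    intro k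
    rw [hsucc]
    exact (hnext (seq k) (hseqS k) k).2.2.1
  have hmem := hmono.ciSup_mem_iInter_Icc_of_antitone hanti (fun k => hS _ (hseqS k))
  rw [Set.mem_iInter] at hmem
  refine ⟨⨆ k, (seq k).1, ?_⟩
  intro B
  refine ⟨seq (B + 1), hseqS (B + 1), ?_, (hmem (B + 1)).1, (hmem (B + 1)).2⟩
  rw [hsucc]
  exact (hnext (seq B) (hseqS B) B).2.2.2

lemma Good.ht_eq {n : ℕ} {P R : ℤ[X]} {α : ℝ} (hP : Good n P α) (hR : Good n R α) :
    ht n P = ht n R := by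
  by_contra hne
  exact hP.not_dvd hR hne (hP.dvd hR.aeval)

/-- The core statement for exponents larger than `2n`. -/
theorem core_large (n : ℕ) (hn : 1 ≤ n) (s : ℝ) (hs : 2 * (n : ℝ) < s) (c₁ c₂ : ℝ) (hc₁ : 0 < c₁)
    (hc : c₁ < c₂) :
    ∃ (ξ : ℝ) (N : ℕ),
      (∀ (P : ℤ[X]) (β : ℝ), Good n P β → N ≤ ht n P → c₁ * (ht n P : ℝ) ^ (-s) ≤ |ξ - β|) ∧
      (∀ B : ℕ, ∃ (P : ℤ[X]) (α : ℝ), Good n P α ∧ B ≤ ht n P ∧
        |ξ - α| < c₂ * (ht n P : ℝ) ^ (-s)) := by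
  classical
  have hn1 : (1 : ℝ) ≤ n := by exact_mod_cast hn
  have hs0 : 0 < s := by linarith
  set d₁ : ℝ := (2 * c₁ + c₂) / 3 with hd₁
  set d₂ : ℝ := (c₁ + 2 * c₂) / 3 with hd₂
  set C : ℝ := c₁ + c₂ with hC
  have hd₁₂ : d₁ < d₂ := by rw [hd₁, hd₂]; linarith
  have hd₁0 : 0 < d₁ := by rw [hd₁]; linarith
  have hC0 : 0 < C := by rw [hC]; linarith
  obtain ⟨η, hη0, hη⟩ := interval_lemma n hn s hs C hC0
  obtain ⟨h₀, hh₀⟩ := tail_lemma n hn s hs (C + d₂) (η * ((d₂ - d₁) / 2)) (by linarith)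
    (mul_pos hη0 (by linarith))
  obtain ⟨Cp, hCp0, hCp⟩ := sum_good_le n (1 + s / 2) (by linarith)
  -- threshold N
  obtain ⟨N, hN⟩ := exists_nat_forall_rpow_neg_le (θ := s / 2 - 1) (C := Cp) (η := η * (1 / 2))
    (by linarith) (by linarith)
  -- extension of good intervals
  have hext : ∀ (u v : ℝ) (h : ℕ), 0 ≤ u → u < v → v ≤ 1 → N ≤ h →
      (∀ (R : ℤ[X]) (β : ℝ), Good n R β → N < ht n R → ht n R ≤ h →
        ∀ x, u ≤ x → x ≤ v → c₁ * (ht n R : ℝ) ^ (-s) ≤ |x - β|) →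
      (∀ F : Finset (ℤ[X] × ℝ), (∀ q ∈ F, Good n q.1 q.2 ∧ h < ht n q.1 ∧
        ∃ x, u ≤ x ∧ x ≤ (u + v) / 2 ∧ |x - q.2| ≤ C * (ht n q.1 : ℝ) ^ (-s)) →
        ∑ q ∈ F, ((ht n q.1 : ℝ)) ^ (-s) ≤ η * ((u + v) / 2 - u)) →
      ∀ B : ℕ, ∃ (P : ℤ[X]) (α : ℝ), Good n P α ∧ u < α ∧
        α + d₂ * (ht n P : ℝ) ^ (-s) ≤ v ∧ B ≤ ht n P ∧
        ∀ (R : ℤ[X]) (β : ℝ), Good n R β → N < ht n R → ht n R ≤ ht n P →
          ∀ x, α + d₁ * (ht n P : ℝ) ^ (-s) ≤ x → x ≤ α + d₂ * (ht n P : ℝ) ^ (-s) →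
          c₁ * (ht n R : ℝ) ^ (-s) ≤ |x - β| := by
    intro u v h hu huv hv hNh hlow hsum B
    obtain ⟨B₁, hB₁⟩ := exists_nat_forall_rpow_neg_le (θ := s) (C := d₂) (η := (v - u) / 2) hs0
      (by linarith)
    obtain ⟨P, α, hP, huα, hαv, hBP, hsep⟩ := hη u ((u + v) / 2) hu (by linarith) (by linarith) h
      hsum (max B B₁)
    have hr0 : 0 < (ht n P : ℝ) ^ (-s) := by
      have : (0 : ℝ) < ht n P := by exact_mod_cast hP.one_le_ht
      positivity
    have hd2r : d₂ * (ht n P : ℝ) ^ (-s) ≤ (v - u) / 2 := by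
      apply hB₁
      exact_mod_cast (le_max_right _ _).trans hBP
    refine ⟨P, α, hP, huα, by linarith, (le_max_left _ _).trans hBP, ?_⟩
    intro R β hR hNR hRP x hx1 hx2
    have hxα : 0 ≤ x - α := by nlinarith
    by_cases hRh : ht n R ≤ h
    · exact hlow R β hR hNR hRh x (by linarith) (by linarith)
    · push Not at hRh
      have hR0 : (0 : ℝ) < ht n R := by exact_mod_cast hR.one_le_ht
      have hrr : (ht n P : ℝ) ^ (-s) ≤ (ht n R : ℝ) ^ (-s) :=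
        Real.rpow_le_rpow_of_nonpos hR0 (by exact_mod_cast hRP) (by linarith)
      by_cases hβ : β = α
      · subst hβ
        rw [hR.ht_eq hP, abs_of_nonneg hxα]
        have : c₁ ≤ d₁ := by rw [hd₁]; linarith
        nlinarith
      · have h1 := hsep R β hR hRh hRP hβ
        have h2 : |α - β| ≤ |x - β| + |x - α| := by
          calc |α - β| = |(x - β) - (x - α)| := by ring_nf
            _ ≤ _ := abs_sub _ _
        rw [abs_of_nonneg hxα] at h2
        have h3 : x - α ≤ d₂ * (ht n R : ℝ) ^ (-s) := by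
          have : 0 < d₂ := by linarith
          nlinarith
        have h4 : c₁ + d₂ ≤ C := by rw [hd₂, hC]; linarith
        have hrR : 0 < (ht n R : ℝ) ^ (-s) := by positivity
        nlinarith
  set S : Set (ℝ × ℝ) := {I | ∃ (P : ℤ[X]) (α : ℝ), Good n P α ∧ max N h₀ ≤ ht n P ∧ 0 < α ∧
      I.1 = α + d₁ * (ht n P : ℝ) ^ (-s) ∧ I.2 = α + d₂ * (ht n P : ℝ) ^ (-s) ∧ I.2 ≤ 1 ∧
      ∀ (R : ℤ[X]) (β : ℝ), Good n R β → N < ht n R → ht n R ≤ ht n P →
        ∀ x, I.1 ≤ x → x ≤ I.2 → c₁ * (ht n R : ℝ) ^ (-s) ≤ |x - β|} with hSdef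
  set Φ : ℕ → ℝ × ℝ → Prop := fun B I => ∃ (P : ℤ[X]) (α : ℝ), Good n P α ∧ B ≤ ht n P ∧
      I.1 = α + d₁ * (ht n P : ℝ) ^ (-s) ∧ I.2 = α + d₂ * (ht n P : ℝ) ^ (-s) ∧
      ∀ (R : ℤ[X]) (β : ℝ), Good n R β → N < ht n R → ht n R ≤ ht n P →
        ∀ x, I.1 ≤ x → x ≤ I.2 → c₁ * (ht n R : ℝ) ^ (-s) ≤ |x - β| with hΦ
  have hposr : ∀ (P : ℤ[X]) (α : ℝ), Good n P α → 0 < (ht n P : ℝ) ^ (-s) := by
    intro P α hP
    have : (0 : ℝ) < ht n P := by exact_mod_cast hP.one_le_ht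
    positivity
  obtain ⟨ξ, hξ⟩ := nested S (by
    -- base
    obtain ⟨P, α, hP, h1, h2, h3, h4⟩ := hext 0 1 N le_rfl one_pos le_rfl le_rfl
      (by intro R β _ h1 h2; omega) (by
        intro F hF
        have h5 := hCp F (fun q hq => (hF q hq).1)
        have h6 : ∑ q ∈ F, ((ht n q.1 : ℝ)) ^ (-s)
            ≤ ∑ q ∈ F, ((ht n q.1 : ℝ)) ^ (-(1 + s / 2)) * (max (N : ℝ) 1) ^ (-(s / 2 - 1)) := by
          refine Finset.sum_le_sum ?_
          intro q hq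
          have hq0 : (0 : ℝ) < ht n q.1 := by exact_mod_cast (hF q hq).1.one_le_ht
          have e1 : (ht n q.1 : ℝ) ^ (-s)
              = (ht n q.1 : ℝ) ^ (-(1 + s / 2)) * (ht n q.1 : ℝ) ^ (-(s / 2 - 1)) := by
            rw [← Real.rpow_add hq0]; congr 1; ring
          rw [e1]
          refine mul_le_mul_of_nonneg_left ?_ (by positivity)
          refine Real.rpow_le_rpow_of_nonpos (by positivity) ?_ (by linarith)
          refine max_le ?_ ?_
          · exact_mod_cast (hF q hq).2.1.le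
          · exact_mod_cast (hF q hq).1.one_le_ht
        rw [← Finset.sum_mul] at h6
        have h7 := hN (max (N : ℝ) 1) (le_max_left _ _)
        refine h6.trans ?_
        have h8 : 0 < (max (N : ℝ) 1) ^ (-(s / 2 - 1)) := by positivity
        calc (∑ q ∈ F, ((ht n q.1 : ℝ)) ^ (-(1 + s / 2))) * (max (N : ℝ) 1) ^ (-(s / 2 - 1))
            ≤ Cp * (max (N : ℝ) 1) ^ (-(s / 2 - 1)) := mul_le_mul_of_nonneg_right h5 h8.le
          _ ≤ η * (1 / 2) := h7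
          _ = _ := by ring) (max N h₀)
    exact ⟨(α + d₁ * (ht n P : ℝ) ^ (-s), α + d₂ * (ht n P : ℝ) ^ (-s)), P, α, hP, h3, h1, rfl,
      rfl, h2, h4⟩) (by
    rintro ⟨a, b⟩ ⟨P, α, hP, _, _, rfl, rfl, _⟩
    have := hposr P α hP
    simp only
    nlinarith) Φ (by
    rintro ⟨a, b⟩ ⟨P, α, hP, hht, hα, h1, h2, hb1, hlow⟩ B
    simp only at h1 h2 hb1 hlow
    have hr := hposr P α hP
    have hα1 : |α| ≤ 1 := by
      rw [abs_of_pos hα]
      nlinarith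
    obtain ⟨P', α', hP', h1', h2', h3', h4'⟩ := hext a b (ht n P) (by rw [h1]; positivity)
      (by rw [h1, h2]; nlinarith) hb1 ((le_max_left _ _).trans hht) hlow (by
        intro F hF
        have h5 := hh₀ P α hP hα1 ((le_max_right _ _).trans hht) F (by
          intro q hq
          obtain ⟨hg, hlt, x, hx1, hx2, hx3⟩ := hF q hq
          refine ⟨hg, hlt, ?_⟩
          have hP0 : (0 : ℝ) < ht n P := by exact_mod_cast hP.one_le_ht
          have hq0 : (0 : ℝ) < ht n q.1 := by exact_mod_cast hg.one_le_ht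
          have h6 : (ht n q.1 : ℝ) ^ (-s) ≤ (ht n P : ℝ) ^ (-s) :=
            Real.rpow_le_rpow_of_nonpos hP0 (by exact_mod_cast hlt.le) (by linarith)
          have h7 : |q.2 - α| ≤ |x - q.2| + |x - α| := by
            calc |q.2 - α| = |(x - α) - (x - q.2)| := by ring_nf
              _ ≤ |x - α| + |x - q.2| := abs_sub _ _
              _ = _ := add_comm _ _
          have h8 : 0 ≤ x - α := by rw [h1] at hx1; nlinarith
          have h9 : x ≤ b := by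
            have : a ≤ b := by rw [h1, h2]; nlinarith
            linarith
          rw [abs_of_nonneg h8] at h7
          rw [h2] at h9
          calc |q.2 - α| ≤ C * (ht n q.1 : ℝ) ^ (-s) + d₂ * (ht n P : ℝ) ^ (-s) := by linarith
            _ ≤ C * (ht n P : ℝ) ^ (-s) + d₂ * (ht n P : ℝ) ^ (-s) := by
                have := mul_le_mul_of_nonneg_left h6 hC0.le
                linarith
            _ = _ := by ring)
        refine h5.trans (le_of_eq ?_)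
        rw [h1, h2]; ring) (max (max N h₀) B)
    refine ⟨(α' + d₁ * (ht n P' : ℝ) ^ (-s), α' + d₂ * (ht n P' : ℝ) ^ (-s)),
      ⟨P', α', hP', (le_max_left _ _).trans h3', ?_, rfl, rfl, h2'.trans hb1, h4'⟩, ?_, h2',
      ⟨P', α', hP', (le_max_right _ _).trans h3', rfl, rfl, h4'⟩⟩
    · have : 0 < a := by rw [h1]; positivity
      linarith
    · simp only
      have := hposr P' α' hP'
      nlinarith)
  refine ⟨ξ, N + 1, ?_, ?_⟩
  · intro R β hR hNR
    obtain ⟨J, _, ⟨P, α, hP, hB, h1, h2, hlow⟩, hJ1, hJ2⟩ := hξ (ht n R)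
    exact hlow R β hR (by omega) hB ξ hJ1 hJ2
  · intro B
    obtain ⟨J, _, ⟨P, α, hP, hB, h1, h2, hlow⟩, hJ1, hJ2⟩ := hξ B
    have hr := hposr P α hP
    refine ⟨P, α, hP, hB, ?_⟩
    rw [h1] at hJ1
    rw [h2] at hJ2
    have h3 : 0 ≤ ξ - α := by nlinarith
    rw [abs_of_nonneg h3]
    have : d₂ < c₂ := by rw [hd₂]; linarith
    nlinarith

end Pool.Agent.H89.Alg
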