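import Pool.Agent.H89.Alg.Moebius
import Pool.Agent.H89.Alg.Large

set_option autoImplicit false

open Polynomial

namespace Pool.Agent.H89.Alg

lemma Crd.z_eq (c : Crd) : c.z = ((c.p : ℤ) : ℝ) / ((c.q : ℤ) : ℝ) := rfl

/-- value at the base point -/
lemma Crd.one_le_value (c : Crd) {n : ℕ} {P : ℤ[X]} (hP : P.natDegree ≤ n) (h0 : aeval c.z P ≠ 0) :
    1 ≤ (c.q : ℝ) ^ n * |aeval c.z P| := by
  rw [c.z_eq] at h0 ⊢
  exact one_le_of_rat hP _ _ c.hq h0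

/-- Distance from the base point to a root. -/
lemma Crd.one_le_dist (c : Crd) {n : ℕ} {P : ℤ[X]} (hP : P.natDegree ≤ n) (h0 : aeval c.z P ≠ 0)
    {β R : ℝ} (hβ0 : aeval β P = 0) (hR : 1 ≤ R) (hz : |c.z| ≤ R) (hβ : |β| ≤ R) :
    1 ≤ (c.q : ℝ) ^ n * ((n + 1) * n * R ^ n) * ht n P * |c.z - β| := by
  have h1 := c.one_le_value hP h0
  have h2 := abs_aeval_sub_le hP hR hz hβ
  rw [hβ0, sub_zero] at h2
  have hq := c.hq0
  calc (1 : ℝ) ≤ (c.q : ℝ) ^ n * |aeval c.z P| := h1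
    _ ≤ (c.q : ℝ) ^ n * ((n + 1) * n * R ^ n * ht n P * |c.z - β|) :=
        mul_le_mul_of_nonneg_left h2 (by positivity)
    _ = _ := by ring

/-- The base point is a rational number. -/
lemma Crd.z_rat (c : Crd) : ∃ x : ℚ, (x : ℝ) = c.z := ⟨(c.p : ℚ) / c.q, by rw [Crd.z]; push_cast; rfl⟩

lemma Crd.M_rat (c : Crd) (X : ℚ) : ∃ x : ℚ, (x : ℝ) = c.M X :=
  ⟨(c.p * X + c.r) / (c.q * X + c.t), by rw [Crd.M, Crd.w]; push_cast; rfl⟩

/-- Bad algebraic numbers have height at least proportional to `a`. -/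
lemma bad_height (c : Crd) (n : ℕ) (hn : 2 ≤ n) (s : ℝ) (hs : (n : ℝ) + 1 < s) (c₁ : ℝ)
    (hc₁ : 0 < c₁) (N₀ : ℕ)
    (hz : ∀ (P : ℤ[X]) (β : ℝ), Good n P β → N₀ ≤ ht n P → c₁ * (ht n P : ℝ) ^ (-s) < |c.z - β|) :
    ∃ κ : ℝ, 0 < κ ∧ ∃ a₀ : ℝ, c.T₀ ≤ a₀ ∧ ∀ a : ℝ, a₀ ≤ a → ∀ X : ℝ, a - 1 ≤ X →
      ∀ (P : ℤ[X]) (β : ℝ), Good n P β → N₀ ≤ ht n P → |c.M X - β| ≤ c₁ * (ht n P : ℝ) ^ (-s) →
        κ * a ≤ ht n P := by
  have hn1 : (2 : ℝ) ≤ n := by exact_mod_cast hn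
  set R : ℝ := |c.z| + 2 + c₁ with hR
  have hR1 : 1 ≤ R := by rw [hR]; linarith [abs_nonneg c.z]
  set D : ℝ := (c.q : ℝ) ^ n * ((n + 1) * n * R ^ n) with hD
  have hq := c.hq0
  have hD0 : 0 < D := by positivity
  obtain ⟨B, hB⟩ := exists_nat_forall_rpow_neg_le (θ := s - 1) (C := D * c₁) (η := 1 / 4)
    (by linarith) (by norm_num)
  obtain ⟨δ, hδ0, hδ⟩ := exists_pos_le_of_finite
    (S := {x : ℤ[X] × ℝ | (Good n x.1 x.2 ∧ ht n x.1 ≤ B) ∧ N₀ ≤ ht n x.1})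
    ((finite_good n B).subset (fun x hx => hx.1))
    (fun x => |c.z - x.2| - c₁ * (ht n x.1 : ℝ) ^ (-s))
    (fun x hx => sub_pos.2 (hz x.1 x.2 hx.1.1 hx.2))
  refine ⟨1 / (4 * D), by positivity, max c.T₀ (2 / δ + 1), le_max_left _ _, ?_⟩
  intro a ha X hX P β hP hNP hbad
  have haT : c.T₀ ≤ a := (le_max_left _ _).trans ha
  have ha4 : 4 ≤ a := c.T₀_ge.trans haT
  have haδ : 2 / a < δ := by
    have h1 : 2 / δ + 1 ≤ a := (le_max_right _ _).trans ha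
    rw [div_lt_iff₀ (by linarith)]
    have h2 : 2 / δ < a := by linarith
    rw [div_lt_iff₀ hδ0] at h2
    linarith
  have hdist := c.dist_z_M haT hX
  by_contra hcon
  push Not at hcon
  have hH1 : (1 : ℝ) ≤ ht n P := by exact_mod_cast hP.one_le_ht
  have hH0 : (0 : ℝ) < ht n P := by linarith
  set H : ℝ := (ht n P : ℝ) with hH
  have hr1 : H ^ (-s) ≤ 1 := Real.rpow_le_one_of_one_le_of_nonpos hH1 (by linarith)
  have htri : |c.z - β| ≤ 2 / a + c₁ * H ^ (-s) := by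
    calc |c.z - β| = |(c.z - c.M X) + (c.M X - β)| := by ring_nf
      _ ≤ |c.z - c.M X| + |c.M X - β| := abs_add_le _ _
      _ ≤ 2 / a + c₁ * H ^ (-s) := by
          rw [abs_of_pos hdist.1]; linarith [hdist.2]
  have h2a : 2 / a ≤ 1 := by rw [div_le_one (by linarith)]; linarith
  have hβR : |β| ≤ R := by
    calc |β| = |c.z - (c.z - β)| := by ring_nf
      _ ≤ |c.z| + |c.z - β| := abs_sub _ _
      _ ≤ R := by rw [hR]; nlinarith
  obtain ⟨x, hx⟩ := c.z_rat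
  have hzne : aeval c.z P ≠ 0 := by rw [← hx]; exact hP.aeval_rat_ne_zero hn x
  have h1 := c.one_le_dist hP.natDegree_le hzne hP.aeval hR1
    (by rw [hR]; linarith) hβR
  rw [← hD, ← hH] at h1
  have h2 : D * H * |c.z - β| ≤ D * H * (2 / a) + D * c₁ * H ^ (-(s - 1)) := by
    have e1 : H * H ^ (-s) = H ^ (-(s - 1)) := by
      nth_rewrite 1 [← Real.rpow_one H]
      rw [← Real.rpow_add hH0]; congr 1; ring
    calc D * H * |c.z - β| ≤ D * H * (2 / a + c₁ * H ^ (-s)) :=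
          mul_le_mul_of_nonneg_left htri (by positivity)
      _ = D * H * (2 / a) + D * c₁ * (H * H ^ (-s)) := by ring
      _ = _ := by rw [e1]
  have h3 : D * H * (2 / a) < 1 / 2 := by
    have ha0 : 0 < a := by linarith
    have h4 : 4 * D * H < a := by
      rw [div_mul_eq_mul_div, one_mul, lt_div_iff₀ (by positivity)] at hcon
      linarith
    rw [mul_div_assoc', div_lt_div_iff₀ ha0 (by norm_num)]
    linarith
  have hHB : ht n P ≤ B := by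
    by_contra hlt
    push Not at hlt
    have h4 := hB H (by rw [hH]; exact_mod_cast hlt.le)
    linarith
  have h5 := hδ (P, β) ⟨⟨hP, hHB⟩, hNP⟩
  simp only at h5
  rw [← hH] at h5
  linarith

/-- Upper bound for transformed values. -/
lemma rho_bound (c : Crd) {n : ℕ} {s : ℝ} {P : ℤ[X]} (hP : P.natDegree ≤ n) {a X β R C : ℝ}
    (haT : c.T₀ ≤ a)
    (hX1 : a - 1 ≤ X) (hX2 : X ≤ a + 1) (hβ0 : aeval β P = 0) (hR : 1 ≤ R) (hMR : |c.M X| ≤ R)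
    (hβR : |β| ≤ R) (hH : 1 ≤ ht n P)
    (hd : |c.M X - β| ≤ C * (ht n P : ℝ) ^ (-s)) :
    |aeval X (subst n c.p c.r c.q c.t P)|
      ≤ ((3 * c.Q) ^ n * ((n + 1) * n * R ^ n) * C) * a ^ n * (ht n P : ℝ) ^ (1 - s) := by
  have ha4 : 4 ≤ a := c.T₀_ge.trans haT
  have hQ := c.Q_ge_one
  have hw1 := c.w_lower haT hX1
  have hw2 := c.w_upper haT hX2 (by linarith)
  have hw0 : 0 < c.w X := by linarith
  rw [c.aeval_sub hP hw0.ne', abs_mul, abs_of_pos (pow_pos hw0 n)]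
  have h1 := abs_aeval_sub_le hP hR hMR hβR
  rw [hβ0, sub_zero] at h1
  have hH0 : (0 : ℝ) < ht n P := by exact_mod_cast hH
  have e1 : (ht n P : ℝ) * (ht n P : ℝ) ^ (-s) = (ht n P : ℝ) ^ (1 - s) := by
    nth_rewrite 1 [← Real.rpow_one (ht n P : ℝ)]
    rw [← Real.rpow_add hH0]; congr 1
  calc c.w X ^ n * |aeval (c.M X) P|
      ≤ (3 * c.Q * a) ^ n * ((n + 1) * n * R ^ n * ht n P * (C * (ht n P : ℝ) ^ (-s))) := by
        refine mul_le_mul (pow_le_pow_left₀ hw0.le hw2 _) (h1.trans ?_) (abs_nonneg _)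
          (by positivity)
        exact mul_le_mul_of_nonneg_left hd (by positivity)
    _ = ((3 * c.Q) ^ n * ((n + 1) * n * R ^ n) * C) * a ^ n *
        ((ht n P : ℝ) * (ht n P : ℝ) ^ (-s)) := by rw [mul_pow (3 * c.Q)]; ring
    _ = _ := by rw [e1]

lemma taylor_bound {n : ℕ} {F : ℤ[X]} (hF : F.natDegree ≤ n) {a : ℕ} (ha : 1 ≤ a) {D ρ X : ℝ}
    (hD : ∀ i, |((F.coeff i : ℤ) : ℝ)| ≤ D) (hX1 : (a : ℝ) ≤ X) (hX2 : X ≤ 2 * a)
    (hρ : |aeval X F| ≤ ρ) (j : ℕ) :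
    |(((taylor (a : ℤ) F).coeff j : ℤ) : ℝ)| * (a : ℝ) ^ j
      ≤ 2 ^ n * (ρ + 2 * n * 2 ^ n * D * (a : ℝ) ^ (n - 1)) := by
  have ha1 : (1 : ℝ) ≤ a := by exact_mod_cast ha
  have hD0 : 0 ≤ D := (abs_nonneg _).trans (hD 0)
  have hX0 : 0 < X := by linarith
  -- sum of |c_l| a^l
  have hlow : ∀ l ∈ Finset.range n, |((F.coeff l : ℤ) : ℝ)| * X ^ l ≤ D * (2 ^ n * (a : ℝ) ^ (n - 1)) := by
    intro l hl
    rw [Finset.mem_range] at hl
    refine mul_le_mul (hD l) ?_ (by positivity) hD0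
    calc X ^ l ≤ (2 * a : ℝ) ^ l := pow_le_pow_left₀ hX0.le hX2 _
      _ = 2 ^ l * (a : ℝ) ^ l := mul_pow _ _ _
      _ ≤ 2 ^ n * (a : ℝ) ^ (n - 1) := by
          refine mul_le_mul (pow_le_pow_right₀ (by norm_num) hl.le)
            (pow_le_pow_right₀ ha1 (by omega)) (by positivity) (by positivity)
  have hlow' : ∑ l ∈ Finset.range n, |((F.coeff l : ℤ) : ℝ)| * X ^ l
      ≤ n * (D * (2 ^ n * (a : ℝ) ^ (n - 1))) := by
    refine (Finset.sum_le_sum hlow).trans ?_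
    rw [Finset.sum_const, Finset.card_range, nsmul_eq_mul]
  have htop : |((F.coeff n : ℤ) : ℝ)| * X ^ n ≤ ρ + n * (D * (2 ^ n * (a : ℝ) ^ (n - 1))) := by
    have h1 : aeval X F = ∑ l ∈ Finset.range n, ((F.coeff l : ℤ) : ℝ) * X ^ l
        + ((F.coeff n : ℤ) : ℝ) * X ^ n := by
      rw [aeval_eq_sum hF, Finset.sum_range_succ]
    have h2 : |((F.coeff n : ℤ) : ℝ)| * X ^ n = |aeval X F - ∑ l ∈ Finset.range n,
        ((F.coeff l : ℤ) : ℝ) * X ^ l| := by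
      rw [h1, add_sub_cancel_left, abs_mul, abs_of_pos (pow_pos hX0 n)]
    rw [h2]
    refine (abs_sub _ _).trans (add_le_add hρ ?_)
    refine (Finset.abs_sum_le_sum_abs _ _).trans ?_
    refine le_trans (le_of_eq ?_) hlow'
    refine Finset.sum_congr rfl ?_
    intro l _
    rw [abs_mul, abs_of_pos (pow_pos hX0 l)]
  have hall : ∑ l ∈ Finset.range (n + 1), |((F.coeff l : ℤ) : ℝ)| * (a : ℝ) ^ l
      ≤ ρ + 2 * n * 2 ^ n * D * (a : ℝ) ^ (n - 1) := by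
    have h1 : ∑ l ∈ Finset.range (n + 1), |((F.coeff l : ℤ) : ℝ)| * (a : ℝ) ^ l
        ≤ ∑ l ∈ Finset.range (n + 1), |((F.coeff l : ℤ) : ℝ)| * X ^ l := by
      refine Finset.sum_le_sum ?_
      intro l _
      exact mul_le_mul_of_nonneg_left (pow_le_pow_left₀ (by positivity) hX1 _) (abs_nonneg _)
    rw [Finset.sum_range_succ _ n] at h1
    rw [Finset.sum_range_succ] at h1 ⊢
    linarith
  rw [taylor_coeff_eq hF]
  push_cast
  calc |∑ l ∈ Finset.range (n + 1), ((F.coeff l : ℤ) : ℝ) * ((a : ℝ) ^ (l - j) * (l.choose j : ℝ))|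
        * (a : ℝ) ^ j
      ≤ (∑ l ∈ Finset.range (n + 1), |((F.coeff l : ℤ) : ℝ) * ((a : ℝ) ^ (l - j) * (l.choose j : ℝ))|)
        * (a : ℝ) ^ j := mul_le_mul_of_nonneg_right (Finset.abs_sum_le_sum_abs _ _) (by positivity)
    _ = ∑ l ∈ Finset.range (n + 1), |((F.coeff l : ℤ) : ℝ) * ((a : ℝ) ^ (l - j) * (l.choose j : ℝ))|
        * (a : ℝ) ^ j := Finset.sum_mul _ _ _
    _ ≤ ∑ l ∈ Finset.range (n + 1), 2 ^ n * (|((F.coeff l : ℤ) : ℝ)| * (a : ℝ) ^ l) := by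
        refine Finset.sum_le_sum ?_
        intro l hl
        have hl' : l ≤ n := by simpa [Nat.lt_succ_iff] using hl
        by_cases hjl : j ≤ l
        · have h1 : (a : ℝ) ^ (l - j) * (a : ℝ) ^ j = (a : ℝ) ^ l := by
            rw [← pow_add]; congr 1; omega
          have h2 : (l.choose j : ℝ) ≤ 2 ^ n := by
            exact_mod_cast (Nat.choose_le_two_pow l j).trans (Nat.pow_le_pow_right (by norm_num) hl')
          rw [abs_mul, abs_of_nonneg (by positivity : (0 : ℝ) ≤ (a : ℝ) ^ (l - j) * (l.choose j : ℝ))]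
          calc |((F.coeff l : ℤ) : ℝ)| * ((a : ℝ) ^ (l - j) * (l.choose j : ℝ)) * (a : ℝ) ^ j
              = (l.choose j : ℝ) * (|((F.coeff l : ℤ) : ℝ)| * ((a : ℝ) ^ (l - j) * (a : ℝ) ^ j)) := by
                ring
            _ = (l.choose j : ℝ) * (|((F.coeff l : ℤ) : ℝ)| * (a : ℝ) ^ l) := by rw [h1]
            _ ≤ _ := mul_le_mul_of_nonneg_right h2 (by positivity)
        · rw [Nat.choose_eq_zero_of_lt (by omega)]
          simp only [Nat.cast_zero, mul_zero, abs_zero, zero_mul]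
          positivity
    _ = 2 ^ n * ∑ l ∈ Finset.range (n + 1), |((F.coeff l : ℤ) : ℝ)| * (a : ℝ) ^ l := by
        rw [Finset.mul_sum]
    _ ≤ _ := mul_le_mul_of_nonneg_left hall (by positivity)

lemma aeval_int (F : ℤ[X]) (a : ℤ) : aeval ((a : ℤ) : ℝ) F = ((F.eval a : ℤ) : ℝ) := by
  have := aeval_algebraMap_apply ℝ a F
  simpa using this

/-- Taylor expansion as a real function. -/
lemma aeval_taylor_fv {n : ℕ} {F : ℤ[X]} (hF : F.natDegree ≤ n) (a : ℤ) (y : ℝ) :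
    aeval ((a : ℝ) + y) F = fv (fun j => (taylor a F).coeff j) n y := by
  have h1 : aeval y (taylor a F) = aeval ((a : ℝ) + y) F := by
    rw [taylor_apply, aeval_comp]
    simp [add_comm]
  have h2 : (taylor a F).natDegree ≤ n := by rw [natDegree_taylor]; exact hF
  rw [← h1, aeval_eq_sum h2, fv]

/-- Consequences of badness. -/
lemma bad_facts (c : Crd) (n : ℕ) (hn : 2 ≤ n) (s : ℝ) (hs : (n : ℝ) + 1 < s) (c₁ : ℝ)
    (hc₁ : 0 < c₁) (N₀ : ℕ)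
    (hz : ∀ (P : ℤ[X]) (β : ℝ), Good n P β → N₀ ≤ ht n P → c₁ * (ht n P : ℝ) ^ (-s) < |c.z - β|) :
    ∃ C : ℝ, 1 ≤ C ∧ ∃ κ : ℝ, 0 < κ ∧ ∀ ε : ℝ, 0 < ε → ∃ a₀ : ℕ, ∀ a b : ℕ, a₀ ≤ a →
      a ^ (n - 1) ≤ b → ∀ (P : ℤ[X]) (β : ℝ), Good n P β → N₀ ≤ ht n P →
      |c.M ((a : ℝ) + 1 / b) - β| ≤ c₁ * (ht n P : ℝ) ^ (-s) →
      c.T₀ ≤ a ∧ κ * a ≤ ht n P ∧
      (subst n c.p c.r c.q c.t P).eval (a : ℤ) ≠ 0 ∧
      aeval ((a : ℝ) + 1 / b) (subst n c.p c.r c.q c.t P) ≠ 0 ∧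
      |aeval ((a : ℝ) + 1 / b) (subst n c.p c.r c.q c.t P)| ≤ ε ∧
      (∀ j ≤ n, |(((taylor (a : ℤ) (subst n c.p c.r c.q c.t P)).coeff j : ℤ) : ℝ)| * (a : ℝ) ^ j
        ≤ C * ht n P * (a : ℝ) ^ (n - 1)) ∧
      (ht n P : ℝ) ^ (s - 1) ≤ C * ((a : ℝ) * b) ^ n ∧
      (ht n P : ℝ) ≤ C * ((a : ℝ) * b) := by
  have hn1 : (2 : ℝ) ≤ n := by exact_mod_cast hn
  obtain ⟨κ, hκ0, a₁, ha₁T, ha₁⟩ := bad_height c n hn s hs c₁ hc₁ N₀ hz
  set R : ℝ := |c.z| + 2 + c₁ with hR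
  have hR1 : 1 ≤ R := by rw [hR]; linarith [abs_nonneg c.z]
  have hQ := c.Q_ge_one
  set C₃ : ℝ := (3 * c.Q) ^ n * ((n + 1) * n * R ^ n) * c₁ with hC₃
  have hC₃0 : 0 < C₃ := by positivity
  set CM : ℝ := c.Q ^ n * (n + 1) with hCM
  have hCM0 : 0 < CM := by positivity
  set C₇ : ℝ := 2 ^ n * (1 + 2 * n * 2 ^ n * CM) with hC₇
  have hC₇0 : 0 < C₇ := by positivity
  set C : ℝ := C₃ + C₇ + 1 with hC
  refine ⟨C, by rw [hC]; linarith, κ, hκ0, ?_⟩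
  intro ε hε
  obtain ⟨a₂, ha₂⟩ := exists_nat_forall_rpow_neg_le (θ := s - n - 1) (C := C₃ * κ ^ (1 - s))
    (η := min ε 1) (by linarith) (lt_min hε one_pos)
  obtain ⟨a₃, ha₃⟩ := exists_nat_ge a₁
  refine ⟨max (max a₂ a₃) 1, ?_⟩
  intro a b ha hab P β hP hNP hbad
  have haN1 : 1 ≤ a := (le_max_right _ _).trans ha
  have haa₂ : (a₂ : ℝ) ≤ a := by exact_mod_cast ((le_max_left _ _).trans (le_max_left _ _)).trans ha
  have haa₁ : a₁ ≤ a := by
    have : (a₃ : ℝ) ≤ a := by exact_mod_cast ((le_max_right _ _).trans (le_max_left _ _)).trans ha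
    linarith
  have haT : c.T₀ ≤ a := ha₁T.trans haa₁
  have ha4 : (4 : ℝ) ≤ a := c.T₀_ge.trans haT
  have ha0 : (0 : ℝ) < a := by linarith
  have hbN1 : 1 ≤ b := (Nat.one_le_pow _ _ (by omega)).trans hab
  have hb1 : (1 : ℝ) ≤ b := by exact_mod_cast hbN1
  have hb0 : (0 : ℝ) < b := by linarith
  have hinv0 : (0 : ℝ) < 1 / b := by positivity
  have hinv1 : (1 : ℝ) / b ≤ 1 := by rw [div_le_one hb0]; exact hb1
  set X : ℝ := (a : ℝ) + 1 / b with hX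
  have hX1 : (a : ℝ) - 1 ≤ X := by rw [hX]; linarith
  have hX2 : X ≤ (a : ℝ) + 1 := by rw [hX]; linarith
  have hκa := ha₁ a haa₁ X hX1 P β hP hNP hbad
  set H : ℝ := (ht n P : ℝ) with hH
  have hH1 : (1 : ℝ) ≤ H := by rw [hH]; exact_mod_cast hP.one_le_ht
  have hH0 : (0 : ℝ) < H := by linarith
  have hdist := c.dist_z_M haT hX1
  have h2a : 2 / (a : ℝ) ≤ 1 := by rw [div_le_one ha0]; linarith
  have hr1 : H ^ (-s) ≤ 1 := Real.rpow_le_one_of_one_le_of_nonpos hH1 (by linarith)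
  have hMR : |c.M X| ≤ R := by
    calc |c.M X| = |c.z - (c.z - c.M X)| := by ring_nf
      _ ≤ |c.z| + |c.z - c.M X| := abs_sub _ _
      _ ≤ R := by rw [hR, abs_of_pos hdist.1]; linarith [hdist.2]
  have hβR : |β| ≤ R := by
    calc |β| = |c.M X - (c.M X - β)| := by ring_nf
      _ ≤ |c.M X| + |c.M X - β| := abs_sub _ _
      _ ≤ R := by
          have h1 : |c.M X| ≤ |c.z| + 2 / a := by
            calc |c.M X| = |c.z - (c.z - c.M X)| := by ring_nf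
              _ ≤ |c.z| + |c.z - c.M X| := abs_sub _ _
              _ ≤ _ := by rw [abs_of_pos hdist.1]; linarith [hdist.2]
          rw [hR]; nlinarith
  set F := subst n c.p c.r c.q c.t P with hF
  have hFdeg : F.natDegree ≤ n := natDegree_subst_le _ _ _ _ _ _
  have hρ := rho_bound c hP.natDegree_le haT hX1 hX2 hP.aeval hR1 hMR hβR hP.one_le_ht hbad
  rw [← hF, ← hC₃, ← hH] at hρ
  have hw0 : 0 < c.w X := by have := c.w_lower haT hX1; linarith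
  have hwa0 : 0 < c.w a := by have := c.w_lower haT (by linarith : (a : ℝ) - 1 ≤ a); linarith
  have hXrat : ((a : ℚ) + 1 / b : ℚ) = X := by push_cast; rfl
  have hPX : aeval (c.M X) P ≠ 0 := by
    obtain ⟨x, hx⟩ := c.M_rat ((a : ℚ) + 1 / b)
    rw [hXrat] at hx
    rw [← hx]; exact hP.aeval_rat_ne_zero hn x
  have hPa : aeval (c.M a) P ≠ 0 := by
    obtain ⟨x, hx⟩ := c.M_rat (a : ℚ)
    have : ((a : ℚ) : ℝ) = (a : ℝ) := by push_cast; rfl
    rw [this] at hx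
    rw [← hx]; exact hP.aeval_rat_ne_zero hn x
  have hρ0 : aeval X F ≠ 0 := by
    rw [hF, c.aeval_sub hP.natDegree_le hw0.ne']
    exact mul_ne_zero (pow_ne_zero _ hw0.ne') hPX
  have hF0 : F.eval (a : ℤ) ≠ 0 := by
    intro h0
    have h1 := aeval_int F (a : ℤ)
    rw [h0, Int.cast_zero, Int.cast_natCast] at h1
    rw [hF, c.aeval_sub hP.natDegree_le hwa0.ne'] at h1
    exact (mul_ne_zero (pow_ne_zero _ hwa0.ne') hPa) h1
  -- rho small
  have hHpow : H ^ (1 - s) ≤ κ ^ (1 - s) * (a : ℝ) ^ (1 - s) := by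
    rw [← Real.mul_rpow hκ0.le ha0.le]
    exact Real.rpow_le_rpow_of_nonpos (by positivity) hκa (by linarith)
  have hρε : |aeval X F| ≤ min ε 1 := by
    have h1 := ha₂ a haa₂
    have e1 : (a : ℝ) ^ n * (a : ℝ) ^ (1 - s) = (a : ℝ) ^ (-(s - n - 1)) := by
      rw [← Real.rpow_natCast, ← Real.rpow_add ha0]; congr 1; ring
    calc |aeval X F| ≤ C₃ * (a : ℝ) ^ n * H ^ (1 - s) := hρ
      _ ≤ C₃ * (a : ℝ) ^ n * (κ ^ (1 - s) * (a : ℝ) ^ (1 - s)) :=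
          mul_le_mul_of_nonneg_left hHpow (by positivity)
      _ = C₃ * κ ^ (1 - s) * ((a : ℝ) ^ n * (a : ℝ) ^ (1 - s)) := by ring
      _ ≤ min ε 1 := by rw [e1]; exact h1
  -- coefficients
  have hcoef : ∀ i, |((F.coeff i : ℤ) : ℝ)| ≤ CM * H := by
    intro i
    refine (abs_coeff_le_L1 F i).trans ?_
    refine (L1_subst_le _ _ _ _ P hP.natDegree_le).trans ?_
    have h1 := L1_le_ht hP.natDegree_le
    rw [hCM, mul_assoc, hH]
    exact mul_le_mul_of_nonneg_left h1 (by positivity)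
  have hb2 : ∀ j ≤ n, |(((taylor (a : ℤ) F).coeff j : ℤ) : ℝ)| * (a : ℝ) ^ j
      ≤ C * H * (a : ℝ) ^ (n - 1) := by
    intro j _
    have h1 := taylor_bound hFdeg haN1 hcoef (X := X) (ρ := 1) (by rw [hX]; linarith)
      (by rw [hX]; linarith) (hρε.trans (min_le_right _ _)) j
    refine h1.trans ?_
    have h2 : 1 ≤ H * (a : ℝ) ^ (n - 1) := by
      have : (1 : ℝ) ≤ (a : ℝ) ^ (n - 1) := one_le_pow₀ (by linarith)
      nlinarith
    calc 2 ^ n * (1 + 2 * n * 2 ^ n * (CM * H) * (a : ℝ) ^ (n - 1))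
        ≤ 2 ^ n * (H * (a : ℝ) ^ (n - 1) + 2 * n * 2 ^ n * (CM * H) * (a : ℝ) ^ (n - 1)) := by
          gcongr
      _ = C₇ * (H * (a : ℝ) ^ (n - 1)) := by rw [hC₇]; ring
      _ ≤ C * (H * (a : ℝ) ^ (n - 1)) := by
          refine mul_le_mul_of_nonneg_right ?_ (by positivity)
          rw [hC]; linarith
      _ = _ := by ring
  -- upper bounds for H
  have hup : H ^ (s - 1) ≤ C₃ * ((a : ℝ) * b) ^ n := by
    have h1 := one_le_of_rat' hFdeg a b hbN1 hρ0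
    have h2 : 1 ≤ (b : ℝ) ^ n * (C₃ * (a : ℝ) ^ n * H ^ (1 - s)) :=
      h1.trans (mul_le_mul_of_nonneg_left hρ (by positivity))
    have e1 : H ^ (s - 1) * H ^ (1 - s) = 1 := by
      rw [← Real.rpow_add hH0]; ring_nf; exact Real.rpow_zero H
    have e2 : 0 < H ^ (s - 1) := by positivity
    calc H ^ (s - 1) = H ^ (s - 1) * 1 := (mul_one _).symm
      _ ≤ H ^ (s - 1) * ((b : ℝ) ^ n * (C₃ * (a : ℝ) ^ n * H ^ (1 - s))) :=
          mul_le_mul_of_nonneg_left h2 e2.le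
      _ = C₃ * ((a : ℝ) * b) ^ n * (H ^ (s - 1) * H ^ (1 - s)) := by rw [mul_pow]; ring
      _ = _ := by rw [e1, mul_one]
  have hC1 : 1 ≤ C := by rw [hC]; linarith
  have hup' : H ^ (s - 1) ≤ C * ((a : ℝ) * b) ^ n := by
    refine hup.trans (mul_le_mul_of_nonneg_right ?_ (by positivity))
    rw [hC]; linarith
  have hab1 : 1 ≤ (a : ℝ) * b := by nlinarith
  refine ⟨haT, hκa, hF0, hρ0, hρε.trans (min_le_left _ _), hb2, hup', ?_⟩
  by_contra hlt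
  push Not at hlt
  have h1 : (C * ((a : ℝ) * b)) ^ (s - 1) < H ^ (s - 1) :=
    Real.rpow_lt_rpow (by positivity) hlt (by linarith)
  have h2 : C * ((a : ℝ) * b) ^ n ≤ (C * ((a : ℝ) * b)) ^ (s - 1) := by
    rw [Real.mul_rpow (by linarith) (by positivity)]
    have e1 : C ≤ C ^ (s - 1) := by
      nth_rewrite 1 [← Real.rpow_one C]
      exact Real.rpow_le_rpow_of_exponent_le hC1 (by linarith)
    have e2 : ((a : ℝ) * b) ^ n ≤ ((a : ℝ) * b) ^ (s - 1) := by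
      rw [← Real.rpow_natCast]
      exact Real.rpow_le_rpow_of_exponent_le hab1 (by linarith)
    exact mul_le_mul e1 e2 (by positivity) (by positivity)
  linarith

end Pool.Agent.H89.Alg
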