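import Mathlib

set_option autoImplicit false

open Polynomial

namespace Pool.Agent.H89.Alg

/-- Height of an integer polynomial of degree at most `n`: largest absolute value of a
coefficient. -/
def ht (n : ℕ) (P : ℤ[X]) : ℕ := (Finset.range (n + 1)).sup (fun i => (P.coeff i).natAbs)

/-- `P` is a primitive integer polynomial of degree `n` vanishing at `β`, and `β` has degree
exactly `n` over `ℚ`. -/
def Good (n : ℕ) (P : ℤ[X]) (β : ℝ) : Prop :=
  (minpoly ℚ β).natDegree = n ∧ P.IsPrimitive ∧ P.natDegree = n ∧ aeval β P = 0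

lemma natAbs_coeff_le_ht {n : ℕ} {P : ℤ[X]} (hP : P.natDegree ≤ n) (i : ℕ) :
    (P.coeff i).natAbs ≤ ht n P := by
  by_cases hi : i ≤ n
  · exact Finset.le_sup (f := fun i => (P.coeff i).natAbs) (Finset.mem_range.2 (by omega))
  · rw [coeff_eq_zero_of_natDegree_lt (by omega)]; simp

lemma abs_coeff_le_ht {n : ℕ} {P : ℤ[X]} (hP : P.natDegree ≤ n) (i : ℕ) :
    |((P.coeff i : ℤ) : ℝ)| ≤ (ht n P : ℝ) := by
  have h := natAbs_coeff_le_ht hP i
  have : ((P.coeff i).natAbs : ℝ) = |((P.coeff i : ℤ) : ℝ)| := by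
    rw [Nat.cast_natAbs]; simp
  rw [← this]; exact_mod_cast h

lemma abs_coeff_le_ht_int {n : ℕ} {P : ℤ[X]} (hP : P.natDegree ≤ n) (i : ℕ) :
    |P.coeff i| ≤ (ht n P : ℤ) := by
  have h := natAbs_coeff_le_ht hP i
  rw [Int.abs_eq_natAbs]; exact_mod_cast h

lemma ht_le_of {n : ℕ} {P : ℤ[X]} {H : ℕ} (h : ∀ i ≤ n, |P.coeff i| ≤ (H : ℤ)) : ht n P ≤ H := by
  refine Finset.sup_le ?_
  intro i hi
  have := h i (by simpa [Nat.lt_succ_iff] using hi)
  rw [Int.abs_eq_natAbs] at this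
  exact_mod_cast this

lemma ht_le_of_real {n : ℕ} {P : ℤ[X]} {H : ℝ} (hH : 0 ≤ H)
    (h : ∀ i ≤ n, |((P.coeff i : ℤ) : ℝ)| ≤ H) : (ht n P : ℝ) ≤ H := by
  have h1 : ht n P ≤ ⌊H⌋₊ := by
    refine ht_le_of ?_
    intro i hi
    have := h i hi
    have h2 : ((P.coeff i).natAbs : ℝ) ≤ H := by
      rw [Nat.cast_natAbs]; simpa using this
    have h3 := Nat.le_floor h2
    rw [Int.abs_eq_natAbs]; exact_mod_cast h3
  calc (ht n P : ℝ) ≤ (⌊H⌋₊ : ℝ) := by exact_mod_cast h1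
    _ ≤ H := Nat.floor_le hH

lemma exists_coeff_eq_ht (n : ℕ) (P : ℤ[X]) : ∃ i ≤ n, (P.coeff i).natAbs = ht n P := by
  obtain ⟨i, hi, h⟩ := Finset.exists_mem_eq_sup (Finset.range (n + 1)) ⟨0, by simp⟩
    (fun i => (P.coeff i).natAbs)
  exact ⟨i, by simpa [Nat.lt_succ_iff] using hi, h.symm⟩

lemma one_le_ht {n : ℕ} {P : ℤ[X]} (hP : P.natDegree ≤ n) (h0 : P ≠ 0) : 1 ≤ ht n P := by
  have h1 := natAbs_coeff_le_ht hP P.natDegree
  have h2 : P.coeff P.natDegree ≠ 0 := by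
    rw [coeff_natDegree]; exact leadingCoeff_ne_zero.2 h0
  have := Int.natAbs_pos.2 h2
  omega

lemma Good.natDegree_le {n : ℕ} {P : ℤ[X]} {β : ℝ} (h : Good n P β) : P.natDegree ≤ n :=
  h.2.2.1.le

lemma Good.ne_zero {n : ℕ} {P : ℤ[X]} {β : ℝ} (h : Good n P β) : P ≠ 0 := h.2.1.ne_zero

lemma Good.one_le_ht {n : ℕ} {P : ℤ[X]} {β : ℝ} (h : Good n P β) : 1 ≤ ht n P :=
  Alg.one_le_ht h.natDegree_le h.ne_zero

lemma Good.aeval {n : ℕ} {P : ℤ[X]} {β : ℝ} (h : Good n P β) : Polynomial.aeval β P = 0 :=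
  h.2.2.2

/-- expansion of the value of an integer polynomial at a real number -/
lemma aeval_eq_sum {n : ℕ} {P : ℤ[X]} (hP : P.natDegree ≤ n) (x : ℝ) :
    aeval x P = ∑ i ∈ Finset.range (n + 1), ((P.coeff i : ℤ) : ℝ) * x ^ i := by
  rw [aeval_eq_sum_range' (Nat.lt_succ_of_le hP)]
  simp

lemma abs_aeval_le {n : ℕ} {P : ℤ[X]} (hP : P.natDegree ≤ n) {x R : ℝ} (hR : 1 ≤ R)
    (hx : |x| ≤ R) : |aeval x P| ≤ (n + 1) * R ^ n * ht n P := by
  rw [aeval_eq_sum hP]
  calc |∑ i ∈ Finset.range (n + 1), ((P.coeff i : ℤ) : ℝ) * x ^ i|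
      ≤ ∑ i ∈ Finset.range (n + 1), |((P.coeff i : ℤ) : ℝ) * x ^ i| :=
        Finset.abs_sum_le_sum_abs _ _
    _ ≤ ∑ i ∈ Finset.range (n + 1), R ^ n * ht n P := by
        refine Finset.sum_le_sum ?_
        intro i hi
        rw [abs_mul, abs_pow, mul_comm]
        have hi' : i ≤ n := by simpa [Nat.lt_succ_iff] using hi
        refine mul_le_mul ?_ (abs_coeff_le_ht hP i) (abs_nonneg _) (by positivity)
        calc |x| ^ i ≤ R ^ i := pow_le_pow_left₀ (abs_nonneg _) hx i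
          _ ≤ R ^ n := pow_le_pow_right₀ hR hi'
    _ = (n + 1) * R ^ n * ht n P := by
        rw [Finset.sum_const, Finset.card_range]; push_cast [nsmul_eq_mul]; ring

lemma abs_pow_sub_pow_le (i : ℕ) {x y R : ℝ} (hR : 1 ≤ R) (hx : |x| ≤ R) (hy : |y| ≤ R) :
    |x ^ i - y ^ i| ≤ i * R ^ i * |x - y| := by
  induction i with
  | zero => simp
  | succ i ih =>
    have h1 : x ^ (i + 1) - y ^ (i + 1) = x * (x ^ i - y ^ i) + (x - y) * y ^ i := by ring
    rw [h1]
    calc |x * (x ^ i - y ^ i) + (x - y) * y ^ i|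
        ≤ |x| * |x ^ i - y ^ i| + |x - y| * |y| ^ i := by
          refine (abs_add_le _ _).trans ?_
          rw [abs_mul, abs_mul, abs_pow]
      _ ≤ R * (i * R ^ i * |x - y|) + |x - y| * R ^ (i + 1) := by
          refine add_le_add ?_ ?_
          · exact mul_le_mul hx ih (abs_nonneg _) (by positivity)
          · refine mul_le_mul_of_nonneg_left ?_ (abs_nonneg _)
            calc |y| ^ i ≤ R ^ i := pow_le_pow_left₀ (abs_nonneg _) hy i
              _ ≤ R ^ (i + 1) := pow_le_pow_right₀ hR (by omega)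
      _ = ((i + 1 : ℕ) : ℝ) * R ^ (i + 1) * |x - y| := by push_cast; ring

lemma abs_aeval_sub_le {n : ℕ} {P : ℤ[X]} (hP : P.natDegree ≤ n) {x y R : ℝ} (hR : 1 ≤ R)
    (hx : |x| ≤ R) (hy : |y| ≤ R) :
    |aeval x P - aeval y P| ≤ ((n + 1) * n * R ^ n) * ht n P * |x - y| := by
  rw [aeval_eq_sum hP, aeval_eq_sum hP, ← Finset.sum_sub_distrib]
  calc |∑ i ∈ Finset.range (n + 1), (((P.coeff i : ℤ) : ℝ) * x ^ i - ((P.coeff i : ℤ) : ℝ) * y ^ i)|
      ≤ ∑ i ∈ Finset.range (n + 1),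
        |((P.coeff i : ℤ) : ℝ) * x ^ i - ((P.coeff i : ℤ) : ℝ) * y ^ i| :=
        Finset.abs_sum_le_sum_abs _ _
    _ ≤ ∑ i ∈ Finset.range (n + 1), (n * R ^ n) * ht n P * |x - y| := by
        refine Finset.sum_le_sum ?_
        intro i hi
        have hi' : i ≤ n := by simpa [Nat.lt_succ_iff] using hi
        rw [← mul_sub, abs_mul]
        have h1 := abs_pow_sub_pow_le i hR hx hy
        have h2 : (i : ℝ) * R ^ i * |x - y| ≤ n * R ^ n * |x - y| := by
          refine mul_le_mul_of_nonneg_right ?_ (abs_nonneg _)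
          exact mul_le_mul (by exact_mod_cast hi') (pow_le_pow_right₀ hR hi') (by positivity)
            (by positivity)
        calc |((P.coeff i : ℤ) : ℝ)| * |x ^ i - y ^ i|
            ≤ ht n P * (n * R ^ n * |x - y|) :=
              mul_le_mul (abs_coeff_le_ht hP i) (h1.trans h2) (abs_nonneg _) (by positivity)
          _ = _ := by ring
    _ = ((n + 1) * n * R ^ n) * ht n P * |x - y| := by
        rw [Finset.sum_const, Finset.card_range]; push_cast [nsmul_eq_mul]; ring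

/-- Finiteness of the set of polynomials of bounded degree and height. -/
lemma finite_ht_le (n H : ℕ) : {P : ℤ[X] | P.natDegree ≤ n ∧ ht n P ≤ H}.Finite := by
  have hinj : Set.InjOn (fun (P : ℤ[X]) (i : Fin (n + 1)) => P.coeff i)
      {P : ℤ[X] | P.natDegree ≤ n ∧ ht n P ≤ H} := by
    intro P hP Q hQ hPQ
    ext i
    by_cases hi : i ≤ n
    · exact congrFun hPQ ⟨i, by omega⟩
    · rw [coeff_eq_zero_of_natDegree_lt (by have := hP.1; omega),
        coeff_eq_zero_of_natDegree_lt (by have := hQ.1; omega)]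
  refine Set.Finite.of_finite_image ?_ hinj
  refine Set.Finite.subset (Fintype.piFinset (fun _ : Fin (n + 1) =>
    Finset.Icc (-(H : ℤ)) H)).finite_toSet ?_
  rintro _ ⟨P, hP, rfl⟩
  simp only [Finset.mem_coe, Fintype.mem_piFinset, Finset.mem_Icc]
  intro i
  have h1 := abs_coeff_le_ht_int hP.1 i
  have h2 : (ht n P : ℤ) ≤ H := by exact_mod_cast hP.2
  exact abs_le.1 (h1.trans h2)

lemma card_le_of_ht_le (n H : ℕ) (S : Finset ℤ[X])
    (hS : ∀ P ∈ S, P.natDegree ≤ n ∧ ht n P ≤ H) : S.card ≤ (2 * H + 1) ^ (n + 1) := by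
  have h1 : S.card ≤ (Fintype.piFinset (fun _ : Fin (n + 1) => Finset.Icc (-(H : ℤ)) H)).card := by
    refine Finset.card_le_card_of_injOn (fun (P : ℤ[X]) (i : Fin (n + 1)) => P.coeff i) ?_ ?_
    · intro P hP
      simp only [Finset.mem_coe, Fintype.mem_piFinset, Finset.mem_Icc]
      intro i
      have h1 := abs_coeff_le_ht_int (hS P hP).1 i
      have h2 : (ht n P : ℤ) ≤ H := by exact_mod_cast (hS P hP).2
      exact abs_le.1 (h1.trans h2)
    · intro P hP Q hQ hPQ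
      ext i
      by_cases hi : i ≤ n
      · exact congrFun hPQ ⟨i, by omega⟩
      · rw [coeff_eq_zero_of_natDegree_lt (by have := (hS P hP).1; omega),
          coeff_eq_zero_of_natDegree_lt (by have := (hS Q hQ).1; omega)]
  refine h1.trans (le_of_eq ?_)
  rw [Fintype.card_piFinset_const, Int.card_Icc]
  congr 1
  omega

lemma Good.map_ne_zero {n : ℕ} {P : ℤ[X]} {β : ℝ} (h : Good n P β) :
    P.map (algebraMap ℤ ℚ) ≠ 0 := by
  rw [Polynomial.map_ne_zero_iff (RingHom.injective_int _)]; exact h.ne_zero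

lemma aeval_map_rat (P : ℤ[X]) (β : ℝ) : aeval β (P.map (algebraMap ℤ ℚ)) = aeval β P := by
  rw [aeval_map_algebraMap]

lemma Good.isAlgebraic {n : ℕ} {P : ℤ[X]} {β : ℝ} (h : Good n P β) : IsAlgebraic ℚ β :=
  ⟨P.map (algebraMap ℤ ℚ), h.map_ne_zero, by rw [aeval_map_rat]; exact h.aeval⟩

lemma Good.map_associated {n : ℕ} {P : ℤ[X]} {β : ℝ} (h : Good n P β) :
    Associated (minpoly ℚ β) (P.map (algebraMap ℤ ℚ)) := by
  have hd : minpoly ℚ β ∣ P.map (algebraMap ℤ ℚ) :=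
    minpoly.dvd ℚ β (by rw [aeval_map_rat]; exact h.aeval)
  refine associated_of_dvd_of_natDegree_le hd h.map_ne_zero ?_
  rw [natDegree_map_eq_of_injective (RingHom.injective_int _), h.2.2.1, h.1]

lemma Good.irreducible_map {n : ℕ} {P : ℤ[X]} {β : ℝ} (h : Good n P β) :
    Irreducible (P.map (algebraMap ℤ ℚ)) :=
  h.map_associated.irreducible (minpoly.irreducible h.isAlgebraic.isIntegral)

lemma Good.irreducible {n : ℕ} {P : ℤ[X]} {β : ℝ} (h : Good n P β) : Irreducible P := by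
  have := h.irreducible_map
  rw [algebraMap_int_eq] at this
  exact (IsPrimitive.Int.irreducible_iff_irreducible_map_cast h.2.1).2 this

/-- any integer polynomial vanishing at `β` is a multiple of `P`. -/
lemma Good.dvd {n : ℕ} {P : ℤ[X]} {β : ℝ} (h : Good n P β) {D : ℤ[X]} (hD : Polynomial.aeval β D = 0) :
    P ∣ D := by
  by_cases hD0 : D = 0
  · rw [hD0]; exact dvd_zero _
  have h1 : P.map (algebraMap ℤ ℚ) ∣ D.map (algebraMap ℤ ℚ) := by
    refine h.map_associated.symm.dvd.trans ?_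
    exact minpoly.dvd ℚ β (by rw [aeval_map_rat]; exact hD)
  have h2 : P.map (algebraMap ℤ ℚ) ∣ D.primPart.map (algebraMap ℤ ℚ) := by
    have h3 : D.map (algebraMap ℤ ℚ) = C ((D.content : ℚ)) * D.primPart.map (algebraMap ℤ ℚ) := by
      conv_lhs => rw [D.eq_C_content_mul_primPart]
      rw [Polynomial.map_mul, map_C]; rfl
    rw [h3] at h1
    have h4 : (D.content : ℚ) ≠ 0 := by
      exact_mod_cast (content_eq_zero_iff.not.2 hD0)
    have h5 : IsUnit (C ((D.content : ℚ))) := by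
      rw [isUnit_C]; exact h4.isUnit
    exact (IsUnit.dvd_mul_left h5).1 h1
  have h3 : P ∣ D.primPart :=
    (IsPrimitive.Int.dvd_iff_map_cast_dvd_map_cast P D.primPart h.2.1).2
      (by rw [← algebraMap_int_eq]; exact h2)
  rw [D.eq_C_content_mul_primPart]
  exact Dvd.dvd.mul_left h3 _

end Pool.Agent.H89.Alg
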