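import Pool.Agent.H89.Alg.LemS

set_option autoImplicit false

open Polynomial

namespace Pool.Agent.H89.Alg

/-- `x` is badly approximated by all numbers of degree `n` and height at least `N₀`. -/
def GoodAt (n N₀ : ℕ) (s c₁ x : ℝ) : Prop :=
  ∀ (P : ℤ[X]) (β : ℝ), Good n P β → N₀ ≤ ht n P → c₁ * (ht n P : ℝ) ^ (-s) < |x - β|

lemma small_step (n : ℕ) (hn : 2 ≤ n) (s : ℝ) (hs : (n : ℝ) + 1 < s) (hs' : s < 2 * n + 1)
    (c₁ c₂ : ℝ) (hc₁ : 0 < c₁) (hc : c₁ < c₂) (N₀ : ℕ) (z : ℚ) (hz : GoodAt n N₀ s c₁ z)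
    (δ : ℝ) (hδ : 0 < δ) (B : ℕ) :
    ∃ z' : ℚ, GoodAt n N₀ s c₁ z' ∧ |(z' : ℝ) - z| < δ ∧ ∃ (P : ℤ[X]) (α : ℝ), Good n P α ∧
      B ≤ ht n P ∧ |(z' : ℝ) - α| < c₂ * (ht n P : ℝ) ^ (-s) := by
  classical
  obtain ⟨c, hcz⟩ := exists_crd z
  have hz' : ∀ (P : ℤ[X]) (β : ℝ), Good n P β → N₀ ≤ ht n P →
      c₁ * (ht n P : ℝ) ^ (-s) < |c.z - β| := by
    rw [hcz]; exact hz
  obtain ⟨K₀, hK₀1, hT⟩ := lemmaT c n hn s hs c₁ c₂ hc₁ hc N₀ hz'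
  obtain ⟨aT, haT⟩ := hT B
  obtain ⟨aG, haG⟩ := lemmaG c n hn s hs c₁ hc₁ N₀ hz'
  obtain ⟨aS, haS⟩ := lemmaS c n hn s (by have : (0 : ℝ) ≤ n := Nat.cast_nonneg n; linarith) hs' c₁
    hc₁ N₀ K₀
  obtain ⟨a₁, ha₁⟩ := exists_nat_forall_rpow_neg_le (θ := 1) (C := 2) (η := δ / 2) one_pos
    (by linarith)
  obtain ⟨a₂, ha₂⟩ := exists_nat_ge c.T₀
  set a := aT + aG + aS + a₁ + a₂ + 1 with ha
  have haN1 : 1 ≤ a := by omega
  have haT₀ : c.T₀ ≤ a := by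
    have : (a₂ : ℝ) ≤ a := by exact_mod_cast (by omega : a₂ ≤ a)
    linarith
  have t1 := ha₁ a (by exact_mod_cast (by omega : a₁ ≤ a))
  rw [Real.rpow_neg_one, ← div_eq_mul_inv] at t1
  obtain ⟨b₁, hb₁, P₁, β₁, hP₁, hN₁, hbad₁⟩ := haS a (by omega)
  obtain ⟨b₀, hb₀⟩ := haG a (by omega)
  have hex : ∃ b : ℕ, b₁ < b ∧ GoodAt n N₀ s c₁ (c.M ((a : ℝ) + 1 / b)) :=
    ⟨b₀ + b₁ + 1, by omega, hb₀ (b₀ + b₁ + 1) (by omega)⟩
  set b := Nat.find hex with hb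
  obtain ⟨hb1, hb2⟩ := Nat.find_spec hex
  rw [← hb] at hb1 hb2
  obtain ⟨b', hb'⟩ : ∃ b', b = b' + 1 := ⟨b - 1, by omega⟩
  have hbadb' : ∃ (P : ℤ[X]) (β : ℝ), Good n P β ∧ N₀ ≤ ht n P ∧
      |c.M ((a : ℝ) + 1 / b') - β| ≤ c₁ * (ht n P : ℝ) ^ (-s) := by
    by_cases h : b' = b₁
    · rw [h]; exact ⟨P₁, β₁, hP₁, hN₁, hbad₁⟩
    · have h1 := Nat.find_min hex (m := b') (by omega)
      have h2 : ¬ GoodAt n N₀ s c₁ (c.M ((a : ℝ) + 1 / b')) := fun h3 => h1 ⟨by omega, h3⟩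
      rw [GoodAt] at h2
      push Not at h2
      exact h2
  obtain ⟨P, β, hP, hNP, hbad⟩ := hbadb'
  obtain ⟨P', α, hP', hBP', hα⟩ := haT a b' (by omega) (by omega) P β hP hNP hbad
  have hcast : ((b : ℕ) : ℝ) = (b' : ℝ) + 1 := by rw [hb']; push_cast; rfl
  rw [hcast] at hb2
  obtain ⟨z', hz'eq⟩ := c.M_rat ((a : ℚ) + 1 / (b' + 1))
  have hXrat : (((a : ℚ) + 1 / (b' + 1) : ℚ) : ℝ) = (a : ℝ) + 1 / (b' + 1) := by push_cast; rfl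
  rw [hXrat] at hz'eq
  refine ⟨z', by rw [hz'eq]; exact hb2, ?_, P', α, hP', hBP', by rw [hz'eq]; exact hα⟩
  rw [hz'eq, ← hcz, abs_sub_comm]
  have hpos : (0 : ℝ) < 1 / (b' + 1) := by positivity
  have hd := c.dist_z_M haT₀ (X := (a : ℝ) + 1 / (b' + 1)) (by linarith)
  rw [abs_of_pos hd.1]
  linarith [hd.2]

lemma goodAt_zero (n : ℕ) (hn : 2 ≤ n) (s : ℝ) (hs : (n : ℝ) + 1 < s) (c₁ : ℝ) :
    ∃ N₀ : ℕ, GoodAt n N₀ s c₁ 0 := by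
  have hn2 : (2 : ℝ) ≤ n := by exact_mod_cast hn
  obtain ⟨N₁, hN₁⟩ := exists_nat_forall_rpow_neg_le (θ := s - 1) (C := c₁ * ((n + 1) * n))
    (η := 1 / 2) (by linarith) (by norm_num)
  obtain ⟨N₂, hN₂⟩ := exists_nat_forall_rpow_neg_le (θ := s) (C := c₁)
    (η := 1 / 2) (by linarith) (by norm_num)
  refine ⟨N₁ + N₂, ?_⟩
  intro P β hP hN
  rw [zero_sub, abs_neg]
  have hH1 : (1 : ℝ) ≤ ht n P := by exact_mod_cast hP.one_le_ht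
  have hH0 : (0 : ℝ) < ht n P := by linarith
  have h1 := hN₁ (ht n P) (by exact_mod_cast (by omega : N₁ ≤ ht n P))
  have h2 := hN₂ (ht n P) (by exact_mod_cast (by omega : N₂ ≤ ht n P))
  rcases le_or_gt |β| 1 with hβ | hβ
  · have h0 : aeval (0 : ℝ) P ≠ 0 := by
      have := hP.aeval_rat_ne_zero hn 0
      rwa [Rat.cast_zero] at this
    have h3 : aeval (0 : ℝ) P = ((P.coeff 0 : ℤ) : ℝ) := by
      rw [aeval_eq_sum hP.natDegree_le, Finset.sum_range_succ']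
      simp
    have h4 : (1 : ℝ) ≤ |aeval (0 : ℝ) P| := by
      rw [h3] at h0 ⊢
      have : P.coeff 0 ≠ 0 := by exact_mod_cast h0
      exact_mod_cast Int.one_le_abs this
    have h5 := abs_aeval_sub_le hP.natDegree_le (le_refl (1 : ℝ)) (x := 0) (y := β)
      (by simp) hβ
    rw [hP.aeval, sub_zero, zero_sub, abs_neg, one_pow, mul_one] at h5
    have h6 : (ht n P : ℝ) ^ (-s) * ht n P = (ht n P : ℝ) ^ (-(s - 1)) := by
      nth_rewrite 2 [← Real.rpow_one (ht n P : ℝ)]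
      rw [← Real.rpow_add hH0]; congr 1; ring
    have hD0 : (0 : ℝ) < (n + 1) * n * ht n P := by positivity
    have h7 : (c₁ * (ht n P : ℝ) ^ (-s)) * ((n + 1) * n * ht n P) ≤ 1 / 2 := by
      calc (c₁ * (ht n P : ℝ) ^ (-s)) * ((n + 1) * n * ht n P)
          = c₁ * ((n + 1) * n) * ((ht n P : ℝ) ^ (-s) * ht n P) := by ring
        _ ≤ 1 / 2 := by rw [h6]; exact h1
    by_contra hlt
    push Not at hlt
    have h8 : |β| * ((n + 1) * n * ht n P) ≤ 1 / 2 :=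
      (mul_le_mul_of_nonneg_right hlt hD0.le).trans h7
    linarith
  · linarith

/-- The core statement for exponents between `n+1` and `2n+1`. -/
theorem core_small (n : ℕ) (hn : 2 ≤ n) (s : ℝ) (hs : (n : ℝ) + 1 < s) (hs' : s < 2 * n + 1)
    (c₁ c₂ : ℝ) (hc₁ : 0 < c₁) (hc : c₁ < c₂) :
    ∃ (ξ : ℝ) (N : ℕ),
      (∀ (P : ℤ[X]) (β : ℝ), Good n P β → N ≤ ht n P → c₁ * (ht n P : ℝ) ^ (-s) ≤ |ξ - β|) ∧
      (∀ B : ℕ, ∃ (P : ℤ[X]) (α : ℝ), Good n P α ∧ B ≤ ht n P ∧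
        |ξ - α| < c₂ * (ht n P : ℝ) ^ (-s)) := by
  obtain ⟨N₀, hN₀⟩ := goodAt_zero n hn s hs c₁
  set S : Set (ℝ × ℝ) := {I | I.1 ≤ I.2 ∧ ∃ z : ℚ, GoodAt n N₀ s c₁ z ∧ I.1 < z ∧ (z : ℝ) < I.2}
    with hS
  set Φ : ℕ → ℝ × ℝ → Prop := fun B I => I.2 - I.1 ≤ 1 / (B + 1) ∧
    (∃ z : ℚ, GoodAt n N₀ s c₁ z ∧ I.1 < z ∧ (z : ℝ) < I.2) ∧
    ∃ (P : ℤ[X]) (α : ℝ), Good n P α ∧ B ≤ ht n P ∧
      ∀ x, I.1 ≤ x → x ≤ I.2 → |x - α| < c₂ * (ht n P : ℝ) ^ (-s) with hΦ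
  obtain ⟨ξ, hξ⟩ := nested S ⟨(-1, 1), by norm_num, 0, by rw [Rat.cast_zero]; exact hN₀,
    by norm_num, by norm_num⟩ (fun I hI => hI.1) Φ (by
      rintro ⟨u, v⟩ ⟨_, z, hz, hz1, hz2⟩ B
      simp only at hz1 hz2
      obtain ⟨z', hz', hzz', P, α, hP, hB, hα⟩ := small_step n hn s hs hs' c₁ c₂ hc₁ hc N₀ z hz
        (min (z - u) (v - z)) (lt_min (by linarith) (by linarith)) B
      have h1 := abs_lt.1 (hzz'.trans_le (min_le_left _ _))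
      have h2 := abs_lt.1 (hzz'.trans_le (min_le_right _ _))
      have hB0 : (0 : ℝ) < 1 / (B + 1) := by positivity
      obtain ⟨ε, hε0, hε⟩ : ∃ ε : ℝ, 0 < ε ∧ (ε ≤ z' - u ∧ ε ≤ v - z' ∧ ε ≤ 1 / (B + 1) / 2 ∧
          ε < c₂ * (ht n P : ℝ) ^ (-s) - |(z' : ℝ) - α|) := by
        refine ⟨min (min (z' - u) (v - z')) (min (1 / (B + 1) / 2)
          ((c₂ * (ht n P : ℝ) ^ (-s) - |(z' : ℝ) - α|) / 2)), ?_, ?_, ?_, ?_, ?_⟩
        · refine lt_min (lt_min (by linarith) (by linarith)) (lt_min (by linarith) (by linarith))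
        · exact (min_le_left _ _).trans (min_le_left _ _)
        · exact (min_le_left _ _).trans (min_le_right _ _)
        · exact (min_le_right _ _).trans (min_le_left _ _)
        · refine ((min_le_right _ _).trans (min_le_right _ _)).trans_lt (by linarith)
      obtain ⟨e1, e2, e3, e4⟩ := hε
      refine ⟨(z' - ε, z' + ε), ⟨by simp only; linarith, z', hz', by simp only; linarith,
        by simp only; linarith⟩, by simp only; linarith, by simp only; linarith,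
        by simp only; linarith, ⟨z', hz', by simp only; linarith, by simp only; linarith⟩,
        P, α, hP, hB, ?_⟩
      intro x hx1 hx2
      simp only at hx1 hx2
      have h3 : |x - z'| ≤ ε := abs_le.2 ⟨by linarith, by linarith⟩
      calc |x - α| = |(x - z') + (z' - α)| := by ring_nf
        _ ≤ |x - z'| + |(z' : ℝ) - α| := abs_add_le _ _
        _ < c₂ * (ht n P : ℝ) ^ (-s) := by linarith)
  refine ⟨ξ, N₀, ?_, ?_⟩
  · intro P β hP hN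
    refine le_of_forall_pos_le_add ?_
    intro ε hε
    obtain ⟨B, hB⟩ := exists_nat_one_div_lt hε
    obtain ⟨J, _, ⟨h1, ⟨z, hz, hz1, hz2⟩, _⟩, h3, h4⟩ := hξ B
    have h5 := hz P β hP hN
    have h6 : |ξ - z| ≤ 1 / (B + 1) := abs_le.2 ⟨by linarith, by linarith⟩
    have h7 : |(z : ℝ) - β| ≤ |ξ - β| + |ξ - z| := by
      calc |(z : ℝ) - β| = |(ξ - β) - (ξ - z)| := by ring_nf
        _ ≤ _ := abs_sub _ _
    linarith
  · intro B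
    obtain ⟨J, _, ⟨_, _, P, α, hP, hB, h⟩, h3, h4⟩ := hξ B
    exact ⟨P, α, hP, hB, h ξ h3 h4⟩

end Pool.Agent.H89.Alg
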