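import Pool.Agent.H89.Alg.Large
import Pool.Agent.H89.Alg.Small

set_option autoImplicit false

open Polynomial

namespace Pool.Agent.H89.Alg

/-- The core statement for all exponents larger than `n+1`. -/
theorem core_all (n : ℕ) (hn : 2 ≤ n) (s : ℝ) (hs : (n : ℝ) + 1 < s)
    (c₁ c₂ : ℝ) (hc₁ : 0 < c₁) (hc : c₁ < c₂) :
    ∃ (ξ : ℝ) (N : ℕ),
      (∀ (P : ℤ[X]) (β : ℝ), Good n P β → N ≤ ht n P → c₁ * (ht n P : ℝ) ^ (-s) ≤ |ξ - β|) ∧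
      (∀ B : ℕ, ∃ (P : ℤ[X]) (α : ℝ), Good n P α ∧ B ≤ ht n P ∧
        |ξ - α| < c₂ * (ht n P : ℝ) ^ (-s)) := by
  rcases le_or_gt s (2 * n) with h | h
  · exact core_small n hn s hs (by linarith) c₁ c₂ hc₁ hc
  · exact core_large n (by omega) s h c₁ c₂ hc₁ hc

/-- Set version. -/
theorem core_sets (n : ℕ) (hn : 2 ≤ n) (s : ℝ) (hs : (n : ℝ) + 1 < s)
    (c₁ c₂ : ℝ) (hc₁ : 0 < c₁) (hc : c₁ < c₂) :
    ∃ ξ : ℝ,
      {α : ℝ | ∃ P : ℤ[X], Good n P α ∧ |ξ - α| < c₂ * (ht n P : ℝ) ^ (-s)}.Infinite ∧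
      {α : ℝ | ∃ P : ℤ[X], Good n P α ∧ |ξ - α| < c₁ * (ht n P : ℝ) ^ (-s)}.Finite := by
  classical
  obtain ⟨ξ, N, h1, h2⟩ := core_all n hn s hs c₁ c₂ hc₁ hc
  refine ⟨ξ, ?_, ?_⟩
  · intro hfin
    set f : ℝ → ℕ := fun α => if h : ∃ P : ℤ[X], Good n P α then ht n h.choose else 0 with hf
    obtain ⟨M, hM⟩ := (hfin.image f).bddAbove
    obtain ⟨P, α, hP, hB, hα⟩ := h2 (M + 1)
    have h3 : f α ≤ M := hM ⟨α, ⟨P, hP, hα⟩, rfl⟩
    have hex : ∃ P : ℤ[X], Good n P α := ⟨P, hP⟩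
    have h4 : f α = ht n P := by
      rw [hf]
      simp only
      rw [dif_pos hex]
      exact hex.choose_spec.ht_eq hP
    omega
  · refine Set.Finite.subset ((finite_good n N).image Prod.snd) ?_
    rintro α ⟨P, hP, hα⟩
    refine ⟨(P, α), ⟨hP, ?_⟩, rfl⟩
    simp only
    by_contra hlt
    push Not at hlt
    have := h1 P α hP hlt.le
    linarith

end Pool.Agent.H89.Alg
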