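import Pool.Agent.H89.Alg.Sep

set_option autoImplicit false

open Polynomial

namespace Pool.Agent.H89.Alg

lemma card_Icc_floor_le {x : ℝ} (hx : 0 ≤ x) :
    ((Finset.Icc ⌊-x⌋ ⌊x⌋).card : ℝ) ≤ 2 * x + 2 := by
  have h1 : ⌊-x⌋ ≤ ⌊x⌋ := Int.floor_le_floor (by linarith)
  rw [Int.card_Icc]
  have h2 : ((⌊x⌋ + 1 - ⌊-x⌋).toNat : ℤ) = ⌊x⌋ + 1 - ⌊-x⌋ := Int.toNat_of_nonneg (by omega)
  have h3 : ((⌊x⌋ + 1 - ⌊-x⌋).toNat : ℝ) = ⌊x⌋ + 1 - ⌊-x⌋ := by exact_mod_cast h2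
  rw [h3]
  have h4 := Int.floor_le x
  have h5 := Int.lt_floor_add_one (-x)
  linarith

/-- Separation as a positive lower bound on values. -/
lemma sep' {n : ℕ} {M D : ℤ[X]} {β : ℝ} (hn : 1 ≤ n) (hM : Good n M β) (hD : D.natDegree ≤ n)
    (hMD : ¬ M ∣ D) {H : ℝ} (hH : (ht n D : ℝ) ≤ H) :
    1 ≤ |aeval β D| * (((n + 1) * H) ^ (n - 1) * ((n + 1) * ht n M) ^ n) := by
  have h := sep hn hM hD hMD
  refine h.trans ?_
  rw [mul_assoc]
  refine mul_le_mul_of_nonneg_left ?_ (abs_nonneg _)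
  refine mul_le_mul_of_nonneg_right ?_ (by positivity)
  exact pow_le_pow_left₀ (by positivity) (mul_le_mul_of_nonneg_left hH (by positivity)) _

lemma mid_count {n : ℕ} (hn : 1 ≤ n) {M : ℤ[X]} {β : ℝ} (hM : Good n M β) (S : Finset ℤ[X])
    (H : ℕ) (hH : 1 ≤ H) (δ : ℝ) (hδ : 0 ≤ δ)
    (hS : ∀ P ∈ S, P.natDegree ≤ n ∧ ht n P ≤ H ∧ |aeval β P| ≤ δ) :
    (S.card : ℝ) ≤ (2 * (δ * (((n + 1) * (2 * H)) ^ (n - 1) * ((n + 1) * ht n M) ^ n)) + 2)
      * (2 * (H / ht n M) + 2) := by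
  set A : ℝ := ((n + 1) * (2 * H)) ^ (n - 1) * ((n + 1) * ht n M) ^ n with hA
  set h := ht n M with hh
  have hh1 : 1 ≤ h := hM.one_le_ht
  have hh0 : (0 : ℝ) < h := by exact_mod_cast hh1
  have hH0 : (0 : ℝ) < H := by exact_mod_cast hH
  have hA0 : 0 < A := by positivity
  obtain ⟨i₀, hi₀, hi₀h⟩ := exists_coeff_eq_ht n M
  have key : S.card ≤ ((Finset.Icc ⌊-(δ * A)⌋ ⌊δ * A⌋) ×ˢ
      (Finset.Icc ⌊-((H : ℝ) / h)⌋ ⌊(H : ℝ) / h⌋)).card := by
    refine Finset.card_le_card_of_injOn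
      (fun P : ℤ[X] => (⌊aeval β P * A⌋, ⌊((P.coeff i₀ : ℤ) : ℝ) / h⌋)) ?_ ?_
    · intro P hP
      obtain ⟨h1, h2, h3⟩ := hS P hP
      simp only [Finset.coe_product, Finset.coe_Icc, Set.mem_prod, Set.mem_Icc]
      have h4 := abs_le.1 h3
      have h5 := abs_le.1 ((abs_coeff_le_ht h1 i₀).trans (by exact_mod_cast h2 :
        (ht n P : ℝ) ≤ H))
      refine ⟨⟨Int.floor_le_floor ?_, Int.floor_le_floor ?_⟩,
        ⟨Int.floor_le_floor ?_, Int.floor_le_floor ?_⟩⟩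
      · nlinarith
      · nlinarith
      · rw [← neg_div]; gcongr; exact h5.1
      · gcongr; exact h5.2
    · intro P hP Q hQ hPQ
      obtain ⟨h1, h2, h3⟩ := hS P hP
      obtain ⟨h1', h2', h3'⟩ := hS Q hQ
      simp only [Prod.mk.injEq] at hPQ
      obtain ⟨e1, e2⟩ := hPQ
      have e1' := Int.abs_sub_lt_one_of_floor_eq_floor e1
      have e2' := Int.abs_sub_lt_one_of_floor_eq_floor e2
      by_contra hne
      have hD0 : P - Q ≠ 0 := sub_ne_zero.2 hne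
      have hDdeg : (P - Q).natDegree ≤ n := (natDegree_sub_le _ _).trans (max_le h1 h1')
      have hDht : (ht n (P - Q) : ℝ) ≤ 2 * H := by
        refine ht_le_of_real (by positivity) ?_
        intro i _
        rw [coeff_sub]
        push_cast
        have a1 := abs_coeff_le_ht h1 i
        have a2 := abs_coeff_le_ht h1' i
        have a3 : (ht n P : ℝ) ≤ H := by exact_mod_cast h2
        have a4 : (ht n Q : ℝ) ≤ H := by exact_mod_cast h2'
        calc |((P.coeff i : ℤ) : ℝ) - ((Q.coeff i : ℤ) : ℝ)|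
            ≤ |((P.coeff i : ℤ) : ℝ)| + |((Q.coeff i : ℤ) : ℝ)| := abs_sub _ _
          _ ≤ 2 * H := by linarith
      by_cases hdvd : M ∣ P - Q
      · obtain ⟨R, hR⟩ := hdvd
        have hR0 : R ≠ 0 := by rintro rfl; rw [mul_zero] at hR; exact hD0 hR
        have hRdeg : R.natDegree = 0 := by
          have := natDegree_mul hM.ne_zero hR0
          rw [← hR, hM.2.2.1] at this
          omega
        obtain ⟨k, rfl⟩ := natDegree_eq_zero.1 hRdeg
        have hk0 : k ≠ 0 := by rintro rfl; simp at hR0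
        have hc : (P - Q).coeff i₀ = M.coeff i₀ * k := by rw [hR, coeff_mul_C]
        rw [coeff_sub] at hc
        have hc' : ((P.coeff i₀ : ℤ) : ℝ) - ((Q.coeff i₀ : ℤ) : ℝ)
            = ((M.coeff i₀ : ℤ) : ℝ) * (k : ℝ) := by exact_mod_cast hc
        rw [div_sub_div_same, abs_div, abs_of_pos hh0, div_lt_one hh0, hc', abs_mul] at e2'
        have h6 : |((M.coeff i₀ : ℤ) : ℝ)| = h := by
          rw [hh, ← hi₀h, Nat.cast_natAbs]; simp
        have h7 : (1 : ℝ) ≤ |(k : ℝ)| := by exact_mod_cast Int.one_le_abs hk0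
        rw [h6] at e2'
        nlinarith
      · have h8 := sep' hn hM hDdeg hdvd hDht
        rw [map_sub] at h8
        rw [← sub_mul, abs_mul, abs_of_pos hA0] at e1'
        linarith
  rw [Finset.card_product] at key
  have key' : (S.card : ℝ) ≤ ((Finset.Icc ⌊-(δ * A)⌋ ⌊δ * A⌋).card : ℝ) *
      ((Finset.Icc ⌊-((H : ℝ) / h)⌋ ⌊(H : ℝ) / h⌋).card : ℝ) := by exact_mod_cast key
  refine key'.trans ?_
  exact mul_le_mul (card_Icc_floor_le (by positivity)) (card_Icc_floor_le (by positivity))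
    (by positivity) (by positivity)

lemma card_Icc_ceil_floor_le {x y : ℝ} (h : x ≤ y) :
    ((Finset.Icc ⌈x⌉ ⌊y⌋).card : ℝ) ≤ y - x + 1 := by
  rw [Int.card_Icc]
  by_cases h1 : 0 ≤ ⌊y⌋ + 1 - ⌈x⌉
  · have h2 : ((⌊y⌋ + 1 - ⌈x⌉).toNat : ℤ) = ⌊y⌋ + 1 - ⌈x⌉ := Int.toNat_of_nonneg h1
    have h3 : ((⌊y⌋ + 1 - ⌈x⌉).toNat : ℝ) = ⌊y⌋ + 1 - ⌈x⌉ := by exact_mod_cast h2
    rw [h3]
    have h4 := Int.floor_le y
    have h5 := Int.le_ceil x
    linarith
  · rw [Int.toNat_of_nonpos (by omega)]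
    simp only [Nat.cast_zero]
    linarith

lemma low_count {n : ℕ} (S : Finset ℤ[X]) (a b : ℤ) (hab : a ≤ b) (β δ : ℝ) (hδ : 0 ≤ δ)
    (hS : ∀ P ∈ S, P.natDegree ≤ n ∧ (∀ i, 1 ≤ i → i ≤ n → a ≤ P.coeff i ∧ P.coeff i ≤ b) ∧
      |aeval β P| ≤ δ) :
    (S.card : ℝ) ≤ (2 * δ + 1) * ((b : ℝ) - a + 1) ^ n := by
  classical
  set f : ℤ[X] → (Fin n → ℤ) := fun P i => P.coeff (i + 1) with hf
  have hval : ∀ P ∈ S, aeval β P = ((P.coeff 0 : ℤ) : ℝ) + ∑ i : Fin n, ((f P i : ℤ) : ℝ) * β ^ ((i : ℕ) + 1) := by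
    intro P hP
    rw [aeval_eq_sum (hS P hP).1, Finset.sum_range_succ', Finset.sum_range]
    simp [hf]
    ring
  have himg : (S.image f).card ≤ (Fintype.piFinset (fun _ : Fin n => Finset.Icc a b)).card := by
    refine Finset.card_le_card ?_
    intro g hg
    rw [Finset.mem_image] at hg
    obtain ⟨P, hP, rfl⟩ := hg
    rw [Fintype.mem_piFinset]
    intro i
    rw [Finset.mem_Icc]
    exact (hS P hP).2.1 (i + 1) (by omega) (by omega)
  have himg' : ((S.image f).card : ℝ) ≤ ((b : ℝ) - a + 1) ^ n := by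
    have h1 : ((Fintype.piFinset (fun _ : Fin n => Finset.Icc a b)).card : ℝ)
        = ((b : ℝ) - a + 1) ^ n := by
      rw [Fintype.card_piFinset_const, Int.card_Icc]
      push_cast
      congr 1
      have h2 : ((b + 1 - a).toNat : ℤ) = b + 1 - a := Int.toNat_of_nonneg (by omega)
      have h3 : ((b + 1 - a).toNat : ℝ) = (b : ℝ) + 1 - a := by exact_mod_cast h2
      rw [h3]; ring
    rw [← h1]; exact_mod_cast himg
  have hfib : ∀ g ∈ S.image f, (S.filter (fun P => f P = g)).card ≤ ⌊2 * δ + 1⌋₊ := by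
    intro g _
    apply Nat.le_floor
    set U : ℝ := ∑ i : Fin n, ((g i : ℤ) : ℝ) * β ^ ((i : ℕ) + 1) with hU
    have h1 : (S.filter (fun P => f P = g)).card ≤ (Finset.Icc ⌈-δ - U⌉ ⌊δ - U⌋).card := by
      refine Finset.card_le_card_of_injOn (fun P => P.coeff 0) ?_ ?_
      · intro P hP
        simp only [Finset.coe_filter, Set.mem_ofPred_eq] at hP
        have h2 := hval P hP.1
        rw [hP.2] at h2
        have h3 := abs_le.1 (hS P hP.1).2.2
        simp only [Finset.coe_Icc, Set.mem_Icc]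
        constructor
        · apply Int.ceil_le.2; linarith
        · apply Int.le_floor.2; linarith
      · intro P hP Q hQ hPQ
        simp only [Finset.coe_filter, Set.mem_ofPred_eq] at hP hQ
        ext i
        rcases Nat.eq_zero_or_pos i with rfl | hi
        · exact hPQ
        · by_cases hin : i ≤ n
          · have h4 := congrFun (hP.2.trans hQ.2.symm) ⟨i - 1, by omega⟩
            simp only [hf] at h4
            rwa [Nat.sub_add_cancel hi] at h4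
          · rw [coeff_eq_zero_of_natDegree_lt (by have := (hS P hP.1).1; omega),
              coeff_eq_zero_of_natDegree_lt (by have := (hS Q hQ.1).1; omega)]
    have h2 : ((S.filter (fun P => f P = g)).card : ℝ) ≤ (Finset.Icc ⌈-δ - U⌉ ⌊δ - U⌋).card := by
      exact_mod_cast h1
    refine h2.trans ((card_Icc_ceil_floor_le (by linarith)).trans (by linarith))
  have h1 := Finset.card_le_mul_card_image S _ hfib
  have h2 : (S.card : ℝ) ≤ (⌊2 * δ + 1⌋₊ : ℝ) * ((S.image f).card : ℝ) := by exact_mod_cast h1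
  refine h2.trans ?_
  exact mul_le_mul (Nat.floor_le (by positivity)) himg' (by positivity) (by positivity)

/-- Dyadic summation: counting bound implies a bound for sums of negative powers. -/
lemma dyadic_sum {ι : Type*} (F : Finset ι) (w : ι → ℝ) (X₀ A p s : ℝ) (hX : 0 < X₀)
    (hA : 0 ≤ A) (hp : 0 ≤ p) (hps : p < s) (hw : ∀ i ∈ F, X₀ ≤ w i)
    (hcount : ∀ x : ℝ, X₀ ≤ x → ((F.filter (fun i => w i ≤ x)).card : ℝ) ≤ A * x ^ p) :
    ∑ i ∈ F, (w i) ^ (-s) ≤ A * X₀ ^ (p - s) * (2 ^ p / (1 - 2 ^ (p - s))) := by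
  classical
  set m : ι → ℕ := fun i => Nat.log 2 ⌊w i / X₀⌋₊ with hm
  have hm1 : ∀ i ∈ F, (2 : ℝ) ^ (m i) * X₀ ≤ w i := by
    intro i hi
    have h1 : 1 ≤ w i / X₀ := by rw [le_div_iff₀ hX]; linarith [hw i hi]
    have h2 : ⌊w i / X₀⌋₊ ≠ 0 := by
      have := Nat.le_floor (n := 1) (by simpa using h1); omega
    have h3 : 2 ^ (m i) ≤ ⌊w i / X₀⌋₊ := Nat.pow_log_le_self 2 h2
    have h4 : ((2 : ℝ) ^ (m i)) ≤ (⌊w i / X₀⌋₊ : ℝ) := by exact_mod_cast h3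
    have h5 := h4.trans (Nat.floor_le (by positivity))
    rwa [le_div_iff₀ hX] at h5
  have hm2 : ∀ i ∈ F, w i ≤ (2 : ℝ) ^ (m i + 1) * X₀ := by
    intro i hi
    have h3 : ⌊w i / X₀⌋₊ < 2 ^ (m i + 1) := Nat.lt_pow_succ_log_self (by norm_num) _
    have h4 : ((⌊w i / X₀⌋₊ : ℝ) + 1) ≤ (2 : ℝ) ^ (m i + 1) := by exact_mod_cast h3
    have h5 := (Nat.lt_floor_add_one (w i / X₀)).le.trans h4
    rwa [div_le_iff₀ hX] at h5
  set J := F.sup m + 1 with hJ
  have hmJ : ∀ i ∈ F, m i ∈ Finset.range J := by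
    intro i hi
    rw [Finset.mem_range, hJ]
    exact Nat.lt_succ_of_le (Finset.le_sup hi)
  have h1 : ∑ i ∈ F, (w i) ^ (-s) ≤ ∑ i ∈ F, ((2 : ℝ) ^ (m i) * X₀) ^ (-s) := by
    refine Finset.sum_le_sum ?_
    intro i hi
    exact Real.rpow_le_rpow_of_nonpos (by positivity) (hm1 i hi) (by linarith)
  have h2 : ∑ i ∈ F, ((2 : ℝ) ^ (m i) * X₀) ^ (-s)
      = ∑ j ∈ Finset.range J, ∑ i ∈ F.filter (fun i => m i = j), ((2 : ℝ) ^ (m i) * X₀) ^ (-s) :=
    (Finset.sum_fiberwise_of_maps_to hmJ _).symm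
  have h3 : ∀ j ∈ Finset.range J, ∑ i ∈ F.filter (fun i => m i = j), ((2 : ℝ) ^ (m i) * X₀) ^ (-s)
      ≤ (A * X₀ ^ (p - s) * 2 ^ p) * ((2 : ℝ) ^ (p - s)) ^ j := by
    intro j _
    have h4 : ∑ i ∈ F.filter (fun i => m i = j), ((2 : ℝ) ^ (m i) * X₀) ^ (-s)
        = ((F.filter (fun i => m i = j)).card : ℝ) * ((2 : ℝ) ^ j * X₀) ^ (-s) := by
      rw [← nsmul_eq_mul, ← Finset.sum_const]
      refine Finset.sum_congr rfl ?_
      intro i hi
      rw [Finset.mem_filter] at hi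
      rw [hi.2]
    rw [h4]
    have h5 : (F.filter (fun i => m i = j)).card
        ≤ (F.filter (fun i => w i ≤ (2 : ℝ) ^ (j + 1) * X₀)).card := by
      refine Finset.card_le_card ?_
      intro i hi
      rw [Finset.mem_filter] at hi ⊢
      refine ⟨hi.1, ?_⟩
      have := hm2 i hi.1
      rwa [hi.2] at this
    have h6 : X₀ ≤ (2 : ℝ) ^ (j + 1) * X₀ := by
      have : (1 : ℝ) ≤ (2 : ℝ) ^ (j + 1) := one_le_pow₀ (by norm_num)
      nlinarith
    have h7 := hcount _ h6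
    have h8 : ((F.filter (fun i => m i = j)).card : ℝ) ≤ A * ((2 : ℝ) ^ (j + 1) * X₀) ^ p :=
      (by exact_mod_cast h5 : ((F.filter (fun i => m i = j)).card : ℝ) ≤
        ((F.filter (fun i => w i ≤ (2 : ℝ) ^ (j + 1) * X₀)).card : ℝ)).trans h7
    refine (mul_le_mul_of_nonneg_right h8 (by positivity)).trans (le_of_eq ?_)
    have e1 : ((2 : ℝ) ^ (j + 1) * X₀) ^ p = (2 : ℝ) ^ (((j : ℝ) + 1) * p) * X₀ ^ p := by
      rw [Real.mul_rpow (by positivity) hX.le, ← Real.rpow_natCast, ← Real.rpow_mul (by norm_num)]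
      push_cast; rfl
    have e2 : ((2 : ℝ) ^ j * X₀) ^ (-s) = (2 : ℝ) ^ ((j : ℝ) * (-s)) * X₀ ^ (-s) := by
      rw [Real.mul_rpow (by positivity) hX.le, ← Real.rpow_natCast, ← Real.rpow_mul (by norm_num)]
    have e3 : ((2 : ℝ) ^ (p - s)) ^ j = (2 : ℝ) ^ ((p - s) * j) := by
      rw [← Real.rpow_natCast, ← Real.rpow_mul (by norm_num)]
    rw [e1, e2, e3]
    have e4 : X₀ ^ (p - s) = X₀ ^ p * X₀ ^ (-s) := by
      rw [← Real.rpow_add hX]; ring_nf
    have e5 : (2 : ℝ) ^ (((j : ℝ) + 1) * p) * (2 : ℝ) ^ ((j : ℝ) * (-s))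
        = 2 ^ p * (2 : ℝ) ^ ((p - s) * j) := by
      rw [← Real.rpow_add (by norm_num), ← Real.rpow_add (by norm_num)]; ring_nf
    rw [e4]
    calc A * ((2 : ℝ) ^ (((j : ℝ) + 1) * p) * X₀ ^ p) * ((2 : ℝ) ^ ((j : ℝ) * (-s)) * X₀ ^ (-s))
        = A * (X₀ ^ p * X₀ ^ (-s)) * ((2 : ℝ) ^ (((j : ℝ) + 1) * p) * (2 : ℝ) ^ ((j : ℝ) * (-s))) := by
          ring
      _ = _ := by rw [e5]; ring
  have hr0 : 0 ≤ (2 : ℝ) ^ (p - s) := by positivity
  have hr1 : (2 : ℝ) ^ (p - s) < 1 := Real.rpow_lt_one_of_one_lt_of_neg (by norm_num) (by linarith)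
  calc ∑ i ∈ F, (w i) ^ (-s)
      ≤ ∑ j ∈ Finset.range J, (A * X₀ ^ (p - s) * 2 ^ p) * ((2 : ℝ) ^ (p - s)) ^ j := by
        rw [h2] at h1; exact h1.trans (Finset.sum_le_sum h3)
    _ = (A * X₀ ^ (p - s) * 2 ^ p) * ∑ j ∈ Finset.range J, ((2 : ℝ) ^ (p - s)) ^ j := by
        rw [Finset.mul_sum]
    _ ≤ (A * X₀ ^ (p - s) * 2 ^ p) * (1 - 2 ^ (p - s))⁻¹ := by
        refine mul_le_mul_of_nonneg_left ?_ (by positivity)
        have := Summable.sum_le_tsum (Finset.range J) (fun j _ => pow_nonneg hr0 j)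
          (summable_geometric_of_lt_one hr0 hr1)
        rwa [tsum_geometric_of_lt_one hr0 hr1] at this
    _ = _ := by rw [div_eq_mul_inv]; ring

end Pool.Agent.H89.Alg
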