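import Pool.Agent.H89.Alg.Tail

set_option autoImplicit false

open Polynomial

namespace Pool.Agent.H89.Alg

/-- The Eisenstein-type family used in the counting step. -/
def Fam (n K : ℕ) (P : ℤ[X]) : Prop :=
  P.natDegree = n ∧ (∀ i, 1 ≤ i → i ≤ n → (2 * K : ℤ) ≤ P.coeff i ∧ P.coeff i ≤ 4 * K) ∧
    Odd (P.coeff n) ∧ (∀ i, i < n → Even (P.coeff i)) ∧ ¬ (4 : ℤ) ∣ P.coeff 0

/-- irreducible, primitive, vanishing: good -/
lemma good_of_irreducible {n : ℕ} {P : ℤ[X]} {α : ℝ} (hP : P.IsPrimitive) (hirr : Irreducible P)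
    (hd : P.natDegree = n) (h0 : aeval α P = 0) : Good n P α := by
  refine ⟨?_, hP, hd, h0⟩
  have h1 : Irreducible (P.map (Int.castRingHom ℚ)) :=
    (IsPrimitive.Int.irreducible_iff_irreducible_map_cast hP).1 hirr
  have h2 : aeval α (P.map (Int.castRingHom ℚ)) = 0 := by
    rw [← algebraMap_int_eq, aeval_map_rat]; exact h0
  have h3 := minpoly.eq_of_irreducible h1 h2
  rw [← h3, natDegree_mul_C, natDegree_map_eq_of_injective (RingHom.injective_int _), hd]
  exact inv_ne_zero (leadingCoeff_ne_zero.2 h1.ne_zero)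

lemma Fam.ne_zero {n K : ℕ} {P : ℤ[X]} (h : Fam n K P) : P ≠ 0 := by
  rintro rfl
  have := h.2.2.1
  simp at this

lemma coeff_primPart' (P : ℤ[X]) (i : ℕ) :
    P.coeff i = P.content * P.primPart.coeff i := by
  conv_lhs => rw [P.eq_C_content_mul_primPart]
  rw [coeff_C_mul]

lemma Fam.content_odd {n K : ℕ} {P : ℤ[X]} (h : Fam n K P) : Odd P.content := by
  have h1 := h.2.2.1
  rw [coeff_primPart' P n] at h1
  exact Int.Odd.of_mul_left h1

lemma Fam.irreducible_primPart {n K : ℕ} (hn : 1 ≤ n) {P : ℤ[X]} (h : Fam n K P) :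
    Irreducible P.primPart := by
  have hodd := h.content_odd
  have hdeg : P.primPart.natDegree = n := by rw [natDegree_primPart]; exact h.1
  have hP0 : P.primPart ≠ 0 := (isPrimitive_primPart P).ne_zero
  have hI : (Ideal.span {(2 : ℤ)}).IsPrime :=
    (Ideal.span_singleton_prime (by norm_num)).2 Int.prime_two
  refine irreducible_of_eisenstein_criterion hI ?_ ?_ ?_ ?_ (isPrimitive_primPart P)
  · rw [Ideal.mem_span_singleton, leadingCoeff, hdeg]
    intro hd
    have h1 := h.2.2.1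
    rw [coeff_primPart' P n] at h1
    have h2 := Int.Odd.of_mul_right h1
    rw [← even_iff_two_dvd] at hd
    exact (Int.not_even_iff_odd.2 h2) hd
  · intro i hi
    rw [Ideal.mem_span_singleton]
    have hi' : i < n := by
      rw [degree_eq_natDegree hP0, hdeg] at hi
      exact_mod_cast hi
    have h1 := h.2.2.2.1 i hi'
    rw [coeff_primPart' P i, Int.even_mul] at h1
    rcases h1 with h1 | h1
    · exact absurd h1 (Int.not_even_iff_odd.2 hodd)
    · exact even_iff_two_dvd.1 h1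
  · rw [degree_eq_natDegree hP0, hdeg]; exact_mod_cast hn
  · rw [Ideal.span_singleton_pow, Ideal.mem_span_singleton]
    intro hd
    apply h.2.2.2.2
    rw [coeff_primPart' P 0]
    exact Dvd.dvd.mul_left (by norm_num at hd; exact hd) _

lemma Fam.good {n K : ℕ} (hn : 1 ≤ n) {P : ℤ[X]} (h : Fam n K P) {α : ℝ} (hα : aeval α P = 0) :
    Good n P.primPart α := by
  refine good_of_irreducible (isPrimitive_primPart P) (h.irreducible_primPart hn)
    (by rw [natDegree_primPart]; exact h.1) ?_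
  rw [P.eq_C_content_mul_primPart, map_mul, aeval_C] at hα
  have hc : P.content ≠ 0 := content_eq_zero_iff.not.2 h.ne_zero
  rcases mul_eq_zero.1 hα with h1 | h1
  · exfalso; apply hc; simpa using h1
  · exact h1

/-- Polynomials with large positive coefficients are increasing on the half-line. -/
lemma incr_of_coeff {n K : ℕ} (hn : 1 ≤ n) {P : ℤ[X]} (hd : P.natDegree ≤ n)
    (hc : ∀ i, 1 ≤ i → i ≤ n → (2 * K : ℤ) ≤ P.coeff i) {x y : ℝ} (hx : 0 ≤ x) (hxy : x ≤ y) :
    2 * K * (y - x) ≤ aeval y P - aeval x P := by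
  rw [aeval_eq_sum hd, aeval_eq_sum hd, ← Finset.sum_sub_distrib]
  rw [Finset.sum_range_succ']
  simp only [pow_zero, sub_self, add_zero]
  have h1 : ∀ i ∈ Finset.range n, 0 ≤ ((P.coeff (i + 1) : ℤ) : ℝ) * y ^ (i + 1)
      - ((P.coeff (i + 1) : ℤ) : ℝ) * x ^ (i + 1) := by
    intro i hi
    rw [← mul_sub]
    have h2 : 0 ≤ P.coeff (i + 1) := by
      have := hc (i + 1) (by omega) (by have := Finset.mem_range.1 hi; omega)
      have hK : (0 : ℤ) ≤ 2 * K := by positivity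
      omega
    have h3 : x ^ (i + 1) ≤ y ^ (i + 1) := pow_le_pow_left₀ hx hxy _
    have h4 : (0 : ℝ) ≤ ((P.coeff (i + 1) : ℤ) : ℝ) := by exact_mod_cast h2
    exact mul_nonneg h4 (by linarith)
  have h0 : (0 : ℕ) ∈ Finset.range n := Finset.mem_range.2 (by omega)
  refine le_trans ?_ (Finset.single_le_sum h1 h0)
  have h5 := hc 1 le_rfl hn
  have h6 : (2 * K : ℝ) ≤ ((P.coeff 1 : ℤ) : ℝ) := by exact_mod_cast h5
  have h7 : 0 ≤ y - x := by linarith
  simp only [zero_add, pow_one]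
  nlinarith

/-- polynomial from coefficients -/
noncomputable def mk (n : ℕ) (c : ℕ → ℤ) : ℤ[X] := ∑ i ∈ Finset.range (n + 1), C (c i) * X ^ i

lemma coeff_mk (n : ℕ) (c : ℕ → ℤ) (i : ℕ) : (mk n c).coeff i = if i ≤ n then c i else 0 := by
  rw [mk, finsetSum_coeff]
  simp only [coeff_C_mul_X_pow]
  rw [Finset.sum_ite_eq]
  simp

lemma natDegree_mk_le (n : ℕ) (c : ℕ → ℤ) : (mk n c).natDegree ≤ n := by
  rw [natDegree_le_iff_coeff_eq_zero]
  intro i hi
  rw [coeff_mk, if_neg (by omega)]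

lemma natDegree_mk (n : ℕ) (c : ℕ → ℤ) (h : c n ≠ 0) : (mk n c).natDegree = n := by
  refine le_antisymm (natDegree_mk_le n c) (le_natDegree_of_ne_zero ?_)
  rw [coeff_mk, if_pos le_rfl]; exact h

lemma le_card_Icc_ceil_floor {x y : ℝ} :
    y - x - 1 ≤ ((Finset.Icc ⌈x⌉ ⌊y⌋).card : ℝ) := by
  rw [Int.card_Icc]
  have h1 : (⌊y⌋ + 1 - ⌈x⌉ : ℤ) ≤ ((⌊y⌋ + 1 - ⌈x⌉).toNat : ℤ) := Int.self_le_toNat _
  have h3 : ((⌊y⌋ : ℝ) + 1 - ⌈x⌉ : ℝ) ≤ ((⌊y⌋ + 1 - ⌈x⌉).toNat : ℝ) := by exact_mod_cast h1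
  have h4 := Int.lt_floor_add_one y
  have h5 := Int.ceil_lt_add_one x
  linarith

/-- coefficients of the family -/
def cf (n K : ℕ) (d : Fin n → ℕ) (e : ℤ) (i : ℕ) : ℤ :=
  if i = 0 then -(4 * e + 2) else
    if h : i - 1 < n then 2 * K + 2 * (d ⟨i - 1, h⟩ : ℤ) + (if i = n then 1 else 0) else 0

lemma cf_zero (n K : ℕ) (d : Fin n → ℕ) (e : ℤ) : cf n K d e 0 = -(4 * e + 2) := by simp [cf]

lemma cf_pos {n K : ℕ} (d : Fin n → ℕ) (e : ℤ) {i : ℕ} (h1 : 1 ≤ i) (h2 : i ≤ n) :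
    cf n K d e i = 2 * K + 2 * (d ⟨i - 1, by omega⟩ : ℤ) + (if i = n then 1 else 0) := by
  rw [cf, if_neg (by omega), dif_pos (by omega)]

lemma fam_cf {n K : ℕ} (hn : 1 ≤ n) (d : Fin n → ℕ) (hd : ∀ i, d i < K) (e : ℤ) :
    Fam n K (mk n (cf n K d e)) := by
  have hcn : cf n K d e n = 2 * K + 2 * (d ⟨n - 1, by omega⟩ : ℤ) + 1 := by
    rw [cf_pos d e hn le_rfl, if_pos rfl]
  refine ⟨natDegree_mk n _ ?_, ?_, ?_, ?_, ?_⟩
  · rw [hcn]; positivity
  · intro i h1 h2
    rw [coeff_mk, if_pos h2, cf_pos d e h1 h2]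
    have h3 := hd ⟨i - 1, by omega⟩
    split_ifs <;> constructor <;> omega
  · rw [coeff_mk, if_pos le_rfl, hcn]
    exact ⟨K + d ⟨n - 1, by omega⟩, by ring⟩
  · intro i hi
    rw [coeff_mk, if_pos hi.le]
    rcases Nat.eq_zero_or_pos i with rfl | h1
    · rw [cf_zero]; exact ⟨-(2 * e + 1), by ring⟩
    · rw [cf_pos d e h1 hi.le, if_neg (by omega)]
      exact ⟨K + d ⟨i - 1, by omega⟩, by ring⟩
  · rw [coeff_mk, if_pos (by omega), cf_zero]
    omega

lemma aeval_mk (n : ℕ) (c : ℕ → ℤ) (x : ℝ) :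
    aeval x (mk n c) = ∑ i ∈ Finset.range (n + 1), ((c i : ℤ) : ℝ) * x ^ i := by
  rw [aeval_eq_sum (natDegree_mk_le n c)]
  refine Finset.sum_congr rfl ?_
  intro i hi
  rw [coeff_mk, if_pos (by simpa [Nat.lt_succ_iff] using hi)]

/-- The family has many members with a root in a prescribed interval. -/
lemma exists_family {n K : ℕ} (hn : 1 ≤ n) {u v : ℝ} (hu : 0 ≤ u) (huv : u ≤ v) :
    ∃ S : Finset ℤ[X], (K : ℝ) ^ n * (K * (v - u) / 2 - 1) ≤ S.card ∧
      ∀ P ∈ S, Fam n K P ∧ aeval u P ≤ 0 ∧ 0 ≤ aeval v P := by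
  classical
  set U : (Fin n → ℕ) → ℝ → ℝ := fun d x =>
    ∑ i ∈ Finset.range n, ((cf n K d 0 (i + 1) : ℤ) : ℝ) * x ^ (i + 1) with hU
  have hcf : ∀ (d : Fin n → ℕ) (e : ℤ) (i : ℕ), cf n K d e (i + 1) = cf n K d 0 (i + 1) := by
    intro d e i; simp [cf]
  have hval : ∀ (d : Fin n → ℕ) (e : ℤ) (x : ℝ),
      aeval x (mk n (cf n K d e)) = U d x - (4 * e + 2) := by
    intro d e x
    rw [aeval_mk, Finset.sum_range_succ', cf_zero]
    simp only [hcf d e, hU]
    push_cast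
    ring
  set D := Fintype.piFinset (fun _ : Fin n => Finset.range K) with hD
  set E : (Fin n → ℕ) → Finset ℤ := fun d => Finset.Icc ⌈(U d u - 2) / 4⌉ ⌊(U d v - 2) / 4⌋ with hE
  set T := D.sigma E with hT
  have hDmem : ∀ d ∈ D, ∀ i, d i < K := by
    intro d hd i
    rw [hD, Fintype.mem_piFinset] at hd
    exact Finset.mem_range.1 (hd i)
  have hinj : Set.InjOn (fun x : (_ : Fin n → ℕ) × ℤ => mk n (cf n K x.1 x.2)) T := by
    rintro ⟨d, e⟩ _ ⟨d', e'⟩ _ hxy
    simp only at hxy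
    have hc : ∀ i ≤ n, cf n K d e i = cf n K d' e' i := by
      intro i hi
      have := congrArg (fun P => P.coeff i) hxy
      simpa [coeff_mk, hi] using this
    have he : e = e' := by
      have := hc 0 (by omega)
      rw [cf_zero, cf_zero] at this
      omega
    have hd : d = d' := by
      funext i
      have := hc (i + 1) (by omega)
      rw [cf_pos d e (by omega) (by omega), cf_pos d' e' (by omega) (by omega)] at this
      have h2 : (⟨(i : ℕ) + 1 - 1, by omega⟩ : Fin n) = i := by ext; simp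
      simp only [h2] at this
      omega
    rw [hd, he]
  refine ⟨T.image (fun x => mk n (cf n K x.1 x.2)), ?_, ?_⟩
  · rw [Finset.card_image_of_injOn hinj, hT, Finset.card_sigma]
    push_cast
    have h1 : ∀ d ∈ D, K * (v - u) / 2 - 1 ≤ ((E d).card : ℝ) := by
      intro d hd
      refine le_trans ?_ le_card_Icc_ceil_floor
      have h2 := fam_cf (K := K) hn d (hDmem d hd) 0
      have h3 := incr_of_coeff hn h2.1.le (fun i a b => (h2.2.1 i a b).1) hu huv
      rw [hval, hval] at h3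
      linarith
    calc (K : ℝ) ^ n * (K * (v - u) / 2 - 1) = ∑ _d ∈ D, (K * (v - u) / 2 - 1) := by
          rw [Finset.sum_const, hD, Fintype.card_piFinset_const, Finset.card_range]
          push_cast [nsmul_eq_mul]; ring
      _ ≤ ∑ d ∈ D, ((E d).card : ℝ) := Finset.sum_le_sum h1
  · intro P hP
    rw [Finset.mem_image] at hP
    obtain ⟨⟨d, e⟩, hde, rfl⟩ := hP
    rw [hT, Finset.mem_sigma] at hde
    obtain ⟨hd, he⟩ := hde
    simp only [hE, Finset.mem_Icc] at he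
    refine ⟨fam_cf hn d (hDmem d hd) e, ?_, ?_⟩
    · rw [hval]
      have := Int.ceil_le.1 he.1
      linarith
    · rw [hval]
      have := Int.le_floor.1 he.2
      linarith

/-- Facts about the root of a member of the family. -/
lemma Fam.root {n K : ℕ} (hn : 1 ≤ n) (hK : 1 ≤ K) {P : ℤ[X]} (h : Fam n K P) {u v : ℝ}
    (hu : 0 ≤ u) (huv : u ≤ v) (hPu : aeval u P ≤ 0) (hPv : 0 ≤ aeval v P) :
    ∃ α, u ≤ α ∧ α ≤ v ∧ aeval α P = 0 ∧ ∀ β : ℝ, aeval β P = 0 → β = α ∨ β < 0 := by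
  have hcont : ContinuousOn (fun x : ℝ => aeval x P) (Set.Icc u v) :=
    (P.continuous_aeval).continuousOn
  have h1 : (0 : ℝ) ∈ Set.Icc ((fun x : ℝ => aeval x P) u) ((fun x : ℝ => aeval x P) v) :=
    ⟨hPu, hPv⟩
  obtain ⟨α, hα, hα0⟩ := intermediate_value_Icc huv hcont h1
  refine ⟨α, hα.1, hα.2, hα0, ?_⟩
  intro β hβ
  by_contra hcon
  push Not at hcon
  obtain ⟨hne, hβ0⟩ := hcon
  have hK0 : (0 : ℝ) < K := by exact_mod_cast hK
  have hα0' : 0 ≤ α := hu.trans hα.1
  simp only at hα0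
  rcases lt_or_gt_of_ne hne with hlt | hlt
  · have h2 := incr_of_coeff hn h.1.le (fun i a b => (h.2.1 i a b).1) hβ0 hlt.le
    rw [hα0, hβ] at h2
    nlinarith
  · have h2 := incr_of_coeff hn h.1.le (fun i a b => (h.2.1 i a b).1) hα0' hlt.le
    rw [hα0, hβ] at h2
    nlinarith

/-- Height bound in the family, given a root in the unit interval. -/
lemma Fam.ht_le {n K : ℕ} (hn : 1 ≤ n) {P : ℤ[X]} (h : Fam n K P) {α : ℝ} (h0 : 0 ≤ α)
    (h1 : α ≤ 1) (hα : aeval α P = 0) : ht n P ≤ 4 * n * K := by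
  have hcoef : ∀ i, 1 ≤ i → i ≤ n → |P.coeff i| ≤ 4 * K := by
    intro i a b
    have h2 := h.2.1 i a b
    rw [abs_le]
    constructor
    · have : (0 : ℤ) ≤ K := by positivity
      omega
    · exact h2.2
  refine ht_le_of ?_
  intro i hi
  rcases Nat.eq_zero_or_pos i with rfl | hpos
  · rw [aeval_eq_sum h.1.le, Finset.sum_range_succ'] at hα
    simp only [pow_zero, mul_one] at hα
    have h3 : |((P.coeff 0 : ℤ) : ℝ)| ≤ 4 * n * K := by
      have h4 : ((P.coeff 0 : ℤ) : ℝ)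
          = -∑ i ∈ Finset.range n, ((P.coeff (i + 1) : ℤ) : ℝ) * α ^ (i + 1) := by linarith
      rw [h4, abs_neg]
      calc |∑ i ∈ Finset.range n, ((P.coeff (i + 1) : ℤ) : ℝ) * α ^ (i + 1)|
          ≤ ∑ i ∈ Finset.range n, |((P.coeff (i + 1) : ℤ) : ℝ) * α ^ (i + 1)| :=
            Finset.abs_sum_le_sum_abs _ _
        _ ≤ ∑ _i ∈ Finset.range n, (4 * K : ℝ) := by
            refine Finset.sum_le_sum ?_
            intro i hi
            rw [abs_mul]
            have h5 := hcoef (i + 1) (by omega) (by have := Finset.mem_range.1 hi; omega)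
            have h6 : |((P.coeff (i + 1) : ℤ) : ℝ)| ≤ 4 * K := by exact_mod_cast h5
            have h7 : |α ^ (i + 1)| ≤ 1 := by
              rw [abs_of_nonneg (by positivity)]; exact pow_le_one₀ h0 h1
            calc |((P.coeff (i + 1) : ℤ) : ℝ)| * |α ^ (i + 1)| ≤ (4 * K) * 1 :=
                  mul_le_mul h6 h7 (abs_nonneg _) (by positivity)
              _ = 4 * K := mul_one _
        _ = 4 * n * K := by
            rw [Finset.sum_const, Finset.card_range]; push_cast [nsmul_eq_mul]; ring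
    exact_mod_cast h3
  · have h2 := hcoef i hpos hi
    refine h2.trans ?_
    push_cast
    have : (1 : ℤ) ≤ n := by exact_mod_cast hn
    have hK : (0 : ℤ) ≤ K := by positivity
    nlinarith

end Pool.Agent.H89.Alg
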