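import Pool.Agent.H89.Alg.Family

set_option autoImplicit false

open Polynomial

namespace Pool.Agent.H89.Alg

lemma finite_good (n X : ℕ) :
    {q : ℤ[X] × ℝ | Good n q.1 q.2 ∧ ht n q.1 ≤ X}.Finite := by
  classical
  have h1 : ∀ P ∈ {P : ℤ[X] | P.natDegree ≤ n ∧ ht n P ≤ X},
      ({q : ℤ[X] × ℝ | q.1 = P ∧ P ≠ 0 ∧ aeval q.2 P = 0}).Finite := by
    intro P _
    by_cases hP : P = 0
    · convert Set.finite_empty
      ext q
      simp [hP]
    · refine Set.Finite.subset (Set.Finite.image (fun β => (P, β))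
        ((P.map (Int.castRingHom ℝ)).roots.toFinset).finite_toSet) ?_
      rintro ⟨R, β⟩ ⟨h1, _, h2⟩
      simp only at h1 h2
      subst h1
      refine ⟨β, ?_, rfl⟩
      simp only [Finset.mem_coe, Multiset.mem_toFinset]
      rw [mem_roots (by
        rw [Polynomial.map_ne_zero_iff (RingHom.injective_int _)]; exact hP), IsRoot.def,
        eval_map, ← algebraMap_int_eq, ← aeval_def]
      exact h2
  refine Set.Finite.subset ((finite_ht_le n X).biUnion h1) ?_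
  rintro ⟨P, β⟩ ⟨hg, hX⟩
  simp only [Set.mem_iUnion]
  exact ⟨P, ⟨hg.natDegree_le, hX⟩, rfl, hg.ne_zero, hg.aeval⟩

lemma ht_primPart_le {n : ℕ} {P : ℤ[X]} (hP0 : P ≠ 0) (hP : P.natDegree ≤ n) :
    ht n P.primPart ≤ ht n P := by
  refine ht_le_of ?_
  intro i hi
  have h1 := abs_coeff_le_ht_int hP i
  rw [coeff_primPart' P i, abs_mul] at h1
  have h2 : 1 ≤ |P.content| := Int.one_le_abs (content_eq_zero_iff.not.2 hP0)
  have h3 : 0 ≤ |P.primPart.coeff i| := abs_nonneg _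
  nlinarith

/-- bound for the value of a member of the family at a nearby algebraic number -/
lemma near_bound {n K : ℕ} {P : ℤ[X]} (h : Fam n K P) {α β C r : ℝ} (hC : 0 < C)
    (hr : r ≤ 1)
    (h0 : 0 ≤ α) (h1 : α ≤ 1) (hα : aeval α P = 0) (hht : ht n P ≤ 4 * n * K)
    (hβ : |α - β| ≤ C * r) :
    |aeval β P| ≤ ((n + 1) * n * (1 + C) ^ n * (4 * n) * C) * K * r := by
  have hαabs : |α| ≤ 1 + C := by rw [abs_of_nonneg h0]; linarith
  have hβabs : |β| ≤ 1 + C := by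
    have : |β| ≤ |α| + |α - β| := by
      calc |β| = |α - (α - β)| := by ring_nf
        _ ≤ |α| + |α - β| := abs_sub _ _
    rw [abs_of_nonneg h0] at this
    nlinarith
  have h2 := abs_aeval_sub_le h.1.le (by linarith : (1 : ℝ) ≤ 1 + C) hβabs hαabs
  rw [hα, sub_zero] at h2
  refine h2.trans ?_
  have h3 : (ht n P : ℝ) ≤ 4 * n * K := by exact_mod_cast hht
  have h4 : |β - α| ≤ C * r := by rw [abs_sub_comm]; exact hβ
  calc (n + 1) * n * (1 + C) ^ n * (ht n P) * |β - α|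
      ≤ (n + 1) * n * (1 + C) ^ n * (4 * n * K) * (C * r) := by gcongr
    _ = _ := by ring

lemma key_identity {n : ℕ} (hn : 1 ≤ n) (s c D k h : ℝ) (hh : 0 < h) :
    (c * k * h ^ (-s)) * (((n + 1) * (D * k)) ^ (n - 1) * ((n + 1) * h) ^ n)
      = (c * ((n + 1) * D) ^ (n - 1) * (n + 1) ^ n) * (k ^ n * h ^ ((n : ℝ) - s)) := by
  have e1 : k * k ^ (n - 1) = k ^ n := by
    rw [← pow_succ']; congr 1; omega
  have e2 : h ^ (-s) * h ^ n = h ^ ((n : ℝ) - s) := by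
    rw [← Real.rpow_natCast h n, ← Real.rpow_add hh]; ring_nf
  rw [← e1, ← e2]
  simp only [mul_pow]
  ring

lemma kill_exponent {n K : ℕ} (hn : 1 ≤ n) {P R : ℤ[X]} (hP : P.natDegree ≤ n) {β s c : ℝ}
    (hR : Good n R β) (hnd : ¬ R ∣ P) (hht : ht n P ≤ 4 * n * K)
    (hv : |aeval β P| ≤ c * K * (ht n R : ℝ) ^ (-s)) :
    1 ≤ (c * ((n + 1) * (4 * n)) ^ (n - 1) * (n + 1) ^ n) *
      ((K : ℝ) ^ n * (ht n R : ℝ) ^ ((n : ℝ) - s)) := by
  have hh0 : (0 : ℝ) < ht n R := by exact_mod_cast hR.one_le_ht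
  have h1 := sep' hn hR hP hnd (H := 4 * n * K) (by exact_mod_cast hht)
  rw [← key_identity hn s c (4 * n) K (ht n R) hh0]
  refine h1.trans ?_
  exact mul_le_mul_of_nonneg_right hv (by positivity)

lemma low_kill {n K : ℕ} (hK : 1 ≤ K) (S : Finset ℤ[X]) (hS : ∀ P ∈ S, Fam n K P) {β c h s : ℝ}
    (hc : 0 ≤ c) (hh : 0 < h) (hlow : h ^ s ≤ K)
    (hv : ∀ P ∈ S, |aeval β P| ≤ c * K * h ^ (-s)) :
    (S.card : ℝ) ≤ ((2 * c + 1) * 3 ^ n) * (K : ℝ) ^ (n + 1) * h ^ (-s) := by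
  have hK1 : (1 : ℝ) ≤ K := by exact_mod_cast hK
  have h1 := low_count (n := n) S (2 * K) (4 * K) (by omega) β (c * K * h ^ (-s)) (by positivity)
    (fun P hP => ⟨(hS P hP).1.le, fun i a b => (hS P hP).2.1 i a b, hv P hP⟩)
  refine h1.trans ?_
  have h2 : 1 ≤ K * h ^ (-s) := by
    rw [Real.rpow_neg hh.le, ← div_eq_mul_inv, le_div_iff₀ (by positivity)]
    linarith
  have h3 : 2 * (c * K * h ^ (-s)) + 1 ≤ (2 * c + 1) * (K * h ^ (-s)) := by nlinarith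
  have h4 : (((4 * K : ℤ) : ℝ) - ((2 * K : ℤ) : ℝ) + 1) ^ n ≤ (3 * K : ℝ) ^ n := by
    refine pow_le_pow_left₀ ?_ ?_ n
    · push_cast; linarith
    · push_cast; linarith
  calc (2 * (c * K * h ^ (-s)) + 1) * (((4 * K : ℤ) : ℝ) - ((2 * K : ℤ) : ℝ) + 1) ^ n
      ≤ ((2 * c + 1) * (K * h ^ (-s))) * (3 * K : ℝ) ^ n := by
        refine mul_le_mul h3 h4 ?_ (by positivity)
        apply pow_nonneg; push_cast; linarith
    _ = _ := by rw [mul_pow]; ring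

lemma mid_kill {n K : ℕ} (hn : 1 ≤ n) (hK : 1 ≤ K) (S : Finset ℤ[X])
    (hS : ∀ P ∈ S, P.natDegree ≤ n ∧ ht n P ≤ 4 * n * K) {R : ℤ[X]} {β c s : ℝ}
    (hR : Good n R β) (hRK : ht n R ≤ 4 * n * K)
    (hc : 0 ≤ c)
    (hv : ∀ P ∈ S, |aeval β P| ≤ c * K * (ht n R : ℝ) ^ (-s)) :
    (S.card : ℝ) ≤ (16 * n * (2 * (c * ((n + 1) * (8 * n)) ^ (n - 1) * (n + 1) ^ n))) *
        ((K : ℝ) ^ (n + 1) * (ht n R : ℝ) ^ ((n : ℝ) - s - 1))
      + (32 * n) * (K * (ht n R : ℝ) ^ (-1 : ℝ)) := by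
  have hh0 : (0 : ℝ) < ht n R := by exact_mod_cast hR.one_le_ht
  set h : ℝ := (ht n R : ℝ) with hh
  have hK1 : (1 : ℝ) ≤ K := by exact_mod_cast hK
  have hn1 : (1 : ℝ) ≤ n := by exact_mod_cast hn
  have h1 := mid_count hn hR S (4 * n * K) (by
    have : 1 ≤ n * K := Nat.mul_pos hn hK
    nlinarith) (c * K * h ^ (-s)) (by positivity)
    (fun P hP => ⟨(hS P hP).1, (hS P hP).2, hv P hP⟩)
  have e0 : ((n + 1 : ℝ) * (2 * ((4 * n * K : ℕ) : ℝ))) = (n + 1) * ((8 * n) * K) := by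
    push_cast; ring
  rw [e0, ← hh, key_identity hn s c (8 * n) K h hh0] at h1
  have h2 : (1 : ℝ) ≤ ((4 * n * K : ℕ) : ℝ) / h := by
    rw [le_div_iff₀ hh0, one_mul, hh]; exact_mod_cast hRK
  have h3 : 2 * (((4 * n * K : ℕ) : ℝ) / h) + 2 ≤ 16 * n * K / h := by
    have : ((4 * n * K : ℕ) : ℝ) / h = 4 * n * K / h := by push_cast; ring
    rw [this] at h2 ⊢
    have h4 : 16 * n * K / h = 4 * (4 * n * K / h) := by ring
    rw [h4]; linarith
  set W : ℝ := c * ((n + 1) * (8 * n)) ^ (n - 1) * (n + 1) ^ n with hW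
  have hW0 : 0 ≤ W := by positivity
  refine h1.trans ?_
  have e1 : h ^ ((n : ℝ) - s - 1) = h ^ ((n : ℝ) - s) / h := by
    rw [Real.rpow_sub hh0, Real.rpow_one]
  have e2 : h ^ (-1 : ℝ) = 1 / h := by rw [Real.rpow_neg_one, one_div]
  calc (2 * (W * ((K : ℝ) ^ n * h ^ ((n : ℝ) - s))) + 2) * (2 * (((4 * n * K : ℕ) : ℝ) / h) + 2)
      ≤ (2 * (W * ((K : ℝ) ^ n * h ^ ((n : ℝ) - s))) + 2) * (16 * n * K / h) := by
        refine mul_le_mul_of_nonneg_left h3 (by positivity)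
    _ = _ := by rw [e1, e2]; field_simp; ring

lemma mid_sum_a {n : ℕ} (hn : 1 ≤ n) {s : ℝ} (hs : 2 * (n : ℝ) < s) {Cp : ℝ}
    (hCp : ∀ F : Finset (ℤ[X] × ℝ), (∀ q ∈ F, Good n q.1 q.2) →
      ∑ q ∈ F, ((ht n q.1 : ℝ)) ^ (-(1 + s / 2)) ≤ Cp) {K : ℝ} (hK : 1 ≤ K)
    (F : Finset (ℤ[X] × ℝ)) (hF : ∀ q ∈ F, Good n q.1 q.2 ∧ K ≤ (ht n q.1 : ℝ) ^ s) :
    ∑ q ∈ F, (ht n q.1 : ℝ) ^ ((n : ℝ) - s - 1) ≤ Cp * K ^ (-((s / 2 - n) / s)) := by
  have hn1 : (1 : ℝ) ≤ n := by exact_mod_cast hn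
  have hs0 : 0 < s := by linarith
  calc ∑ q ∈ F, (ht n q.1 : ℝ) ^ ((n : ℝ) - s - 1)
      ≤ ∑ q ∈ F, (ht n q.1 : ℝ) ^ (-(1 + s / 2)) * K ^ (-((s / 2 - n) / s)) := by
        refine Finset.sum_le_sum ?_
        intro q hq
        have hh0 : (0 : ℝ) < ht n q.1 := by exact_mod_cast (hF q hq).1.one_le_ht
        have e1 : (ht n q.1 : ℝ) ^ ((n : ℝ) - s - 1)
            = (ht n q.1 : ℝ) ^ (-(1 + s / 2)) * ((ht n q.1 : ℝ) ^ s) ^ (-((s / 2 - n) / s)) := by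
          rw [← Real.rpow_mul hh0.le, ← Real.rpow_add hh0]
          congr 1
          field_simp
          ring
        rw [e1]
        refine mul_le_mul_of_nonneg_left ?_ (by positivity)
        refine Real.rpow_le_rpow_of_nonpos (by linarith) (hF q hq).2 ?_
        have : 0 ≤ (s / 2 - n) / s := div_nonneg (by linarith) hs0.le
        linarith
    _ = (∑ q ∈ F, (ht n q.1 : ℝ) ^ (-(1 + s / 2))) * K ^ (-((s / 2 - n) / s)) := by
        rw [Finset.sum_mul]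
    _ ≤ _ := mul_le_mul_of_nonneg_right (hCp F (fun q hq => (hF q hq).1)) (by positivity)

lemma mid_sum_b {n : ℕ} (hn : 1 ≤ n) {s : ℝ} (hs : 2 * (n : ℝ) < s) {Cp : ℝ}
    (hCp : ∀ F : Finset (ℤ[X] × ℝ), (∀ q ∈ F, Good n q.1 q.2) →
      ∑ q ∈ F, ((ht n q.1 : ℝ)) ^ (-(1 + s / 2)) ≤ Cp) {W : ℝ} (hW : 0 < W)
    (F : Finset (ℤ[X] × ℝ)) (hF : ∀ q ∈ F, Good n q.1 q.2 ∧ (ht n q.1 : ℝ) ^ (s - n) ≤ W) :
    ∑ q ∈ F, (ht n q.1 : ℝ) ^ (-1 : ℝ) ≤ Cp * W ^ ((s / 2) / (s - n)) := by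
  have hn1 : (1 : ℝ) ≤ n := by exact_mod_cast hn
  have hs0 : 0 < s - n := by linarith
  calc ∑ q ∈ F, (ht n q.1 : ℝ) ^ (-1 : ℝ)
      ≤ ∑ q ∈ F, (ht n q.1 : ℝ) ^ (-(1 + s / 2)) * W ^ ((s / 2) / (s - n)) := by
        refine Finset.sum_le_sum ?_
        intro q hq
        have hh0 : (0 : ℝ) < ht n q.1 := by exact_mod_cast (hF q hq).1.one_le_ht
        have e1 : (ht n q.1 : ℝ) ^ (-1 : ℝ)
            = (ht n q.1 : ℝ) ^ (-(1 + s / 2)) * ((ht n q.1 : ℝ) ^ (s - n)) ^ ((s / 2) / (s - n)) := by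
          rw [← Real.rpow_mul hh0.le, ← Real.rpow_add hh0]
          congr 1
          field_simp
          ring
        rw [e1]
        refine mul_le_mul_of_nonneg_left ?_ (by positivity)
        exact Real.rpow_le_rpow (by positivity) (hF q hq).2
          (div_nonneg (by linarith) hs0.le)
    _ = (∑ q ∈ F, (ht n q.1 : ℝ) ^ (-(1 + s / 2))) * W ^ ((s / 2) / (s - n)) := by
        rw [Finset.sum_mul]
    _ ≤ _ := mul_le_mul_of_nonneg_right (hCp F (fun q hq => (hF q hq).1)) (by positivity)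

/-- number of members of the family whose primitive part has small height -/
lemma card_small_primPart {n K B : ℕ} (S : Finset ℤ[X])
    (hS : ∀ P ∈ S, Fam n K P ∧ ht n P ≤ 4 * n * K ∧ ht n P.primPart ≤ B) :
    S.card ≤ (2 * B + 1) ^ (n + 1) * (2 * (4 * n * K) + 1) := by
  classical
  have h1 : S.card ≤ ((S.image primPart) ×ˢ
      (Finset.Icc (-((4 * n * K : ℕ) : ℤ)) ((4 * n * K : ℕ) : ℤ))).card := by
    refine Finset.card_le_card_of_injOn (fun P => (P.primPart, P.content)) ?_ ?_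
    · intro P hP
      simp only [Finset.coe_product, Set.mem_prod, Finset.coe_image, Finset.coe_Icc, Set.mem_Icc]
      refine ⟨⟨P, hP, rfl⟩, ?_⟩
      rw [← abs_le]
      obtain ⟨hf, hht, _⟩ := hS P hP
      have h2 := abs_coeff_le_ht_int hf.1.le n
      rw [coeff_primPart' P n, abs_mul] at h2
      have h3 : P.primPart.coeff n ≠ 0 := by
        intro h0
        have := hf.2.2.1
        rw [coeff_primPart' P n, h0, mul_zero] at this
        simp at this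
      have h4 := Int.one_le_abs h3
      have h5 : (ht n P : ℤ) ≤ ((4 * n * K : ℕ) : ℤ) := by exact_mod_cast hht
      have h6 : 0 ≤ |P.content| := abs_nonneg _
      nlinarith
    · intro P _ Q _ hPQ
      simp only [Prod.mk.injEq] at hPQ
      rw [P.eq_C_content_mul_primPart, Q.eq_C_content_mul_primPart, hPQ.1, hPQ.2]
  rw [Finset.card_product] at h1
  have h2 : (S.image primPart).card ≤ (2 * B + 1) ^ (n + 1) := by
    refine card_le_of_ht_le n B _ ?_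
    intro R hR
    rw [Finset.mem_image] at hR
    obtain ⟨P, hP, rfl⟩ := hR
    exact ⟨by rw [natDegree_primPart]; exact (hS P hP).1.1.le, (hS P hP).2.2⟩
  have h3 : (Finset.Icc (-((4 * n * K : ℕ) : ℤ)) ((4 * n * K : ℕ) : ℤ)).card
      = 2 * (4 * n * K) + 1 := by
    rw [Int.card_Icc]; omega
  rw [h3] at h1
  exact h1.trans (Nat.mul_le_mul_right _ h2)

end Pool.Agent.H89.Alg
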