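import Pool.Agent.H89.Alg.Base

set_option autoImplicit false

open Polynomial

namespace Pool.Agent.H89.Alg

/-- sum of absolute values of the coefficients -/
noncomputable def L1 (P : ℤ[X]) : ℝ := ∑ i ∈ P.support, |((P.coeff i : ℤ) : ℝ)|

lemma L1_eq_sum_of_subset {P : ℤ[X]} {S : Finset ℕ} (h : P.support ⊆ S) :
    L1 P = ∑ i ∈ S, |((P.coeff i : ℤ) : ℝ)| := by
  rw [L1]
  refine Finset.sum_subset h ?_
  intro i _ hi
  rw [notMem_support_iff.1 hi]; simp

lemma L1_eq_sum_range {P : ℤ[X]} {N : ℕ} (h : P.natDegree < N) :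
    L1 P = ∑ i ∈ Finset.range N, |((P.coeff i : ℤ) : ℝ)| := by
  refine L1_eq_sum_of_subset ?_
  intro i hi
  rw [Finset.mem_range]
  exact (le_natDegree_of_mem_supp i hi).trans_lt h

lemma L1_nonneg (P : ℤ[X]) : 0 ≤ L1 P := Finset.sum_nonneg (fun _ _ => abs_nonneg _)

lemma abs_coeff_le_L1 (P : ℤ[X]) (i : ℕ) : |((P.coeff i : ℤ) : ℝ)| ≤ L1 P := by
  by_cases hi : i ∈ P.support
  · exact Finset.single_le_sum (f := fun i => |((P.coeff i : ℤ) : ℝ)|) (fun _ _ => abs_nonneg _) hi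
  · rw [notMem_support_iff.1 hi]; simpa using L1_nonneg P

lemma L1_add_le (P Q : ℤ[X]) : L1 (P + Q) ≤ L1 P + L1 Q := by
  classical
  have h1 : (P + Q).support ⊆ P.support ∪ Q.support := support_add
  rw [L1_eq_sum_of_subset h1, L1_eq_sum_of_subset (P := P) Finset.subset_union_left,
    L1_eq_sum_of_subset (P := Q) Finset.subset_union_right, ← Finset.sum_add_distrib]
  refine Finset.sum_le_sum ?_
  intro i _
  rw [coeff_add]; push_cast
  exact abs_add_le _ _

@[simp] lemma L1_zero : L1 0 = 0 := by simp [L1]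

@[simp] lemma L1_neg (P : ℤ[X]) : L1 (-P) = L1 P := by
  rw [L1, L1, support_neg]
  refine Finset.sum_congr rfl ?_
  intro i _
  rw [coeff_neg]; push_cast; rw [abs_neg]

lemma L1_sub_le (P Q : ℤ[X]) : L1 (P - Q) ≤ L1 P + L1 Q := by
  rw [sub_eq_add_neg]
  refine (L1_add_le _ _).trans ?_
  rw [L1_neg]

lemma L1_sum_le {ι : Type*} (S : Finset ι) (f : ι → ℤ[X]) :
    L1 (∑ i ∈ S, f i) ≤ ∑ i ∈ S, L1 (f i) := by
  classical
  induction S using Finset.induction_on with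
  | empty => simp
  | insert i S hi ih =>
    rw [Finset.sum_insert hi, Finset.sum_insert hi]
    exact (L1_add_le _ _).trans (add_le_add le_rfl ih)

lemma L1_C_mul (a : ℤ) (P : ℤ[X]) : L1 (C a * P) ≤ |(a : ℝ)| * L1 P := by
  by_cases ha : a = 0
  · subst ha; simp
  · rw [L1_eq_sum_of_subset (P := C a * P) (S := P.support) ?_, L1, Finset.mul_sum]
    · refine Finset.sum_le_sum ?_
      intro i _
      rw [coeff_C_mul]; push_cast
      rw [abs_mul]
    · intro i hi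
      rw [mem_support_iff, coeff_C_mul] at hi
      rw [mem_support_iff]
      exact right_ne_zero_of_mul hi

lemma L1_X_pow_mul (k : ℕ) (P : ℤ[X]) : L1 (X ^ k * P) = L1 P := by
  have hN : (X ^ k * P).natDegree < k + (P.natDegree + 1) := by
    have := natDegree_mul_le (p := (X : ℤ[X]) ^ k) (q := P)
    rw [natDegree_X_pow] at this
    omega
  rw [L1_eq_sum_range hN, L1_eq_sum_range (Nat.lt_succ_self P.natDegree),
    Finset.sum_range_add]
  have h1 : ∑ x ∈ Finset.range k, |(((X ^ k * P).coeff x : ℤ) : ℝ)| = 0 := by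
    refine Finset.sum_eq_zero ?_
    intro x hx
    rw [coeff_X_pow_mul', if_neg (by have := Finset.mem_range.1 hx; omega)]
    simp
  rw [h1, zero_add]
  refine Finset.sum_congr rfl ?_
  intro i _
  rw [add_comm k i, coeff_X_pow_mul]

lemma L1_mul_le (P Q : ℤ[X]) : L1 (P * Q) ≤ L1 P * L1 Q := by
  have h1 : P * Q = ∑ i ∈ P.support, C (P.coeff i) * (X ^ i * Q) := by
    conv_lhs => rw [P.as_sum_support_C_mul_X_pow]
    rw [Finset.sum_mul]
    refine Finset.sum_congr rfl ?_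
    intro i _
    ring
  rw [h1]
  refine (L1_sum_le _ _).trans ?_
  rw [L1, Finset.sum_mul]
  refine Finset.sum_le_sum ?_
  intro i _
  refine (L1_C_mul _ _).trans ?_
  rw [L1_X_pow_mul]

@[simp] lemma L1_C (a : ℤ) : L1 (C a) = |(a : ℝ)| := by
  rw [L1_eq_sum_range (N := 1) (by simp)]
  simp

@[simp] lemma L1_X : L1 X = 1 := by
  rw [L1_eq_sum_range (N := 2) (by simp)]
  simp [Finset.sum_range_succ, coeff_X]

lemma L1_one : L1 1 = 1 := by
  have := L1_C 1
  simpa using this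

lemma L1_pow_le (P : ℤ[X]) (k : ℕ) : L1 (P ^ k) ≤ L1 P ^ k := by
  induction k with
  | zero => simp [L1_one]
  | succ k ih =>
    rw [pow_succ, pow_succ]
    exact (L1_mul_le _ _).trans (mul_le_mul_of_nonneg_right ih (L1_nonneg _))

lemma L1_le_of_coeff {n : ℕ} {P : ℤ[X]} (hP : P.natDegree ≤ n) {D : ℝ}
    (hD : ∀ i ≤ n, |((P.coeff i : ℤ) : ℝ)| ≤ D) : L1 P ≤ (n + 1) * D := by
  rw [L1_eq_sum_range (Nat.lt_succ_of_le hP)]
  calc ∑ i ∈ Finset.range (n + 1), |((P.coeff i : ℤ) : ℝ)|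
      ≤ ∑ _i ∈ Finset.range (n + 1), D := by
        refine Finset.sum_le_sum ?_
        intro i hi
        exact hD i (by simpa [Nat.lt_succ_iff] using hi)
    _ = (n + 1) * D := by rw [Finset.sum_const, Finset.card_range]; push_cast [nsmul_eq_mul]; ring

lemma L1_le_ht {n : ℕ} {P : ℤ[X]} (hP : P.natDegree ≤ n) : L1 P ≤ (n + 1) * ht n P :=
  L1_le_of_coeff hP (fun i _ => abs_coeff_le_ht hP i)

lemma ht_le_L1 {n : ℕ} (P : ℤ[X]) : (ht n P : ℝ) ≤ L1 P :=
  ht_le_of_real (L1_nonneg P) (fun i _ => abs_coeff_le_L1 P i)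

/-- Linear substitution in a form of degree `n`. -/
noncomputable def subst (n : ℕ) (p r q t : ℤ) (P : ℤ[X]) : ℤ[X] :=
  ∑ i ∈ Finset.range (n + 1), C (P.coeff i) * ((C p * X + C r) ^ i * (C q * X + C t) ^ (n - i))

lemma natDegree_subst_le (n : ℕ) (p r q t : ℤ) (P : ℤ[X]) : (subst n p r q t P).natDegree ≤ n := by
  refine natDegree_sum_le_of_forall_le _ _ ?_
  intro i hi
  have hi' : i ≤ n := by simpa [Nat.lt_succ_iff] using hi
  have h1 : (C p * X + C r : ℤ[X]).natDegree ≤ 1 := natDegree_linear_le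
  have h2 : (C q * X + C t : ℤ[X]).natDegree ≤ 1 := natDegree_linear_le
  refine (natDegree_C_mul_le _ _).trans (natDegree_mul_le.trans ?_)
  have h3 := (natDegree_pow_le (p := (C p * X + C r : ℤ[X])) (n := i)).trans
    (Nat.mul_le_mul_left i h1)
  have h4 := (natDegree_pow_le (p := (C q * X + C t : ℤ[X])) (n := n - i)).trans
    (Nat.mul_le_mul_left (n - i) h2)
  omega

lemma aeval_subst {n : ℕ} (p r q t : ℤ) {P : ℤ[X]} (hP : P.natDegree ≤ n) (x : ℝ)
    (hx : (q : ℝ) * x + t ≠ 0) :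
    aeval x (subst n p r q t P) = ((q : ℝ) * x + t) ^ n * aeval ((p * x + r) / (q * x + t) : ℝ) P := by
  rw [subst, map_sum, aeval_eq_sum hP, Finset.mul_sum]
  refine Finset.sum_congr rfl ?_
  intro i hi
  have hi' : i ≤ n := by simpa [Nat.lt_succ_iff] using hi
  simp only [map_mul, map_pow, map_add, aeval_C, aeval_X]
  simp only [eq_intCast]
  rw [div_pow]
  have h1 : ((q : ℝ) * x + t) ^ n = (q * x + t) ^ i * (q * x + t) ^ (n - i) := by
    rw [← pow_add]; congr 1; omega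
  rw [h1]
  generalize hW : (q : ℝ) * x + t = W at *
  have hWi : W ^ i ≠ 0 := pow_ne_zero _ hx
  field_simp

lemma L1_linear_le (p r : ℤ) : L1 (C p * X + C r) ≤ |(p : ℝ)| + |(r : ℝ)| := by
  refine (L1_add_le _ _).trans ?_
  rw [L1_C]
  refine add_le_add ?_ le_rfl
  refine (L1_mul_le _ _).trans ?_
  rw [L1_C, L1_X, mul_one]

lemma L1_subst_le {n : ℕ} (p r q t : ℤ) (P : ℤ[X]) (hP : P.natDegree ≤ n) :
    L1 (subst n p r q t P) ≤ (|(p : ℝ)| + |(r : ℝ)| + |(q : ℝ)| + |(t : ℝ)|) ^ n * L1 P := by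
  set B : ℝ := |(p : ℝ)| + |(r : ℝ)| + |(q : ℝ)| + |(t : ℝ)| with hB
  have hB0 : 0 ≤ B := by positivity
  rw [L1_eq_sum_range (Nat.lt_succ_of_le hP), Finset.mul_sum]
  refine (L1_sum_le _ _).trans (Finset.sum_le_sum ?_)
  intro i hi
  have hi' : i ≤ n := by simpa [Nat.lt_succ_iff] using hi
  refine (L1_C_mul _ _).trans ?_
  rw [mul_comm]
  refine mul_le_mul_of_nonneg_right ?_ (abs_nonneg _)
  have h1 : L1 ((C p * X + C r) ^ i) ≤ B ^ i :=
    (L1_pow_le _ _).trans (pow_le_pow_left₀ (L1_nonneg _)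
      ((L1_linear_le p r).trans (by rw [hB]; linarith [abs_nonneg (q : ℝ), abs_nonneg (t : ℝ)])) _)
  have h2 : L1 ((C q * X + C t) ^ (n - i)) ≤ B ^ (n - i) :=
    (L1_pow_le _ _).trans (pow_le_pow_left₀ (L1_nonneg _)
      ((L1_linear_le q t).trans (by rw [hB]; linarith [abs_nonneg (p : ℝ), abs_nonneg (r : ℝ)])) _)
  calc L1 ((C p * X + C r) ^ i * (C q * X + C t) ^ (n - i))
      ≤ L1 ((C p * X + C r) ^ i) * L1 ((C q * X + C t) ^ (n - i)) := L1_mul_le _ _
    _ ≤ B ^ i * B ^ (n - i) := mul_le_mul h1 h2 (L1_nonneg _) (by positivity)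
    _ = B ^ n := by rw [← pow_add]; congr 1; omega

end Pool.Agent.H89.Alg
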