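import Pool.Agent.H89.Alg.LemT

set_option autoImplicit false

open Polynomial

namespace Pool.Agent.H89.Alg

/-- For large `a` the points `M(a+1/b)` are eventually good. -/
lemma lemmaG (c : Crd) (n : ℕ) (hn : 2 ≤ n) (s : ℝ) (hs : (n : ℝ) + 1 < s) (c₁ : ℝ)
    (hc₁ : 0 < c₁) (N₀ : ℕ)
    (hz : ∀ (P : ℤ[X]) (β : ℝ), Good n P β → N₀ ≤ ht n P → c₁ * (ht n P : ℝ) ^ (-s) < |c.z - β|) :
    ∃ a₀ : ℕ, ∀ a : ℕ, a₀ ≤ a → ∃ b₀ : ℕ, ∀ b : ℕ, b₀ ≤ b →
      ∀ (P : ℤ[X]) (β : ℝ), Good n P β → N₀ ≤ ht n P →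
      c₁ * (ht n P : ℝ) ^ (-s) < |c.M ((a : ℝ) + 1 / b) - β| := by
  have hn2 : (2 : ℝ) ≤ n := by exact_mod_cast hn
  have hs0 : 0 < s := by linarith
  obtain ⟨C, hC1, κ, hκ0, hfacts⟩ := bad_facts c n hn s hs c₁ hc₁ N₀ hz
  have hC0 : 0 < C := by linarith
  obtain ⟨a₁, ha₁⟩ := hfacts (1 / 2) (by norm_num)
  refine ⟨a₁ + 1, ?_⟩
  intro a ha
  have haN1 : 1 ≤ a := by omega
  have ha1 : (1 : ℝ) ≤ a := by exact_mod_cast haN1
  have ha0 : (0 : ℝ) < a := by linarith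
  set D : ℝ := 2 * n * (C * (a : ℝ) ^ (n - 1)) / a with hD
  have hD0 : 0 < D := by positivity
  set E : ℝ := D ^ (s - 1) * C * (a : ℝ) ^ n with hE
  have hE0 : 0 < E := by positivity
  obtain ⟨b₀, hb₀⟩ := exists_nat_forall_rpow_neg_le (θ := s - 1 - n) (C := E) (η := 1 / 2)
    (by linarith) (by norm_num)
  refine ⟨b₀ + a ^ (n - 1), ?_⟩
  intro b hb P β hP hNP
  by_contra hlt
  push Not at hlt
  have hab1 : a ^ (n - 1) ≤ b := by omega
  obtain ⟨haT, hκa, hF0, hρ0, hρε, hcoef, hHs, hHab⟩ := ha₁ a b (by omega) hab1 P β hP hNP hlt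
  have hbN1 : 1 ≤ b := (Nat.one_le_pow _ _ haN1).trans hab1
  have hb1 : (1 : ℝ) ≤ b := by exact_mod_cast hbN1
  have hb0 : (0 : ℝ) < b := by linarith
  have hH1 : (1 : ℝ) ≤ (ht n P : ℝ) := by exact_mod_cast hP.one_le_ht
  have hH0 : (0 : ℝ) < (ht n P : ℝ) := by linarith
  have hFdeg : (subst n c.p c.r c.q c.t P).natDegree ≤ n := natDegree_subst_le _ _ _ _ _ _
  have hhab : C * (ht n P : ℝ) * (a : ℝ) ^ (n - 1) / (a * b) * (a * b)
      = C * (ht n P : ℝ) * (a : ℝ) ^ (n - 1) := by field_simp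
  have hh0 : 0 ≤ C * (ht n P : ℝ) * (a : ℝ) ^ (n - 1) / (a * b) := by positivity
  have hcoef' : ∀ j ≤ n, |(((fun j => (taylor (a : ℤ) (subst n c.p c.r c.q c.t P)).coeff j) j : ℤ)
      : ℝ)| * (a : ℝ) ^ j ≤ C * (ht n P : ℝ) * (a : ℝ) ^ (n - 1) / (a * b) * (a * b) := by
    intro j hj
    rw [hhab]
    exact hcoef j hj
  have hfv : ∀ y : ℝ, aeval ((a : ℝ) + y) (subst n c.p c.r c.q c.t P)
      = fv (fun j => (taylor (a : ℤ) (subst n c.p c.r c.q c.t P)).coeff j) n y := by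
    intro y
    have := aeval_taylor_fv hFdeg (a : ℤ) y
    rw [Int.cast_natCast] at this
    exact this
  have hp0 : (fun j => (taylor (a : ℤ) (subst n c.p c.r c.q c.t P)).coeff j) 0 ≠ 0 := by
    simp only [taylor_coeff_zero]; exact hF0
  rw [hfv] at hρ0 hρε
  have h2nh := (transport n (by omega) _ a b haN1 hbN1 _ hh0 hcoef' hp0 hρ0 hρε).1
  have h1 : (b : ℝ) ≤ D * ht n P := by
    have h2 : 2 * n * (C * (ht n P : ℝ) * (a : ℝ) ^ (n - 1) / (a * b)) = D * ht n P / b := by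
      rw [hD]; field_simp
    rw [h2, le_div_iff₀ hb0, one_mul] at h2nh
    exact h2nh
  have h3 : (b : ℝ) ^ (s - 1) ≤ E * (b : ℝ) ^ n := by
    calc (b : ℝ) ^ (s - 1) ≤ (D * ht n P) ^ (s - 1) :=
          Real.rpow_le_rpow hb0.le h1 (by linarith)
      _ = D ^ (s - 1) * (ht n P : ℝ) ^ (s - 1) := Real.mul_rpow hD0.le hH0.le
      _ ≤ D ^ (s - 1) * (C * ((a : ℝ) * b) ^ n) :=
          mul_le_mul_of_nonneg_left hHs (by positivity)
      _ = _ := by rw [hE, mul_pow]; ring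
  have h4 := hb₀ b (by exact_mod_cast (by omega : b₀ ≤ b))
  have h5 : (b : ℝ) ^ (s - 1) * (b : ℝ) ^ (-(s - 1 - n)) = (b : ℝ) ^ n := by
    rw [← Real.rpow_add hb0, ← Real.rpow_natCast]; congr 1; ring
  have h6 : 0 < (b : ℝ) ^ n := by positivity
  have h7 : 0 < (b : ℝ) ^ (-(s - 1 - n)) := by positivity
  have h8 : (b : ℝ) ^ n ≤ (b : ℝ) ^ n * (1 / 2) := by
    calc (b : ℝ) ^ n = (b : ℝ) ^ (s - 1) * (b : ℝ) ^ (-(s - 1 - n)) := h5.symm
      _ ≤ (E * (b : ℝ) ^ n) * (b : ℝ) ^ (-(s - 1 - n)) := mul_le_mul_of_nonneg_right h3 h7.le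
      _ = (b : ℝ) ^ n * (E * (b : ℝ) ^ (-(s - 1 - n))) := by ring
      _ ≤ (b : ℝ) ^ n * (1 / 2) := mul_le_mul_of_nonneg_left h4 h6.le
  linarith

/-- The Eisenstein polynomial of the starting point. -/
noncomputable def Epol (n r₀ a : ℕ) : ℤ[X] :=
  X ^ n + (C ((r₀ : ℤ) * a) * X + C (-(r₀ : ℤ)))

lemma Epol_low {n r₀ a : ℕ} (hn : 2 ≤ n) :
    (C ((r₀ : ℤ) * a) * X + C (-(r₀ : ℤ)) : ℤ[X]).degree < (n : WithBot ℕ) := by
  refine lt_of_le_of_lt (degree_linear_le) ?_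
  exact_mod_cast hn

lemma Epol_natDegree {n r₀ a : ℕ} (hn : 2 ≤ n) : (Epol n r₀ a).natDegree = n := by
  rw [Epol, natDegree_add_eq_left_of_degree_lt (by rw [degree_X_pow]; exact Epol_low hn),
    natDegree_X_pow]

lemma Epol_monic {n r₀ a : ℕ} (hn : 2 ≤ n) : (Epol n r₀ a).Monic := by
  rw [Epol]
  exact monic_X_pow_add (Epol_low hn)

lemma Epol_irreducible {n r₀ a : ℕ} (hn : 2 ≤ n) (hr : r₀.Prime) :
    Irreducible (Epol n r₀ a) := by
  have hm := Epol_monic (r₀ := r₀) (a := a) hn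
  have hd := Epol_natDegree (r₀ := r₀) (a := a) hn
  have hp : Prime (r₀ : ℤ) := Nat.prime_iff_prime_int.1 hr
  have hI : (Ideal.span {(r₀ : ℤ)}).IsPrime :=
    (Ideal.span_singleton_prime hp.ne_zero).2 hp
  refine irreducible_of_eisenstein_criterion hI ?_ ?_ ?_ ?_ hm.isPrimitive
  · rw [hm.leadingCoeff, Ideal.mem_span_singleton]
    intro h
    exact hp.not_isUnit (isUnit_of_dvd_one h)
  · intro i hi
    rw [degree_eq_natDegree hm.ne_zero, hd] at hi
    have hi' : i < n := by exact_mod_cast hi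
    rw [Ideal.mem_span_singleton, Epol, coeff_add, coeff_X_pow, if_neg (by omega), zero_add,
      coeff_add, coeff_C_mul, coeff_X, coeff_C]
    refine dvd_add ?_ ?_
    · exact Dvd.dvd.mul_right (Dvd.intro _ rfl) _
    · split_ifs
      · exact (dvd_neg).2 (dvd_refl _)
      · exact dvd_zero _
  · rw [degree_eq_natDegree hm.ne_zero, hd]; exact_mod_cast (by omega : 0 < n)
  · rw [Ideal.span_singleton_pow, Ideal.mem_span_singleton, Epol, coeff_add, coeff_X_pow,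
      if_neg (by omega), zero_add, coeff_add, coeff_C_mul, coeff_X_zero, mul_zero, zero_add,
      coeff_C_zero, dvd_neg]
    intro h
    have h1 : (r₀ : ℤ) * r₀ ∣ (r₀ : ℤ) * 1 := by rw [← sq, mul_one]; exact h
    have h2 := (mul_dvd_mul_iff_left hp.ne_zero).1 h1
    exact hp.not_isUnit (isUnit_of_dvd_one h2)

/-- Degree of the starting point. -/
lemma deg_start (c : Crd) {n : ℕ} (hn : 2 ≤ n) {r₀ : ℕ} (hr : r₀.Prime) {a : ℕ} {X : ℝ}
    (hX0 : 0 < X) (hw : 0 < c.w X) (hQ : (r₀ : ℝ) * X ^ n - r₀ * a * X ^ (n - 1) - 1 = 0)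
    {A : ℤ[X]} (hA0 : A ≠ 0) (hA : aeval (c.M X) A = 0) : n ≤ A.natDegree := by
  by_contra hlt
  push Not at hlt
  set d := A.natDegree with hd
  set F := subst d c.r c.p c.t c.q A with hF
  have hFdeg : F.natDegree ≤ d := natDegree_subst_le _ _ _ _ _ _
  -- values of F
  have hval : ∀ Y : ℝ, 0 < Y → 0 < c.w Y → aeval (1 / Y) F = (c.w Y / Y) ^ d * aeval (c.M Y) A := by
    intro Y hY hwY
    have h1 : (c.t : ℝ) * (1 / Y) + c.q = c.w Y / Y := by rw [Crd.w]; field_simp; ring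
    have h2 : (c.t : ℝ) * (1 / Y) + c.q ≠ 0 := by rw [h1]; positivity
    have h3 := aeval_subst c.r c.p c.t c.q (le_refl A.natDegree) (1 / Y) h2
    rw [← hd, ← hF, h1] at h3
    rw [h3]
    congr 2
    rw [Crd.M]
    field_simp
    ring_nf
  have hF1 : aeval (1 / X) F = 0 := by rw [hval X hX0 hw, hA, mul_zero]
  -- F = 0
  have hE0 : aeval (1 / X) (Epol n r₀ a) = 0 := by
    have e1 : X ^ n = X * X ^ (n - 1) := by rw [← pow_succ']; congr 1; omega
    have e2 : aeval (1 / X) (Epol n r₀ a) = (1 / X) ^ n + ((r₀ : ℝ) * a * (1 / X) + -(r₀ : ℝ)) := by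
      rw [Epol]
      simp [aeval_X]
    rw [e2]
    have e3 : (1 / X) ^ n = r₀ - r₀ * a / X := by
      have h4 : X ^ n ≠ 0 := by positivity
      have h5 : (1 / X) ^ n * X ^ n = 1 := by rw [← mul_pow]; field_simp; simp
      have h6 : (r₀ - r₀ * a / X) * X ^ n = 1 := by
        have : (r₀ - r₀ * a / X) * X ^ n = r₀ * X ^ n - r₀ * a * X ^ (n - 1) := by
          rw [sub_mul, e1]; field_simp
        rw [this]; linarith
      exact mul_right_cancel₀ h4 (h5.trans h6.symm)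
    rw [e3]; ring
  have hgood : Good n (Epol n r₀ a) (1 / X) :=
    good_of_irreducible (Epol_monic hn).isPrimitive (Epol_irreducible hn hr) (Epol_natDegree hn) hE0
  have hF0 : F = 0 := by
    by_contra hne
    have h1 := hgood.dvd hF1
    have h2 := natDegree_le_of_dvd h1 hne
    rw [Epol_natDegree hn] at h2
    omega
  -- A = 0
  apply hA0
  have hinf : Set.Infinite {x : ℝ | IsRoot (A.map (Int.castRingHom ℝ)) x} := by
    have hmaps : ∀ k : ℕ, IsRoot (A.map (Int.castRingHom ℝ)) (c.M (c.T₀ + k)) := by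
      intro k
      have hT := c.T₀_ge
      have hk : (0 : ℝ) ≤ k := Nat.cast_nonneg k
      have hw1 := c.w_lower (le_refl c.T₀) (X := c.T₀ + k) (by linarith)
      have h1 := hval (c.T₀ + k) (by linarith) (by linarith)
      rw [hF0, map_zero] at h1
      rcases mul_eq_zero.1 h1.symm with h2 | h2
      · exact absurd h2 (by
          have : 0 < c.w (c.T₀ + k) := by linarith
          have : 0 < c.T₀ + k := by linarith
          positivity)
      · rw [IsRoot.def, eval_map]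
        exact h2
    refine Set.infinite_of_injective_forall_mem (f := fun k : ℕ => c.M (c.T₀ + k)) ?_ hmaps
    intro k l hkl
    have hT := c.T₀_ge
    have hk : (0 : ℝ) ≤ k := Nat.cast_nonneg k
    have hl : (0 : ℝ) ≤ l := Nat.cast_nonneg l
    have hw1 := c.w_lower (le_refl c.T₀) (X := c.T₀ + k) (by linarith)
    have hw2 := c.w_lower (le_refl c.T₀) (X := c.T₀ + l) (by linarith)
    have hwk : 0 < c.w (c.T₀ + k) := by linarith
    have hwl : 0 < c.w (c.T₀ + l) := by linarith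
    have h1 := c.M_sub hwk.ne' hwl.ne'
    simp only at hkl
    rw [hkl, sub_self, eq_comm, div_eq_zero_iff] at h1
    rcases h1 with h1 | h1
    · have : (k : ℝ) = l := by linarith
      exact_mod_cast this
    · exact absurd h1 (by positivity)
  have h1 := eq_zero_of_infinite_isRoot _ hinf
  exact (Polynomial.map_eq_zero_iff (RingHom.injective_int _)).1 h1

end Pool.Agent.H89.Alg
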