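import Pool.Agent.H89.Alg.LemG

set_option autoImplicit false

open Polynomial

namespace Pool.Agent.H89.Alg

/-- The starting polynomial in the coordinates. -/
noncomputable def Qpol (n r₀ a : ℕ) : ℤ[X] :=
  C (r₀ : ℤ) * X ^ n - C ((r₀ : ℤ) * a) * X ^ (n - 1) - C 1

lemma Qpol_natDegree_le (n r₀ a : ℕ) : (Qpol n r₀ a).natDegree ≤ n := by
  rw [Qpol]
  refine (natDegree_sub_le _ _).trans (max_le ?_ (by rw [natDegree_C]; omega))
  refine (natDegree_sub_le _ _).trans (max_le ?_ ?_)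
  · exact natDegree_C_mul_X_pow_le _ _
  · exact (natDegree_C_mul_X_pow_le _ _).trans (by omega)

lemma aeval_Qpol (n r₀ a : ℕ) (x : ℝ) :
    aeval x (Qpol n r₀ a) = (r₀ : ℝ) * x ^ n - r₀ * a * x ^ (n - 1) - 1 := by
  rw [Qpol]
  simp [aeval_X]

lemma L1_Qpol_le (n : ℕ) {r₀ a : ℕ} (hr : 1 ≤ r₀) (ha : 1 ≤ a) : L1 (Qpol n r₀ a) ≤ 3 * r₀ * a := by
  have hr1 : (1 : ℝ) ≤ r₀ := by exact_mod_cast hr
  have ha1 : (1 : ℝ) ≤ a := by exact_mod_cast ha
  have hXp : ∀ k : ℕ, L1 ((X : ℤ[X]) ^ k) ≤ 1 := by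
    intro k
    have := L1_pow_le (X : ℤ[X]) k
    rw [L1_X, one_pow] at this
    exact this
  rw [Qpol]
  refine (L1_sub_le _ _).trans ?_
  have h1 : L1 (C (r₀ : ℤ) * X ^ n - C ((r₀ : ℤ) * a) * X ^ (n - 1)) ≤ r₀ + r₀ * a := by
    refine (L1_sub_le _ _).trans ?_
    refine add_le_add ?_ ?_
    · refine (L1_C_mul _ _).trans ?_
      have h2 := hXp n
      rw [Int.cast_natCast, Nat.abs_cast]
      calc (r₀ : ℝ) * L1 ((X : ℤ[X]) ^ n) ≤ r₀ * 1 := mul_le_mul_of_nonneg_left h2 (by positivity)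
        _ = r₀ := mul_one _
    · refine (L1_C_mul _ _).trans ?_
      have h2 := hXp (n - 1)
      have h3 : |(((r₀ : ℤ) * a : ℤ) : ℝ)| = r₀ * a := by
        push_cast
        rw [abs_of_nonneg (by positivity)]
      rw [h3]
      calc (r₀ * a : ℝ) * L1 ((X : ℤ[X]) ^ (n - 1)) ≤ (r₀ * a) * 1 :=
            mul_le_mul_of_nonneg_left h2 (by positivity)
        _ = r₀ * a := mul_one _
  have h2 : L1 (C (1 : ℤ)) = 1 := by rw [L1_C]; simp
  rw [h2]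
  have h3 : (r₀ : ℝ) ≤ r₀ * a := le_mul_of_one_le_right (by linarith) ha1
  have h4 : (1 : ℝ) ≤ r₀ * a := by nlinarith
  linarith

/-- The root of the starting polynomial. -/
lemma Q_root {n r₀ a : ℕ} (hn : 2 ≤ n) (hr : 1 ≤ r₀) (ha : 1 ≤ a) :
    ∃ X : ℝ, (a : ℝ) ≤ X ∧ X ≤ a + 1 / ((r₀ * a ^ (n - 1) : ℕ) : ℝ) ∧
      (r₀ : ℝ) * X ^ n - r₀ * a * X ^ (n - 1) - 1 = 0 ∧
      |(a : ℝ) + 1 / ((r₀ * a ^ (n - 1) : ℕ) : ℝ) - X|
        ≤ n / (((r₀ * a ^ (n - 1) : ℕ) : ℝ) ^ 2 * a) := by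
  have hr1 : (1 : ℝ) ≤ r₀ := by exact_mod_cast hr
  have ha1 : (1 : ℝ) ≤ a := by exact_mod_cast ha
  have ha0 : (0 : ℝ) < a := by linarith
  set b : ℝ := ((r₀ * a ^ (n - 1) : ℕ) : ℝ) with hb
  have hbeq : b = r₀ * (a : ℝ) ^ (n - 1) := by rw [hb]; push_cast; rfl
  have hb0 : 0 < b := by rw [hbeq]; positivity
  have hsplit : ∀ x : ℝ, x ^ n = x * x ^ (n - 1) := by
    intro x; rw [← pow_succ']; congr 1; omega
  set f : ℝ → ℝ := fun x => (r₀ : ℝ) * x ^ n - r₀ * a * x ^ (n - 1) - 1 with hf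
  have hf2 : ∀ x, f x = r₀ * x ^ (n - 1) * (x - a) - 1 := by
    intro x
    rw [hf]
    simp only
    rw [hsplit x]; ring
  have hcont : Continuous f := by rw [hf]; fun_prop
  have hle : (a : ℝ) ≤ a + 1 / b := by
    have : 0 < 1 / b := by positivity
    linarith
  have hfa : f a ≤ 0 := by rw [hf2]; simp
  have hfb : 0 ≤ f (a + 1 / b) := by
    rw [hf2]
    have h1 : (a : ℝ) ^ (n - 1) ≤ (a + 1 / b) ^ (n - 1) := pow_le_pow_left₀ ha0.le hle _
    have h2 : (a : ℝ) + 1 / b - a = 1 / b := by ring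
    rw [h2]
    have h3 : r₀ * (a : ℝ) ^ (n - 1) * (1 / b) = 1 := by rw [← hbeq]; field_simp
    have h4 : r₀ * (a : ℝ) ^ (n - 1) * (1 / b) ≤ r₀ * (a + 1 / b) ^ (n - 1) * (1 / b) := by
      gcongr
    linarith
  obtain ⟨X, ⟨hX1, hX2⟩, hX⟩ := intermediate_value_Icc hle hcont.continuousOn
    (show (0 : ℝ) ∈ Set.Icc (f a) (f (a + 1 / b)) from ⟨hfa, hfb⟩)
  refine ⟨X, hX1, hX2, hX, ?_⟩
  have hX0 : 0 < X := by linarith
  rw [hf2] at hX
  -- Bernoulli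
  have hbern : X ^ (n - 1) - (a : ℝ) ^ (n - 1) ≤ n * ((X - a) / X) * X ^ (n - 1) := by
    have h1 := one_add_mul_le_pow (a := (a : ℝ) / X - 1) (by
      have : 0 ≤ (a : ℝ) / X := by positivity
      linarith) (n - 1)
    have h2 : (1 + ((a : ℝ) / X - 1)) ^ (n - 1) * X ^ (n - 1) = (a : ℝ) ^ (n - 1) := by
      rw [← mul_pow]; congr 1; field_simp; ring
    have h3 : (1 + ((n - 1 : ℕ) : ℝ) * ((a : ℝ) / X - 1)) * X ^ (n - 1) ≤ (a : ℝ) ^ (n - 1) := by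
      rw [← h2]
      exact mul_le_mul_of_nonneg_right h1 (by positivity)
    have h4 : ((n - 1 : ℕ) : ℝ) ≤ n := by exact_mod_cast Nat.sub_le _ _
    have h5 : (a : ℝ) / X - 1 = - ((X - a) / X) := by field_simp; ring
    have h6 : 0 ≤ (X - a) / X := by
      have : 0 ≤ X - a := by linarith
      positivity
    have h7 : 0 < X ^ (n - 1) := by positivity
    rw [h5] at h3
    have h8 : ((n - 1 : ℕ) : ℝ) * ((X - a) / X) * X ^ (n - 1) ≤ n * ((X - a) / X) * X ^ (n - 1) := by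
      gcongr
    linarith
  have hy0 : 0 ≤ X - a := by linarith
  have hy1 : X - a ≤ 1 / b := by linarith
  have hkey : (1 / b - (X - a)) * b ≤ n * ((X - a) / X) := by
    have e1 : (1 / b - (X - a)) * b = 1 - (X - a) * b := by field_simp
    have e2 : 1 = r₀ * X ^ (n - 1) * (X - a) := by linarith
    rw [e1]
    calc 1 - (X - a) * b = r₀ * (X - a) * (X ^ (n - 1) - (a : ℝ) ^ (n - 1)) := by
          rw [hbeq]; linarith
      _ ≤ r₀ * (X - a) * (n * ((X - a) / X) * X ^ (n - 1)) :=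
          mul_le_mul_of_nonneg_left hbern (by positivity)
      _ = n * ((X - a) / X) * (r₀ * X ^ (n - 1) * (X - a)) := by ring
      _ = _ := by rw [← e2, mul_one]
  have e3 : (a : ℝ) + 1 / b - X = 1 / b - (X - a) := by ring
  rw [e3, abs_of_nonneg (by linarith), le_div_iff₀ (by positivity)]
  have h8 : (X - a) / X ≤ 1 / b / a := by
    exact div_le_div₀ (by positivity) hy1 ha0 hX1
  calc (1 / b - (X - a)) * (b ^ 2 * a) = ((1 / b - (X - a)) * b) * (b * a) := by ring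
    _ ≤ (n * (1 / b / a)) * (b * a) := by
        refine mul_le_mul_of_nonneg_right ?_ (by positivity)
        exact hkey.trans (mul_le_mul_of_nonneg_left h8 (by positivity))
    _ = n := by field_simp

/-- A starting bad point. -/
lemma lemmaS (c : Crd) (n : ℕ) (hn : 2 ≤ n) (s : ℝ) (hs0 : 0 < s) (hs : s < 2 * n + 1) (c₁ : ℝ)
    (hc₁ : 0 < c₁) (N₀ K₀ : ℕ) :
    ∃ a₀ : ℕ, ∀ a : ℕ, a₀ ≤ a → ∃ b : ℕ, K₀ * a ^ (n - 1) ≤ b ∧ ∃ (P : ℤ[X]) (β : ℝ), Good n P β ∧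
      N₀ ≤ ht n P ∧ |c.M ((a : ℝ) + 1 / b) - β| ≤ c₁ * (ht n P : ℝ) ^ (-s) := by
  have hn2 : (2 : ℝ) ≤ n := by exact_mod_cast hn
  obtain ⟨r₀, hr₀K, hr₀⟩ := Nat.exists_infinite_primes K₀
  have hr₀1 : 1 ≤ r₀ := hr₀.one_lt.le
  have hr₀1' : (1 : ℝ) ≤ r₀ := by exact_mod_cast hr₀1
  have hQ := c.Q_ge_one
  set C : ℝ := c.Q ^ n * (3 * r₀) with hC
  have hC0 : 0 < C := by positivity
  obtain ⟨δ, hδ0, hδ⟩ := height_large_near c n hn N₀
  obtain ⟨a₁, ha₁⟩ := exists_nat_forall_rpow_neg_le (θ := 2 * n + 1 - s)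
    (C := 4 * n * C ^ s / c₁) (η := 1) (by linarith) one_pos
  obtain ⟨a₂, ha₂⟩ := exists_nat_forall_rpow_neg_le (θ := 1) (C := 2) (η := δ / 2) one_pos
    (by linarith)
  obtain ⟨a₃, ha₃⟩ := exists_nat_ge c.T₀
  refine ⟨a₁ + a₂ + a₃ + 1, ?_⟩
  intro a ha
  have haN1 : 1 ≤ a := by omega
  have ha1 : (1 : ℝ) ≤ a := by exact_mod_cast haN1
  have ha0 : (0 : ℝ) < a := by linarith
  have haT : c.T₀ ≤ a := by
    have : (a₃ : ℝ) ≤ a := by exact_mod_cast (by omega : a₃ ≤ a)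
    linarith
  have t1 := ha₁ a (by exact_mod_cast (by omega : a₁ ≤ a))
  have t2 := ha₂ a (by exact_mod_cast (by omega : a₂ ≤ a))
  rw [Real.rpow_neg_one, ← div_eq_mul_inv] at t2
  obtain ⟨X, hX1, hX2, hX0, hXd⟩ := Q_root (n := n) (r₀ := r₀) (a := a) hn hr₀1 haN1
  refine ⟨r₀ * a ^ (n - 1), Nat.mul_le_mul_right _ hr₀K, ?_⟩
  have hbN1 : 1 ≤ r₀ * a ^ (n - 1) := Nat.mul_pos (by omega) (Nat.pow_pos (by omega))
  have hba' : a ^ (n - 1) ≤ r₀ * a ^ (n - 1) := Nat.le_mul_of_pos_left _ (by omega)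
  set b : ℕ := r₀ * a ^ (n - 1) with hb
  have hb1 : (1 : ℝ) ≤ b := by exact_mod_cast hbN1
  have hb0 : (0 : ℝ) < b := by linarith
  have hba : (a : ℝ) ^ (n - 1) ≤ b := by exact_mod_cast hba'
  have hib0 : (0 : ℝ) < 1 / b := by positivity
  have hXpos : 0 < X := by linarith
  have hwX' := c.w_lower haT (show (a : ℝ) - 1 ≤ X by linarith)
  have hwX : 0 < c.w X := by linarith
  have hwY' := c.w_lower haT (show (a : ℝ) - 1 ≤ a + 1 / b by linarith)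
  have hwY : 0 < c.w ((a : ℝ) + 1 / b) := by linarith
  have hwa : 0 < c.w (a : ℝ) := by
    have := c.w_lower haT (by linarith : (a : ℝ) - 1 ≤ a); linarith
  set P₀ := subst n c.t (-c.r) (-c.q) c.p (Qpol n r₀ a) with hP₀
  have hP₀deg : P₀.natDegree ≤ n := natDegree_subst_le _ _ _ _ _ _
  have hP₀X : aeval (c.M X) P₀ = 0 := by
    have h1 := c.aeval_inv (Qpol_natDegree_le n r₀ a) hwX.ne'
    rw [aeval_Qpol, hX0, ← hP₀] at h1
    rcases mul_eq_zero.1 h1 with h2 | h2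
    · exact absurd h2 (pow_ne_zero _ hwX.ne')
    · exact h2
  have hP₀0 : P₀ ≠ 0 := by
    intro h0
    have h1 := c.aeval_inv (Qpol_natDegree_le n r₀ a) hwa.ne'
    rw [← hP₀, h0, map_zero, mul_zero, aeval_Qpol] at h1
    have h2 : (a : ℝ) ^ n = a * a ^ (n - 1) := by rw [← pow_succ']; congr 1; omega
    rw [h2] at h1
    linarith
  obtain ⟨A, A', hAA', hAirr, hAprim, hAdeg1, hAα⟩ := exists_irreducible_factor hP₀0 hP₀X
  have hAA'0 : A * A' ≠ 0 := by rw [← hAA']; exact hP₀0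
  have hAA'deg : (A * A').natDegree ≤ n := by rw [← hAA']; exact hP₀deg
  have hAn1 := deg_start c hn hr₀ hXpos hwX hX0 hAirr.ne_zero hAα
  have hAn : A.natDegree = n := by
    refine le_antisymm ?_ hAn1
    rw [natDegree_mul (left_ne_zero_of_mul hAA'0) (right_ne_zero_of_mul hAA'0)] at hAA'deg
    omega
  have hgood : Good n A (c.M X) := good_of_irreducible hAprim hAirr hAn hAα
  have hht : (ht n A : ℝ) ≤ C * a := by
    have h1 : ht n A ≤ ht n P₀ := by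
      rw [hAA']; exact ht_le_of_mul_const hAA'deg hAA'0 hAn
    have h2 : (ht n A : ℝ) ≤ ht n P₀ := by exact_mod_cast h1
    refine h2.trans ((ht_le_L1 P₀).trans ?_)
    have h3 := L1_subst_le c.t (-c.r) (-c.q) c.p (Qpol n r₀ a) (Qpol_natDegree_le n r₀ a)
    have h4 : |(c.t : ℝ)| + |((-c.r : ℤ) : ℝ)| + |((-c.q : ℤ) : ℝ)| + |(c.p : ℝ)| = c.Q := by
      rw [Crd.Q]; push_cast; rw [abs_neg, abs_neg]; ring
    rw [h4, ← hP₀] at h3
    refine h3.trans ?_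
    rw [hC, mul_assoc]
    exact mul_le_mul_of_nonneg_left (L1_Qpol_le n hr₀1 haN1) (by positivity)
  refine ⟨A, c.M X, hgood, ?_, ?_⟩
  · apply hδ A _ hgood
    have h1 := c.dist_z_M haT (show (a : ℝ) - 1 ≤ X by linarith)
    rw [abs_of_pos h1.1]
    linarith [h1.2]
  · rw [c.M_sub hwY.ne' hwX.ne', abs_div, abs_of_pos (mul_pos hwY hwX)]
    have hA0 : (0 : ℝ) < ht n A := by exact_mod_cast hgood.one_le_ht
    have h1 : (C * a) ^ (-s) ≤ (ht n A : ℝ) ^ (-s) :=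
      Real.rpow_le_rpow_of_nonpos hA0 hht (by linarith)
    have h2 : (a : ℝ) ^ 2 / 4 ≤ c.w ((a : ℝ) + 1 / b) * c.w X := by
      calc (a : ℝ) ^ 2 / 4 = (a / 2) * (a / 2) := by ring
        _ ≤ _ := mul_le_mul hwY' hwX' (by positivity) hwY.le
    have h3 : ((a : ℝ) ^ (n - 1)) ^ 2 ≤ (b : ℝ) ^ 2 := pow_le_pow_left₀ (by positivity) hba 2
    have h4 : ((a : ℝ) ^ (n - 1)) ^ 2 * a * ((a : ℝ) ^ 2 / 4) = (a : ℝ) ^ (2 * n + 1) / 4 := by
      have : (a : ℝ) ^ (2 * n + 1) = ((a : ℝ) ^ (n - 1)) ^ 2 * a * (a : ℝ) ^ 2 := by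
        rw [← pow_mul, ← pow_succ, ← pow_add]; congr 1; omega
      rw [this]; ring
    calc |(a : ℝ) + 1 / b - X| / (c.w ((a : ℝ) + 1 / b) * c.w X)
        ≤ (n / ((b : ℝ) ^ 2 * a)) / ((a : ℝ) ^ 2 / 4) :=
          div_le_div₀ (by positivity) hXd (by positivity) h2
      _ = n / ((b : ℝ) ^ 2 * a * ((a : ℝ) ^ 2 / 4)) := by rw [div_div]
      _ ≤ n / (((a : ℝ) ^ (n - 1)) ^ 2 * a * ((a : ℝ) ^ 2 / 4)) := by gcongr
      _ = 4 * n / (a : ℝ) ^ (2 * n + 1) := by rw [h4]; field_simp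
      _ ≤ c₁ * (C * a) ^ (-s) := by
          rw [Real.mul_rpow hC0.le ha0.le, Real.rpow_neg hC0.le]
          have e1 : (a : ℝ) ^ (-(2 * n + 1 - s)) * (a : ℝ) ^ (2 * n + 1) = (a : ℝ) ^ s := by
            rw [← Real.rpow_natCast, ← Real.rpow_add ha0]; congr 1; push_cast; ring
          have e2 : (a : ℝ) ^ (-s) * (a : ℝ) ^ s = 1 := by
            rw [← Real.rpow_add ha0, neg_add_cancel, Real.rpow_zero]
          have hCs : 0 < C ^ s := by positivity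
          have has : 0 < (a : ℝ) ^ s := by positivity
          have hams : 0 < (a : ℝ) ^ (-s) := by positivity
          rw [div_le_iff₀ (by positivity)]
          have t1' : 4 * n * C ^ s * (a : ℝ) ^ (-(2 * n + 1 - s)) ≤ c₁ := by
            have : 4 * n * C ^ s / c₁ * (a : ℝ) ^ (-(2 * n + 1 - s))
                = (4 * n * C ^ s * (a : ℝ) ^ (-(2 * n + 1 - s))) / c₁ := by ring
            rw [this, div_le_one hc₁] at t1
            exact t1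
          have t2' : 4 * n * (a : ℝ) ^ (-(2 * n + 1 - s)) ≤ c₁ * (C ^ s)⁻¹ := by
            rw [← div_eq_mul_inv, le_div_iff₀ hCs]
            linarith
          calc (4 * n : ℝ) = 4 * n * ((a : ℝ) ^ (-s) * (a : ℝ) ^ s) := by rw [e2, mul_one]
            _ = (4 * n * (a : ℝ) ^ (-(2 * n + 1 - s))) * (a : ℝ) ^ (-s) * (a : ℝ) ^ (2 * n + 1) := by
                rw [← e1]; ring
            _ ≤ (c₁ * (C ^ s)⁻¹) * (a : ℝ) ^ (-s) * (a : ℝ) ^ (2 * n + 1) := by gcongr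
            _ = _ := by ring
      _ ≤ c₁ * (ht n A : ℝ) ^ (-s) := mul_le_mul_of_nonneg_left h1 hc₁.le

end Pool.Agent.H89.Alg
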