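import Pool.Agent.H89.Alg.LemT2

set_option autoImplicit false

open Polynomial

namespace Pool.Agent.H89.Alg

/-- The bad distance is small compared to the distance to `z`. -/
lemma small_dist (c : Crd) {a X s κ H c₁ : ℝ} (haT : c.T₀ ≤ a) (hs0 : 0 < s)
    (hκ0 : 0 < κ) (hc₁ : 0 < c₁) (hw0 : 0 < c.w X) (hw : c.w X ≤ 3 * c.Q * a)
    (hκa : κ * a ≤ H) (ht5 : 6 * c.Q * c.q * c₁ * κ ^ (-s) * a ^ (-(s - 1)) ≤ 1) :
    c₁ * H ^ (-s) ≤ (c.z - c.M X) / 2 := by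
  have ha4 : 4 ≤ a := c.T₀_ge.trans haT
  have ha0 : 0 < a := by linarith
  have hq0 := c.hq0
  have hQ := c.Q_ge_one
  have hH0 : 0 < H := lt_of_lt_of_le (mul_pos hκ0 ha0) hκa
  have hzx : c.z - c.M X = 1 / (c.q * c.w X) := c.z_sub_M hw0.ne'
  have hHs' : H ^ (-s) ≤ κ ^ (-s) * a ^ (-s) := by
    rw [← Real.mul_rpow hκ0.le ha0.le]
    exact Real.rpow_le_rpow_of_nonpos (by positivity) hκa (by linarith)
  rw [hzx]
  have h1 : 1 / (6 * c.Q * c.q * a) ≤ 1 / (c.q * c.w X) / 2 := by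
    rw [div_div]
    apply one_div_le_one_div_of_le (by positivity)
    calc c.q * c.w X * 2 ≤ c.q * (3 * c.Q * a) * 2 := by gcongr
      _ = 6 * c.Q * c.q * a := by ring
  refine le_trans ?_ h1
  rw [le_div_iff₀ (by positivity)]
  have e1 : a ^ (-s) * a = a ^ (-(s - 1)) := by
    nth_rewrite 2 [← Real.rpow_one a]
    rw [← Real.rpow_add ha0]; congr 1; ring
  calc c₁ * H ^ (-s) * (6 * c.Q * c.q * a)
      ≤ c₁ * (κ ^ (-s) * a ^ (-s)) * (6 * c.Q * c.q * a) := by gcongr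
    _ = 6 * c.Q * c.q * c₁ * κ ^ (-s) * (a ^ (-s) * a) := by ring
    _ ≤ 1 := by rw [e1]; exact ht5

/-- In the coordinates the bad point is at distance at most `1/b`. -/
lemma coord_dist (c : Crd) {n : ℕ} (hn : 1 ≤ n) {a b X β s κ H C c₁ : ℝ} (haT : c.T₀ ≤ a)
    (hs1 : 1 < s) (hb0 : 0 < b)
    (hκ0 : 0 < κ) (hC0 : 0 < C) (hc₁ : 0 < c₁) (hw0 : 0 < c.w X) (hw : c.w X ≤ 3 * c.Q * a)
    (hwβ0 : 0 < c.w (c.inv β)) (hwβ : c.w (c.inv β) ≤ 2 * c.w X)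
    (hdiff : c.M X - β = (X - c.inv β) / (c.w X * c.w (c.inv β)))
    (hκa : κ * a ≤ H) (h2nh : 1 ≤ 2 * n * (C * H * a ^ (n - 1) / (a * b)))
    (hbad : |c.M X - β| ≤ c₁ * H ^ (-s))
    (t4 : 36 * n * c.Q ^ 2 * c₁ * C * κ ^ (1 - s) * a ^ (-(s - n - 1)) ≤ 1) :
    |X - c.inv β| ≤ 1 / b := by
  have ha4 : 4 ≤ a := c.T₀_ge.trans haT
  have ha0 : 0 < a := by linarith
  have hq0 := c.hq0
  have hQ := c.Q_ge_one
  have hH0 : 0 < H := lt_of_lt_of_le (mul_pos hκ0 ha0) hκa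
  have h1 : X - c.inv β = (c.M X - β) * (c.w X * c.w (c.inv β)) := by rw [hdiff]; field_simp
  rw [h1, abs_mul, abs_of_pos (mul_pos hw0 hwβ0)]
  have h2 : H⁻¹ ≤ 2 * n * C * a ^ (n - 1) / (a * b) := by
    rw [inv_le_iff_one_le_mul₀ hH0]
    calc (1 : ℝ) ≤ 2 * n * (C * H * a ^ (n - 1) / (a * b)) := h2nh
      _ = _ := by ring
  have h3 : H ^ (-s) = H⁻¹ * H ^ (1 - s) := by
    rw [← Real.rpow_neg_one, ← Real.rpow_add hH0]; congr 1; ring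
  have h4 : H ^ (1 - s) ≤ κ ^ (1 - s) * a ^ (1 - s) := by
    rw [← Real.mul_rpow hκ0.le ha0.le]
    exact Real.rpow_le_rpow_of_nonpos (by positivity) hκa (by linarith)
  have h5 : c.w X * c.w (c.inv β) ≤ 18 * c.Q ^ 2 * a ^ 2 := by
    calc c.w X * c.w (c.inv β) ≤ (3 * c.Q * a) * (2 * (3 * c.Q * a)) := by
          refine mul_le_mul hw (hwβ.trans ?_) hwβ0.le (by positivity)
          linarith
      _ = _ := by ring
  have e1 : a ^ 2 * a ^ (n - 1) * a ^ (1 - s) = a * a ^ (-(s - n - 1)) := by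
    have h6 : a * a ^ (n - 1) = a ^ n := by
      rw [← pow_succ']; congr 1; omega
    calc a ^ 2 * a ^ (n - 1) * a ^ (1 - s)
        = a * ((a * a ^ (n - 1)) * a ^ (1 - s)) := by ring
      _ = _ := by
        rw [h6, ← Real.rpow_natCast a n, ← Real.rpow_add ha0]
        congr 2; ring
  calc |c.M X - β| * (c.w X * c.w (c.inv β))
      ≤ (c₁ * H ^ (-s)) * (18 * c.Q ^ 2 * a ^ 2) :=
        mul_le_mul hbad h5 (by positivity) (by positivity)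
    _ ≤ (c₁ * ((2 * n * C * a ^ (n - 1) / (a * b)) *
        (κ ^ (1 - s) * a ^ (1 - s)))) * (18 * c.Q ^ 2 * a ^ 2) := by
        rw [h3]; gcongr
    _ = (36 * n * c.Q ^ 2 * c₁ * C * κ ^ (1 - s)) *
        (a ^ 2 * a ^ (n - 1) * a ^ (1 - s)) / (a * b) := by ring
    _ = (36 * n * c.Q ^ 2 * c₁ * C * κ ^ (1 - s) * a ^ (-(s - n - 1))) * (1 / b) := by
        rw [e1]; field_simp
    _ ≤ 1 * (1 / b) := mul_le_mul_of_nonneg_right t4 (by positivity)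
    _ = 1 / b := one_mul _

/-- numerical estimate for `h / a` -/
lemma h_small {n : ℕ} {a b H C C' ε : ℝ} (ha0 : 0 < a) (hb0 : 0 < b) (hC0 : 0 < C)
    (hC' : 0 ≤ C') (hab : a ^ (n - 1) ≤ b) (hHab : H ≤ C * (a * b))
    (ht : C' * C ^ 2 / a ≤ ε / 3) :
    C' * (C * H * a ^ (n - 1) / (a * b) / a) ≤ b * (ε / 3) := by
  have h1 : C * H * a ^ (n - 1) / (a * b) ≤ C ^ 2 * a ^ (n - 1) := by
    rw [div_le_iff₀ (by positivity)]
    calc C * H * a ^ (n - 1) ≤ C * (C * (a * b)) * a ^ (n - 1) := by gcongr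
      _ = C ^ 2 * a ^ (n - 1) * (a * b) := by ring
  have h2 : C * H * a ^ (n - 1) / (a * b) ≤ C ^ 2 * b :=
    h1.trans (mul_le_mul_of_nonneg_left hab (by positivity))
  calc C' * (C * H * a ^ (n - 1) / (a * b) / a) ≤ C' * (C ^ 2 * b / a) := by gcongr
    _ = b * (C' * C ^ 2 / a) := by ring
    _ ≤ b * (ε / 3) := mul_le_mul_of_nonneg_left ht hb0.le

lemma const_chain {c₁ c₂ c₃ s K ε H HP : ℝ} (hs0 : 0 < s) (hc₁ : 0 < c₁) (hH0 : 0 < H)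
    (hHP : 0 < HP) (hK : 0 < K) (hle : HP ≤ H * K) (hK' : c₁ * K ^ s < c₃)
    (hε0 : 0 < ε) (hε1 : ε ≤ 1 / 2) (hε : (1 + ε) ^ 4 / (1 - ε) * c₃ < c₂) {d d' : ℝ}
    (hd : d ≤ c₁ * H ^ (-s)) (hd' : d' ≤ (1 + ε) ^ 4 / (1 - ε) * d) :
    d' < c₂ * HP ^ (-s) := by
  have h1ε : 0 < 1 - ε := by linarith
  have hk0 : 0 < (1 + ε) ^ 4 / (1 - ε) := by positivity
  have h1 : H ^ (-s) ≤ K ^ s * HP ^ (-s) := by
    have h2 : (H * K) ^ (-s) ≤ HP ^ (-s) :=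
      Real.rpow_le_rpow_of_nonpos hHP hle (by linarith)
    rw [Real.mul_rpow hH0.le hK.le] at h2
    have h3 : K ^ s * K ^ (-s) = 1 := by
      rw [← Real.rpow_add hK, add_neg_cancel, Real.rpow_zero]
    have h4 : 0 < K ^ s := by positivity
    calc H ^ (-s) = H ^ (-s) * (K ^ s * K ^ (-s)) := by rw [h3, mul_one]
      _ = K ^ s * (H ^ (-s) * K ^ (-s)) := by ring
      _ ≤ _ := mul_le_mul_of_nonneg_left h2 h4.le
  have hr0 : 0 < HP ^ (-s) := by positivity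
  calc d' ≤ (1 + ε) ^ 4 / (1 - ε) * (c₁ * H ^ (-s)) :=
        hd'.trans (mul_le_mul_of_nonneg_left hd hk0.le)
    _ ≤ (1 + ε) ^ 4 / (1 - ε) * (c₁ * (K ^ s * HP ^ (-s))) := by gcongr
    _ = ((1 + ε) ^ 4 / (1 - ε) * (c₁ * K ^ s)) * HP ^ (-s) := by ring
    _ ≤ ((1 + ε) ^ 4 / (1 - ε) * c₃) * HP ^ (-s) := by gcongr
    _ < c₂ * HP ^ (-s) := mul_lt_mul_of_pos_right hε hr0

/-- Transport of a bad approximation from `M(a+1/b)` to `M(a+1/(b+1))`. -/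
lemma lemmaT (c : Crd) (n : ℕ) (hn : 2 ≤ n) (s : ℝ) (hs : (n : ℝ) + 1 < s) (c₁ c₂ : ℝ)
    (hc₁ : 0 < c₁) (hc : c₁ < c₂) (N₀ : ℕ)
    (hz : ∀ (P : ℤ[X]) (β : ℝ), Good n P β → N₀ ≤ ht n P → c₁ * (ht n P : ℝ) ^ (-s) < |c.z - β|) :
    ∃ K₀ : ℕ, 1 ≤ K₀ ∧ ∀ B : ℕ, ∃ a₀ : ℕ, ∀ a b : ℕ, a₀ ≤ a → K₀ * a ^ (n - 1) ≤ b →
      ∀ (P : ℤ[X]) (β : ℝ), Good n P β → N₀ ≤ ht n P →
      |c.M ((a : ℝ) + 1 / b) - β| ≤ c₁ * (ht n P : ℝ) ^ (-s) →
      ∃ (P' : ℤ[X]) (α : ℝ), Good n P' α ∧ B ≤ ht n P' ∧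
        |c.M ((a : ℝ) + 1 / (b + 1)) - α| < c₂ * (ht n P' : ℝ) ^ (-s) := by
  have hn2 : (2 : ℝ) ≤ n := by exact_mod_cast hn
  have hs0 : 0 < s := by linarith
  have hc₂ : 0 < c₂ := by linarith
  have hQ := c.Q_ge_one
  have hq1 := c.hq1
  obtain ⟨C, hC1, κ, hκ0, hfacts⟩ := bad_facts c n hn s hs c₁ hc₁ N₀ hz
  have hC0 : 0 < C := by linarith
  set Γ : ℝ := c.Q ^ n * (n * 2 ^ n * ((n ^ 2 + n) * C)) with hΓ
  have hΓ0 : 0 < Γ := by positivity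
  obtain ⟨K₀, hK₀1, hK₀⟩ := exists_K (s := s) (Γ := Γ) hc
  obtain ⟨ε, hε0, hε1, hε⟩ := exists_eps (show (c₁ + c₂) / 2 < c₂ by linarith)
  refine ⟨K₀, hK₀1, ?_⟩
  intro B
  obtain ⟨a₁, ha₁⟩ := hfacts (min (ε / 3) (1 / 6)) (lt_min (by linarith) (by norm_num))
  obtain ⟨a₂, ha₂⟩ := lower_excluded c n hn s hs (c₂ * (2 ^ n * (n + 1)) ^ s) (by positivity)
  obtain ⟨δ, hδ0, hδ⟩ := height_large_near c n hn B
  set C' : ℝ := n + n ^ 2 * 2 ^ n + n ^ 2 * 2 ^ n * (n ^ 2 + n) with hC'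
  have hC'0 : 0 < C' := by positivity
  obtain ⟨a₃, ha₃⟩ := exists_nat_forall_rpow_neg_le (θ := 1) (C := 1 + C' * C ^ 2 + 4 * c.q)
    (η := ε / 3) one_pos (by linarith)
  obtain ⟨a₄, ha₄⟩ := exists_nat_forall_rpow_neg_le (θ := s - n - 1)
    (C := 36 * n * c.Q ^ 2 * c₁ * C * κ ^ (1 - s)) (η := 1) (by linarith) one_pos
  obtain ⟨a₅, ha₅⟩ := exists_nat_forall_rpow_neg_le (θ := s - 1)
    (C := 6 * c.Q * c.q * c₁ * κ ^ (-s)) (η := 1) (by linarith) one_pos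
  obtain ⟨a₆, ha₆⟩ := exists_nat_forall_rpow_neg_le (θ := 1) (C := 2) (η := δ / 2) one_pos
    (by linarith)
  refine ⟨a₁ + a₂ + a₃ + a₄ + a₅ + a₆ + 4, ?_⟩
  intro a b ha hab P β hP hNP hbad
  have haN1 : 1 ≤ a := by omega
  have hab1 : a ^ (n - 1) ≤ b := (Nat.le_mul_of_pos_left _ hK₀1).trans hab
  obtain ⟨haT, hκa, hF0, hρ0, hρε, hcoef, hHs, hHab⟩ := ha₁ a b (by omega) hab1 P β hP hNP hbad
  have ha0 : (0 : ℝ) < a := by exact_mod_cast haN1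
  have ha4 : (4 : ℝ) ≤ a := by exact_mod_cast (by omega : 4 ≤ a)
  have hbN1 : 1 ≤ b := (Nat.one_le_pow _ _ haN1).trans hab1
  have hb1 : (1 : ℝ) ≤ b := by exact_mod_cast hbN1
  have hb0 : (0 : ℝ) < b := by linarith
  have hab1' : (a : ℝ) ^ (n - 1) ≤ b := by exact_mod_cast hab1
  have hab' : (K₀ : ℝ) * (a : ℝ) ^ (n - 1) ≤ b := by exact_mod_cast hab
  have hale : (a : ℝ) ≤ (a : ℝ) ^ (n - 1) := le_self_pow₀ (by linarith) (by omega)
  have hab2 : (a : ℝ) ≤ b := hale.trans hab1'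
  have hb4 : (4 : ℝ) ≤ b := ha4.trans hab2
  have hK₀' : (1 : ℝ) ≤ K₀ := by exact_mod_cast hK₀1
  have t3 := ha₃ a (by exact_mod_cast (by omega : a₃ ≤ a))
  have t4 := ha₄ a (by exact_mod_cast (by omega : a₄ ≤ a))
  have t5 := ha₅ a (by exact_mod_cast (by omega : a₅ ≤ a))
  have t6 := ha₆ a (by exact_mod_cast (by omega : a₆ ≤ a))
  rw [Real.rpow_neg_one, ← div_eq_mul_inv] at t3 t6
  have hCC : 0 ≤ C' * C ^ 2 := by positivity
  have t3a : 1 / (a : ℝ) ≤ ε / 3 := by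
    refine le_trans ?_ t3
    gcongr
    linarith
  have t3b : C' * C ^ 2 / (a : ℝ) ≤ ε / 3 := by
    refine le_trans ?_ t3
    gcongr
    linarith
  have t3c : 4 * c.q ≤ ε * a := by
    have h1 : 4 * (c.q : ℝ) / a ≤ ε / 3 := by
      refine le_trans ?_ t3
      gcongr
      linarith
    rw [div_le_iff₀ ha0] at h1
    have h2 : 0 ≤ ε * a := by positivity
    linarith
  have hinvb : 1 / (b : ℝ) ≤ ε / 3 := (one_div_le_one_div_of_le ha0 hab2).trans t3a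
  have hH1 : (1 : ℝ) ≤ (ht n P : ℝ) := by exact_mod_cast hP.one_le_ht
  have hH0 : (0 : ℝ) < (ht n P : ℝ) := by linarith
  have hFdeg : (subst n c.p c.r c.q c.t P).natDegree ≤ n := natDegree_subst_le _ _ _ _ _ _
  have hhab : C * (ht n P : ℝ) * (a : ℝ) ^ (n - 1) / (a * b) * (a * b)
      = C * (ht n P : ℝ) * (a : ℝ) ^ (n - 1) := by field_simp
  have hh0 : 0 ≤ C * (ht n P : ℝ) * (a : ℝ) ^ (n - 1) / (a * b) := by positivity
  have hcoef' : ∀ j ≤ n, |(((fun j => (taylor (a : ℤ) (subst n c.p c.r c.q c.t P)).coeff j) j : ℤ)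
      : ℝ)| * (a : ℝ) ^ j ≤ C * (ht n P : ℝ) * (a : ℝ) ^ (n - 1) / (a * b) * (a * b) := by
    intro j hj
    rw [hhab]
    exact hcoef j hj
  have hfv : ∀ y : ℝ, aeval ((a : ℝ) + y) (subst n c.p c.r c.q c.t P)
      = fv (fun j => (taylor (a : ℤ) (subst n c.p c.r c.q c.t P)).coeff j) n y := by
    intro y
    have := aeval_taylor_fv hFdeg (a : ℤ) y
    rw [Int.cast_natCast] at this
    exact this
  have hp0 : (fun j => (taylor (a : ℤ) (subst n c.p c.r c.q c.t P)).coeff j) 0 ≠ 0 := by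
    simp only [taylor_coeff_zero]; exact hF0
  rw [hfv] at hρ0 hρε
  have h2nh := (transport n (by omega) _ a b haN1 hbN1 _ hh0 hcoef' hp0 hρ0
    ((hρε.trans (min_le_right _ _)).trans (by norm_num))).1
  have hha := h_small (n := n) ha0 hb0 hC0 hC'0.le hab1' hHab t3b
  -- location of β
  have hib0 : (0 : ℝ) < 1 / b := by positivity
  have hib1 : (1 : ℝ) / b ≤ 1 / 4 := one_div_le_one_div_of_le (by norm_num) hb4
  have hwb := c.w_lower haT (show (a : ℝ) - 1 ≤ a + 1 / b by linarith)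
  have hwb' := c.w_upper haT (show (a : ℝ) + 1 / b ≤ a + 1 by linarith) (by positivity)
  have hwb0 : 0 < c.w ((a : ℝ) + 1 / b) := by linarith
  have hsmall := small_dist c haT hs0 hκ0 hc₁ hwb0 hwb' hκa t5
  obtain ⟨hβz, hwβ0, hwβ2, hdiff⟩ := loc_beta c hwb0 (hbad.trans hsmall)
  have hXd := coord_dist c (show 1 ≤ n by omega) haT (by linarith) hb0 hκ0 hC0 hc₁ hwb0 hwb'
    hwβ0 hwβ2 hdiff hκa h2nh hbad t4
  have hMβ : c.M (c.inv β) = β := c.M_inv hβz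
  have hyβd : |1 / (b : ℝ) - (c.inv β - a)| ≤ 1 / b := by
    have : 1 / (b : ℝ) - (c.inv β - a) = (a : ℝ) + 1 / b - c.inv β := by ring
    rw [this]; exact hXd
  have hfβ : fv (fun j => (taylor (a : ℤ) (subst n c.p c.r c.q c.t P)).coeff j) n
      (c.inv β - a) = 0 := by
    rw [← hfv]
    have : (a : ℝ) + (c.inv β - a) = c.inv β := by ring
    rw [this, c.aeval_sub hP.natDegree_le hwβ0.ne', hMβ, hP.aeval, mul_zero]
  obtain ⟨k, hk1, hkn, hJ, hstar0, ys, hys0, hysd, hysabs⟩ := y_analysis n (by omega) _ a b haN1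
    hb4 _ ε (c.inv β - a) hh0 hcoef' hp0 hρ0 hε0 hε1 (hρε.trans (min_le_left _ _))
    (hρε.trans (min_le_right _ _)) hinvb hha hyβd hfβ
  have hys_le := abs_le.1 hysabs
  obtain ⟨PS, hPSdeg, hPSht, hPSval⟩ := new_poly c n P hP.natDegree_le a b K₀ k haN1 hbN1 hK₀1 hab'
    C hC0.le hkn hJ
  rw [← hΓ] at hPSht
  have hy'0 : (0 : ℝ) < 1 / (b + 1) := by positivity
  have hy'1 : (1 : ℝ) / (b + 1) ≤ 1 / b := one_div_le_one_div_of_le hb0 (by linarith)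
  have hXs1 : (a : ℝ) - 1 ≤ a + ys := by linarith [hys_le.1]
  have hXs2 : (a : ℝ) + ys ≤ a + 1 := by linarith [hys_le.2]
  have hX'1 : (a : ℝ) - 1 ≤ a + 1 / (b + 1) := by linarith
  have hwXs0 : 0 < c.w ((a : ℝ) + ys) := by have := c.w_lower haT hXs1; linarith
  have hwX'0 : 0 < c.w ((a : ℝ) + 1 / (b + 1)) := by have := c.w_lower haT hX'1; linarith
  have hwa0 : 0 < c.w (a : ℝ) := by have := c.w_lower haT (by linarith : (a : ℝ) - 1 ≤ a); linarith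
  have hcomp := compare_dist c haT hε0 hε1 t3c (X := (a : ℝ) + 1 / b) (Xβ := c.inv β)
    (X' := (a : ℝ) + 1 / (b + 1)) (Xs := (a : ℝ) + ys) (by linarith)
    (by linarith [(abs_le.1 hXd).1]) hwb0 hwβ0 hX'1 hXs1 (by
      have e1 : (a : ℝ) + ys - (a + 1 / (b + 1)) = ys - 1 / (b + 1) := by ring
      have e2 : (a : ℝ) + 1 / b - c.inv β = 1 / (b : ℝ) - (c.inv β - a) := by ring
      rw [e1, e2]; exact hysd)
  rw [hMβ] at hcomp
  have hPSα : aeval (c.M ((a : ℝ) + ys)) PS = 0 := by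
    have h1 := hPSval ys hwXs0
    rw [hys0] at h1
    rcases mul_eq_zero.1 h1 with h2 | h2
    · exact absurd h2 (pow_ne_zero _ hwXs0.ne')
    · exact h2
  have hPSX' : aeval (c.M ((a : ℝ) + 1 / (b + 1))) PS ≠ 0 := by
    intro h0
    have h1 := hPSval (1 / (b + 1)) hwX'0
    rw [h0, mul_zero] at h1
    exact hstar0 h1.symm
  have hPSa : aeval (c.M a) PS ≠ 0 := by
    intro h0
    have h1 := hPSval 0 (by rw [add_zero]; exact hwa0)
    rw [add_zero, h0, mul_zero, zero_mul, sub_zero, fv, Finset.sum_range_succ'] at h1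
    simp only [pow_zero, mul_one, ne_eq, Nat.add_eq_zero_iff, one_ne_zero, and_false,
      not_false_eq_true, zero_pow, mul_zero, Finset.sum_const_zero, zero_add] at h1
    apply hp0
    exact_mod_cast h1.symm
  have hPS0 : PS ≠ 0 := by
    intro h0
    apply hPSa
    rw [h0, map_zero]
  have hHPS0 : (0 : ℝ) < ht n PS := by exact_mod_cast one_le_ht hPSdeg hPS0
  have hfinal := const_chain (HP := (ht n PS : ℝ)) hs0 hc₁ hH0 hHPS0
    (by positivity : 0 < 1 + Γ / K₀) hPSht hK₀ hε0 hε1 hε hbad hcomp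
  have hdα := c.dist_z_M haT hXs1
  rcases factor_finish n hs0 hc₂ hPSdeg hPSα hPS0 hfinal with
    ⟨A, hgood, hAd⟩ | ⟨A, A', hAA', hAirr, hAdegn, hAdeg1, hAprim, hAα, hAd⟩
  · refine ⟨A, c.M ((a : ℝ) + ys), hgood, ?_, hAd⟩
    apply hδ A _ hgood
    rw [abs_of_pos hdα.1]
    linarith [hdα.2]
  · exfalso
    have hXcast : ((a : ℝ) + 1 / ((b + 1 : ℕ) : ℝ)) = (a : ℝ) + 1 / (b + 1) := by push_cast; rfl
    refine ha₂ a (b + 1) (by omega) (by omega) A _ _ hAirr hAdegn hAdeg1 hAprim hAα hXs1 rfl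
      ?_ ?_ ?_
    · intro h0
      apply hPSa
      rw [hAA', map_mul, h0, zero_mul]
    · rw [hXcast]
      intro h0
      apply hPSX'
      rw [hAA', map_mul, h0, zero_mul]
    · rw [hXcast]
      exact hAd

end Pool.Agent.H89.Alg
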