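import Pool.Agent.H89.Alg.Tools

set_option autoImplicit false

open Polynomial

namespace Pool.Agent.H89.Alg

lemma exists_K {c₁ c₂ s Γ : ℝ} (hc : c₁ < c₂) :
    ∃ K₀ : ℕ, 1 ≤ K₀ ∧ c₁ * (1 + Γ / K₀) ^ s < (c₁ + c₂) / 2 := by
  have h1 : Filter.Tendsto (fun K : ℕ => 1 + Γ / (K : ℝ)) Filter.atTop (nhds (1 + 0)) :=
    (tendsto_const_div_atTop_nhds_zero_nat Γ).const_add 1
  rw [add_zero] at h1
  have h2 : Filter.Tendsto (fun K : ℕ => c₁ * (1 + Γ / (K : ℝ)) ^ s) Filter.atTop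
      (nhds (c₁ * (1 : ℝ) ^ s)) :=
    (h1.rpow_const (Or.inl one_ne_zero)).const_mul c₁
  rw [Real.one_rpow, mul_one] at h2
  have h3 := (h2.eventually_lt_const (show c₁ < (c₁ + c₂) / 2 by linarith)).and
    (Filter.eventually_ge_atTop 1)
  obtain ⟨K, hK, hK1⟩ := h3.exists
  exact ⟨K, hK1, hK⟩

lemma exists_eps {c₃ c₂ : ℝ} (hc : c₃ < c₂) :
    ∃ ε : ℝ, 0 < ε ∧ ε ≤ 1 / 2 ∧ (1 + ε) ^ 4 / (1 - ε) * c₃ < c₂ := by
  have hcont : ContinuousAt (fun ε : ℝ => (1 + ε) ^ 4 / (1 - ε) * c₃) 0 := by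
    apply ContinuousAt.mul _ continuousAt_const
    apply ContinuousAt.div
    · fun_prop
    · fun_prop
    · norm_num
  have h1 : Filter.Tendsto (fun ε : ℝ => (1 + ε) ^ 4 / (1 - ε) * c₃) (nhds 0)
      (nhds ((1 + 0) ^ 4 / (1 - 0) * c₃)) := hcont
  have h2 : ((1 + 0 : ℝ) ^ 4 / (1 - 0) * c₃) = c₃ := by norm_num
  rw [h2] at h1
  have h3 := h1.eventually_lt_const hc
  rw [Metric.eventually_nhds_iff] at h3
  obtain ⟨δ, hδ0, hδ⟩ := h3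
  refine ⟨min (δ / 2) (1 / 2), lt_min (by linarith) (by norm_num), min_le_right _ _, ?_⟩
  apply hδ
  rw [Real.dist_eq, sub_zero, abs_of_pos (lt_min (by linarith) (by norm_num))]
  exact (min_le_left _ _).trans_lt (by linarith)

/-- numeric comparison used below -/
lemma new_root_aux {b ρ μ E' ε : ℝ} (hb4 : 4 ≤ b) (hρ2 : |ρ| ≤ 1 / 6) (hμb : b ≤ μ)
    (hE : E' ≤ ε * μ) (hε1 : ε ≤ 1 / 2) :
    (1 + 1 / b) * |ρ| ≤ (μ - E') * (1 / b) := by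
  have hb0 : 0 < b := by linarith
  have hib1 : 1 / b ≤ 1 / 4 := one_div_le_one_div_of_le (by norm_num) hb4
  have hib0 : 0 < 1 / b := by positivity
  have h1 : (1 + 1 / b) * |ρ| ≤ 1 / 3 := by
    have := abs_nonneg ρ
    nlinarith
  have hμ0 : 0 < μ := by linarith
  have h2 : 1 / 2 * μ ≤ μ - E' := by nlinarith
  have h3 : (1 : ℝ) / 2 ≤ 1 / 2 * μ * (1 / b) := by
    rw [mul_one_div, le_div_iff₀ hb0]; linarith
  have h4 : 1 / 2 * μ * (1 / b) ≤ (μ - E') * (1 / b) :=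
    mul_le_mul_of_nonneg_right h2 hib0.le
  linarith

/-- Analysis in the `y` coordinate. -/
lemma y_analysis (n : ℕ) (hn : 1 ≤ n) (p : ℕ → ℤ) (a b : ℕ) (ha : 1 ≤ a) (hb4 : (4 : ℝ) ≤ b)
    (h ε yβ : ℝ) (hh : 0 ≤ h) (hp : ∀ j ≤ n, |(p j : ℝ)| * (a : ℝ) ^ j ≤ h * (a * b))
    (hp0 : p 0 ≠ 0) (hρ0 : fv p n (1 / b) ≠ 0) (hε0 : 0 < ε) (hε1 : ε ≤ 1 / 2)
    (hρ1 : |fv p n (1 / b)| ≤ ε / 3) (hρ2 : |fv p n (1 / b)| ≤ 1 / 6)
    (hinvb : 1 / (b : ℝ) ≤ ε / 3)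
    (hha : (n + n ^ 2 * 2 ^ n + n ^ 2 * 2 ^ n * (n ^ 2 + n)) * (h / a) ≤ b * (ε / 3))
    (hyβ : |1 / (b : ℝ) - yβ| ≤ 1 / b) (hfβ : fv p n yβ = 0) :
    ∃ k, 1 ≤ k ∧ k ≤ n ∧ (∀ j < k, |(Jr p b j : ℝ)| * (a : ℝ) ^ j ≤ (n ^ 2 + n) * h) ∧
      fv p n (1 / (b + 1)) - (1 / (b + 1)) * Gv p b k (1 / (b + 1)) ≠ 0 ∧
      ∃ ys : ℝ, fv p n ys - ys * Gv p b k ys = 0 ∧
        |ys - 1 / (b + 1)| ≤ (1 + ε) ^ 2 / (1 - ε) * |1 / (b : ℝ) - yβ| ∧ |ys| ≤ 1 / 2 := by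
  have hb0 : (0 : ℝ) < b := by linarith
  have ha0 : (0 : ℝ) < a := by exact_mod_cast ha
  have hbN1 : 1 ≤ b := by
    have : (1 : ℝ) ≤ b := by linarith
    exact_mod_cast this
  obtain ⟨_, hT3, k, hk1, hkn, hJ, hstar0, hstarle, hT4⟩ := transport n hn p a b ha hbN1
    h hh hp hp0 hρ0 (hρ2.trans (by norm_num))
  set ρ := fv p n (1 / b) with hρ
  set C' : ℝ := n + n ^ 2 * 2 ^ n + n ^ 2 * 2 ^ n * (n ^ 2 + n) with hC'
  have hp01 : (1 : ℝ) ≤ |(p 0 : ℝ)| := by exact_mod_cast Int.one_le_abs hp0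
  set μ : ℝ := b * |(p 0 : ℝ)| with hμ
  have hμb : (b : ℝ) ≤ μ := by
    rw [hμ]; exact le_mul_of_one_le_right hb0.le hp01
  have hμ0 : 0 < μ := by linarith
  have hmabs : |(b : ℝ) * (p 0 : ℝ)| = μ := by rw [abs_mul, abs_of_pos hb0]
  have hib0 : (0 : ℝ) < 1 / b := by positivity
  have hib1 : (1 : ℝ) / b ≤ 1 / 4 := one_div_le_one_div_of_le (by norm_num) hb4
  have h2b : 2 / (b : ℝ) = 1 / b + 1 / b := by ring
  have hbρ : b * |ρ| ≤ b * (ε / 3) := mul_le_mul_of_nonneg_left hρ1 hb0.le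
  have hbμ : b * (ε / 3) ≤ μ * (ε / 3) := mul_le_mul_of_nonneg_right hμb (by linarith)
  have hE1 : b * |ρ| + (n + n ^ 2 * 2 ^ n) * (h / a) ≤ ε * μ := by
    have h1 : (n + n ^ 2 * 2 ^ n : ℝ) ≤ C' := by
      rw [hC']; have : (0 : ℝ) ≤ n ^ 2 * 2 ^ n * (n ^ 2 + n) := by positivity
      linarith
    have h2 : (n + n ^ 2 * 2 ^ n : ℝ) * (h / a) ≤ C' * (h / a) :=
      mul_le_mul_of_nonneg_right h1 (by positivity)
    have h3 : 0 ≤ μ * (ε / 3) := by positivity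
    linarith
  have hE2 : b * |ρ| + |(p 0 : ℝ)| + C' * (h / a) ≤ ε * μ := by
    have h4 : |(p 0 : ℝ)| ≤ μ * (ε / 3) := by
      have h5 : 1 ≤ b * (ε / 3) := by
        rw [div_le_iff₀ hb0] at hinvb; linarith
      calc |(p 0 : ℝ)| = |(p 0 : ℝ)| * 1 := (mul_one _).symm
        _ ≤ |(p 0 : ℝ)| * (b * (ε / 3)) := mul_le_mul_of_nonneg_left h5 (abs_nonneg _)
        _ = _ := by rw [hμ]; ring
    linarith
  set E := b * |ρ| + (n + n ^ 2 * 2 ^ n) * (h / a) with hEdef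
  set E' := b * |ρ| + |(p 0 : ℝ)| + C' * (h / a) with hE'def
  clear_value E E' C'
  have hyβ2 : |yβ| ≤ 2 / b := by
    calc |yβ| = |1 / (b : ℝ) - (1 / b - yβ)| := by ring_nf
      _ ≤ |1 / (b : ℝ)| + |1 / b - yβ| := abs_sub _ _
      _ ≤ 2 / b := by rw [abs_of_pos hib0, h2b]; linarith
  have hρle : |ρ| ≤ (1 + ε) * μ * |1 / (b : ℝ) - yβ| := by
    have h1 := hT3 (1 / b) yβ (by rw [abs_of_pos hib0, h2b]; linarith) hyβ2
    rw [hfβ, sub_zero] at h1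
    have h2 : |ρ| ≤ |ρ + b * p 0 * (1 / b - yβ)| + |b * p 0 * (1 / b - yβ)| := by
      calc |ρ| = |(ρ + b * p 0 * (1 / b - yβ)) - b * p 0 * (1 / b - yβ)| := by ring_nf
        _ ≤ _ := abs_sub _ _
    have h3 : |b * p 0 * (1 / b - yβ)| = μ * |1 / (b : ℝ) - yβ| := by rw [abs_mul, hmabs]
    rw [h3] at h2
    have h4 : E * |1 / (b : ℝ) - yβ| ≤ ε * μ * |1 / (b : ℝ) - yβ| :=
      mul_le_mul_of_nonneg_right hE1 (abs_nonneg _)
    calc |ρ| ≤ E * |1 / (b : ℝ) - yβ| + μ * |1 / (b : ℝ) - yβ| := h2.trans (by linarith)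
      _ ≤ ε * μ * |1 / (b : ℝ) - yβ| + μ * |1 / (b : ℝ) - yβ| := by linarith
      _ = _ := by ring
  set g : ℝ → ℝ := fun y => fv p n y - y * Gv p b k y with hg
  have hgcont : Continuous g := by
    rw [hg]
    unfold fv Gv
    fun_prop
  set y' : ℝ := 1 / (b + 1) with hy'
  have hy'0 : 0 < y' := by positivity
  have hy'1 : y' ≤ 1 / b := one_div_le_one_div_of_le hb0 (by linarith)
  have hgy' : |g y'| ≤ (1 + 1 / b) * |ρ| := hstarle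
  have h1ε : 0 < 1 - ε := by linarith
  have hμE : (1 - ε) * μ ≤ μ - E' := by linarith
  have hμE0 : 0 < μ - E' := lt_of_lt_of_le (mul_pos h1ε hμ0) hμE
  have hEμ : E' < |(b : ℝ) * (p 0 : ℝ)| := by
    rw [hmabs]; linarith
  have haux := new_root_aux hb4 hρ2 hμb hE2 hε1
  obtain ⟨ys, hys0, hysd⟩ := exists_root_near g hgcont (m := (b : ℝ) * (p 0 : ℝ)) (E := E')
    (y' := y') (r := 1 / b) hEμ (by
      intro y₁ y₂ h1 h2
      have hb' : ∀ y : ℝ, |y - y'| ≤ 1 / b → |y| ≤ 2 / b := by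
        intro y hy
        calc |y| = |(y - y') + y'| := by ring_nf
          _ ≤ |y - y'| + |y'| := abs_add_le _ _
          _ ≤ 2 / b := by rw [abs_of_pos hy'0, h2b]; linarith
      exact hT4 y₁ y₂ (hb' y₁ h1) (hb' y₂ h2)) (by
      rw [hmabs]
      exact hgy'.trans haux)
  rw [hmabs] at hysd
  refine ⟨k, hk1, hkn, hJ, hstar0, ys, hys0, ?_, ?_⟩
  · refine hysd.trans ?_
    have hpos : 0 ≤ (1 + 1 / (b : ℝ)) * |ρ| := by positivity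
    calc |g y'| / (μ - E') ≤ ((1 + 1 / b) * |ρ|) / ((1 - ε) * μ) :=
          div_le_div₀ hpos hgy' (mul_pos h1ε hμ0) hμE
      _ ≤ ((1 + ε) * ((1 + ε) * μ * |1 / (b : ℝ) - yβ|)) / ((1 - ε) * μ) := by
          refine div_le_div_of_nonneg_right ?_ (mul_pos h1ε hμ0).le
          refine mul_le_mul (by linarith) hρle (abs_nonneg _) (by linarith)
      _ = _ := by field_simp
  · have hysd3 : |ys - y'| ≤ 1 / b := by
      refine hysd.trans ?_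
      rw [div_le_iff₀ hμE0]
      refine hgy'.trans (haux.trans (le_of_eq (by ring)))
    calc |ys| = |(ys - y') + y'| := by ring_nf
      _ ≤ |ys - y'| + |y'| := abs_add_le _ _
      _ ≤ 1 / 2 := by rw [abs_of_pos hy'0]; linarith

end Pool.Agent.H89.Alg
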