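import Pool.Agent.H89.Alg.LemT1

set_option autoImplicit false

open Polynomial

namespace Pool.Agent.H89.Alg

/-- Location of the bad point in the coordinates. -/
lemma loc_beta (c : Crd) {β X : ℝ} (hw : 0 < c.w X)
    (hbad : |c.M X - β| ≤ (c.z - c.M X) / 2) :
    β < c.z ∧ 0 < c.w (c.inv β) ∧ c.w (c.inv β) ≤ 2 * c.w X ∧
      c.M X - β = (X - c.inv β) / (c.w X * c.w (c.inv β)) := by
  have hzx : c.z - c.M X = 1 / (c.q * c.w X) := c.z_sub_M hw.ne'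
  have hq0 := c.hq0
  have hzx0 : 0 < c.z - c.M X := by rw [hzx]; positivity
  have hxβ := abs_le.1 hbad
  have hzβ : (c.z - c.M X) / 2 ≤ c.z - β := by linarith [hxβ.1, hxβ.2]
  have hzβ0 : β < c.z := by linarith
  have hz0 : 0 < c.z - β := by linarith
  have hwβ : c.w (c.inv β) = 1 / (c.q * (c.z - β)) := c.w_inv hzβ0
  have hMβ : c.M (c.inv β) = β := c.M_inv hzβ0
  have hwβ0 : 0 < c.w (c.inv β) := by
    rw [hwβ]
    positivity
  refine ⟨hzβ0, hwβ0, ?_, ?_⟩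
  · rw [hwβ, div_le_iff₀ (by positivity)]
    rw [hzx] at hzβ
    have h1 : 1 / (c.q * c.w X) / 2 * (c.q * (2 * c.w X)) = 1 := by
      field_simp
    calc (1 : ℝ) = 1 / (c.q * c.w X) / 2 * (c.q * (2 * c.w X)) := h1.symm
      _ ≤ (c.z - β) * (c.q * (2 * c.w X)) := mul_le_mul_of_nonneg_right hzβ (by positivity)
      _ = _ := by ring
  · have := c.M_sub hw.ne' hwβ0.ne'
    rw [hMβ] at this
    exact this

/-- Comparison of distances before and after the transport. -/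
lemma compare_dist (c : Crd) {a ε : ℝ} (haT : c.T₀ ≤ a) (hε0 : 0 < ε) (hε1 : ε ≤ 1 / 2)
    (ha : 4 * c.q ≤ ε * a) {X Xβ X' Xs : ℝ} (hX : X ≤ a + 1) (hXβ : Xβ ≤ a + 1)
    (hwX : 0 < c.w X) (hwβ : 0 < c.w Xβ) (hX' : a - 1 ≤ X') (hXs : a - 1 ≤ Xs)
    (hd : |Xs - X'| ≤ (1 + ε) ^ 2 / (1 - ε) * |X - Xβ|) :
    |c.M X' - c.M Xs| ≤ (1 + ε) ^ 4 / (1 - ε) * |c.M X - c.M Xβ| := by
  have h1ε : 0 < 1 - ε := by linarith
  have ha4 : 4 ≤ a := c.T₀_ge.trans haT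
  have hwmin0 : 0 < c.w (a - 1) := by
    have := c.w_lower haT (le_refl (a - 1)); linarith
  have hwr : c.w (a + 1) ≤ (1 + ε) * c.w (a - 1) := c.w_ratio haT hε0 ha
  have hwXs : c.w (a - 1) ≤ c.w Xs := c.w_mono hXs
  have hwX' : c.w (a - 1) ≤ c.w X' := c.w_mono hX'
  have hwXs0 : 0 < c.w Xs := lt_of_lt_of_le hwmin0 hwXs
  have hwX'0 : 0 < c.w X' := lt_of_lt_of_le hwmin0 hwX'
  have hwXmax : c.w X ≤ c.w (a + 1) := c.w_mono hX
  have hwβmax : c.w Xβ ≤ c.w (a + 1) := c.w_mono hXβ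
  rw [c.M_sub hwX'0.ne' hwXs0.ne', abs_div, abs_of_pos (mul_pos hwX'0 hwXs0), abs_sub_comm]
  have e2 : |X - Xβ| = |c.M X - c.M Xβ| * (c.w X * c.w Xβ) := by
    rw [c.M_sub hwX.ne' hwβ.ne', abs_div, abs_of_pos (mul_pos hwX hwβ)]
    field_simp
  have e3 : c.w X * c.w Xβ ≤ ((1 + ε) * c.w (a - 1)) ^ 2 := by
    rw [sq]
    exact mul_le_mul (hwXmax.trans hwr) (hwβmax.trans hwr) hwβ.le (by positivity)
  have e4 : c.w (a - 1) ^ 2 ≤ c.w X' * c.w Xs := by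
    rw [sq]; exact mul_le_mul hwX' hwXs hwmin0.le hwX'0.le
  have hk0 : 0 ≤ (1 + ε) ^ 2 / (1 - ε) := by positivity
  calc |Xs - X'| / (c.w X' * c.w Xs)
      ≤ ((1 + ε) ^ 2 / (1 - ε) * |X - Xβ|) / c.w (a - 1) ^ 2 :=
        div_le_div₀ (by positivity) hd (by positivity) e4
    _ ≤ ((1 + ε) ^ 2 / (1 - ε) * (|c.M X - c.M Xβ| * ((1 + ε) * c.w (a - 1)) ^ 2)) /
          c.w (a - 1) ^ 2 := by
        rw [e2]
        refine div_le_div_of_nonneg_right ?_ (by positivity)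
        refine mul_le_mul_of_nonneg_left ?_ hk0
        exact mul_le_mul_of_nonneg_left e3 (abs_nonneg _)
    _ = (1 + ε) ^ 4 / (1 - ε) * |c.M X - c.M Xβ| := by field_simp

/-- The transported polynomial. -/
lemma new_poly (c : Crd) (n : ℕ) (P : ℤ[X]) (hP : P.natDegree ≤ n) (a b K₀ k : ℕ) (ha : 1 ≤ a)
    (hb : 1 ≤ b) (hK : 1 ≤ K₀) (hab : (K₀ : ℝ) * (a : ℝ) ^ (n - 1) ≤ b) (C : ℝ) (hC : 0 ≤ C)
    (hkn : k ≤ n)
    (hJ : ∀ j < k, |(Jr (fun j => (taylor (a : ℤ) (subst n c.p c.r c.q c.t P)).coeff j) b j : ℝ)|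
      * (a : ℝ) ^ j ≤ (n ^ 2 + n) * (C * ht n P * (a : ℝ) ^ (n - 1) / (a * b))) :
    ∃ PS : ℤ[X], PS.natDegree ≤ n ∧
      (ht n PS : ℝ) ≤ ht n P * (1 + c.Q ^ n * (n * 2 ^ n * ((n ^ 2 + n) * C)) / K₀) ∧
      ∀ y : ℝ, 0 < c.w ((a : ℝ) + y) →
        c.w ((a : ℝ) + y) ^ n * aeval (c.M ((a : ℝ) + y)) PS
          = fv (fun j => (taylor (a : ℤ) (subst n c.p c.r c.q c.t P)).coeff j) n y
            - y * Gv (fun j => (taylor (a : ℤ) (subst n c.p c.r c.q c.t P)).coeff j) b k y := by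
  set F := subst n c.p c.r c.q c.t P with hF
  have hFdeg : F.natDegree ≤ n := natDegree_subst_le _ _ _ _ _ _
  set p : ℕ → ℤ := fun j => (taylor (a : ℤ) F).coeff j with hp
  have hQ := c.Q_ge_one
  have hb0 : (0 : ℝ) < b := by exact_mod_cast hb
  have ha0 : (0 : ℝ) < a := by exact_mod_cast ha
  have hK0 : (0 : ℝ) < K₀ := by exact_mod_cast hK
  set h : ℝ := C * ht n P * (a : ℝ) ^ (n - 1) / (a * b) with hh
  have hh0 : 0 ≤ h := by positivity
  set G := Gpoly p b k a with hGdef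
  have hGdeg : G.natDegree ≤ n := (natDegree_Gpoly_le _ _ _ _).trans hkn
  set EP := subst n c.t (-c.r) (-c.q) c.p G with hEP
  have hEPdeg : EP.natDegree ≤ n := natDegree_subst_le _ _ _ _ _ _
  refine ⟨P - EP, (natDegree_sub_le _ _).trans (max_le hP hEPdeg), ?_, ?_⟩
  · have hL1EP : L1 EP ≤ c.Q ^ n * (n * 2 ^ n * ((n ^ 2 + n) * C)) * ht n P / K₀ := by
      have hgl := L1_Gpoly_le (n := n) ha hkn (by positivity : (0 : ℝ) ≤ (n ^ 2 + n) * h) hJ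
      rw [← hGdef] at hgl
      have h1 := L1_subst_le c.t (-c.r) (-c.q) c.p G hGdeg
      have h2 : |(c.t : ℝ)| + |((-c.r : ℤ) : ℝ)| + |((-c.q : ℤ) : ℝ)| + |(c.p : ℝ)| = c.Q := by
        rw [Crd.Q]; push_cast; rw [abs_neg, abs_neg]; ring
      rw [h2, ← hEP] at h1
      have h3 : h * a ≤ C * ht n P / K₀ := by
        rw [hh, le_div_iff₀ (by positivity)]
        have h5 : C * ht n P * (a : ℝ) ^ (n - 1) / (a * b) * a * K₀
            = C * ht n P * ((K₀ * (a : ℝ) ^ (n - 1)) / b) := by field_simp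
        rw [h5]
        have h4 : (K₀ * (a : ℝ) ^ (n - 1)) / b ≤ 1 := by rw [div_le_one hb0]; exact hab
        calc C * ht n P * ((K₀ * (a : ℝ) ^ (n - 1)) / b) ≤ C * ht n P * 1 :=
              mul_le_mul_of_nonneg_left h4 (by positivity)
          _ = C * ht n P := mul_one _
      calc L1 EP ≤ c.Q ^ n * L1 G := h1
        _ ≤ c.Q ^ n * (n * 2 ^ n * ((n ^ 2 + n) * h * a)) :=
            mul_le_mul_of_nonneg_left hgl (by positivity)
        _ = c.Q ^ n * (n * 2 ^ n * ((n ^ 2 + n) * (h * a))) := by ring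
        _ ≤ c.Q ^ n * (n * 2 ^ n * ((n ^ 2 + n) * (C * ht n P / K₀))) := by gcongr
        _ = _ := by ring
    refine ht_le_of_real (by positivity) ?_
    intro i _
    rw [coeff_sub]
    push_cast
    refine (abs_sub _ _).trans ?_
    have h1 := abs_coeff_le_ht hP i
    have h2 := (abs_coeff_le_L1 EP i).trans hL1EP
    calc |((P.coeff i : ℤ) : ℝ)| + |((EP.coeff i : ℤ) : ℝ)|
        ≤ ht n P + c.Q ^ n * (n * 2 ^ n * ((n ^ 2 + n) * C)) * ht n P / K₀ := add_le_add h1 h2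
      _ = _ := by ring
  · intro y hy
    have hfv : aeval ((a : ℝ) + y) F = fv p n y := by
      have := aeval_taylor_fv hFdeg (a : ℤ) y
      rw [Int.cast_natCast] at this
      exact this
    rw [map_sub, mul_sub, ← c.aeval_sub hP hy.ne', ← hF, hfv,
      hEP, c.aeval_inv hGdeg hy.ne', hGdef]
    have := aeval_Gpoly p (b : ℤ) k (a : ℤ) y
    rw [Int.cast_natCast] at this
    rw [this]

/-- Passing to an irreducible factor. -/
lemma factor_finish (n : ℕ) {s : ℝ} (hs0 : 0 < s) {c₂ : ℝ}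
    (hc₂ : 0 < c₂) {PS : ℤ[X]} (hdeg : PS.natDegree ≤ n) {x α : ℝ} (hα : aeval α PS = 0)
    (h0 : PS ≠ 0) (hd : |x - α| < c₂ * (ht n PS : ℝ) ^ (-s)) :
    (∃ A, Good n A α ∧ |x - α| < c₂ * (ht n A : ℝ) ^ (-s)) ∨
    ∃ A A' : ℤ[X], PS = A * A' ∧ Irreducible A ∧ A.natDegree ≤ n - 1 ∧ 1 ≤ A.natDegree ∧
      A.IsPrimitive ∧ aeval α A = 0 ∧
      |x - α| ≤ c₂ * (2 ^ n * (n + 1)) ^ s * (ht n A : ℝ) ^ (-s) := by
  obtain ⟨A, A', hAA', hAirr, hAprim, hAdeg1, hAα⟩ := exists_irreducible_factor h0 hα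
  have hHPS1 : (1 : ℝ) ≤ ht n PS := by exact_mod_cast one_le_ht hdeg h0
  have hAA'deg : (A * A').natDegree ≤ n := by rw [← hAA']; exact hdeg
  have hAA'0 : A * A' ≠ 0 := by rw [← hAA']; exact h0
  have hAdegn : A.natDegree ≤ n := by
    rw [natDegree_mul (left_ne_zero_of_mul hAA'0) (right_ne_zero_of_mul hAA'0)] at hAA'deg
    omega
  by_cases hAn : A.natDegree = n
  · left
    have hgood : Good n A α := good_of_irreducible hAprim hAirr hAn hAα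
    refine ⟨A, hgood, ?_⟩
    have h1 : ht n A ≤ ht n PS := by
      rw [hAA']; exact ht_le_of_mul_const hAA'deg hAA'0 hAn
    have hA1 : (0 : ℝ) < ht n A := by exact_mod_cast hgood.one_le_ht
    have h2 : (ht n PS : ℝ) ^ (-s) ≤ (ht n A : ℝ) ^ (-s) :=
      Real.rpow_le_rpow_of_nonpos hA1 (by exact_mod_cast h1) (by linarith)
    exact hd.trans_le (mul_le_mul_of_nonneg_left h2 hc₂.le)
  · right
    refine ⟨A, A', hAA', hAirr, by omega, hAdeg1, hAprim, hAα, ?_⟩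
    have h1 := ht_factor_le hAA'deg hAA'0
    rw [← hAA'] at h1
    have hA1 : (0 : ℝ) < ht n A := by
      exact_mod_cast one_le_ht hAdegn hAirr.ne_zero
    have h2 : (ht n PS : ℝ) ^ (-s) ≤ (2 ^ n * (n + 1)) ^ s * (ht n A : ℝ) ^ (-s) := by
      have h3 : ((2 ^ n * (n + 1)) * (ht n PS : ℝ)) ^ (-s) ≤ (ht n A : ℝ) ^ (-s) :=
        Real.rpow_le_rpow_of_nonpos hA1 (by rw [mul_assoc]; exact h1) (by linarith)
      rw [Real.mul_rpow (by positivity) (by linarith)] at h3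
      have h4 : ((2 : ℝ) ^ n * (n + 1)) ^ s * (2 ^ n * (n + 1)) ^ (-s) = 1 := by
        rw [← Real.rpow_add (by positivity), add_neg_cancel, Real.rpow_zero]
      have h5 : 0 < ((2 : ℝ) ^ n * (n + 1)) ^ s := by positivity
      calc (ht n PS : ℝ) ^ (-s)
          = (((2 : ℝ) ^ n * (n + 1)) ^ s * (2 ^ n * (n + 1)) ^ (-s)) * (ht n PS : ℝ) ^ (-s) := by
            rw [h4, one_mul]
        _ = ((2 : ℝ) ^ n * (n + 1)) ^ s * ((2 ^ n * (n + 1)) ^ (-s) * (ht n PS : ℝ) ^ (-s)) := by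
            ring
        _ ≤ _ := mul_le_mul_of_nonneg_left h3 h5.le
    calc |x - α| ≤ c₂ * (ht n PS : ℝ) ^ (-s) := hd.le
      _ ≤ c₂ * ((2 ^ n * (n + 1)) ^ s * (ht n A : ℝ) ^ (-s)) :=
          mul_le_mul_of_nonneg_left h2 hc₂.le
      _ = _ := by ring

end Pool.Agent.H89.Alg
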