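import Pool.Agent.H89.Alg.Count

set_option autoImplicit false

open Polynomial

namespace Pool.Agent.H89.Alg

/-- Number of roots per polynomial: passing from pairs to polynomials. -/
lemma card_pairs_le {n : ℕ} (F : Finset (ℤ[X] × ℝ)) (hF : ∀ q ∈ F, Good n q.1 q.2) :
    F.card ≤ n * (F.image Prod.fst).card := by
  classical
  refine Finset.card_le_mul_card_image F n ?_
  intro P hP
  rw [Finset.mem_image] at hP
  obtain ⟨q, hq, rfl⟩ := hP
  have hg := hF q hq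
  have h1 : (F.filter (fun x => x.1 = q.1)).card ≤
      (((q.1).map (Int.castRingHom ℝ)).roots.toFinset).card := by
    refine Finset.card_le_card_of_injOn (fun x => x.2) ?_ ?_
    · intro x hx
      simp only [Finset.coe_filter, Set.mem_ofPred_eq] at hx
      simp only [Finset.mem_coe, Multiset.mem_toFinset]
      rw [mem_roots (by
        rw [Polynomial.map_ne_zero_iff (RingHom.injective_int _)]; exact hg.ne_zero), IsRoot.def,
        eval_map, ← algebraMap_int_eq, ← aeval_def, ← hx.2]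
      exact (hF x hx.1).aeval
    · intro x hx y hy hxy
      simp only [Finset.coe_filter, Set.mem_ofPred_eq] at hx hy
      exact Prod.ext (hx.2.trans hy.2.symm) hxy
  refine h1.trans ((Multiset.toFinset_card_le _).trans ((card_roots' _).trans ?_))
  rw [natDegree_map_eq_of_injective (RingHom.injective_int _), hg.2.2.1]

lemma exists_nat_forall_rpow_neg_le {θ C η : ℝ} (hθ : 0 < θ) (hη : 0 < η) :
    ∃ B₀ : ℕ, ∀ h : ℝ, (B₀ : ℝ) ≤ h → C * h ^ (-θ) ≤ η := by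
  have h1 : Filter.Tendsto (fun x : ℝ => C * x ^ (-θ)) Filter.atTop (nhds (C * 0)) :=
    (tendsto_rpow_neg_atTop hθ).const_mul C
  rw [mul_zero] at h1
  have h2 := (h1.eventually_lt_const hη)
  rw [Filter.eventually_atTop] at h2
  obtain ⟨a, ha⟩ := h2
  obtain ⟨B, hB⟩ := exists_nat_ge a
  exact ⟨B, fun h hh => (ha h (hB.trans hh)).le⟩

/-- Convergence of the sum of negative powers of heights over all good pairs. -/
lemma sum_good_le (n : ℕ) (p : ℝ) (hp : (n : ℝ) + 1 < p) :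
    ∃ C : ℝ, 0 ≤ C ∧ ∀ F : Finset (ℤ[X] × ℝ), (∀ q ∈ F, Good n q.1 q.2) →
      ∑ q ∈ F, ((ht n q.1 : ℝ)) ^ (-p) ≤ C := by
  classical
  have hr1 : (2 : ℝ) ^ (((n : ℝ) + 1) - p) < 1 :=
    Real.rpow_lt_one_of_one_lt_of_neg (by norm_num) (by linarith)
  refine ⟨(n * 3 ^ (n + 1)) * (1 : ℝ) ^ (((n : ℝ) + 1) - p) *
    (2 ^ ((n : ℝ) + 1) / (1 - 2 ^ (((n : ℝ) + 1) - p))), ?_, ?_⟩
  · have : 0 < 1 - (2 : ℝ) ^ (((n : ℝ) + 1) - p) := by linarith
    positivity
  intro F hF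
  refine dyadic_sum F (fun q => (ht n q.1 : ℝ)) 1 (n * 3 ^ (n + 1)) ((n : ℝ) + 1) p one_pos
    (by positivity) (by positivity) hp ?_ ?_
  · intro q hq
    exact_mod_cast (hF q hq).one_le_ht
  · intro x hx
    set G := F.filter (fun q => (ht n q.1 : ℝ) ≤ x) with hG
    have hGF : ∀ q ∈ G, Good n q.1 q.2 := fun q hq => hF q (Finset.mem_filter.1 hq).1
    have h1 := card_pairs_le G hGF
    have h2 : (G.image Prod.fst).card ≤ (2 * ⌊x⌋₊ + 1) ^ (n + 1) := by
      refine card_le_of_ht_le n ⌊x⌋₊ _ ?_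
      intro P hP
      rw [Finset.mem_image] at hP
      obtain ⟨q, hq, rfl⟩ := hP
      exact ⟨(hGF q hq).natDegree_le, Nat.le_floor (Finset.mem_filter.1 hq).2⟩
    have h3 : (G.card : ℝ) ≤ n * ((2 * ⌊x⌋₊ + 1) ^ (n + 1) : ℕ) := by
      have : G.card ≤ n * (2 * ⌊x⌋₊ + 1) ^ (n + 1) := h1.trans (Nat.mul_le_mul_left _ h2)
      exact_mod_cast this
    refine h3.trans ?_
    rw [mul_assoc]
    refine mul_le_mul_of_nonneg_left ?_ (by positivity)
    have h4 : (x : ℝ) ^ ((n : ℝ) + 1) = x ^ (n + 1) := by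
      rw [← Real.rpow_natCast]; push_cast; rfl
    rw [h4, ← mul_pow]
    push_cast
    refine pow_le_pow_left₀ (by positivity) ?_ _
    have := Nat.floor_le (by linarith : (0 : ℝ) ≤ x)
    linarith

/-- distinct heights, hence no divisibility -/
lemma Good.not_dvd {n : ℕ} {P R : ℤ[X]} {α β : ℝ} (hP : Good n P α) (hR : Good n R β)
    (hne : ht n P ≠ ht n R) : ¬ P ∣ R := by
  intro h
  obtain ⟨Q, hQ⟩ := h
  have h1 := hR.irreducible.isUnit_or_isUnit hQ
  rcases h1 with h1 | h1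
  · exact hP.irreducible.not_isUnit h1
  · have hQd := natDegree_eq_zero_of_isUnit h1
    obtain ⟨k, rfl⟩ := natDegree_eq_zero.1 hQd
    rw [isUnit_C, Int.isUnit_iff] at h1
    apply hne
    rcases h1 with rfl | rfl
    · simp at hQ; rw [hQ]
    · have : R = -P := by rw [hQ]; simp
      rw [this]; simp [ht]

/-- The tail lemma. -/
lemma tail_lemma (n : ℕ) (hn : 1 ≤ n) (s : ℝ) (hs : 2 * (n : ℝ) < s) (C η : ℝ) (hC : 0 < C)
    (hη : 0 < η) :
    ∃ B₀ : ℕ, ∀ (P : ℤ[X]) (α : ℝ), Good n P α → |α| ≤ 1 → B₀ ≤ ht n P →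
      ∀ F : Finset (ℤ[X] × ℝ), (∀ q ∈ F, Good n q.1 q.2 ∧ ht n P < ht n q.1 ∧
        |q.2 - α| ≤ C * (ht n P : ℝ) ^ (-s)) →
      ∑ q ∈ F, ((ht n q.1 : ℝ)) ^ (-s) ≤ η * (ht n P : ℝ) ^ (-s) := by
  classical
  have hn0 : (1 : ℝ) ≤ n := by exact_mod_cast hn
  have hnpos : (0 : ℝ) < n := by linarith
  set C₁ : ℝ := (n + 1) * n * (1 + C) ^ n with hC₁
  have hC₁0 : 0 < C₁ := by positivity
  set K : ℝ := (2 * (n + 1)) ^ (n - 1) * (n + 1) ^ n with hK
  have hK0 : 0 < K := by positivity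
  set C₃ : ℝ := C₁ * C * K with hC₃
  have hC₃0 : 0 < C₃ := by positivity
  have hr1 : (2 : ℝ) ^ (((n : ℝ) + 1) - s) < 1 :=
    Real.rpow_lt_one_of_one_lt_of_neg (by norm_num) (by linarith)
  have hr0 : 0 < 1 - (2 : ℝ) ^ (((n : ℝ) + 1) - s) := by linarith
  set D : ℝ := 2 ^ ((n : ℝ) + 1) / (1 - 2 ^ (((n : ℝ) + 1) - s)) with hD
  have hD0 : 0 < D := by positivity
  set θ : ℝ := (s - n) * (s - n - 1) / n - (n - 1) with hθ
  have hθ0 : 0 < θ := by
    rw [hθ, sub_pos, lt_div_iff₀ hnpos]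
    nlinarith
  -- thresholds
  obtain ⟨B₁, hB₁⟩ := exists_nat_forall_rpow_neg_le (θ := s - 2 * n) (C := C₃) (η := 1)
    (by linarith) one_pos
  obtain ⟨B₂, hB₂⟩ := exists_nat_forall_rpow_neg_le (θ := θ)
    (C := n * (16 * C₃) * (C₃ ^ ((s - n - 1) / n)) * D) (η := η) hθ0 hη
  refine ⟨max (max B₁ B₂) 1, ?_⟩
  intro P α hP hα hB F hF
  set h : ℝ := (ht n P : ℝ) with hh
  have hh1 : 1 ≤ h := by
    rw [hh]; exact_mod_cast (le_max_right _ _).trans hB
  have hh0 : 0 < h := by linarith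
  have hhB₁ : (B₁ : ℝ) ≤ h := by
    rw [hh]; exact_mod_cast ((le_max_left _ _).trans (le_max_left _ _)).trans hB
  have hhB₂ : (B₂ : ℝ) ≤ h := by
    rw [hh]; exact_mod_cast ((le_max_right _ _).trans (le_max_left _ _)).trans hB
  have hs1 := hB₁ h hhB₁
  have hs2 := hB₂ h hhB₂
  have hhs1 : h ^ (-s) ≤ 1 := Real.rpow_le_one_of_one_le_of_nonpos hh1 (by linarith)
  -- value bound
  have hval : ∀ q ∈ F, |aeval α q.1| ≤ C₁ * C * (ht n q.1) * h ^ (-s) := by
    intro q hq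
    obtain ⟨hg, _, hd⟩ := hF q hq
    have hβ : |q.2| ≤ 1 + C := by
      have : |q.2| ≤ |q.2 - α| + |α| := by
        calc |q.2| = |(q.2 - α) + α| := by ring_nf
          _ ≤ _ := abs_add_le _ _
      nlinarith
    have h1 := abs_aeval_sub_le hg.natDegree_le (R := 1 + C) (by linarith)
      (by linarith : |α| ≤ 1 + C) hβ
    rw [hg.aeval, sub_zero] at h1
    refine h1.trans ?_
    rw [← hC₁]
    have h2 : |α - q.2| ≤ C * h ^ (-s) := by rw [abs_sub_comm]; exact hd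
    calc C₁ * (ht n q.1) * |α - q.2| ≤ C₁ * (ht n q.1) * (C * h ^ (-s)) :=
          mul_le_mul_of_nonneg_left h2 (by positivity)
      _ = _ := by ring
  -- real-variable key quantity
  have hKx : ∀ x : ℝ, 0 < x → (C₁ * C * x * h ^ (-s)) *
      (((n + 1) * (2 * x)) ^ (n - 1) * ((n + 1) * h) ^ n) = C₃ * (x ^ n * h ^ ((n : ℝ) - s)) := by
    intro x hx
    have e1 : x * x ^ (n - 1) = x ^ n := by
      rw [← pow_succ']; congr 1; omega
    have e2 : h ^ (-s) * h ^ n = h ^ ((n : ℝ) - s) := by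
      rw [← Real.rpow_natCast h n, ← Real.rpow_add hh0]; ring_nf
    rw [← e1, ← e2, hC₃, hK]
    simp only [mul_pow]
    ring
  -- lower bound on heights
  have hlow : ∀ q ∈ F, 1 ≤ C₃ * ((ht n q.1 : ℝ) ^ n * h ^ ((n : ℝ) - s)) := by
    intro q hq
    obtain ⟨hg, hlt, hd⟩ := hF q hq
    have hnd : ¬ P ∣ q.1 := hP.not_dvd hg hlt.ne
    have hq0 : (0 : ℝ) < ht n q.1 := by exact_mod_cast hg.one_le_ht
    have h1 := sep' hn hP hg.natDegree_le hnd (H := 2 * (ht n q.1 : ℝ)) (by linarith)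
    have h2 := hKx (ht n q.1) hq0
    rw [← h2]
    refine h1.trans ?_
    exact mul_le_mul_of_nonneg_right (hval q hq) (by positivity)
  set X₀ : ℝ := (h ^ (s - n) / C₃) ^ (1 / (n : ℝ)) with hX₀
  have hX₀0 : 0 < X₀ := by positivity
  have hX₀n : X₀ ^ n = h ^ (s - n) / C₃ := by
    rw [hX₀, ← Real.rpow_natCast, ← Real.rpow_mul (by positivity)]
    rw [one_div, inv_mul_cancel₀ (by positivity), Real.rpow_one]
  have hmono : ∀ x : ℝ, 0 < x → 1 ≤ C₃ * (x ^ n * h ^ ((n : ℝ) - s)) → X₀ ≤ x := by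
    intro x hx h1
    by_contra hlt
    push Not at hlt
    have h2 : x ^ n < X₀ ^ n := pow_lt_pow_left₀ hlt hx.le (by omega)
    rw [hX₀n] at h2
    have h3 : h ^ (s - n) / C₃ * h ^ ((n : ℝ) - s) = 1 / C₃ := by
      have : h ^ (s - n) * h ^ ((n : ℝ) - s) = 1 := by
        rw [← Real.rpow_add hh0]; ring_nf; exact Real.rpow_zero h
      rw [div_mul_eq_mul_div, this]
    have h4 : 0 < h ^ ((n : ℝ) - s) := by positivity
    have h5 : C₃ * (x ^ n * h ^ ((n : ℝ) - s)) < C₃ * (h ^ (s - n) / C₃ * h ^ ((n : ℝ) - s)) := by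
      gcongr
    rw [h3] at h5
    have h6 : C₃ * (1 / C₃) = 1 := by field_simp
    rw [h6] at h5
    linarith
  have hmono' : ∀ x : ℝ, X₀ ≤ x → 1 ≤ C₃ * (x ^ n * h ^ ((n : ℝ) - s)) := by
    intro x hx
    have h2 : X₀ ^ n ≤ x ^ n := pow_le_pow_left₀ hX₀0.le hx _
    rw [hX₀n] at h2
    have h3 : h ^ (s - n) / C₃ * h ^ ((n : ℝ) - s) = 1 / C₃ := by
      have : h ^ (s - n) * h ^ ((n : ℝ) - s) = 1 := by
        rw [← Real.rpow_add hh0]; ring_nf; exact Real.rpow_zero h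
      rw [div_mul_eq_mul_div, this]
    have h5 : C₃ * (h ^ (s - n) / C₃ * h ^ ((n : ℝ) - s)) ≤ C₃ * (x ^ n * h ^ ((n : ℝ) - s)) := by
      gcongr
    rw [h3] at h5
    have h6 : C₃ * (1 / C₃) = 1 := by field_simp
    rw [h6] at h5
    linarith
  have hX₀h : h ≤ X₀ := by
    by_contra hlt
    push Not at hlt
    have h2 : X₀ ^ n < h ^ n := pow_lt_pow_left₀ hlt hX₀0.le (by omega)
    rw [hX₀n, div_lt_iff₀ hC₃0] at h2
    have e1 : h ^ n * C₃ = (C₃ * h ^ (-(s - 2 * n))) * h ^ (s - n) := by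
      have : h ^ n = h ^ (-(s - 2 * n)) * h ^ (s - n) := by
        rw [← Real.rpow_natCast h n, ← Real.rpow_add hh0]; ring_nf
      rw [this]; ring
    rw [e1] at h2
    have h3 : 0 < h ^ (s - n) := by positivity
    nlinarith
  have hcnt : ∀ x : ℝ, X₀ ≤ x → ((F.filter (fun q => (ht n q.1 : ℝ) ≤ x)).card : ℝ)
      ≤ (n * (16 * C₃) * h ^ ((n : ℝ) - s - 1)) * x ^ ((n : ℝ) + 1) := by
    intro x hx
    have hxh : h ≤ x := hX₀h.trans hx
    have hx0 : 0 < x := by linarith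
    set G := F.filter (fun q => (ht n q.1 : ℝ) ≤ x) with hG
    have hGF : ∀ q ∈ G, Good n q.1 q.2 := fun q hq => (hF q (Finset.mem_filter.1 hq).1).1
    have h1 := card_pairs_le G hGF
    have h2 : ((G.image Prod.fst).card : ℝ) ≤ (2 * ((C₁ * C * x * h ^ (-s)) *
        (((n + 1) * (2 * (⌊x⌋₊ : ℝ))) ^ (n - 1) * ((n + 1) * ht n P) ^ n)) + 2)
        * (2 * ((⌊x⌋₊ : ℝ) / ht n P) + 2) := by
      refine mid_count hn hP _ ⌊x⌋₊ (Nat.le_floor (by simpa using hh1.trans hxh)) _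
        (by positivity) ?_
      intro R hR
      rw [Finset.mem_image] at hR
      obtain ⟨q, hq, rfl⟩ := hR
      have hq' := Finset.mem_filter.1 hq
      refine ⟨(hGF q hq).natDegree_le, Nat.le_floor hq'.2, ?_⟩
      refine (hval q hq'.1).trans ?_
      have := hq'.2
      gcongr
    have h3 : (G.card : ℝ) ≤ n * ((G.image Prod.fst).card : ℝ) := by exact_mod_cast h1
    have hfl : (⌊x⌋₊ : ℝ) ≤ x := Nat.floor_le hx0.le
    have h4 : ((G.image Prod.fst).card : ℝ) ≤ (2 * (C₃ * (x ^ n * h ^ ((n : ℝ) - s))) + 2)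
        * (2 * (x / h) + 2) := by
      refine h2.trans ?_
      rw [← hKx x hx0]
      rw [← hh]
      gcongr
    have h5 := hmono' x hx
    have h6 : 1 ≤ x / h := by rw [le_div_iff₀ hh0]; linarith
    have h7 : (2 * (C₃ * (x ^ n * h ^ ((n : ℝ) - s))) + 2) * (2 * (x / h) + 2)
        ≤ (4 * (C₃ * (x ^ n * h ^ ((n : ℝ) - s)))) * (4 * (x / h)) := by
      gcongr
      · linarith
      · linarith
    have h8 : (4 * (C₃ * (x ^ n * h ^ ((n : ℝ) - s)))) * (4 * (x / h))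
        = (16 * C₃) * h ^ ((n : ℝ) - s - 1) * x ^ ((n : ℝ) + 1) := by
      have e1 : x ^ ((n : ℝ) + 1) = x ^ n * x := by
        rw [Real.rpow_add hx0, Real.rpow_natCast, Real.rpow_one]
      have e2 : h ^ ((n : ℝ) - s - 1) = h ^ ((n : ℝ) - s) / h := by
        rw [Real.rpow_sub hh0, Real.rpow_one]
      rw [e1, e2]
      field_simp
      ring
    calc (G.card : ℝ) ≤ n * ((16 * C₃) * h ^ ((n : ℝ) - s - 1) * x ^ ((n : ℝ) + 1)) := by
          refine h3.trans ?_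
          refine mul_le_mul_of_nonneg_left ?_ (by positivity)
          rw [← h8]; exact h4.trans h7
      _ = _ := by ring
  have hlow' : ∀ q ∈ F, X₀ ≤ (ht n q.1 : ℝ) := by
    intro q hq
    have hq0 : (0 : ℝ) < (ht n q.1 : ℝ) := by
      have := (hF q hq).1.one_le_ht
      exact_mod_cast this
    exact hmono _ hq0 (hlow q hq)
  have hA0 : 0 ≤ n * (16 * C₃) * h ^ ((n : ℝ) - s - 1) := by positivity
  have hfin := dyadic_sum F (fun q => (ht n q.1 : ℝ)) X₀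
    (n * (16 * C₃) * h ^ ((n : ℝ) - s - 1)) ((n : ℝ) + 1) s hX₀0
    hA0 (by positivity) (by linarith) hlow' hcnt
  refine hfin.trans ?_
  rw [← hD]
  have e1 : X₀ ^ ((n : ℝ) + 1 - s) = C₃ ^ ((s - n - 1) / n) * h ^ ((s - n) * ((n : ℝ) + 1 - s) / n) := by
    rw [hX₀, ← Real.rpow_mul (by positivity), Real.div_rpow (by positivity) hC₃0.le,
      ← Real.rpow_mul hh0.le]
    have : C₃ ^ ((s - n - 1) / n) = (C₃ ^ (1 / (n : ℝ) * ((n : ℝ) + 1 - s)))⁻¹ := by
      rw [← Real.rpow_neg hC₃0.le]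
      congr 1
      field_simp
      ring
    rw [this, div_eq_mul_inv, mul_comm]
    congr 2
    field_simp
  have e2 : h ^ ((n : ℝ) - s - 1) * h ^ ((s - n) * ((n : ℝ) + 1 - s) / n) = h ^ (-θ) * h ^ (-s) := by
    rw [← Real.rpow_add hh0, ← Real.rpow_add hh0]
    congr 1
    rw [hθ]
    field_simp
    ring
  calc n * (16 * C₃) * h ^ ((n : ℝ) - s - 1) * X₀ ^ ((n : ℝ) + 1 - s) * D
      = n * (16 * C₃) * C₃ ^ ((s - n - 1) / n) * D *
        (h ^ ((n : ℝ) - s - 1) * h ^ ((s - n) * ((n : ℝ) + 1 - s) / n)) := by rw [e1]; ring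
    _ = (n * (16 * C₃) * C₃ ^ ((s - n - 1) / n) * D * h ^ (-θ)) * h ^ (-s) := by rw [e2]; ring
    _ ≤ η * h ^ (-s) := mul_le_mul_of_nonneg_right hs2 (by positivity)

end Pool.Agent.H89.Alg
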