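import Pool.Agent.H89.Alg.Star
import Pool.Agent.H89.Alg.Tail

set_option autoImplicit false

open Polynomial

namespace Pool.Agent.H89.Alg

lemma exists_int_value {n : ℕ} {P : ℤ[X]} (hP : P.natDegree ≤ n) (u v : ℤ) (hv : v ≠ 0) :
    ∃ N : ℤ, (v : ℝ) ^ n * aeval ((u : ℝ) / v) P = N := by
  refine ⟨∑ i ∈ Finset.range (n + 1), P.coeff i * (u ^ i * v ^ (n - i)), ?_⟩
  rw [aeval_eq_sum hP, Finset.mul_sum]
  push_cast
  refine Finset.sum_congr rfl ?_
  intro i hi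
  have hi' : i ≤ n := by simpa [Nat.lt_succ_iff] using hi
  have hv' : (v : ℝ) ≠ 0 := by exact_mod_cast hv
  have h1 : (v : ℝ) ^ n = v ^ i * v ^ (n - i) := by rw [← pow_add]; congr 1; omega
  rw [h1, div_pow]
  have hvi : (v : ℝ) ^ i ≠ 0 := pow_ne_zero _ hv'
  field_simp

/-- value of an integer polynomial at a rational number, when nonzero -/
lemma one_le_of_rat {n : ℕ} {P : ℤ[X]} (hP : P.natDegree ≤ n) (u v : ℤ) (hv : 0 < v)
    (h0 : aeval ((u : ℝ) / v) P ≠ 0) : 1 ≤ (v : ℝ) ^ n * |aeval ((u : ℝ) / v) P| := by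
  obtain ⟨N, hN⟩ := exists_int_value hP u v hv.ne'
  have hv' : (0 : ℝ) < v := by exact_mod_cast hv
  have hN0 : N ≠ 0 := by
    rintro rfl
    rw [Int.cast_zero] at hN
    rcases mul_eq_zero.1 hN with h | h
    · exact (pow_ne_zero _ hv'.ne') h
    · exact h0 h
  have h1 : (v : ℝ) ^ n * |aeval ((u : ℝ) / v) P| = |(N : ℝ)| := by
    rw [← hN, abs_mul, abs_of_pos (pow_pos hv' n)]
  rw [h1]
  exact_mod_cast Int.one_le_abs hN0

lemma one_le_of_rat' {n : ℕ} {P : ℤ[X]} (hP : P.natDegree ≤ n) (a b : ℕ) (hb : 1 ≤ b)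
    (h0 : aeval ((a : ℝ) + 1 / b) P ≠ 0) : 1 ≤ (b : ℝ) ^ n * |aeval ((a : ℝ) + 1 / b) P| := by
  have hb0 : (b : ℝ) ≠ 0 := by positivity
  have e : (a : ℝ) + 1 / b = (((a * b + 1 : ℕ) : ℤ) : ℝ) / ((b : ℤ) : ℝ) := by
    push_cast; field_simp
  rw [e] at h0 ⊢
  have := one_le_of_rat hP _ (b : ℤ) (by exact_mod_cast hb) h0
  exact_mod_cast this

/-- Low degree forms do not take very small values at `a + 1/b`. -/
lemma lower_degree (n : ℕ) (hn : 2 ≤ n) (s : ℝ) (hs : (n : ℝ) + 1 < s) (C κ : ℝ) (hC : 0 < C)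
    (hκ : 0 < κ) :
    ∃ a₀ : ℕ, ∀ a b : ℕ, a₀ ≤ a → a ^ (n - 1) ≤ b → ∀ F : ℤ[X], F.natDegree ≤ n - 1 →
      ∀ H : ℝ, κ * a ≤ H → (∀ i, |((F.coeff i : ℤ) : ℝ)| ≤ C * H) → F.eval (a : ℤ) ≠ 0 →
      aeval ((a : ℝ) + 1 / b) F ≠ 0 →
      |aeval ((a : ℝ) + 1 / b) F| ≤ C * a ^ (n - 1) * H ^ (1 - s) → False := by
  obtain ⟨m, rfl⟩ : ∃ m, n = m + 1 := ⟨n - 1, by omega⟩
  simp only [Nat.add_sub_cancel] at *
  have hm1 : 1 ≤ m := by omega
  have hm1' : (1 : ℝ) ≤ m := by exact_mod_cast hm1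
  push_cast at hs
  set C₂ : ℝ := m * (m + 1) * (4 * (1 + m)) ^ m * C with hC₂
  have hC₂0 : 0 < C₂ := by positivity
  -- thresholds
  obtain ⟨A₁, hA₁⟩ := exists_nat_forall_rpow_neg_le (θ := 1) (C := 2 ^ m * (C * κ ^ (1 - s)))
    (η := 1 / 2) one_pos (by norm_num)
  obtain ⟨A₂, hA₂⟩ := exists_nat_forall_rpow_neg_le (θ := 1)
    (C := 2 ^ m * (C * (2 * C₂) ^ (s - 1))) (η := 1 / 2) one_pos (by norm_num)
  refine ⟨max (max A₁ A₂) (2 * m), ?_⟩
  intro a b ha hab F hF H hH hcoef h0 hρ0 hρ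
  have haA₁ : (A₁ : ℝ) ≤ a := by exact_mod_cast ((le_max_left _ _).trans (le_max_left _ _)).trans ha
  have haA₂ : (A₂ : ℝ) ≤ a := by exact_mod_cast ((le_max_right _ _).trans (le_max_left _ _)).trans ha
  have ha2m : 2 * m ≤ a := (le_max_right _ _).trans ha
  have ha1 : (1 : ℝ) ≤ a := by exact_mod_cast (by omega : 1 ≤ a)
  have ha0 : (0 : ℝ) < a := by linarith
  have hb1N : 1 ≤ b := (Nat.one_le_pow _ _ (by omega)).trans hab
  have hb1 : (1 : ℝ) ≤ b := by exact_mod_cast hb1N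
  have hb0 : (0 : ℝ) < b := by linarith
  have hab' : (a : ℝ) ^ m ≤ b := by exact_mod_cast hab
  have hH0 : 0 < H := lt_of_lt_of_le (by positivity) hH
  set ρ := |aeval ((a : ℝ) + 1 / b) F| with hρdef
  have hρpos : 0 < ρ := abs_pos.2 hρ0
  have hstar : ∀ K, K < m → 1 ≤ 2 ^ m * ((a : ℝ) * b) ^ K * ρ + C₂ * (H * a ^ (m - K) / (a ^ 2 * b)) := by
    intro K hK
    have := star_ineq hK hF ha2m hb1N hcoef h0
    rw [← hρdef] at this
    refine this.trans (le_of_eq ?_)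
    rw [hC₂]; ring
  -- `H ≥ h ⟹ H^(1-s) ≤ h^(1-s)`
  have hHmono : ∀ h : ℝ, 0 < h → h ≤ H → H ^ (1 - s) ≤ h ^ (1 - s) := by
    intro h hh hhH
    exact Real.rpow_le_rpow_of_nonpos hh hhH (by linarith)
  have ha1' : (a : ℝ) ^ (-(1 : ℝ)) > 0 := by positivity
  have hind : ∀ K, K < m → a ^ 2 * b ≤ 2 * C₂ * (H * (a : ℝ) ^ (m - K)) := by
    intro K
    induction K with
    | zero =>
      intro hK
      have h1 := hstar 0 hK
      have h2 : 2 ^ m * ((a : ℝ) * b) ^ 0 * ρ ≤ 1 / 2 := by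
        have e1 := hHmono (κ * a) (by positivity) hH
        have e2 : (κ * a) ^ (1 - s) = κ ^ (1 - s) * (a : ℝ) ^ (1 - s) := Real.mul_rpow hκ.le ha0.le
        have e3 : (a : ℝ) ^ m * (a : ℝ) ^ (1 - s) ≤ (a : ℝ) ^ (-(1 : ℝ)) := by
          rw [← Real.rpow_natCast, ← Real.rpow_add ha0]
          exact Real.rpow_le_rpow_of_exponent_le ha1 (by linarith)
        have e4 := hA₁ a haA₁
        calc 2 ^ m * ((a : ℝ) * b) ^ 0 * ρ = 2 ^ m * ρ := by ring
          _ ≤ 2 ^ m * (C * a ^ m * (κ ^ (1 - s) * (a : ℝ) ^ (1 - s))) := by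
              refine mul_le_mul_of_nonneg_left (hρ.trans ?_) (by positivity)
              rw [← e2]
              exact mul_le_mul_of_nonneg_left e1 (by positivity)
          _ = 2 ^ m * (C * κ ^ (1 - s)) * ((a : ℝ) ^ m * (a : ℝ) ^ (1 - s)) := by ring
          _ ≤ 2 ^ m * (C * κ ^ (1 - s)) * (a : ℝ) ^ (-(1 : ℝ)) :=
              mul_le_mul_of_nonneg_left e3 (by positivity)
          _ ≤ 1 / 2 := e4
      have h3 : 1 / 2 ≤ C₂ * (H * a ^ (m - 0) / (a ^ 2 * b)) := by linarith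
      rw [← mul_div_assoc, le_div_iff₀ (by positivity)] at h3
      linarith
    | succ K ih =>
      intro hK
      have hprev := ih (by omega)
      have h1 := hstar (K + 1) hK
      -- lower bound for H
      set h := (b : ℝ) * (a : ℝ) ^ ((K : ℝ) + 2 - m) / (2 * C₂) with hh
      have hh0 : 0 < h := by positivity
      have hhH : h ≤ H := by
        rw [hh, div_le_iff₀ (by positivity)]
        have e1 : (a : ℝ) ^ (m - K) * (a : ℝ) ^ ((K : ℝ) + 2 - m) = a ^ 2 := by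
          rw [← Real.rpow_natCast (a : ℝ) (m - K), ← Real.rpow_add ha0, Nat.cast_sub (by omega),
            ← Real.rpow_natCast (a : ℝ) 2]
          congr 1; push_cast; ring
        have e2 : 0 < (a : ℝ) ^ (m - K) := by positivity
        have e3 : (b : ℝ) * (a : ℝ) ^ ((K : ℝ) + 2 - m) * a ^ (m - K)
            ≤ H * (2 * C₂) * a ^ (m - K) := by
          calc (b : ℝ) * (a : ℝ) ^ ((K : ℝ) + 2 - m) * a ^ (m - K)
              = b * (a ^ (m - K) * (a : ℝ) ^ ((K : ℝ) + 2 - m)) := by ring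
            _ = a ^ 2 * b := by rw [e1]; ring
            _ ≤ 2 * C₂ * (H * (a : ℝ) ^ (m - K)) := hprev
            _ = _ := by ring
        exact le_of_mul_le_mul_right e3 e2
      have h2 : 2 ^ m * ((a : ℝ) * b) ^ (K + 1) * ρ ≤ 1 / 2 := by
        have e1 := hHmono h hh0 hhH
        have e2 : h ^ (1 - s) = (b : ℝ) ^ (1 - s) * (a : ℝ) ^ (((K : ℝ) + 2 - m) * (1 - s))
            * (2 * C₂) ^ (s - 1) := by
          rw [hh, Real.div_rpow (by positivity) (by positivity),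
            Real.mul_rpow (by positivity) (by positivity), ← Real.rpow_mul ha0.le,
            div_eq_mul_inv, ← Real.rpow_neg (by positivity)]
          congr 2; ring
        have hKm : ((K : ℝ) + 1) + 1 ≤ m := by exact_mod_cast hK
        have e3 : (b : ℝ) ^ ((K : ℝ) + 2 - s) ≤ (a : ℝ) ^ ((m : ℝ) * ((K : ℝ) + 2 - s)) := by
          rw [Real.rpow_mul ha0.le, Real.rpow_natCast]
          exact Real.rpow_le_rpow_of_nonpos (by positivity) hab' (by linarith)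
        have e4 : ((a : ℝ) * b) ^ (K + 1) = (a : ℝ) ^ ((K : ℝ) + 1) * (b : ℝ) ^ ((K : ℝ) + 1) := by
          rw [← Real.rpow_natCast, Real.mul_rpow ha0.le hb0.le]; push_cast; rfl
        have e5 : (b : ℝ) ^ ((K : ℝ) + 1) * (b : ℝ) ^ (1 - s) = (b : ℝ) ^ ((K : ℝ) + 2 - s) := by
          rw [← Real.rpow_add hb0]; congr 1; ring
        have e6 : (a : ℝ) ^ ((K : ℝ) + 1) * (a : ℝ) ^ m * (a : ℝ) ^ (((K : ℝ) + 2 - m) * (1 - s))
            * (a : ℝ) ^ ((m : ℝ) * ((K : ℝ) + 2 - s)) ≤ (a : ℝ) ^ (-(1 : ℝ)) := by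
          rw [← Real.rpow_natCast (a : ℝ) m, ← Real.rpow_add ha0, ← Real.rpow_add ha0,
            ← Real.rpow_add ha0]
          refine Real.rpow_le_rpow_of_exponent_le ha1 ?_
          have : (K : ℝ) + 1 + m + ((K : ℝ) + 2 - m) * (1 - s) + m * ((K : ℝ) + 2 - s)
              = ((K : ℝ) + 2) * (m + 2 - s) - 1 := by ring
          rw [this]
          have hK0 : (0 : ℝ) ≤ K := by positivity
          nlinarith
        have e7 := hA₂ a haA₂
        calc 2 ^ m * ((a : ℝ) * b) ^ (K + 1) * ρ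
            ≤ 2 ^ m * ((a : ℝ) * b) ^ (K + 1) * (C * a ^ m * h ^ (1 - s)) := by
              refine mul_le_mul_of_nonneg_left (hρ.trans ?_) (by positivity)
              exact mul_le_mul_of_nonneg_left e1 (by positivity)
          _ = 2 ^ m * (C * (2 * C₂) ^ (s - 1)) * ((a : ℝ) ^ ((K : ℝ) + 1) * (a : ℝ) ^ m *
              (a : ℝ) ^ (((K : ℝ) + 2 - m) * (1 - s)) * ((b : ℝ) ^ ((K : ℝ) + 1) *
                (b : ℝ) ^ (1 - s))) := by
              rw [e2, e4]; ring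
          _ = 2 ^ m * (C * (2 * C₂) ^ (s - 1)) * ((a : ℝ) ^ ((K : ℝ) + 1) * (a : ℝ) ^ m *
              (a : ℝ) ^ (((K : ℝ) + 2 - m) * (1 - s)) * (b : ℝ) ^ ((K : ℝ) + 2 - s)) := by
              rw [e5]
          _ ≤ 2 ^ m * (C * (2 * C₂) ^ (s - 1)) * ((a : ℝ) ^ ((K : ℝ) + 1) * (a : ℝ) ^ m *
              (a : ℝ) ^ (((K : ℝ) + 2 - m) * (1 - s)) *
              (a : ℝ) ^ ((m : ℝ) * ((K : ℝ) + 2 - s))) := by gcongr
          _ ≤ 2 ^ m * (C * (2 * C₂) ^ (s - 1)) * (a : ℝ) ^ (-(1 : ℝ)) :=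
              mul_le_mul_of_nonneg_left e6 (by positivity)
          _ ≤ 1 / 2 := e7
      have h3 : 1 / 2 ≤ C₂ * (H * a ^ (m - (K + 1)) / (a ^ 2 * b)) := by linarith
      rw [← mul_div_assoc, le_div_iff₀ (by positivity)] at h3
      linarith
  -- final contradiction
  have hlast := hind (m - 1) (by omega)
  have hmm : m - (m - 1) = 1 := by omega
  rw [hmm, pow_one] at hlast
  set h := (a : ℝ) * b / (2 * C₂) with hh
  have hh0 : 0 < h := by positivity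
  have hhH : h ≤ H := by
    rw [hh, div_le_iff₀ (by positivity)]
    have e3 : (a : ℝ) * b * a ≤ H * (2 * C₂) * a := by
      calc (a : ℝ) * b * a = a ^ 2 * b := by ring
        _ ≤ 2 * C₂ * (H * a) := hlast
        _ = _ := by ring
    exact le_of_mul_le_mul_right e3 ha0
  have h1 := one_le_of_rat' hF a b hb1N hρ0
  rw [← hρdef] at h1
  have e1 := hHmono h hh0 hhH
  have e2 : h ^ (1 - s) = ((a : ℝ) * b) ^ (1 - s) * (2 * C₂) ^ (s - 1) := by
    rw [hh, Real.div_rpow (by positivity) (by positivity), div_eq_mul_inv,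
      ← Real.rpow_neg (by positivity)]
    congr 2; ring
  have e3 : ((a : ℝ) * b) ^ m * ((a : ℝ) * b) ^ (1 - s) ≤ (a : ℝ) ^ (-(1 : ℝ)) := by
    rw [← Real.rpow_natCast, ← Real.rpow_add (by positivity)]
    calc ((a : ℝ) * b) ^ ((m : ℝ) + (1 - s)) ≤ ((a : ℝ)) ^ ((m : ℝ) + (1 - s)) :=
          Real.rpow_le_rpow_of_nonpos ha0 (by nlinarith) (by linarith)
      _ ≤ (a : ℝ) ^ (-(1 : ℝ)) := Real.rpow_le_rpow_of_exponent_le ha1 (by linarith)
  have e4 := hA₂ a haA₂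
  have e5 : (b : ℝ) ^ m * ρ ≤ 1 / 2 := by
    calc (b : ℝ) ^ m * ρ ≤ (b : ℝ) ^ m * (C * a ^ m * h ^ (1 - s)) := by
          refine mul_le_mul_of_nonneg_left (hρ.trans ?_) (by positivity)
          exact mul_le_mul_of_nonneg_left e1 (by positivity)
      _ = (C * (2 * C₂) ^ (s - 1)) * (((a : ℝ) * b) ^ m * ((a : ℝ) * b) ^ (1 - s)) := by
          rw [e2, mul_pow]; ring
      _ ≤ (C * (2 * C₂) ^ (s - 1)) * (a : ℝ) ^ (-(1 : ℝ)) :=
          mul_le_mul_of_nonneg_left e3 (by positivity)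
      _ ≤ 2 ^ m * (C * (2 * C₂) ^ (s - 1)) * (a : ℝ) ^ (-(1 : ℝ)) := by
          refine mul_le_mul_of_nonneg_right ?_ (by positivity)
          have : (1 : ℝ) ≤ 2 ^ m := one_le_pow₀ (by norm_num)
          exact le_mul_of_one_le_left (by positivity) this
      _ ≤ 1 / 2 := e4
  linarith

end Pool.Agent.H89.Alg
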