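import Pool.Agent.H89.Alg.Star

set_option autoImplicit false

open Polynomial

namespace Pool.Agent.H89.Alg

/-- value of the polynomial with coefficients `p` -/
noncomputable def fv (p : ℕ → ℤ) (n : ℕ) (y : ℝ) : ℝ := ∑ j ∈ Finset.range (n + 1), (p j : ℝ) * y ^ j

noncomputable def Gv (p : ℕ → ℤ) (b : ℤ) (k : ℕ) (y : ℝ) : ℝ :=
  ∑ j ∈ Finset.range k, (Jr p b j : ℝ) * y ^ j

noncomputable def Tv (p : ℕ → ℤ) (n k : ℕ) (y : ℝ) : ℝ :=
  ∑ i ∈ Finset.Ico (k + 1) (n + 1), (p i : ℝ) * y ^ i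

lemma fv_identity (p : ℕ → ℤ) (b : ℤ) (n k : ℕ) (hk : k ≤ n) (y : ℝ) :
    fv p n y + (b * y - 1) * Gv p b k y = (Jr p b k : ℝ) * y ^ k + Tv p n k y := by
  induction k with
  | zero =>
    rw [Gv, Finset.sum_range_zero, mul_zero, add_zero, Jr_zero, fv, Tv,
      ← Finset.sum_range_add_sum_Ico _ (show 0 + 1 ≤ n + 1 by omega)]
    simp
  | succ k ih =>
    have h1 := ih (by omega)
    have h2 : Tv p n k y = (p (k + 1) : ℝ) * y ^ (k + 1) + Tv p n (k + 1) y := by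
      rw [Tv, Tv, Finset.sum_eq_sum_Ico_succ_bot (by omega)]
    have h3 : Gv p b (k + 1) y = Gv p b k y + (Jr p b k : ℝ) * y ^ k := by
      rw [Gv, Finset.sum_range_succ, Gv]
    rw [h3, Jr_succ]
    push_cast
    rw [mul_add, ← add_assoc, h1, h2]
    ring

lemma pow_sub_pow_le' (i : ℕ) {x y r : ℝ} (hr : 0 ≤ r) (hx : |x| ≤ r) (hy : |y| ≤ r) :
    |x ^ (i + 1) - y ^ (i + 1)| ≤ (i + 1) * r ^ i * |x - y| := by
  induction i with
  | zero => simp
  | succ i ih =>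
    have h1 : x ^ (i + 1 + 1) - y ^ (i + 1 + 1)
        = x * (x ^ (i + 1) - y ^ (i + 1)) + (x - y) * y ^ (i + 1) := by ring
    rw [h1]
    calc |x * (x ^ (i + 1) - y ^ (i + 1)) + (x - y) * y ^ (i + 1)|
        ≤ |x| * |x ^ (i + 1) - y ^ (i + 1)| + |x - y| * |y| ^ (i + 1) := by
          refine (abs_add_le _ _).trans ?_
          rw [abs_mul, abs_mul, abs_pow]
      _ ≤ r * ((i + 1) * r ^ i * |x - y|) + |x - y| * r ^ (i + 1) := by
          refine add_le_add ?_ ?_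
          · exact mul_le_mul hx ih (abs_nonneg _) hr
          · exact mul_le_mul_of_nonneg_left (pow_le_pow_left₀ (abs_nonneg _) hy _) (abs_nonneg _)
      _ = (((i + 1 : ℕ) : ℝ) + 1) * r ^ (i + 1) * |x - y| := by push_cast; ring

/-- size of one term -/
lemma term_le {h a b : ℝ} (ha : 1 ≤ a) (hb : 1 ≤ b) (hh : 0 ≤ h) {pj : ℝ} {k l : ℕ} (hl : 1 ≤ l)
    (hp : |pj| * a ^ (k + l) ≤ h * (a * b)) : |pj| * a ^ k ≤ h * b ^ l := by
  have ha0 : 0 < a := by linarith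
  have hab : 1 ≤ a * b := by nlinarith
  have h1 : a * b ≤ (a * b) ^ l := le_self_pow₀ hab (by omega)
  have h2 : |pj| * a ^ (k + l) ≤ h * (a * b) ^ l := hp.trans (mul_le_mul_of_nonneg_left h1 hh)
  have h3 : |pj| * a ^ k * a ^ l ≤ h * b ^ l * a ^ l := by
    calc |pj| * a ^ k * a ^ l = |pj| * a ^ (k + l) := by rw [pow_add]; ring
      _ ≤ h * (a * b) ^ l := h2
      _ = _ := by rw [mul_pow]; ring
  exact le_of_mul_le_mul_right h3 (by positivity)

lemma bernoulli_diff {b : ℝ} (hb : 1 ≤ b) (l : ℕ) :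
    |(1 / b) ^ l - (1 / (b + 1)) ^ l| ≤ l / b * (1 / b) ^ l := by
  have hb0 : 0 < b := by linarith
  have h1 : (1 / (b + 1)) ^ l ≤ (1 / b) ^ l :=
    pow_le_pow_left₀ (by positivity) (one_div_le_one_div_of_le hb0 (by linarith)) _
  rw [abs_of_nonneg (by linarith)]
  have h2 : (1 / (b + 1)) ^ l = (1 / b) ^ l * (b / (b + 1)) ^ l := by
    rw [← mul_pow]; congr 1; field_simp
  have h3 : 1 - l / b ≤ (b / (b + 1)) ^ l := by
    have h4 : b / (b + 1) = 1 + (-(1 / (b + 1))) := by field_simp; ring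
    rw [h4]
    have h5 := one_add_mul_le_pow (show (-2 : ℝ) ≤ -(1 / (b + 1)) by
      have : 1 / (b + 1) ≤ 1 := by rw [div_le_one (by linarith)]; linarith
      linarith) l
    refine le_trans ?_ h5
    have h6 : (l : ℝ) * (1 / (b + 1)) ≤ l / b := by
      rw [mul_one_div]
      exact div_le_div_of_nonneg_left (by positivity) hb0 (by linarith)
    linarith
  have h7 : 0 ≤ (1 / b) ^ l := by positivity
  rw [h2]
  nlinarith

lemma pow_shift {c : ℝ} (hc : 0 < c) {k i : ℕ} (h : k ≤ i) (x : ℝ) :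
    c ^ k * (x * (1 / c) ^ i) = x * (1 / c) ^ (i - k) := by
  obtain ⟨l, rfl⟩ := Nat.exists_eq_add_of_le h
  rw [Nat.add_sub_cancel_left, pow_add]
  have h1 : c ^ k * (1 / c) ^ k = 1 := by rw [← mul_pow, mul_one_div_cancel hc.ne', one_pow]
  calc c ^ k * (x * ((1 / c) ^ k * (1 / c) ^ l)) = (c ^ k * (1 / c) ^ k) * (x * (1 / c) ^ l) := by ring
    _ = _ := by rw [h1, one_mul]

/-- Abstract transport lemma. -/
lemma transport (n : ℕ) (hn : 1 ≤ n) (p : ℕ → ℤ) (a b : ℕ) (ha : 1 ≤ a) (hb : 1 ≤ b) (h : ℝ)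
    (hh : 0 ≤ h) (hp : ∀ j ≤ n, |(p j : ℝ)| * (a : ℝ) ^ j ≤ h * (a * b)) (hp0 : p 0 ≠ 0)
    (hρ0 : fv p n (1 / b) ≠ 0) (hρ : |fv p n (1 / b)| ≤ 1 / 2) :
    1 ≤ 2 * n * h ∧
    (∀ y₁ y₂ : ℝ, |y₁| ≤ 2 / b → |y₂| ≤ 2 / b → |fv p n y₁ - fv p n y₂ + b * p 0 * (y₁ - y₂)| ≤
      (b * |fv p n (1 / b)| + (n + n ^ 2 * 2 ^ n) * (h / a)) * |y₁ - y₂|) ∧
    ∃ k, 1 ≤ k ∧ k ≤ n ∧ (∀ j < k, |(Jr p b j : ℝ)| * (a : ℝ) ^ j ≤ (n ^ 2 + n) * h) ∧
      fv p n (1 / (b + 1)) - (1 / (b + 1)) * Gv p b k (1 / (b + 1)) ≠ 0 ∧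
      |fv p n (1 / (b + 1)) - (1 / (b + 1)) * Gv p b k (1 / (b + 1))|
        ≤ (1 + 1 / b) * |fv p n (1 / b)| ∧
      (∀ y₁ y₂ : ℝ, |y₁| ≤ 2 / b → |y₂| ≤ 2 / b →
        |(fv p n y₁ - y₁ * Gv p b k y₁) - (fv p n y₂ - y₂ * Gv p b k y₂) + b * p 0 * (y₁ - y₂)| ≤
        (b * |fv p n (1 / b)| + |(p 0 : ℝ)| +
          (n + n ^ 2 * 2 ^ n + n ^ 2 * 2 ^ n * (n ^ 2 + n)) * (h / a)) * |y₁ - y₂|) := by
  have ha1 : (1 : ℝ) ≤ a := by exact_mod_cast ha
  have hb1 : (1 : ℝ) ≤ b := by exact_mod_cast hb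
  have ha0 : (0 : ℝ) < a := by linarith
  have hb0 : (0 : ℝ) < b := by linarith
  have hn1 : (1 : ℝ) ≤ n := by exact_mod_cast hn
  set ρ := fv p n (1 / b) with hρdef
  have hp0' : (1 : ℝ) ≤ |(p 0 : ℝ)| := by exact_mod_cast Int.one_le_abs hp0
  -- tail bounds
  have hterm : ∀ k i, i ∈ Finset.Ico (k + 1) (n + 1) →
      |(p i : ℝ)| * (a : ℝ) ^ k ≤ h * (b : ℝ) ^ (i - k) := by
    intro k i hi
    rw [Finset.mem_Ico] at hi
    refine term_le ha1 hb1 hh (by omega) ?_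
    have : k + (i - k) = i := by omega
    rw [this]
    exact hp i (by omega)
  have hcardIco : ∀ k, ((Finset.Ico (k + 1) (n + 1)).card : ℝ) ≤ n := by
    intro k
    rw [Nat.card_Ico]; exact_mod_cast (by omega : n + 1 - (k + 1) ≤ n)
  have htail : ∀ (k : ℕ) (c : ℝ), (b : ℝ) ≤ c → |c ^ k * Tv p n k (1 / c)| * (a : ℝ) ^ k ≤ n * h := by
    intro k c hc
    have hc0 : 0 < c := by linarith
    rw [Tv, Finset.mul_sum]
    calc |∑ i ∈ Finset.Ico (k + 1) (n + 1), c ^ k * ((p i : ℝ) * (1 / c) ^ i)| * (a : ℝ) ^ k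
        ≤ (∑ i ∈ Finset.Ico (k + 1) (n + 1), |c ^ k * ((p i : ℝ) * (1 / c) ^ i)|) * (a : ℝ) ^ k :=
          mul_le_mul_of_nonneg_right (Finset.abs_sum_le_sum_abs _ _) (by positivity)
      _ = ∑ i ∈ Finset.Ico (k + 1) (n + 1), |c ^ k * ((p i : ℝ) * (1 / c) ^ i)| * (a : ℝ) ^ k :=
          Finset.sum_mul _ _ _
      _ ≤ ∑ _i ∈ Finset.Ico (k + 1) (n + 1), h := by
          refine Finset.sum_le_sum ?_
          intro i hi
          have h1 := hterm k i hi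
          rw [Finset.mem_Ico] at hi
          have h2 : c ^ k * ((p i : ℝ) * (1 / c) ^ i) = (p i : ℝ) * (1 / c) ^ (i - k) :=
            pow_shift hc0 (by omega) _
          rw [h2, abs_mul, abs_of_nonneg (by positivity : (0 : ℝ) ≤ (1 / c) ^ (i - k))]
          calc |(p i : ℝ)| * (1 / c) ^ (i - k) * (a : ℝ) ^ k
              = (|(p i : ℝ)| * (a : ℝ) ^ k) * (1 / c) ^ (i - k) := by ring
            _ ≤ (h * (b : ℝ) ^ (i - k)) * (1 / b) ^ (i - k) := by
                refine mul_le_mul h1 ?_ (by positivity) (by positivity)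
                exact pow_le_pow_left₀ (by positivity) (one_div_le_one_div_of_le hb0 hc) _
            _ = h := by
                rw [mul_assoc, ← mul_pow, mul_one_div_cancel hb0.ne', one_pow, mul_one]
      _ = ((Finset.Ico (k + 1) (n + 1)).card : ℝ) * h := by
          rw [Finset.sum_const, nsmul_eq_mul]
      _ ≤ n * h := mul_le_mul_of_nonneg_right (hcardIco k) hh
  have hfact : ∀ k ≤ n, (b : ℝ) ^ k * ρ - (Jr p b k : ℝ) = (b : ℝ) ^ k * Tv p n k (1 / b) := by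
    intro k hk
    have h1 := fv_identity p b n k hk (1 / b)
    have h2 : ((b : ℤ) : ℝ) * (1 / b) - 1 = 0 := by
      push_cast; rw [mul_one_div_cancel hb0.ne', sub_self]
    rw [h2, zero_mul, add_zero, ← hρdef] at h1
    rw [h1, mul_add, one_div, inv_pow]
    field_simp
    ring
  have hJρ : ∀ k ≤ n, |(b : ℝ) ^ k * ρ - (Jr p b k : ℝ)| * (a : ℝ) ^ k ≤ n * h := by
    intro k hk
    rw [hfact k hk]
    exact htail k b le_rfl
  have hJ0 : |(p 0 : ℝ)| ≤ 2 * n * h := by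
    have h1 := hJρ 0 (by omega)
    rw [pow_zero, one_mul, pow_zero, mul_one, Jr_zero] at h1
    have h2 : |(p 0 : ℝ)| ≤ |ρ| + |ρ - (p 0 : ℝ)| := by
      calc |(p 0 : ℝ)| = |ρ - (ρ - (p 0 : ℝ))| := by ring_nf
        _ ≤ _ := abs_sub _ _
    linarith
  -- T3
  have hT3 : ∀ y₁ y₂ : ℝ, |y₁| ≤ 2 / b → |y₂| ≤ 2 / b →
      |fv p n y₁ - fv p n y₂ + b * p 0 * (y₁ - y₂)| ≤
      (b * |ρ| + (n + n ^ 2 * 2 ^ n) * (h / a)) * |y₁ - y₂| := by
    intro y₁ y₂ hy₁ hy₂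
    have h1 := fv_identity p b n 0 (by omega) y₁
    have h2 := fv_identity p b n 0 (by omega) y₂
    rw [Gv, Finset.sum_range_zero, mul_zero, add_zero, Jr_zero, pow_zero, mul_one, Tv] at h1 h2
    have hJ1 : |(b : ℝ) * p 0 + p 1| ≤ b * |ρ| + n * (h / a) := by
      have h3 := hJρ 1 hn
      rw [pow_one, pow_one, Jr_succ, Jr_zero] at h3
      push_cast at h3
      have h4 : |(b : ℝ) * ρ - (b * p 0 + p 1)| ≤ n * (h / a) := by
        rw [← mul_div_assoc, le_div_iff₀ ha0]; exact h3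
      calc |(b : ℝ) * p 0 + p 1| = |(b : ℝ) * ρ - ((b : ℝ) * ρ - (b * p 0 + p 1))| := by ring_nf
        _ ≤ |(b : ℝ) * ρ| + |(b : ℝ) * ρ - (b * p 0 + p 1)| := abs_sub _ _
        _ ≤ b * |ρ| + n * (h / a) := by
            rw [abs_mul, abs_of_pos hb0]; linarith
    have h3 : fv p n y₁ - fv p n y₂ + b * p 0 * (y₁ - y₂)
        = (b * p 0 + p 1) * (y₁ - y₂)
          + ∑ i ∈ Finset.Ico 2 (n + 1), (p i : ℝ) * (y₁ ^ i - y₂ ^ i) := by
      rw [h1, h2]
      rw [Finset.sum_eq_sum_Ico_succ_bot (by omega : 0 + 1 < n + 1),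
        Finset.sum_eq_sum_Ico_succ_bot (by omega : 0 + 1 < n + 1)]
      have h4 : ∑ i ∈ Finset.Ico 2 (n + 1), (p i : ℝ) * (y₁ ^ i - y₂ ^ i)
          = ∑ i ∈ Finset.Ico (0 + 1 + 1) (n + 1), (p i : ℝ) * y₁ ^ i
            - ∑ i ∈ Finset.Ico (0 + 1 + 1) (n + 1), (p i : ℝ) * y₂ ^ i := by
        rw [← Finset.sum_sub_distrib]
        refine Finset.sum_congr rfl ?_
        intro i _; ring
      rw [h4]
      simp only [zero_add, pow_one]
      ring
    rw [h3]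
    have h4 : |∑ i ∈ Finset.Ico 2 (n + 1), (p i : ℝ) * (y₁ ^ i - y₂ ^ i)|
        ≤ (n ^ 2 * 2 ^ n) * (h / a) * |y₁ - y₂| := by
      refine (Finset.abs_sum_le_sum_abs _ _).trans ?_
      have h5 : ∀ i ∈ Finset.Ico 2 (n + 1), |(p i : ℝ) * (y₁ ^ i - y₂ ^ i)|
          ≤ (n * 2 ^ n) * (h / a) * |y₁ - y₂| := by
        intro i hi
        have h6 := hterm 1 i hi
        rw [Finset.mem_Ico] at hi
        obtain ⟨l, rfl⟩ : ∃ l, i = l + 1 := ⟨i - 1, by omega⟩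
        rw [pow_one, Nat.add_sub_cancel] at h6
        have h7 := pow_sub_pow_le' l (by positivity : (0 : ℝ) ≤ 2 / b) hy₁ hy₂
        have h8 : |(p (l + 1) : ℝ)| ≤ h / a * b ^ l := by
          rw [div_mul_eq_mul_div, le_div_iff₀ ha0]; exact h6
        rw [abs_mul]
        calc |(p (l + 1) : ℝ)| * |y₁ ^ (l + 1) - y₂ ^ (l + 1)|
            ≤ (h / a * b ^ l) * ((l + 1) * (2 / b) ^ l * |y₁ - y₂|) :=
              mul_le_mul h8 h7 (abs_nonneg _) (by positivity)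
          _ = ((l + 1) * 2 ^ l) * (h / a) * |y₁ - y₂| := by
              rw [div_pow]; field_simp
          _ ≤ (n * 2 ^ n) * (h / a) * |y₁ - y₂| := by
              have e1 : ((l : ℝ) + 1) ≤ n := by exact_mod_cast (by omega : l + 1 ≤ n)
              have e2 : (2 : ℝ) ^ l ≤ 2 ^ n := pow_le_pow_right₀ (by norm_num) (by omega)
              gcongr
      refine (Finset.sum_le_sum h5).trans ?_
      rw [Finset.sum_const, Nat.card_Ico, nsmul_eq_mul]
      have h6 : ((n + 1 - 2 : ℕ) : ℝ) ≤ n := by exact_mod_cast (by omega : n + 1 - 2 ≤ n)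
      calc ((n + 1 - 2 : ℕ) : ℝ) * ((n * 2 ^ n) * (h / a) * |y₁ - y₂|)
          ≤ (n : ℝ) * ((n * 2 ^ n) * (h / a) * |y₁ - y₂|) :=
            mul_le_mul_of_nonneg_right h6 (by positivity)
        _ = _ := by ring
    calc |(b * p 0 + p 1) * (y₁ - y₂) + ∑ i ∈ Finset.Ico 2 (n + 1), (p i : ℝ) * (y₁ ^ i - y₂ ^ i)|
        ≤ |(b * p 0 + p 1) * (y₁ - y₂)| + |∑ i ∈ Finset.Ico 2 (n + 1), (p i : ℝ) * (y₁ ^ i - y₂ ^ i)| :=
          abs_add_le _ _
      _ ≤ (b * |ρ| + n * (h / a)) * |y₁ - y₂| + (n ^ 2 * 2 ^ n) * (h / a) * |y₁ - y₂| := by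
          rw [abs_mul]
          exact add_le_add (mul_le_mul_of_nonneg_right hJ1 (abs_nonneg _)) h4
      _ = _ := by ring
  refine ⟨hp0'.trans hJ0, hT3, ?_⟩
  -- choice of k
  classical
  have hex : ∃ k, 1 ≤ k ∧ (k = n ∨ (n ^ 2 + n) * h < |(Jr p b k : ℝ)| * (a : ℝ) ^ k) :=
    ⟨n, hn, Or.inl rfl⟩
  set k := Nat.find hex with hk
  have hkspec := Nat.find_spec hex
  rw [← hk] at hkspec
  have hkmin : ∀ j, 1 ≤ j → j < k → j ≠ n ∧ |(Jr p b j : ℝ)| * (a : ℝ) ^ j ≤ (n ^ 2 + n) * h := by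
    intro j hj hjk
    have := Nat.find_min hex hjk
    push Not at this
    exact this hj
  have hkn : k ≤ n := Nat.find_min' hex ⟨hn, Or.inl rfl⟩
  have hJbound : ∀ j < k, |(Jr p b j : ℝ)| * (a : ℝ) ^ j ≤ (n ^ 2 + n) * h := by
    intro j hj
    rcases Nat.eq_zero_or_pos j with rfl | hj1
    · rw [Jr_zero, pow_zero, mul_one]
      refine hJ0.trans ?_
      nlinarith
    · exact (hkmin j hj1 hj).2
  have hT2 : fv p n (1 / (b + 1)) - (1 / (b + 1)) * Gv p b k (1 / (b + 1))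
      = (1 / (b + 1 : ℝ)) ^ k * ((Jr p b k : ℝ) + (b + 1 : ℝ) ^ k * Tv p n k (1 / (b + 1))) := by
    have h1 := fv_identity p b n k hkn (1 / (b + 1))
    have h2 : fv p n (1 / (b + 1)) - (1 / (b + 1)) * Gv p b k (1 / (b + 1))
        = fv p n (1 / (b + 1)) + (((b : ℤ) : ℝ) * (1 / (b + 1)) - 1) * Gv p b k (1 / (b + 1)) := by
      push_cast
      have : (b : ℝ) * (1 / (b + 1)) - 1 = -(1 / (b + 1)) := by field_simp; ring
      rw [this]; ring
    rw [h2, h1, mul_add, ← mul_assoc, ← mul_pow, one_div_mul_cancel (by positivity), one_pow,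
      one_mul]
    ring
  have hρk : ρ = (1 / (b : ℝ)) ^ k * ((Jr p b k : ℝ) + (b : ℝ) ^ k * Tv p n k (1 / b)) := by
    rw [← hfact k hkn]
    rw [add_sub_cancel, ← mul_assoc, ← mul_pow, one_div_mul_cancel hb0.ne', one_pow, one_mul]
  have hpowle : (1 / (b + 1 : ℝ)) ^ k ≤ (1 / (b : ℝ)) ^ k :=
    pow_le_pow_left₀ (by positivity) (one_div_le_one_div_of_le hb0 (by linarith)) _
  have hak : (0 : ℝ) < (a : ℝ) ^ k := by positivity
  have hT2main : (Jr p b k : ℝ) + (b + 1 : ℝ) ^ k * Tv p n k (1 / (b + 1)) ≠ 0 ∧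
      |(Jr p b k : ℝ) + (b + 1 : ℝ) ^ k * Tv p n k (1 / (b + 1))|
        ≤ (1 + 1 / b) * |(Jr p b k : ℝ) + (b : ℝ) ^ k * Tv p n k (1 / b)| := by
    rcases hkspec.2 with hkn' | hbig
    · -- k = n : no tail
      have hT0 : ∀ y, Tv p n k y = 0 := by
        intro y; rw [Tv, hkn']; simp
      rw [hT0, hT0, mul_zero, mul_zero, add_zero]
      have hJk : (Jr p b k : ℝ) ≠ 0 := by
        intro h0
        apply hρ0
        rw [hρk, hT0, h0]; simp
      refine ⟨hJk, ?_⟩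
      have h1 : (1 : ℝ) ≤ 1 + 1 / b := by
        have : (0 : ℝ) < 1 / b := by positivity
        linarith
      exact le_mul_of_one_le_left (abs_nonneg _) h1
    · set t := (b : ℝ) ^ k * Tv p n k (1 / b) with ht
      set t' := (b + 1 : ℝ) ^ k * Tv p n k (1 / (b + 1)) with ht'
      have ht1 : |t| * (a : ℝ) ^ k ≤ n * h := htail k b le_rfl
      have ht2 : |t'| * (a : ℝ) ^ k ≤ n * h := htail k (b + 1) (by linarith)
      have htt : |t' - t| * (a : ℝ) ^ k ≤ n ^ 2 * h / b := by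
        have h1 : t' - t = ∑ i ∈ Finset.Ico (k + 1) (n + 1),
            (p i : ℝ) * ((1 / (b + 1 : ℝ)) ^ (i - k) - (1 / (b : ℝ)) ^ (i - k)) := by
          rw [ht, ht', Tv, Tv, Finset.mul_sum, Finset.mul_sum, ← Finset.sum_sub_distrib]
          refine Finset.sum_congr rfl ?_
          intro i hi
          rw [Finset.mem_Ico] at hi
          have e1 : ∀ c : ℝ, 0 < c → c ^ k * ((p i : ℝ) * (1 / c) ^ i) = (p i : ℝ) * (1 / c) ^ (i - k) :=
            fun c hc0 => pow_shift hc0 (by omega) _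
          rw [e1 _ (by positivity), e1 _ hb0]; ring
        rw [h1]
        calc |∑ i ∈ Finset.Ico (k + 1) (n + 1),
            (p i : ℝ) * ((1 / (b + 1 : ℝ)) ^ (i - k) - (1 / (b : ℝ)) ^ (i - k))| * (a : ℝ) ^ k
            ≤ (∑ i ∈ Finset.Ico (k + 1) (n + 1),
            |(p i : ℝ) * ((1 / (b + 1 : ℝ)) ^ (i - k) - (1 / (b : ℝ)) ^ (i - k))|) * (a : ℝ) ^ k :=
              mul_le_mul_of_nonneg_right (Finset.abs_sum_le_sum_abs _ _) (by positivity)
          _ = ∑ i ∈ Finset.Ico (k + 1) (n + 1),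
            |(p i : ℝ) * ((1 / (b + 1 : ℝ)) ^ (i - k) - (1 / (b : ℝ)) ^ (i - k))| * (a : ℝ) ^ k :=
              Finset.sum_mul _ _ _
          _ ≤ ∑ _i ∈ Finset.Ico (k + 1) (n + 1), n * h / b := by
              refine Finset.sum_le_sum ?_
              intro i hi
              have h2 := hterm k i hi
              rw [Finset.mem_Ico] at hi
              have h3 := bernoulli_diff hb1 (i - k)
              rw [abs_mul, abs_sub_comm]
              have h4 : ((i - k : ℕ) : ℝ) ≤ n := by exact_mod_cast (by omega : i - k ≤ n)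
              calc |(p i : ℝ)| * |(1 / (b : ℝ)) ^ (i - k) - (1 / (b + 1 : ℝ)) ^ (i - k)| * (a : ℝ) ^ k
                  = (|(p i : ℝ)| * (a : ℝ) ^ k) *
                    |(1 / (b : ℝ)) ^ (i - k) - (1 / (b + 1 : ℝ)) ^ (i - k)| := by ring
                _ ≤ (h * (b : ℝ) ^ (i - k)) * (((i - k : ℕ) : ℝ) / b * (1 / b) ^ (i - k)) :=
                    mul_le_mul h2 h3 (abs_nonneg _) (by positivity)
                _ = ((i - k : ℕ) : ℝ) * h / b * ((b : ℝ) ^ (i - k) * (1 / b) ^ (i - k)) := by ring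
                _ = ((i - k : ℕ) : ℝ) * h / b := by
                    rw [← mul_pow, mul_one_div_cancel hb0.ne', one_pow, mul_one]
                _ ≤ n * h / b := by gcongr
          _ = ((Finset.Ico (k + 1) (n + 1)).card : ℝ) * (n * h / b) := by
              rw [Finset.sum_const, nsmul_eq_mul]
          _ ≤ n * (n * h / b) := mul_le_mul_of_nonneg_right (hcardIco k) (by positivity)
          _ = _ := by ring
      have hbig' : n ^ 2 * h < |(Jr p b k : ℝ) + t| * (a : ℝ) ^ k := by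
        have h1 : |(Jr p b k : ℝ)| ≤ |(Jr p b k : ℝ) + t| + |t| := by
          calc |(Jr p b k : ℝ)| = |((Jr p b k : ℝ) + t) - t| := by ring_nf
            _ ≤ _ := abs_sub _ _
        nlinarith
      have hbig'' : 0 < |(Jr p b k : ℝ) + t'| * (a : ℝ) ^ k := by
        have h1 : |(Jr p b k : ℝ)| ≤ |(Jr p b k : ℝ) + t'| + |t'| := by
          calc |(Jr p b k : ℝ)| = |((Jr p b k : ℝ) + t') - t'| := by ring_nf
            _ ≤ _ := abs_sub _ _
        have h2 : 0 ≤ (n : ℝ) ^ 2 * h := by positivity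
        nlinarith
      refine ⟨?_, ?_⟩
      · intro h0
        rw [h0] at hbig''
        simp at hbig''
      · have h1 : |(Jr p b k : ℝ) + t'| ≤ |(Jr p b k : ℝ) + t| + |t' - t| := by
          calc |(Jr p b k : ℝ) + t'| = |((Jr p b k : ℝ) + t) + (t' - t)| := by ring_nf
            _ ≤ _ := abs_add_le _ _
        have h2 : |t' - t| ≤ 1 / b * |(Jr p b k : ℝ) + t| := by
          have h3 : |t' - t| * (a : ℝ) ^ k ≤ (1 / b * |(Jr p b k : ℝ) + t|) * (a : ℝ) ^ k := by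
            calc |t' - t| * (a : ℝ) ^ k ≤ n ^ 2 * h / b := htt
              _ = 1 / b * (n ^ 2 * h) := by ring
              _ ≤ 1 / b * (|(Jr p b k : ℝ) + t| * (a : ℝ) ^ k) :=
                  mul_le_mul_of_nonneg_left hbig'.le (by positivity)
              _ = _ := by ring
          exact le_of_mul_le_mul_right h3 hak
        linarith
  refine ⟨k, hkspec.1, hkn, hJbound, ?_, ?_, ?_⟩
  · rw [hT2]
    exact mul_ne_zero (by positivity) hT2main.1
  · rw [hT2, hρk, abs_mul, abs_mul, abs_of_pos (by positivity : (0 : ℝ) < (1 / (b + 1 : ℝ)) ^ k),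
      abs_of_pos (by positivity : (0 : ℝ) < (1 / (b : ℝ)) ^ k)]
    calc (1 / (b + 1 : ℝ)) ^ k * |(Jr p b k : ℝ) + (b + 1 : ℝ) ^ k * Tv p n k (1 / (b + 1))|
        ≤ (1 / (b : ℝ)) ^ k * ((1 + 1 / b) * |(Jr p b k : ℝ) + (b : ℝ) ^ k * Tv p n k (1 / b)|) :=
          mul_le_mul hpowle hT2main.2 (abs_nonneg _) (by positivity)
      _ = _ := by ring
  · intro y₁ y₂ hy₁ hy₂
    have h1 := hT3 y₁ y₂ hy₁ hy₂
    have h2 : |y₁ * Gv p b k y₁ - y₂ * Gv p b k y₂| ≤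
        (|(p 0 : ℝ)| + (n ^ 2 * 2 ^ n * (n ^ 2 + n)) * (h / a)) * |y₁ - y₂| := by
      have h3 : y₁ * Gv p b k y₁ - y₂ * Gv p b k y₂
          = ∑ j ∈ Finset.range k, (Jr p b j : ℝ) * (y₁ ^ (j + 1) - y₂ ^ (j + 1)) := by
        rw [Gv, Gv, Finset.mul_sum, Finset.mul_sum, ← Finset.sum_sub_distrib]
        refine Finset.sum_congr rfl ?_
        intro j _; ring
      rw [h3]
      obtain ⟨k', hk'⟩ : ∃ k', k = k' + 1 := ⟨k - 1, by have := hkspec.1; omega⟩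
      rw [hk', Finset.sum_range_succ']
      have h4 : |∑ j ∈ Finset.range k', (Jr p b (j + 1) : ℝ) * (y₁ ^ (j + 1 + 1) - y₂ ^ (j + 1 + 1))|
          ≤ (n ^ 2 * 2 ^ n * (n ^ 2 + n)) * (h / a) * |y₁ - y₂| := by
        refine (Finset.abs_sum_le_sum_abs _ _).trans ?_
        have h5 : ∀ j ∈ Finset.range k',
            |(Jr p b (j + 1) : ℝ) * (y₁ ^ (j + 1 + 1) - y₂ ^ (j + 1 + 1))|
            ≤ (n * 2 ^ n * (n ^ 2 + n)) * (h / a) * |y₁ - y₂| := by
          intro j hj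
          rw [Finset.mem_range] at hj
          have h6 := hJbound (j + 1) (by omega)
          have h7 := pow_sub_pow_le' (j + 1) (by positivity : (0 : ℝ) ≤ 2 / b) hy₁ hy₂
          have h8 : |(Jr p b (j + 1) : ℝ)| ≤ (n ^ 2 + n) * h / a ^ (j + 1) := by
            rw [le_div_iff₀ (by positivity)]; exact h6
          rw [abs_mul]
          calc |(Jr p b (j + 1) : ℝ)| * |y₁ ^ (j + 1 + 1) - y₂ ^ (j + 1 + 1)|
              ≤ ((n ^ 2 + n) * h / a ^ (j + 1)) *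
                ((((j + 1 : ℕ) : ℝ) + 1) * (2 / b) ^ (j + 1) * |y₁ - y₂|) :=
                mul_le_mul h8 h7 (abs_nonneg _) (by positivity)
            _ = ((((j + 1 : ℕ) : ℝ) + 1) * 2 ^ (j + 1) * (n ^ 2 + n)) *
                (h / (a ^ (j + 1) * b ^ (j + 1))) * |y₁ - y₂| := by
                rw [div_pow]; field_simp
            _ ≤ (n * 2 ^ n * (n ^ 2 + n)) * (h / a) * |y₁ - y₂| := by
                have e1 : (((j + 1 : ℕ) : ℝ) + 1) ≤ n := by
                  exact_mod_cast (by omega : j + 1 + 1 ≤ n)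
                have e2 : (2 : ℝ) ^ (j + 1) ≤ 2 ^ n := pow_le_pow_right₀ (by norm_num) (by omega)
                have e3 : (a : ℝ) ≤ a ^ (j + 1) * b ^ (j + 1) := by
                  have e4 : (a : ℝ) ≤ a ^ (j + 1) := le_self_pow₀ ha1 (by omega)
                  have e5 : (1 : ℝ) ≤ b ^ (j + 1) := one_le_pow₀ hb1
                  nlinarith
                gcongr
        refine (Finset.sum_le_sum h5).trans ?_
        rw [Finset.sum_const, Finset.card_range, nsmul_eq_mul]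
        have h6 : ((k' : ℕ) : ℝ) ≤ n := by exact_mod_cast (by omega : k' ≤ n)
        calc (k' : ℝ) * ((n * 2 ^ n * (n ^ 2 + n)) * (h / a) * |y₁ - y₂|)
            ≤ (n : ℝ) * ((n * 2 ^ n * (n ^ 2 + n)) * (h / a) * |y₁ - y₂|) :=
              mul_le_mul_of_nonneg_right h6 (by positivity)
          _ = _ := by ring
      rw [Jr_zero]
      calc |∑ j ∈ Finset.range k', (Jr p b (j + 1) : ℝ) * (y₁ ^ (j + 1 + 1) - y₂ ^ (j + 1 + 1))
            + (p 0 : ℝ) * (y₁ ^ (0 + 1) - y₂ ^ (0 + 1))|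
          ≤ |∑ j ∈ Finset.range k', (Jr p b (j + 1) : ℝ) * (y₁ ^ (j + 1 + 1) - y₂ ^ (j + 1 + 1))|
            + |(p 0 : ℝ) * (y₁ ^ (0 + 1) - y₂ ^ (0 + 1))| := abs_add_le _ _
        _ ≤ (n ^ 2 * 2 ^ n * (n ^ 2 + n)) * (h / a) * |y₁ - y₂| + |(p 0 : ℝ)| * |y₁ - y₂| := by
            refine add_le_add h4 ?_
            rw [abs_mul]
            simp
        _ = _ := by ring
    calc |(fv p n y₁ - y₁ * Gv p b k y₁) - (fv p n y₂ - y₂ * Gv p b k y₂) + b * p 0 * (y₁ - y₂)|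
        = |(fv p n y₁ - fv p n y₂ + b * p 0 * (y₁ - y₂)) - (y₁ * Gv p b k y₁ - y₂ * Gv p b k y₂)| := by
          ring_nf
      _ ≤ |fv p n y₁ - fv p n y₂ + b * p 0 * (y₁ - y₂)|
          + |y₁ * Gv p b k y₁ - y₂ * Gv p b k y₂| := abs_sub _ _
      _ ≤ _ := add_le_add h1 h2
      _ = _ := by ring

end Pool.Agent.H89.Alg
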