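import Pool.Agent.H89.Alg.Lower
import Pool.Agent.H89.Alg.Transport

set_option autoImplicit false

open Polynomial

namespace Pool.Agent.H89.Alg

/-- Unimodular coordinates `X ↦ (pX + r)/(qX + t)` sending infinity to `z = p/q`. -/
structure Crd where
  p : ℤ
  q : ℤ
  r : ℤ
  t : ℤ
  hq : 0 < q
  hdet : p * t - q * r = 1

namespace Crd

variable (c : Crd)

noncomputable def z : ℝ := (c.p : ℝ) / c.q

noncomputable def w (X : ℝ) : ℝ := c.q * X + c.t

noncomputable def M (X : ℝ) : ℝ := (c.p * X + c.r) / c.w X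

noncomputable def Q : ℝ := |(c.p : ℝ)| + |(c.r : ℝ)| + |(c.q : ℝ)| + |(c.t : ℝ)|

lemma hq1 : (1 : ℝ) ≤ c.q := by exact_mod_cast c.hq

lemma hq0 : (0 : ℝ) < c.q := by exact_mod_cast c.hq

lemma Q_ge_one : 1 ≤ c.Q := by
  have h1 := c.hq1
  have h2 : (c.q : ℝ) ≤ |(c.q : ℝ)| := le_abs_self _
  rw [Q]
  have := abs_nonneg (c.p : ℝ)
  have := abs_nonneg (c.r : ℝ)
  have := abs_nonneg (c.t : ℝ)
  linarith

lemma det_real : (c.p : ℝ) * c.t - c.q * c.r = 1 := by exact_mod_cast c.hdet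

lemma M_sub {X Y : ℝ} (hX : c.w X ≠ 0) (hY : c.w Y ≠ 0) :
    c.M X - c.M Y = (X - Y) / (c.w X * c.w Y) := by
  have h := c.det_real
  rw [M, M, div_sub_div _ _ hX hY]
  congr 1
  rw [w, w]
  linear_combination (X - Y) * h

lemma z_sub_M {X : ℝ} (hX : c.w X ≠ 0) : c.z - c.M X = 1 / (c.q * c.w X) := by
  have h := c.det_real
  have hq := c.hq0.ne'
  rw [z, M, div_sub_div _ _ hq hX]
  congr 1
  rw [w]
  linear_combination h

/-- threshold for `X` -/
noncomputable def T₀ : ℝ := 2 * |(c.t : ℝ)| + 4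

lemma w_lower {a X : ℝ} (ha : c.T₀ ≤ a) (hX : a - 1 ≤ X) : a / 2 ≤ c.w X := by
  rw [T₀] at ha
  rw [w]
  have h1 := c.hq1
  have h2 := neg_abs_le (c.t : ℝ)
  have h3 := abs_nonneg (c.t : ℝ)
  nlinarith

lemma w_upper {a X : ℝ} (ha : c.T₀ ≤ a) (hX : X ≤ a + 1) (hX0 : 0 ≤ X) : c.w X ≤ 3 * c.Q * a := by
  rw [T₀] at ha
  have h1 : (c.q : ℝ) ≤ c.Q := by
    rw [Q]
    have := le_abs_self (c.q : ℝ)
    have := abs_nonneg (c.p : ℝ)
    have := abs_nonneg (c.r : ℝ)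
    have := abs_nonneg (c.t : ℝ)
    linarith
  have h2 : (c.t : ℝ) ≤ c.Q := by
    rw [Q]
    have := le_abs_self (c.t : ℝ)
    have := abs_nonneg (c.p : ℝ)
    have := abs_nonneg (c.r : ℝ)
    have := abs_nonneg (c.q : ℝ)
    linarith
  have h3 := abs_nonneg (c.t : ℝ)
  have h4 := c.Q_ge_one
  rw [w]
  have h5 : (c.q : ℝ) * X ≤ c.Q * (a + 1) := by
    calc (c.q : ℝ) * X ≤ c.Q * X := mul_le_mul_of_nonneg_right h1 hX0
      _ ≤ c.Q * (a + 1) := mul_le_mul_of_nonneg_left hX (by linarith)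
  nlinarith

lemma T₀_ge : 4 ≤ c.T₀ := by
  rw [T₀]
  have h3 := abs_nonneg (c.t : ℝ)
  linarith

lemma dist_z_M {a X : ℝ} (ha : c.T₀ ≤ a) (hX : a - 1 ≤ X) :
    0 < c.z - c.M X ∧ c.z - c.M X ≤ 2 / a := by
  have h1 := c.w_lower ha hX
  have h4 := c.T₀_ge
  have ha0 : 0 < a := by linarith
  have hw0 : 0 < c.w X := by linarith
  rw [c.z_sub_M hw0.ne']
  refine ⟨one_div_pos.2 (mul_pos c.hq0 hw0), ?_⟩
  rw [div_le_div_iff₀ (mul_pos c.hq0 hw0) ha0]
  have := c.hq1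
  nlinarith

lemma aeval_sub {n : ℕ} {P : ℤ[X]} (hP : P.natDegree ≤ n) {X : ℝ} (hX : c.w X ≠ 0) :
    aeval X (subst n c.p c.r c.q c.t P) = c.w X ^ n * aeval (c.M X) P :=
  aeval_subst c.p c.r c.q c.t hP X hX

lemma aeval_inv {n : ℕ} {F : ℤ[X]} (hF : F.natDegree ≤ n) {X : ℝ} (hX : c.w X ≠ 0) :
    c.w X ^ n * aeval (c.M X) (subst n c.t (-c.r) (-c.q) c.p F) = aeval X F := by
  have h := c.det_real
  have h1 : ((-c.q : ℤ) : ℝ) * c.M X + c.p = 1 / c.w X := by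
    rw [M]
    push_cast
    field_simp
    rw [w]
    linear_combination h
  have h2 : ((-c.q : ℤ) : ℝ) * c.M X + c.p ≠ 0 := by
    rw [h1]; exact one_div_ne_zero hX
  rw [aeval_subst _ _ _ _ hF _ h2, h1]
  have h3 : ((c.t : ℝ) * c.M X + ((-c.r : ℤ) : ℝ)) / (1 / c.w X) = X := by
    rw [M]
    push_cast
    field_simp
    rw [w]
    linear_combination X * h
  rw [h3, ← mul_assoc, ← mul_pow, mul_one_div_cancel hX, one_pow, one_mul]

end Crd

/-- Coordinates exist for every rational. -/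
lemma exists_crd (x : ℚ) : ∃ c : Crd, c.z = (x : ℝ) := by
  have hcop : IsCoprime x.num (x.den : ℤ) := by
    rw [Int.isCoprime_iff_gcd_eq_one]
    have := x.reduced
    simpa [Int.gcd] using this
  obtain ⟨u, v, huv⟩ := hcop
  refine ⟨⟨x.num, x.den, -v, u, by exact_mod_cast x.pos, by linarith [huv, mul_comm u x.num, mul_comm v (x.den : ℤ)]⟩, ?_⟩
  rw [Crd.z]
  simp only
  rw [Int.cast_natCast]
  exact (Rat.cast_def x).symm

lemma Good.aeval_rat_ne_zero {n : ℕ} (hn : 2 ≤ n) {P : ℤ[X]} {β : ℝ} (h : Good n P β) (x : ℚ) :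
    Polynomial.aeval (x : ℝ) P ≠ 0 := by
  intro h0
  have h1 : (P.map (algebraMap ℤ ℚ)).IsRoot x := by
    rw [IsRoot.def, eval_map_algebraMap]
    have h2 : Polynomial.aeval (algebraMap ℚ ℝ x) P = algebraMap ℚ ℝ (Polynomial.aeval x P) := aeval_algebraMap_apply ℝ x P
    have h3 : algebraMap ℚ ℝ (Polynomial.aeval x P) = 0 := by rw [← h2]; exact h0
    exact (map_eq_zero _).1 h3
  have h2 := degree_eq_one_of_irreducible_of_root h.irreducible_map h1
  have h3 : (P.map (algebraMap ℤ ℚ)).natDegree = 1 := natDegree_eq_of_degree_eq_some h2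
  rw [natDegree_map_eq_of_injective (RingHom.injective_int _), h.2.2.1] at h3
  omega

lemma exists_pos_le_of_finite {ι : Type*} {S : Set ι} (hS : S.Finite) (g : ι → ℝ)
    (hg : ∀ x ∈ S, 0 < g x) : ∃ δ : ℝ, 0 < δ ∧ ∀ x ∈ S, δ ≤ g x := by
  induction S, hS using Set.Finite.induction_on with
  | empty => exact ⟨1, one_pos, by simp⟩
  | insert _ _ ih =>
    obtain ⟨δ, hδ, h⟩ := ih (fun x hx => hg x (Set.mem_insert_of_mem _ hx))
    refine ⟨min δ (g _), lt_min hδ (hg _ (Set.mem_insert _ _)), ?_⟩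
    intro x hx
    rcases hx with rfl | hx
    · exact min_le_right _ _
    · exact (min_le_left _ _).trans (h x hx)

end Pool.Agent.H89.Alg
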