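import Pool.Agent.H89.Alg.Base

set_option autoImplicit false

open Polynomial

namespace Pool.Agent.H89.Alg

lemma norm_coeff_map (P : ℤ[X]) (i : ℕ) :
    ‖(P.map (Int.castRingHom ℂ)).coeff i‖ = |((P.coeff i : ℤ) : ℝ)| := by
  rw [coeff_map]
  simp

lemma mahler_le {n : ℕ} {P : ℤ[X]} (hP : P.natDegree ≤ n) :
    (P.map (Int.castRingHom ℂ)).mahlerMeasure ≤ (n + 1) * ht n P := by
  refine (mahlerMeasure_le_sum_norm_coeff _).trans ?_
  rw [Polynomial.sum_over_range' _ (by simp) (n + 1)
    (Nat.lt_succ_of_le (natDegree_map_le.trans hP))]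
  calc ∑ i ∈ Finset.range (n + 1), ‖(P.map (Int.castRingHom ℂ)).coeff i‖
      ≤ ∑ i ∈ Finset.range (n + 1), (ht n P : ℝ) := by
        refine Finset.sum_le_sum ?_
        intro i _
        rw [norm_coeff_map]
        exact abs_coeff_le_ht hP i
    _ = (n + 1) * ht n P := by
        rw [Finset.sum_const, Finset.card_range]; push_cast [nsmul_eq_mul]; ring

lemma one_le_mahler {P : ℤ[X]} (hP : P ≠ 0) : 1 ≤ (P.map (Int.castRingHom ℂ)).mahlerMeasure := by
  refine one_le_mahlerMeasure_of_one_le_norm_leadingCoeff ?_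
  rw [leadingCoeff_map_of_injective (RingHom.injective_int _)]
  have h : 1 ≤ |P.leadingCoeff| := Int.one_le_abs (leadingCoeff_ne_zero.2 hP)
  have h2 : (1 : ℝ) ≤ |((P.leadingCoeff : ℤ) : ℝ)| := by exact_mod_cast h
  simpa using h2

/-- Height of a factor. -/
lemma ht_factor_le {n : ℕ} {A B : ℤ[X]} (hAB : (A * B).natDegree ≤ n) (h0 : A * B ≠ 0) :
    (ht n A : ℝ) ≤ 2 ^ n * ((n + 1) * ht n (A * B)) := by
  have hA : A ≠ 0 := left_ne_zero_of_mul h0
  have hB : B ≠ 0 := right_ne_zero_of_mul h0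
  have hdeg : A.natDegree ≤ n := by
    rw [natDegree_mul hA hB] at hAB; omega
  refine ht_le_of_real (by positivity) ?_
  intro i hi
  have h1 := norm_coeff_le_choose_mul_mahlerMeasure_of_one_le_mahlerMeasure i
    (A.map (Int.castRingHom ℂ)) (B.map (Int.castRingHom ℂ)) (one_le_mahler hB)
  rw [norm_coeff_map, ← Polynomial.map_mul,
    natDegree_map_eq_of_injective (RingHom.injective_int _)] at h1
  refine h1.trans ?_
  refine mul_le_mul ?_ (mahler_le hAB) (mahlerMeasure_nonneg _) (by positivity)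
  have h2 : A.natDegree.choose i ≤ 2 ^ n :=
    (Nat.choose_le_two_pow _ _).trans (Nat.pow_le_pow_right (by norm_num) hdeg)
  exact_mod_cast h2

lemma multiset_prod_mul_pow (s : Multiset ℂ) (c : ℝ) (d : ℕ) :
    (s.map (fun γ => c * (max 1 ‖γ‖) ^ d)).prod
      = c ^ (Multiset.card s) * ((s.map (fun γ => max 1 ‖γ‖)).prod) ^ d := by
  rw [Multiset.prod_map_mul, Multiset.map_const', Multiset.prod_replicate]
  rw [Multiset.prod_map_pow]

lemma norm_eval_le {n : ℕ} {D : ℤ[X]} (hD : D.natDegree ≤ n) (γ : ℂ) :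
    ‖(D.map (Int.castRingHom ℂ)).eval γ‖ ≤ ((n + 1) * ht n D) * (max 1 ‖γ‖) ^ D.natDegree := by
  rw [eval_eq_sum_range' (n := D.natDegree + 1) (by
    rw [natDegree_map_eq_of_injective (RingHom.injective_int _)]; omega)]
  calc ‖∑ i ∈ Finset.range (D.natDegree + 1), (D.map (Int.castRingHom ℂ)).coeff i * γ ^ i‖
      ≤ ∑ i ∈ Finset.range (D.natDegree + 1), ‖(D.map (Int.castRingHom ℂ)).coeff i * γ ^ i‖ :=
        norm_sum_le _ _
    _ ≤ ∑ i ∈ Finset.range (D.natDegree + 1), ht n D * (max 1 ‖γ‖) ^ D.natDegree := by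
        refine Finset.sum_le_sum ?_
        intro i hi
        have hi' : i ≤ D.natDegree := by simpa [Nat.lt_succ_iff] using hi
        rw [norm_mul, norm_coeff_map, norm_pow]
        refine mul_le_mul (abs_coeff_le_ht hD i) ?_ (by positivity) (by positivity)
        calc ‖γ‖ ^ i ≤ (max 1 ‖γ‖) ^ i :=
              pow_le_pow_left₀ (norm_nonneg _) (le_max_right _ _) i
          _ ≤ (max 1 ‖γ‖) ^ D.natDegree := pow_le_pow_right₀ (le_max_left _ _) hi'
    _ = (D.natDegree + 1) * (ht n D * (max 1 ‖γ‖) ^ D.natDegree) := by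
        rw [Finset.sum_const, Finset.card_range]; push_cast [nsmul_eq_mul]; ring
    _ ≤ (n + 1) * (ht n D * (max 1 ‖γ‖) ^ D.natDegree) := by
        refine mul_le_mul_of_nonneg_right ?_ (by positivity)
        have : (D.natDegree : ℝ) ≤ n := by exact_mod_cast hD
        linarith
    _ = _ := by ring

/-- Separation: lower bound for the value of an integer polynomial at a good algebraic number. -/
lemma sep {n : ℕ} {M D : ℤ[X]} {β : ℝ} (hn : 1 ≤ n) (hM : Good n M β) (hD : D.natDegree ≤ n)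
    (hMD : ¬ M ∣ D) :
    1 ≤ |aeval β D| * ((n + 1) * ht n D) ^ (n - 1) * ((n + 1) * ht n M) ^ n := by
  have hD0 : D ≠ 0 := by rintro rfl; exact hMD (dvd_zero _)
  have hM0 := hM.ne_zero
  have injQ : Function.Injective (Int.castRingHom ℚ) := RingHom.injective_int _
  have injC : Function.Injective (Int.castRingHom ℂ) := RingHom.injective_int _
  -- coprimality over ℚ
  have hcop : IsCoprime (M.map (Int.castRingHom ℚ)) (D.map (Int.castRingHom ℚ)) := by
    have hirr : Irreducible (M.map (Int.castRingHom ℚ)) := by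
      have := hM.irreducible_map; rwa [algebraMap_int_eq] at this
    refine hirr.coprime_iff_not_dvd.2 ?_
    intro h
    apply hMD
    have h1 : aeval β (D.map (Int.castRingHom ℚ)) = 0 := by
      obtain ⟨q, hq⟩ := h
      rw [hq, map_mul]
      have : aeval β (M.map (Int.castRingHom ℚ)) = 0 := by
        rw [← algebraMap_int_eq, aeval_map_rat]; exact hM.aeval
      rw [this, zero_mul]
    rw [← algebraMap_int_eq, aeval_map_rat] at h1
    exact hM.dvd h1
  have hres : resultant M D ≠ 0 := by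
    have h1 := resultant_ne_zero _ _ hcop
    rw [natDegree_map_eq_of_injective injQ, natDegree_map_eq_of_injective injQ,
      resultant_map_map] at h1
    intro h
    rw [h] at h1
    simp at h1
  have hres1 : (1 : ℝ) ≤ ‖((resultant M D : ℤ) : ℂ)‖ := by
    have h : 1 ≤ |resultant M D| := Int.one_le_abs hres
    have h2 : (1 : ℝ) ≤ |((resultant M D : ℤ) : ℝ)| := by exact_mod_cast h
    simpa using h2
  set MC := M.map (Int.castRingHom ℂ) with hMC
  set DC := D.map (Int.castRingHom ℂ) with hDC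
  have hMC0 : MC ≠ 0 := by rw [hMC, Polynomial.map_ne_zero_iff injC]; exact hM0
  have hprod : ((resultant M D : ℤ) : ℂ)
      = MC.leadingCoeff ^ D.natDegree * (MC.roots.map DC.eval).prod := by
    have h1 := resultant_eq_prod_eval MC DC D.natDegree
      (by rw [hDC, natDegree_map_eq_of_injective injC]) (IsAlgClosed.splits MC)
    rw [← h1, hMC, hDC, natDegree_map_eq_of_injective injC, resultant_map_map]
    rfl
  have hroot : (β : ℂ) ∈ MC.roots := by
    rw [mem_roots hMC0, IsRoot.def, hMC]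
    have h1 : aeval (β : ℂ) M = ((aeval β M : ℝ) : ℂ) := by
      have := aeval_algebraMap_apply ℂ β M
      simpa using this
    have h2 := hM.aeval
    rw [h2] at h1
    rw [eval_map]
    have h3 : eval₂ (Int.castRingHom ℂ) (β : ℂ) M = aeval (β : ℂ) M := by
      rw [aeval_def]; rfl
    rw [h3, h1]; simp
  obtain ⟨rest, hrest⟩ := Multiset.exists_cons_of_mem hroot
  have hcard : Multiset.card rest = n - 1 := by
    have h1 : Multiset.card MC.roots = MC.natDegree := (IsAlgClosed.splits MC).natDegree_eq_card_roots.symm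
    rw [hrest, Multiset.card_cons, hMC, natDegree_map_eq_of_injective injC, hM.2.2.1] at h1
    omega
  have hval : ‖DC.eval (β : ℂ)‖ = |aeval β D| := by
    have h1 : aeval (β : ℂ) D = ((aeval β D : ℝ) : ℂ) := by
      have := aeval_algebraMap_apply ℂ β D
      simpa using this
    rw [hDC, eval_map]
    have h3 : eval₂ (Int.castRingHom ℂ) (β : ℂ) D = aeval (β : ℂ) D := by
      rw [aeval_def]; rfl
    rw [h3, h1]; simp
  set a : ℝ := (n + 1) * ht n D with ha
  have ha0 : 0 ≤ a := by positivity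
  set d := D.natDegree with hd
  have hnormprod : ‖(MC.roots.map DC.eval).prod‖
      ≤ |aeval β D| * (a ^ (n - 1) * ((MC.roots.map (fun γ => max 1 ‖γ‖)).prod) ^ d) := by
    rw [hrest, Multiset.map_cons, Multiset.prod_cons, norm_mul, hval]
    refine mul_le_mul_of_nonneg_left ?_ (abs_nonneg _)
    have h1 : ‖(rest.map DC.eval).prod‖ ≤ (rest.map (fun γ => a * (max 1 ‖γ‖) ^ d)).prod := by
      have h2 : ‖(rest.map DC.eval).prod‖ = (rest.map (fun γ => ‖DC.eval γ‖)).prod := by
        have h3 := map_multiset_prod (normHom : ℂ →*₀ ℝ) (rest.map (fun x => DC.eval x))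
        rw [Multiset.map_map] at h3
        exact h3
      rw [h2]
      refine Multiset.prod_map_le_prod_map₀ _ _ (fun _ _ => norm_nonneg _) ?_
      intro γ _
      exact norm_eval_le hD γ
    rw [multiset_prod_mul_pow, hcard] at h1
    refine h1.trans ?_
    refine mul_le_mul_of_nonneg_left ?_ (by positivity)
    have h0 : 0 ≤ (rest.map (fun γ => max 1 ‖γ‖)).prod := by
      refine Multiset.prod_nonneg ?_
      intro x hx
      rw [Multiset.mem_map] at hx
      obtain ⟨γ, _, rfl⟩ := hx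
      positivity
    refine pow_le_pow_left₀ h0 ?_ d
    rw [Multiset.map_cons, Multiset.prod_cons]
    exact le_mul_of_one_le_left h0 (le_max_left _ _)
  have hmah : ‖MC.leadingCoeff‖ * (MC.roots.map (fun γ => max 1 ‖γ‖)).prod ≤ (n + 1) * ht n M := by
    rw [← mahlerMeasure_eq_leadingCoeff_mul_prod_roots]
    exact mahler_le hM.natDegree_le
  have hmah0 : 0 ≤ ‖MC.leadingCoeff‖ * (MC.roots.map (fun γ => max 1 ‖γ‖)).prod := by
    rw [← mahlerMeasure_eq_leadingCoeff_mul_prod_roots]
    exact mahlerMeasure_nonneg _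
  have hge1 : (1 : ℝ) ≤ (n + 1) * ht n M := by
    have h1 : (1 : ℝ) ≤ ht n M := by exact_mod_cast hM.one_le_ht
    nlinarith [(Nat.cast_nonneg n : (0 : ℝ) ≤ n)]
  calc (1 : ℝ) ≤ ‖((resultant M D : ℤ) : ℂ)‖ := hres1
    _ = ‖MC.leadingCoeff‖ ^ d * ‖(MC.roots.map DC.eval).prod‖ := by
        rw [hprod, norm_mul, norm_pow]
    _ ≤ ‖MC.leadingCoeff‖ ^ d *
        (|aeval β D| * (a ^ (n - 1) * ((MC.roots.map (fun γ => max 1 ‖γ‖)).prod) ^ d)) :=
        mul_le_mul_of_nonneg_left hnormprod (by positivity)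
    _ = |aeval β D| * a ^ (n - 1) *
        (‖MC.leadingCoeff‖ * (MC.roots.map (fun γ => max 1 ‖γ‖)).prod) ^ d := by
        rw [mul_pow]; ring
    _ ≤ |aeval β D| * a ^ (n - 1) * ((n + 1) * ht n M) ^ d := by
        refine mul_le_mul_of_nonneg_left ?_ (by positivity)
        exact pow_le_pow_left₀ hmah0 hmah d
    _ ≤ |aeval β D| * a ^ (n - 1) * ((n + 1) * ht n M) ^ n := by
        refine mul_le_mul_of_nonneg_left ?_ (by positivity)
        exact pow_le_pow_right₀ hge1 hD

end Pool.Agent.H89.Alg
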