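import Pool.Agent.H89.Alg.L1

set_option autoImplicit false

open Polynomial

namespace Pool.Agent.H89.Alg

/-- partial Horner sums -/
def Jr (p : ℕ → ℤ) (b : ℤ) : ℕ → ℤ
  | 0 => p 0
  | (j + 1) => b * Jr p b j + p (j + 1)

lemma Jr_zero (p : ℕ → ℤ) (b : ℤ) : Jr p b 0 = p 0 := rfl

lemma Jr_succ (p : ℕ → ℤ) (b : ℤ) (j : ℕ) : Jr p b (j + 1) = b * Jr p b j + p (j + 1) := rfl

/-- restriction of a form of degree `m` to a line through `(a, 1)` -/
noncomputable def Ep (m : ℕ) (F : ℤ[X]) (a lam : ℤ) : ℤ[X] :=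
  ∑ l ∈ Finset.range (m + 1), C (F.coeff l) * ((C a + C lam * X) ^ l * (1 + X) ^ (m - l))

lemma taylor_coeff_eq {m : ℕ} {F : ℤ[X]} (hF : F.natDegree ≤ m) (a : ℤ) (j : ℕ) :
    (taylor a F).coeff j = ∑ l ∈ Finset.range (m + 1), F.coeff l * (a ^ (l - j) * (l.choose j : ℤ)) := by
  have h1 : taylor a F = ∑ l ∈ Finset.range (m + 1), C (F.coeff l) * (X + C a) ^ l := by
    rw [taylor_apply, comp, eval₂_eq_sum_range' C (Nat.lt_succ_of_le hF)]
  rw [h1, finsetSum_coeff]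
  refine Finset.sum_congr rfl ?_
  intro l _
  rw [coeff_C_mul, coeff_X_add_C_pow]

lemma line_pow (a D : ℤ) (m l : ℕ) (hl : l ≤ m) :
    (C a * (1 + X) + C D * X : ℤ[X]) ^ l * (1 + X) ^ (m - l)
      = ∑ j ∈ Finset.range (m + 1), C (a ^ (l - j) * (l.choose j : ℤ) * D ^ j) *
          (X ^ j * (1 + X) ^ (m - j)) := by
  rw [add_comm (C a * (1 + X)), add_pow, Finset.sum_mul]
  have h1 : ∑ j ∈ Finset.range (m + 1), C (a ^ (l - j) * (l.choose j : ℤ) * D ^ j) *
          (X ^ j * (1 + X) ^ (m - j) : ℤ[X])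
      = ∑ j ∈ Finset.range (l + 1), C (a ^ (l - j) * (l.choose j : ℤ) * D ^ j) *
          (X ^ j * (1 + X) ^ (m - j)) := by
    symm
    refine Finset.sum_subset (Finset.range_subset_range.2 (by omega)) ?_
    intro j _ hj
    rw [Nat.choose_eq_zero_of_lt (by rw [Finset.mem_range] at hj; omega)]
    simp
  rw [h1]
  refine Finset.sum_congr rfl ?_
  intro j hj
  have hj' : j ≤ l := by simpa [Nat.lt_succ_iff] using hj
  have h2 : (1 + X : ℤ[X]) ^ (m - j) = (1 + X) ^ (l - j) * (1 + X) ^ (m - l) := by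
    rw [← pow_add]; congr 1; omega
  rw [h2, mul_pow, mul_pow]
  simp only [C_mul, C_pow]
  rw [show (C (l.choose j : ℤ) : ℤ[X]) = ((l.choose j : ℕ) : ℤ[X]) by simp]
  ring

lemma Ep_taylor {m : ℕ} {F : ℤ[X]} (hF : F.natDegree ≤ m) (a lam : ℤ) :
    Ep m F a lam = ∑ j ∈ Finset.range (m + 1), C ((taylor a F).coeff j * (lam - a) ^ j) *
      (X ^ j * (1 + X) ^ (m - j)) := by
  have h1 : Ep m F a lam = ∑ l ∈ Finset.range (m + 1), ∑ j ∈ Finset.range (m + 1),
      C (F.coeff l * (a ^ (l - j) * (l.choose j : ℤ)) * (lam - a) ^ j) *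
        (X ^ j * (1 + X) ^ (m - j)) := by
    rw [Ep]
    refine Finset.sum_congr rfl ?_
    intro l hl
    have hl' : l ≤ m := by simpa [Nat.lt_succ_iff] using hl
    have h2 : (C a + C lam * X : ℤ[X]) = C a * (1 + X) + C (lam - a) * X := by
      rw [C_sub]; ring
    rw [h2, line_pow a (lam - a) m l hl', Finset.mul_sum]
    refine Finset.sum_congr rfl ?_
    intro j _
    rw [← mul_assoc, ← C_mul]
    congr 2
    ring
  rw [h1, Finset.sum_comm]
  refine Finset.sum_congr rfl ?_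
  intro j _
  rw [taylor_coeff_eq hF, Finset.sum_mul, map_sum, Finset.sum_mul]

lemma Ep_factor (p : ℕ → ℤ) (b D : ℤ) (m : ℕ) :
    ∑ j ∈ Finset.range (m + 1), C (p j * D ^ j) * (X ^ j * (1 + X) ^ (m - j) : ℤ[X])
      = (1 + C (1 - b * D) * X) * (∑ j ∈ Finset.range m, C (Jr p b j * D ^ j) *
          (X ^ j * (1 + X) ^ (m - 1 - j))) + C (Jr p b m * D ^ m) * X ^ m := by
  induction m with
  | zero => simp [Jr_zero]
  | succ m ih =>
    have h1 : ∑ j ∈ Finset.range (m + 1 + 1), C (p j * D ^ j) *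
        (X ^ j * (1 + X) ^ (m + 1 - j) : ℤ[X])
        = (1 + X) * ∑ j ∈ Finset.range (m + 1), C (p j * D ^ j) *
          (X ^ j * (1 + X) ^ (m - j) : ℤ[X]) + C (p (m + 1) * D ^ (m + 1)) * X ^ (m + 1) := by
      rw [Finset.sum_range_succ]
      congr 1
      · rw [Finset.mul_sum]
        refine Finset.sum_congr rfl ?_
        intro j hj
        have hj' : j ≤ m := by simpa [Nat.lt_succ_iff] using hj
        have : m + 1 - j = (m - j) + 1 := by omega
        rw [this, pow_succ]; ring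
      · simp
    have h2 : ∑ j ∈ Finset.range (m + 1), C (Jr p b j * D ^ j) *
        (X ^ j * (1 + X) ^ (m + 1 - 1 - j) : ℤ[X])
        = (1 + X) * ∑ j ∈ Finset.range m, C (Jr p b j * D ^ j) *
          (X ^ j * (1 + X) ^ (m - 1 - j) : ℤ[X]) + C (Jr p b m * D ^ m) * X ^ m := by
      rw [Finset.sum_range_succ]
      congr 1
      · rw [Finset.mul_sum]
        refine Finset.sum_congr rfl ?_
        intro j hj
        have hj' : j < m := Finset.mem_range.1 hj
        have : m + 1 - 1 - j = (m - 1 - j) + 1 := by omega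
        rw [this, pow_succ]; ring
      · simp
    rw [h1, ih, h2, Jr_succ]
    simp only [C_mul, C_add, C_sub, C_1, C_pow]
    ring

/-- truncated alternating sums -/
def psi (E : ℤ[X]) (q : ℤ) (K : ℕ) : ℤ := ∑ i ∈ Finset.range (K + 1), E.coeff i * (-q) ^ (K - i)

lemma psi_zero (E : ℤ[X]) (q : ℤ) : psi E q 0 = E.coeff 0 := by simp [psi]

lemma psi_succ (E : ℤ[X]) (q : ℤ) (K : ℕ) : psi E q (K + 1) = E.coeff (K + 1) - q * psi E q K := by
  rw [psi, Finset.sum_range_succ, psi, Finset.mul_sum]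
  have h1 : ∑ i ∈ Finset.range (K + 1), E.coeff i * (-q) ^ (K + 1 - i)
      = - ∑ i ∈ Finset.range (K + 1), q * (E.coeff i * (-q) ^ (K - i)) := by
    rw [← Finset.sum_neg_distrib]
    refine Finset.sum_congr rfl ?_
    intro i hi
    have hi' : i ≤ K := by simpa [Nat.lt_succ_iff] using hi
    have : K + 1 - i = (K - i) + 1 := by omega
    rw [this, pow_succ]; ring
  rw [h1]; simp; ring

lemma psi_eq_coeff (g : ℤ[X]) (q v : ℤ) (m K : ℕ) (hK : K < m) :
    psi ((1 + C q * X) * g + C v * X ^ m) q K = g.coeff K := by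
  have hc : ∀ K, K < m → ((1 + C q * X) * g + C v * X ^ m).coeff K
      = ((1 + C q * X) * g).coeff K := by
    intro K hK
    rw [coeff_add, coeff_C_mul, coeff_X_pow, if_neg (by omega)]
    simp
  induction K with
  | zero =>
    rw [psi_zero, hc 0 hK, add_mul, one_mul, mul_assoc, coeff_add, coeff_C_mul, coeff_X_mul_zero]
    simp
  | succ K ih =>
    rw [psi_succ, ih (by omega), hc _ hK, add_mul, one_mul, mul_assoc, coeff_add, coeff_C_mul,
      coeff_X_mul]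
    ring

lemma coeff_g (c : ℕ → ℤ) (m K : ℕ) (hK : K < m) :
    (∑ j ∈ Finset.range m, C (c j) * (X ^ j * (1 + X) ^ (m - 1 - j) : ℤ[X])).coeff K
      = ∑ j ∈ Finset.range (K + 1), c j * ((m - 1 - j).choose (K - j) : ℤ) := by
  rw [finsetSum_coeff]
  have h1 : ∀ j ∈ Finset.range m, (C (c j) * (X ^ j * (1 + X) ^ (m - 1 - j) : ℤ[X])).coeff K
      = if j ≤ K then c j * ((m - 1 - j).choose (K - j) : ℤ) else 0 := by
    intro j _
    rw [coeff_C_mul, coeff_X_pow_mul']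
    split_ifs with h
    · rw [coeff_one_add_X_pow]
    · simp
  rw [Finset.sum_congr rfl h1, ← Finset.sum_filter]
  refine Finset.sum_congr ?_ (fun _ _ => rfl)
  ext j
  simp only [Finset.mem_filter, Finset.mem_range]
  omega

/-- Some truncated sum does not vanish. -/
lemma exists_psi_ne_zero {m K : ℕ} (hK : K < m) {F : ℤ[X]} (hF : F.natDegree ≤ m) (a b : ℤ)
    (h0 : F.eval a ≠ 0) :
    ∃ lam : ℕ, lam ≤ K ∧ psi (Ep m F a lam) (1 - b * ((lam : ℤ) - a)) K ≠ 0 := by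
  by_contra hcon
  push Not at hcon
  set p : ℕ → ℤ := fun j => (taylor a F).coeff j with hp
  set Θ : ℤ[X] := ∑ j ∈ Finset.range (K + 1), C (Jr p b j * ((m - 1 - j).choose (K - j) : ℤ)) * X ^ j
    with hΘ
  have hval : ∀ lam : ℕ, psi (Ep m F a lam) (1 - b * ((lam : ℤ) - a)) K
      = Θ.eval ((lam : ℤ) - a) := by
    intro lam
    rw [Ep_taylor hF, Ep_factor p b ((lam : ℤ) - a) m, psi_eq_coeff _ _ _ _ _ hK,
      coeff_g _ _ _ hK, hΘ, eval_finsetSum]
    refine Finset.sum_congr rfl ?_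
    intro j _
    rw [eval_mul, eval_C, eval_pow, eval_X]
    ring
  have hdeg : Θ.natDegree < (Finset.range (K + 1)).card := by
    rw [Finset.card_range, Nat.lt_succ_iff]
    refine natDegree_sum_le_of_forall_le _ _ ?_
    intro j hj
    have hj' : j ≤ K := by simpa [Nat.lt_succ_iff] using hj
    exact (natDegree_C_mul_X_pow_le _ _).trans hj'
  have hzero : Θ = 0 := by
    refine eq_zero_of_natDegree_lt_card_of_eval_eq_zero' Θ
      ((Finset.range (K + 1)).image (fun lam : ℕ => (lam : ℤ) - a)) ?_ ?_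
    · intro x hx
      rw [Finset.mem_image] at hx
      obtain ⟨lam, hlam, rfl⟩ := hx
      rw [← hval lam]
      exact hcon lam (by simpa [Nat.lt_succ_iff] using hlam)
    · rw [Finset.card_image_of_injective _ (by
        intro x y hxy
        simp only at hxy
        omega)]
      exact hdeg
  have h1 : Θ.coeff 0 = 0 := by rw [hzero]; simp
  have h2 : Θ.coeff 0 = Jr p b 0 * ((m - 1).choose K : ℤ) := by
    rw [hΘ, finsetSum_coeff, Finset.sum_eq_single 0]
    · simp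
    · intro j _ hj
      rw [coeff_C_mul, coeff_X_pow, if_neg (by omega)]
      simp
    · intro h; simp at h
  rw [h2, Jr_zero, hp] at h1
  have h3 : ((m - 1).choose K : ℤ) ≠ 0 := by
    have := Nat.choose_pos (show K ≤ m - 1 by omega)
    exact_mod_cast this.ne'
  rcases mul_eq_zero.1 h1 with h4 | h4
  · apply h0
    simp only [taylor_coeff_zero] at h4
    exact h4
  · exact h3 h4

lemma natDegree_Ep_le (m : ℕ) (F : ℤ[X]) (a lam : ℤ) : (Ep m F a lam).natDegree ≤ m := by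
  refine natDegree_sum_le_of_forall_le _ _ ?_
  intro l hl
  have hl' : l ≤ m := by simpa [Nat.lt_succ_iff] using hl
  have h1 : (C a + C lam * X : ℤ[X]).natDegree ≤ 1 := by
    rw [add_comm]; exact natDegree_linear_le
  have h2 : (1 + X : ℤ[X]).natDegree ≤ 1 := by
    rw [add_comm, ← C_1]; exact natDegree_X_add_C _ |>.le
  refine (natDegree_C_mul_le _ _).trans (natDegree_mul_le.trans ?_)
  have h3 := (natDegree_pow_le (p := (C a + C lam * X : ℤ[X])) (n := l)).trans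
    (Nat.mul_le_mul_left l h1)
  have h4 := (natDegree_pow_le (p := (1 + X : ℤ[X])) (n := m - l)).trans
    (Nat.mul_le_mul_left (m - l) h2)
  omega

lemma coeff_Ep_le {m : ℕ} {F : ℤ[X]} {a : ℕ} (ha : 1 ≤ a) {lam : ℕ} (hlam : lam ≤ m) {D : ℝ}
    (hD : ∀ i, |((F.coeff i : ℤ) : ℝ)| ≤ D) (i : ℕ) :
    |(((Ep m F a lam).coeff i : ℤ) : ℝ)| * (a : ℝ) ^ i ≤ (m + 1) * D * (2 * (1 + m) * a) ^ m := by
  have ha1 : (1 : ℝ) ≤ a := by exact_mod_cast ha
  have hlam' : (lam : ℝ) ≤ m := by exact_mod_cast hlam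
  have hm0 : (0 : ℝ) ≤ m := by positivity
  have hD0 : 0 ≤ D := (abs_nonneg _).trans (hD 0)
  set B : ℝ := 2 * (1 + m) * a with hB
  have h1 : |(((Ep m F a lam).coeff i : ℤ) : ℝ)| * (a : ℝ) ^ i
      = |((((Ep m F a lam).comp (C (a : ℤ) * X)).coeff i : ℤ) : ℝ)| := by
    rw [comp_C_mul_X_coeff]
    push_cast
    rw [abs_mul, abs_pow, Nat.abs_cast]
  rw [h1]
  refine (abs_coeff_le_L1 _ i).trans ?_
  have h2 : (Ep m F a lam).comp (C (a : ℤ) * X) = ∑ l ∈ Finset.range (m + 1), C (F.coeff l) *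
      ((C (a : ℤ) + C (lam : ℤ) * (C (a : ℤ) * X)) ^ l * (1 + C (a : ℤ) * X) ^ (m - l)) := by
    rw [Ep, Polynomial.sum_comp]
    refine Finset.sum_congr rfl ?_
    intro l _
    simp only [mul_comp, pow_comp, add_comp, C_comp, X_comp, one_comp]
  rw [h2]
  refine (L1_sum_le _ _).trans ?_
  have h3 : ∀ l ∈ Finset.range (m + 1), L1 (C (F.coeff l) *
      ((C (a : ℤ) + C (lam : ℤ) * (C (a : ℤ) * X)) ^ l * (1 + C (a : ℤ) * X) ^ (m - l)))
      ≤ D * B ^ m := by
    intro l hl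
    have hl' : l ≤ m := by simpa [Nat.lt_succ_iff] using hl
    have e1 : L1 (C (a : ℤ) + C (lam : ℤ) * (C (a : ℤ) * X)) ≤ B := by
      refine (L1_add_le _ _).trans ?_
      have : L1 (C (lam : ℤ) * (C (a : ℤ) * X)) ≤ lam * a := by
        refine (L1_C_mul _ _).trans ?_
        have h5 : L1 (C (a : ℤ) * X) ≤ a := by
          refine (L1_C_mul _ _).trans ?_
          rw [L1_X]; push_cast; rw [Nat.abs_cast]; linarith
        push_cast
        rw [Nat.abs_cast]
        exact mul_le_mul_of_nonneg_left h5 (by positivity)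
      rw [L1_C]
      push_cast
      rw [Nat.abs_cast, hB]
      nlinarith
    have e2 : L1 (1 + C (a : ℤ) * X) ≤ B := by
      refine (L1_add_le _ _).trans ?_
      have h5 : L1 (C (a : ℤ) * X) ≤ a := by
        refine (L1_C_mul _ _).trans ?_
        rw [L1_X]; push_cast; rw [Nat.abs_cast]; linarith
      rw [L1_one, hB]
      nlinarith
    refine (L1_C_mul _ _).trans ?_
    refine mul_le_mul (hD l) ?_ (L1_nonneg _) hD0
    refine (L1_mul_le _ _).trans ?_
    have hB0 : 0 ≤ B := by positivity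
    calc L1 ((C (a : ℤ) + C (lam : ℤ) * (C (a : ℤ) * X)) ^ l) * L1 ((1 + C (a : ℤ) * X) ^ (m - l))
        ≤ B ^ l * B ^ (m - l) := by
          refine mul_le_mul ?_ ?_ (L1_nonneg _) (by positivity)
          · exact (L1_pow_le _ _).trans (pow_le_pow_left₀ (L1_nonneg _) e1 _)
          · exact (L1_pow_le _ _).trans (pow_le_pow_left₀ (L1_nonneg _) e2 _)
      _ = B ^ m := by rw [← pow_add]; congr 1; omega
  refine (Finset.sum_le_sum h3).trans (le_of_eq ?_)
  rw [Finset.sum_const, Finset.card_range]; push_cast [nsmul_eq_mul]; ring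

lemma aeval_Ep {m : ℕ} {F : ℤ[X]} (hF : F.natDegree ≤ m) {a b lam : ℝ} (a' lam' : ℤ)
    (ha' : (a' : ℝ) = a) (hlam' : (lam' : ℝ) = lam) (hb : b ≠ 0)
    (hq : 1 + b * (a - lam) ≠ 0) :
    aeval (-(1 + b * (a - lam))⁻¹ : ℝ) (Ep m F a' lam')
      = (1 - (1 + b * (a - lam))⁻¹) ^ m * aeval (a + 1 / b) F := by
  rw [Ep, map_sum, aeval_eq_sum hF, Finset.mul_sum]
  refine Finset.sum_congr rfl ?_
  intro l hl
  have hl' : l ≤ m := by simpa [Nat.lt_succ_iff] using hl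
  simp only [map_mul, map_pow, map_add, aeval_C, aeval_X, map_one]
  simp only [eq_intCast, ha', hlam']
  set q := 1 + b * (a - lam) with hqdef
  have h1 : a + lam * -q⁻¹ = (1 + -q⁻¹) * (a + 1 / b) := by
    field_simp
    rw [hqdef]; ring
  rw [h1, mul_pow]
  have h2 : (1 - q⁻¹) ^ m = (1 + -q⁻¹) ^ l * (1 + -q⁻¹) ^ (m - l) := by
    rw [← pow_add, sub_eq_add_neg]; congr 1; omega
  rw [h2]; ring

/-- The key inequality `(*)_K`. -/
lemma star_ineq {m K : ℕ} (hK : K < m) {F : ℤ[X]} (hF : F.natDegree ≤ m) {a b : ℕ}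
    (ha : 2 * m ≤ a) (hb : 1 ≤ b) {D : ℝ} (hD : ∀ i, |((F.coeff i : ℤ) : ℝ)| ≤ D)
    (h0 : F.eval (a : ℤ) ≠ 0) :
    1 ≤ 2 ^ m * ((a : ℝ) * b) ^ K * |aeval ((a : ℝ) + 1 / b) F|
      + (m * (m + 1) * (4 * (1 + m)) ^ m) * (D * a ^ (m - K) / (a ^ 2 * b)) := by
  have hm1 : 1 ≤ m := by omega
  have ha1 : (2 : ℝ) ≤ a := by exact_mod_cast (by omega : 2 ≤ a)
  have hb1 : (1 : ℝ) ≤ b := by exact_mod_cast hb
  have hm1' : (1 : ℝ) ≤ m := by exact_mod_cast hm1
  have hD0 : 0 ≤ D := (abs_nonneg _).trans (hD 0)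
  obtain ⟨lam, hlam, hne⟩ := exists_psi_ne_zero hK hF (a : ℤ) (b : ℤ) h0
  set E := Ep m F a lam with hE
  have hlamm : (lam : ℝ) ≤ m := by exact_mod_cast (by omega : lam ≤ m)
  have ham : 2 * (m : ℝ) ≤ a := by exact_mod_cast ha
  set q : ℝ := 1 + b * ((a : ℝ) - lam) with hq
  have hal : (a : ℝ) / 2 ≤ (a : ℝ) - lam := by linarith
  have hqlow : (a : ℝ) * b / 2 ≤ q := by rw [hq]; nlinarith
  have hqlow2 : 2 ≤ q := by
    rw [hq]
    have : (1 : ℝ) ≤ (a : ℝ) - lam := by linarith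
    nlinarith
  have hqup : q ≤ 2 * ((a : ℝ) * b) := by
    rw [hq]
    have : (0 : ℝ) ≤ lam := by positivity
    nlinarith
  have hq0 : 0 < q := by linarith
  set τ : ℝ := -q⁻¹ with hτ
  have hval : aeval τ E = (1 - q⁻¹) ^ m * aeval ((a : ℝ) + 1 / b) F := by
    refine aeval_Ep hF (a : ℤ) (lam : ℤ) (by push_cast; rfl) (by push_cast; rfl) (by positivity) (by linarith)

  have hqint : (((1 - (b : ℤ) * ((lam : ℤ) - a) : ℤ)) : ℝ) = q := by
    push_cast; rw [hq]; ring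
  -- psi as a real number
  have hpsi : ((psi E (1 - (b : ℤ) * ((lam : ℤ) - a)) K : ℤ) : ℝ)
      = (-q) ^ K * (aeval τ E - ∑ i ∈ Finset.Ico (K + 1) (m + 1), ((E.coeff i : ℤ) : ℝ) * τ ^ i) := by
    have h1 : aeval τ E = ∑ i ∈ Finset.range (K + 1), ((E.coeff i : ℤ) : ℝ) * τ ^ i
        + ∑ i ∈ Finset.Ico (K + 1) (m + 1), ((E.coeff i : ℤ) : ℝ) * τ ^ i := by
      rw [aeval_eq_sum (natDegree_Ep_le m F a lam), Finset.sum_range_add_sum_Ico _ (by omega)]
    rw [h1, add_sub_cancel_right, psi]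
    push_cast
    rw [Finset.mul_sum]
    refine Finset.sum_congr rfl ?_
    intro i hi
    have hi' : i ≤ K := by simpa [Nat.lt_succ_iff] using hi
    have h2 : (1 - (b : ℝ) * ((lam : ℝ) - a)) = q := by rw [hq]; ring
    rw [h2]
    have h3 : (-q) ^ K = (-q) ^ (K - i) * (-q) ^ i := by
      rw [← pow_add]; congr 1; omega
    have h4 : (-q) ^ i * τ ^ i = 1 := by
      rw [← mul_pow, hτ, neg_mul_neg, mul_inv_cancel₀ hq0.ne', one_pow]
    rw [h3]
    calc ((E.coeff i : ℤ) : ℝ) * (-q) ^ (K - i)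
        = ((E.coeff i : ℤ) : ℝ) * (-q) ^ (K - i) * ((-q) ^ i * τ ^ i) := by rw [h4, mul_one]
      _ = _ := by ring
  have hge : (1 : ℝ) ≤ |((psi E (1 - (b : ℤ) * ((lam : ℤ) - a)) K : ℤ) : ℝ)| := by
    exact_mod_cast Int.one_le_abs hne
  rw [hpsi, abs_mul, abs_pow, abs_neg, abs_of_pos hq0] at hge
  refine hge.trans ?_
  have hab0 : 0 < (a : ℝ) * b := by positivity
  -- first part
  have hpart1 : q ^ K * |aeval τ E| ≤ 2 ^ m * ((a : ℝ) * b) ^ K * |aeval ((a : ℝ) + 1 / b) F| := by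
    rw [hval, abs_mul, ← mul_assoc]
    refine mul_le_mul_of_nonneg_right ?_ (abs_nonneg _)
    have h1 : |(1 - q⁻¹) ^ m| ≤ 1 := by
      have h2 : q⁻¹ ≤ 1 := inv_le_one_of_one_le₀ (by linarith)
      have h3 : 0 ≤ q⁻¹ := by positivity
      rw [abs_pow, abs_of_nonneg (by linarith)]
      exact pow_le_one₀ (by linarith) (by linarith)
    have h2 : q ^ K ≤ 2 ^ m * ((a : ℝ) * b) ^ K := by
      calc q ^ K ≤ (2 * ((a : ℝ) * b)) ^ K := pow_le_pow_left₀ hq0.le hqup _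
        _ = 2 ^ K * ((a : ℝ) * b) ^ K := mul_pow _ _ _
        _ ≤ 2 ^ m * ((a : ℝ) * b) ^ K := by
          refine mul_le_mul_of_nonneg_right ?_ (by positivity)
          exact pow_le_pow_right₀ (by norm_num) hK.le
    calc q ^ K * |(1 - q⁻¹) ^ m| ≤ (2 ^ m * ((a : ℝ) * b) ^ K) * 1 :=
          mul_le_mul h2 h1 (abs_nonneg _) (by positivity)
      _ = _ := mul_one _
  -- second part
  have hpart2 : q ^ K * |∑ i ∈ Finset.Ico (K + 1) (m + 1), ((E.coeff i : ℤ) : ℝ) * τ ^ i|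
      ≤ (m * (m + 1) * (4 * (1 + m)) ^ m) * (D * a ^ (m - K) / (a ^ 2 * b)) := by
    have hterm : ∀ i ∈ Finset.Ico (K + 1) (m + 1), q ^ K * |((E.coeff i : ℤ) : ℝ) * τ ^ i|
        ≤ ((m + 1) * (4 * (1 + m)) ^ m) * (D * a ^ (m - K) / (a ^ 2 * b)) := by
      intro i hi
      rw [Finset.mem_Ico] at hi
      have h1 := coeff_Ep_le (m := m) (F := F) (a := a) (by omega) (lam := lam) (by omega) hD i
      rw [← hE] at h1
      have h2 : |τ ^ i| = (q ^ i)⁻¹ := by
        rw [abs_pow, hτ, abs_neg, abs_of_pos (by positivity), inv_pow]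
      rw [abs_mul, h2]
      have h3 : q ^ K * (|((E.coeff i : ℤ) : ℝ)| * (q ^ i)⁻¹)
          = |((E.coeff i : ℤ) : ℝ)| / q ^ (i - K) := by
        have : q ^ i = q ^ K * q ^ (i - K) := by rw [← pow_add]; congr 1; omega
        rw [this]
        field_simp
      rw [h3, div_le_iff₀ (by positivity)]
      have ha0 : (0 : ℝ) < a := by linarith
      have h4 : |((E.coeff i : ℤ) : ℝ)| ≤ (m + 1) * D * (2 * (1 + m) * a) ^ m / a ^ i := by
        rw [le_div_iff₀ (by positivity)]; exact h1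
      refine h4.trans ?_
      rw [div_le_iff₀ (by positivity)]
      -- key: a^m * a^2 * b ≤ 2^m * a^(m-K) * q^(i-K) * a^i
      have h5 : (a : ℝ) * b ≤ 2 ^ m * (q ^ (i - K)) * a ^ (i - K - 1) := by
        have e1 : ((a : ℝ) * b / 2) ^ (i - K) ≤ q ^ (i - K) :=
          pow_le_pow_left₀ (by positivity) hqlow _
        have e2 : ((a : ℝ) * b / 2) ^ (i - K) = ((a : ℝ) * b) ^ (i - K) / 2 ^ (i - K) := div_pow _ _ _
        have e3 : (2 : ℝ) ^ (i - K) ≤ 2 ^ m := pow_le_pow_right₀ (by norm_num) (by omega)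
        have e4 : (a : ℝ) * b ≤ ((a : ℝ) * b) ^ (i - K) := by
          refine le_self_pow₀ ?_ (by omega)
          nlinarith
        have e5 : (1 : ℝ) ≤ a ^ (i - K - 1) := one_le_pow₀ (by linarith)
        have e6 : ((a : ℝ) * b) ^ (i - K) ≤ 2 ^ m * q ^ (i - K) := by
          rw [e2, div_le_iff₀ (by positivity)] at e1
          calc ((a : ℝ) * b) ^ (i - K) ≤ q ^ (i - K) * 2 ^ (i - K) := e1
            _ ≤ q ^ (i - K) * 2 ^ m := mul_le_mul_of_nonneg_left e3 (by positivity)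
            _ = _ := mul_comm _ _
        calc (a : ℝ) * b ≤ 2 ^ m * q ^ (i - K) := e4.trans e6
          _ = 2 ^ m * q ^ (i - K) * 1 := (mul_one _).symm
          _ ≤ _ := mul_le_mul_of_nonneg_left e5 (by positivity)
      have h6 : (a : ℝ) ^ m * (a * (a * b)) ≤ 2 ^ m * a ^ (m - K) * q ^ (i - K) * a ^ i := by
        have e7 : (a : ℝ) ^ (m - K) * a ^ i = a ^ m * (a * a ^ (i - K - 1)) := by
          rw [← pow_succ', ← pow_add, ← pow_add]; congr 1; omega
        calc (a : ℝ) ^ m * (a * (a * b))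
            ≤ (a : ℝ) ^ m * (a * (2 ^ m * (q ^ (i - K)) * a ^ (i - K - 1))) := by gcongr
          _ = 2 ^ m * q ^ (i - K) * (a ^ m * (a * a ^ (i - K - 1))) := by ring
          _ = _ := by rw [← e7]; ring
      have h7 : (2 * (1 + m) * a : ℝ) ^ m = (2 * (1 + m)) ^ m * a ^ m := mul_pow _ _ _
      have h8 : (4 * (1 + m) : ℝ) ^ m = 2 ^ m * (2 * (1 + m)) ^ m := by
        rw [← mul_pow]; congr 1; ring
      rw [h7, h8]
      have h9 : (m + 1) * (2 ^ m * (2 * (1 + (m : ℝ))) ^ m) * (D * (a : ℝ) ^ (m - K) / (a ^ 2 * b))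
          * q ^ (i - K) * a ^ i
          = ((m + 1) * D * (2 * (1 + (m : ℝ))) ^ m) *
            ((2 ^ m * a ^ (m - K) * q ^ (i - K) * a ^ i) / (a ^ 2 * b)) := by ring
      rw [h9, ← mul_assoc ((m + 1 : ℝ) * D)]
      refine mul_le_mul_of_nonneg_left ?_ (by positivity)
      rw [le_div_iff₀ (by positivity)]
      calc (a : ℝ) ^ m * (a ^ 2 * b) = (a : ℝ) ^ m * (a * (a * b)) := by ring
        _ ≤ _ := h6
    calc q ^ K * |∑ i ∈ Finset.Ico (K + 1) (m + 1), ((E.coeff i : ℤ) : ℝ) * τ ^ i|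
        ≤ q ^ K * ∑ i ∈ Finset.Ico (K + 1) (m + 1), |((E.coeff i : ℤ) : ℝ) * τ ^ i| :=
          mul_le_mul_of_nonneg_left (Finset.abs_sum_le_sum_abs _ _) (by positivity)
      _ = ∑ i ∈ Finset.Ico (K + 1) (m + 1), q ^ K * |((E.coeff i : ℤ) : ℝ) * τ ^ i| := by
          rw [Finset.mul_sum]
      _ ≤ ∑ _i ∈ Finset.Ico (K + 1) (m + 1),
          ((m + 1) * (4 * (1 + m)) ^ m) * (D * a ^ (m - K) / (a ^ 2 * b)) := Finset.sum_le_sum hterm
      _ = ((m + 1 - (K + 1) : ℕ) : ℝ) *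
          (((m + 1) * (4 * (1 + m)) ^ m) * (D * a ^ (m - K) / (a ^ 2 * b))) := by
          rw [Finset.sum_const, Nat.card_Ico, nsmul_eq_mul]
      _ ≤ (m : ℝ) * (((m + 1) * (4 * (1 + m)) ^ m) * (D * a ^ (m - K) / (a ^ 2 * b))) := by
          refine mul_le_mul_of_nonneg_right ?_ (by positivity)
          exact_mod_cast (by omega : m + 1 - (K + 1) ≤ m)
      _ = _ := by ring
  calc q ^ K * |aeval τ E - ∑ i ∈ Finset.Ico (K + 1) (m + 1), ((E.coeff i : ℤ) : ℝ) * τ ^ i|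
      ≤ q ^ K * (|aeval τ E| + |∑ i ∈ Finset.Ico (K + 1) (m + 1), ((E.coeff i : ℤ) : ℝ) * τ ^ i|) :=
        mul_le_mul_of_nonneg_left (abs_sub _ _) (by positivity)
    _ = q ^ K * |aeval τ E|
        + q ^ K * |∑ i ∈ Finset.Ico (K + 1) (m + 1), ((E.coeff i : ℤ) : ℝ) * τ ^ i| := by ring
    _ ≤ _ := add_le_add hpart1 hpart2

end Pool.Agent.H89.Alg
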