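import Pool.Agent.H89.Alg.Interval

set_option autoImplicit false

open Polynomial

namespace Pool.Agent.H89.Alg

/-- covering step: if no member of the family works, every member is killed. -/
lemma cover_step {n K h B' : ℕ} (hn : 1 ≤ n) (hK : 1 ≤ K) {s C : ℝ} (hs : 0 < s) (hC : 0 < C)
    {u v : ℝ} (hu : 0 ≤ u) (huv : u < v) (hv : v ≤ 1)
    (hB₁ : ∀ h : ℝ, (B' : ℝ) ≤ h → C * h ^ (-s) ≤ (v - u) / 6)
    (hcon : ∀ (P : ℤ[X]) (α : ℝ), Good n P α → u < α → α < v → B' ≤ ht n P →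
      ∃ (R : ℤ[X]) (β : ℝ), Good n R β ∧ h < ht n R ∧ ht n R ≤ ht n P ∧ β ≠ α ∧
        |α - β| < C * (ht n R : ℝ) ^ (-s))
    {P : ℤ[X]} (hP : Fam n K P) (hPu : aeval (u + (v - u) / 3) P ≤ 0)
    (hPv : 0 ≤ aeval (v - (v - u) / 3) P) :
    ht n P ≤ 4 * n * K ∧ (ht n P.primPart ≤ B' ∨ ∃ (R : ℤ[X]) (β : ℝ), Good n R β ∧
      ht n R ≤ 4 * n * K ∧ h < ht n R ∧ (∃ x, u ≤ x ∧ x ≤ v ∧ |x - β| ≤ C * (ht n R : ℝ) ^ (-s)) ∧
      1 ≤ ((((n + 1) * n * (1 + C) ^ n * (4 * n) * C)) * ((n + 1) * (4 * n)) ^ (n - 1)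
          * (n + 1) ^ n) * ((K : ℝ) ^ n * (ht n R : ℝ) ^ ((n : ℝ) - s)) ∧
      |aeval β P| ≤ ((n + 1) * n * (1 + C) ^ n * (4 * n) * C) * K * (ht n R : ℝ) ^ (-s)) := by
  set w := v - u with hw
  have hw0 : 0 < w := by rw [hw]; linarith
  obtain ⟨α, hα1, hα2, hα0, hαroots⟩ := hP.root hn hK (by linarith : 0 ≤ u + w / 3)
    (by linarith : u + w / 3 ≤ v - w / 3) hPu hPv
  have hαpos : 0 < α := by linarith
  have hα1' : α ≤ 1 := by linarith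
  have hht := hP.ht_le hn hαpos.le hα1' hα0
  refine ⟨hht, ?_⟩
  by_cases hsmall : ht n P.primPart ≤ B'
  · exact Or.inl hsmall
  · right
    push Not at hsmall
    have hgood := hP.good hn hα0
    obtain ⟨R, β, hR, hhR, hRP, hne, hd⟩ := hcon P.primPart α hgood (by linarith) (by linarith)
      hsmall.le
    have hprim := ht_primPart_le hP.ne_zero hP.1.le
    have hR1 : (1 : ℝ) ≤ ht n R := by exact_mod_cast hR.one_le_ht
    have hr : (ht n R : ℝ) ^ (-s) ≤ 1 := Real.rpow_le_one_of_one_le_of_nonpos hR1 (by linarith)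
    have hv := near_bound hP hC hr hαpos.le hα1' hα0 hht hd.le
    have hPβ : ¬ R ∣ P := by
      intro hdvd
      have hβ0 : aeval β P = 0 := by
        obtain ⟨Q, hQ⟩ := hdvd
        rw [hQ, map_mul, hR.aeval, zero_mul]
      rcases hαroots β hβ0 with h1 | h1
      · exact hne h1
      · have hg2 := hP.good hn hβ0
        have hdvd2 : R ∣ P.primPart := hR.dvd hg2.aeval
        have hheq : ht n R = ht n P.primPart := by
          by_contra hne'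
          exact hR.not_dvd hg2 hne' hdvd2
        have h2 : C * (ht n R : ℝ) ^ (-s) ≤ w / 6 := by
          apply hB₁
          rw [hheq]; exact_mod_cast hsmall.le
        have h3 : |α - β| = α - β := abs_of_pos (by linarith)
        rw [h3] at hd
        linarith
    refine ⟨R, β, hR, (hRP.trans hprim).trans hht, hhR, ⟨α, by linarith, by linarith, hd.le⟩,
      kill_exponent hn hP.1.le hR hPβ hht hv, hv⟩

/-- The interval lemma. -/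
lemma interval_lemma (n : ℕ) (hn : 1 ≤ n) (s : ℝ) (hs : 2 * (n : ℝ) < s) (C : ℝ) (hC : 0 < C) :
    ∃ η : ℝ, 0 < η ∧ ∀ (u v : ℝ), 0 ≤ u → u < v → v ≤ 1 → ∀ h : ℕ,
      (∀ F : Finset (ℤ[X] × ℝ), (∀ q ∈ F, Good n q.1 q.2 ∧ h < ht n q.1 ∧
        ∃ x, u ≤ x ∧ x ≤ v ∧ |x - q.2| ≤ C * (ht n q.1 : ℝ) ^ (-s)) →
        ∑ q ∈ F, ((ht n q.1 : ℝ)) ^ (-s) ≤ η * (v - u)) →
      ∀ B : ℕ, ∃ (P : ℤ[X]) (α : ℝ), Good n P α ∧ u < α ∧ α < v ∧ B ≤ ht n P ∧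
        ∀ (R : ℤ[X]) (β : ℝ), Good n R β → h < ht n R → ht n R ≤ ht n P → β ≠ α →
          C * (ht n R : ℝ) ^ (-s) ≤ |α - β| := by
  classical
  have hn1 : (1 : ℝ) ≤ n := by exact_mod_cast hn
  have hs0 : 0 < s := by linarith
  obtain ⟨Cp, hCp0, hCp⟩ := sum_good_le n (1 + s / 2) (by linarith)
  set c : ℝ := (n + 1) * n * (1 + C) ^ n * (4 * n) * C with hc
  have hc0 : 0 < c := by positivity
  set C₆ : ℝ := c * ((n + 1) * (4 * n)) ^ (n - 1) * (n + 1) ^ n with hC₆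
  have hC₆0 : 0 < C₆ := by positivity
  set W : ℝ := 16 * n * (2 * (c * ((n + 1) * (8 * n)) ^ (n - 1) * (n + 1) ^ n)) with hW
  have hW0 : 0 < W := by positivity
  refine ⟨1 / (12 * ((2 * c + 1) * 3 ^ n)), by positivity, ?_⟩
  intro u v hu huv hv h hF B
  by_contra hcon
  push Not at hcon
  set w := v - u with hw
  have hw0 : 0 < w := by rw [hw]; linarith
  obtain ⟨B₁, hB₁⟩ := exists_nat_forall_rpow_neg_le (θ := s) (C := C) (η := w / 6) hs0 (by linarith)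
  set B' := max B B₁ with hB'
  -- thresholds
  set ω : ℝ := (s / 2) / (s - n) with hω
  set θ₁ : ℝ := (s / 2 - n) / s with hθ₁
  have hθ₁0 : 0 < θ₁ := div_pos (by linarith) hs0
  set θ₂ : ℝ := n - n * ω with hθ₂
  have hθ₂0 : 0 < θ₂ := by
    have : ω < 1 := by rw [hω, div_lt_one (by linarith)]; linarith
    rw [hθ₂]; nlinarith
  obtain ⟨K₁, hK₁⟩ := exists_nat_forall_rpow_neg_le (θ := 1) (C := 1) (η := w / 60) one_pos
    (by linarith)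
  obtain ⟨K₂, hK₂⟩ := exists_nat_forall_rpow_neg_le (θ := n)
    (C := (2 * B' + 1) ^ (n + 1) * (8 * n + 1)) (η := w / 60) (by linarith) (by linarith)
  obtain ⟨K₃, hK₃⟩ := exists_nat_forall_rpow_neg_le (θ := θ₁) (C := W * Cp) (η := w / 60) hθ₁0
    (by linarith)
  obtain ⟨K₄, hK₄⟩ := exists_nat_forall_rpow_neg_le (θ := θ₂) (C := 32 * n * Cp * C₆ ^ ω)
    (η := w / 60) hθ₂0 (by linarith)
  obtain ⟨K, hK, hKK₁, hKK₂, hKK₃, hKK₄⟩ : ∃ K : ℕ, 1 ≤ K ∧ K₁ ≤ K ∧ K₂ ≤ K ∧ K₃ ≤ K ∧ K₄ ≤ K :=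
    ⟨K₁ + K₂ + K₃ + K₄ + 1, by omega, by omega, by omega, by omega, by omega⟩
  have t1 := hK₁ K (by exact_mod_cast hKK₁)
  have t2 := hK₂ K (by exact_mod_cast hKK₂)
  have t3 := hK₃ K (by exact_mod_cast hKK₃)
  have t4 := hK₄ K (by exact_mod_cast hKK₄)
  have hK1 : (1 : ℝ) ≤ K := by exact_mod_cast hK
  have hK0 : (0 : ℝ) < K := by linarith
  obtain ⟨S, hScard, hS⟩ := exists_family (K := K) hn (by linarith : 0 ≤ u + w / 3)
    (by linarith : u + w / 3 ≤ v - w / 3)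
  have hcover : ∀ P ∈ S, ht n P ≤ 4 * n * K ∧ (ht n P.primPart ≤ B' ∨
      ∃ (R : ℤ[X]) (β : ℝ), Good n R β ∧
      ht n R ≤ 4 * n * K ∧ h < ht n R ∧ (∃ x, u ≤ x ∧ x ≤ v ∧ |x - β| ≤ C * (ht n R : ℝ) ^ (-s)) ∧
      1 ≤ C₆ * ((K : ℝ) ^ n * (ht n R : ℝ) ^ ((n : ℝ) - s)) ∧
      |aeval β P| ≤ c * K * (ht n R : ℝ) ^ (-s)) := by
    intro P hP
    obtain ⟨h1, h2, h3⟩ := hS P hP
    exact cover_step hn hK hs0 hC hu huv hv
      (fun h hh => hB₁ h (le_trans (by exact_mod_cast le_max_right B B₁) hh))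
      (fun P α hg ha hb hBP => hcon P α hg ha hb ((le_max_left _ _).trans hBP)) h1 h2 h3
  set Bad1 := S.filter (fun P => ht n P.primPart ≤ B') with hBad1
  set 𝓡 := (finite_good n (4 * n * K)).toFinset.filter (fun q => h < ht n q.1 ∧
    (∃ x, u ≤ x ∧ x ≤ v ∧ |x - q.2| ≤ C * (ht n q.1 : ℝ) ^ (-s)) ∧
      1 ≤ C₆ * ((K : ℝ) ^ n * (ht n q.1 : ℝ) ^ ((n : ℝ) - s))) with h𝓡
  set Kill : ℤ[X] × ℝ → Finset ℤ[X] := fun q =>
    S.filter (fun P => |aeval q.2 P| ≤ c * K * (ht n q.1 : ℝ) ^ (-s)) with hKill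
  have hsub : S ⊆ Bad1 ∪ 𝓡.biUnion Kill := by
    intro P hP
    rw [Finset.mem_union]
    rcases (hcover P hP).2 with h1 | ⟨R, β, hR, hR4, hhR, hx, h6, hv'⟩
    · left; exact Finset.mem_filter.2 ⟨hP, h1⟩
    · right
      rw [Finset.mem_biUnion]
      refine ⟨(R, β), ?_, Finset.mem_filter.2 ⟨hP, hv'⟩⟩
      rw [h𝓡, Finset.mem_filter, Set.Finite.mem_toFinset]
      exact ⟨⟨hR, hR4⟩, hhR, hx, h6⟩
  have h𝓡mem : ∀ q ∈ 𝓡, Good n q.1 q.2 ∧ ht n q.1 ≤ 4 * n * K ∧ h < ht n q.1 ∧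
      (∃ x, u ≤ x ∧ x ≤ v ∧ |x - q.2| ≤ C * (ht n q.1 : ℝ) ^ (-s)) ∧
      1 ≤ C₆ * ((K : ℝ) ^ n * (ht n q.1 : ℝ) ^ ((n : ℝ) - s)) := by
    intro q hq
    rw [h𝓡, Finset.mem_filter, Set.Finite.mem_toFinset] at hq
    exact ⟨hq.1.1, hq.1.2, hq.2.1, hq.2.2.1, hq.2.2.2⟩
  -- card bounds
  have hc1 : (S.card : ℝ) ≤ (Bad1.card : ℝ) + ∑ q ∈ 𝓡, ((Kill q).card : ℝ) := by
    have h1 := (Finset.card_le_card hsub).trans (Finset.card_union_le _ _)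
    have h2 := h1.trans (Nat.add_le_add_left Finset.card_biUnion_le _)
    exact_mod_cast h2
  have hc2 : (Bad1.card : ℝ) ≤ (2 * B' + 1) ^ (n + 1) * (8 * n + 1) * K := by
    have h1 := card_small_primPart (n := n) (K := K) (B := B') Bad1 (by
      intro P hP
      rw [hBad1, Finset.mem_filter] at hP
      exact ⟨(hS P hP.1).1, (hcover P hP.1).1, hP.2⟩)
    have h2 : (Bad1.card : ℝ) ≤ (2 * B' + 1) ^ (n + 1) * (2 * (4 * n * K) + 1) := by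
      exact_mod_cast h1
    refine h2.trans ?_
    rw [mul_assoc ((2 * (B' : ℝ) + 1) ^ (n + 1))]
    refine mul_le_mul_of_nonneg_left ?_ (by positivity)
    nlinarith
  set Low := 𝓡.filter (fun q => (ht n q.1 : ℝ) ^ s ≤ K) with hLow
  set Mid := 𝓡.filter (fun q => ¬ (ht n q.1 : ℝ) ^ s ≤ K) with hMid
  have hsplit : ∑ q ∈ 𝓡, ((Kill q).card : ℝ)
      = ∑ q ∈ Low, ((Kill q).card : ℝ) + ∑ q ∈ Mid, ((Kill q).card : ℝ) :=
    (Finset.sum_filter_add_sum_filter_not 𝓡 _ _).symm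
  have hlow : ∑ q ∈ Low, ((Kill q).card : ℝ) ≤ (K : ℝ) ^ (n + 1) * (w / 12) := by
    have h1 : ∀ q ∈ Low, ((Kill q).card : ℝ) ≤
        ((2 * c + 1) * 3 ^ n) * (K : ℝ) ^ (n + 1) * (ht n q.1 : ℝ) ^ (-s) := by
      intro q hq
      rw [hLow, Finset.mem_filter] at hq
      have hq' := h𝓡mem q hq.1
      have hq1 : (0 : ℝ) < ht n q.1 := by exact_mod_cast hq'.1.one_le_ht
      refine low_kill hK (Kill q) ?_ (β := q.2) hc0.le hq1 hq.2 ?_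
      · intro P hP
        exact (hS P (Finset.mem_filter.1 hP).1).1
      · intro P hP
        exact (Finset.mem_filter.1 hP).2
    refine (Finset.sum_le_sum h1).trans ?_
    rw [← Finset.mul_sum]
    have h2 := hF Low (by
      intro q hq
      rw [hLow, Finset.mem_filter] at hq
      have hq' := h𝓡mem q hq.1
      exact ⟨hq'.1, hq'.2.2.1, hq'.2.2.2.1⟩)
    calc ((2 * c + 1) * 3 ^ n) * (K : ℝ) ^ (n + 1) * ∑ q ∈ Low, (ht n q.1 : ℝ) ^ (-s)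
        ≤ ((2 * c + 1) * 3 ^ n) * (K : ℝ) ^ (n + 1) * (1 / (12 * ((2 * c + 1) * 3 ^ n)) * w) :=
          mul_le_mul_of_nonneg_left h2 (by positivity)
      _ = (K : ℝ) ^ (n + 1) * (w / 12) := by field_simp
  have hmid : ∑ q ∈ Mid, ((Kill q).card : ℝ) ≤ W * (K : ℝ) ^ (n + 1) * (Cp * (K : ℝ) ^ (-θ₁))
      + 32 * n * K * (Cp * (C₆ * (K : ℝ) ^ n) ^ ω) := by
    have h1 : ∀ q ∈ Mid, ((Kill q).card : ℝ) ≤
        W * ((K : ℝ) ^ (n + 1) * (ht n q.1 : ℝ) ^ ((n : ℝ) - s - 1))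
          + (32 * n) * (K * (ht n q.1 : ℝ) ^ (-1 : ℝ)) := by
      intro q hq
      rw [hMid, Finset.mem_filter] at hq
      have hq' := h𝓡mem q hq.1
      refine mid_kill hn hK (Kill q) ?_ hq'.1 hq'.2.1 hc0.le ?_
      · intro P hP
        have hPS := (Finset.mem_filter.1 hP).1
        exact ⟨(hS P hPS).1.1.le, (hcover P hPS).1⟩
      · intro P hP
        exact (Finset.mem_filter.1 hP).2
    refine (Finset.sum_le_sum h1).trans ?_
    rw [Finset.sum_add_distrib, ← Finset.mul_sum, ← Finset.mul_sum, ← Finset.mul_sum,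
      ← Finset.mul_sum]
    have ha := mid_sum_a hn hs hCp hK1 Mid (by
      intro q hq
      rw [hMid, Finset.mem_filter] at hq
      exact ⟨(h𝓡mem q hq.1).1, (not_le.1 hq.2).le⟩)
    have hb := mid_sum_b hn hs hCp (W := C₆ * (K : ℝ) ^ n) (by positivity) Mid (by
      intro q hq
      rw [hMid, Finset.mem_filter] at hq
      have hq' := h𝓡mem q hq.1
      refine ⟨hq'.1, ?_⟩
      have hh0 : (0 : ℝ) < ht n q.1 := by exact_mod_cast hq'.1.one_le_ht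
      have h6 := hq'.2.2.2.2
      have e1 : (ht n q.1 : ℝ) ^ ((n : ℝ) - s) = ((ht n q.1 : ℝ) ^ (s - n))⁻¹ := by
        rw [← Real.rpow_neg hh0.le]; ring_nf
      rw [e1, ← mul_assoc, ← div_eq_mul_inv, le_div_iff₀ (by positivity), one_mul] at h6
      exact h6)
    refine add_le_add ?_ ?_
    · rw [mul_assoc W]
      exact mul_le_mul_of_nonneg_left (mul_le_mul_of_nonneg_left ha (by positivity)) hW0.le
    · rw [mul_assoc (32 * (n : ℝ))]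
      exact mul_le_mul_of_nonneg_left (mul_le_mul_of_nonneg_left hb (by positivity))
        (by positivity)
  -- final contradiction
  have hKn : (K : ℝ) ^ (n + 1) = K ^ n * K := pow_succ _ _
  have e2 : (K : ℝ) ^ (n + 1) * (K : ℝ) ^ (-(n : ℝ)) = K := by
    rw [Real.rpow_neg hK0.le, Real.rpow_natCast, hKn]
    field_simp
  have e1 : (K : ℝ) ^ (n + 1) * (K : ℝ) ^ (-(1 : ℝ)) = K ^ n := by
    rw [Real.rpow_neg hK0.le, Real.rpow_one, hKn]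
    field_simp
  have e4 : K * (C₆ * (K : ℝ) ^ n) ^ ω = (K : ℝ) ^ (n + 1) * (C₆ ^ ω * (K : ℝ) ^ (-θ₂)) := by
    rw [Real.mul_rpow hC₆0.le (by positivity), ← Real.rpow_natCast (K : ℝ) n,
      ← Real.rpow_mul hK0.le, ← Real.rpow_natCast (K : ℝ) (n + 1)]
    have h1 : (K : ℝ) ^ ((n + 1 : ℕ) : ℝ) * (K : ℝ) ^ (-θ₂) = K * (K : ℝ) ^ ((n : ℝ) * ω) := by
      rw [← Real.rpow_add hK0]
      nth_rewrite 2 [← Real.rpow_one (K : ℝ)]
      rw [← Real.rpow_add hK0]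
      congr 1
      rw [hθ₂]; push_cast; ring
    calc (K : ℝ) * (C₆ ^ ω * (K : ℝ) ^ ((n : ℝ) * ω)) = C₆ ^ ω * (K * (K : ℝ) ^ ((n : ℝ) * ω)) := by
          ring
      _ = _ := by rw [← h1]; ring
  have hX0 : 0 < (K : ℝ) ^ (n + 1) := by positivity
  have hlhs : (K : ℝ) ^ n * (K * (v - w / 3 - (u + w / 3)) / 2 - 1)
      = (K : ℝ) ^ (n + 1) * (w / 6) - (K : ℝ) ^ (n + 1) * (K : ℝ) ^ (-(1 : ℝ)) := by
    rw [e1, hKn]
    have : v - w / 3 - (u + w / 3) = w / 3 := by rw [hw]; ring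
    rw [this]; ring
  rw [hlhs] at hScard
  have hbad : (Bad1.card : ℝ) ≤ (K : ℝ) ^ (n + 1) * (w / 60) := by
    refine hc2.trans ?_
    calc (2 * (B' : ℝ) + 1) ^ (n + 1) * (8 * n + 1) * K
        = (K : ℝ) ^ (n + 1) * ((2 * (B' : ℝ) + 1) ^ (n + 1) * (8 * n + 1) * (K : ℝ) ^ (-(n : ℝ))) := by
          nth_rewrite 1 [← e2]; ring
      _ ≤ _ := mul_le_mul_of_nonneg_left t2 hX0.le
  have hm3 : W * (K : ℝ) ^ (n + 1) * (Cp * (K : ℝ) ^ (-θ₁)) ≤ (K : ℝ) ^ (n + 1) * (w / 60) := by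
    calc W * (K : ℝ) ^ (n + 1) * (Cp * (K : ℝ) ^ (-θ₁))
        = (K : ℝ) ^ (n + 1) * (W * Cp * (K : ℝ) ^ (-θ₁)) := by ring
      _ ≤ _ := mul_le_mul_of_nonneg_left t3 hX0.le
  have hm4 : 32 * n * K * (Cp * (C₆ * (K : ℝ) ^ n) ^ ω) ≤ (K : ℝ) ^ (n + 1) * (w / 60) := by
    calc 32 * n * K * (Cp * (C₆ * (K : ℝ) ^ n) ^ ω)
        = 32 * n * Cp * (K * (C₆ * (K : ℝ) ^ n) ^ ω) := by ring
      _ = (K : ℝ) ^ (n + 1) * (32 * n * Cp * C₆ ^ ω * (K : ℝ) ^ (-θ₂)) := by rw [e4]; ring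
      _ ≤ _ := mul_le_mul_of_nonneg_left t4 hX0.le
  rw [one_mul] at t1
  have ht1 : (K : ℝ) ^ (n + 1) * (K : ℝ) ^ (-(1 : ℝ)) ≤ (K : ℝ) ^ (n + 1) * (w / 60) :=
    mul_le_mul_of_nonneg_left t1 hX0.le
  rw [hsplit] at hc1
  have hfinal : (K : ℝ) ^ (n + 1) * (w / 6) ≤ (K : ℝ) ^ (n + 1) * (w / 60) * 4
      + (K : ℝ) ^ (n + 1) * (w / 12) := by linarith
  have : (K : ℝ) ^ (n + 1) * w > 0 := by positivity
  nlinarith

end Pool.Agent.H89.Alg
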