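import Pool.Agent.H89.Alg.Bad

set_option autoImplicit false

open Polynomial

namespace Pool.Agent.H89.Alg

/-- Root finding with an approximate derivative. -/
lemma exists_root_near (g : ℝ → ℝ) (hg : Continuous g) {m E y' r : ℝ} (hE : E < |m|)
    (hlip : ∀ y₁ y₂, |y₁ - y'| ≤ r → |y₂ - y'| ≤ r →
      |g y₁ - g y₂ + m * (y₁ - y₂)| ≤ E * |y₁ - y₂|)
    (hr : |g y'| ≤ (|m| - E) * r) : ∃ y, g y = 0 ∧ |y - y'| ≤ |g y'| / (|m| - E) := by
  have hmE : 0 < |m| - E := by linarith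
  set δ := |g y'| / (|m| - E) with hδ
  have hδ0 : 0 ≤ δ := by positivity
  have hδr : δ ≤ r := by rw [hδ, div_le_iff₀ hmE]; linarith
  have hδm : (|m| - E) * δ = |g y'| := by rw [hδ]; field_simp
  have h1 := hlip (y' + δ) y' (by rw [add_sub_cancel_left, abs_of_nonneg hδ0]; exact hδr)
    (by rw [sub_self, abs_zero]; exact hδ0.trans hδr)
  have h2 := hlip (y' - δ) y'
    (by rw [sub_sub_cancel_left, abs_neg, abs_of_nonneg hδ0]; exact hδr)
    (by rw [sub_self, abs_zero]; exact hδ0.trans hδr)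
  rw [add_sub_cancel_left, abs_of_nonneg hδ0] at h1
  rw [sub_sub_cancel_left, abs_neg, abs_of_nonneg hδ0] at h2
  rw [abs_le] at h1 h2
  have hle : y' - δ ≤ y' + δ := by linarith
  have habs1 := le_abs_self (g y')
  have habs2 := neg_abs_le (g y')
  rcases le_or_gt 0 m with hm | hm
  · rw [abs_of_nonneg hm] at hδm
    have h3 : g (y' + δ) ≤ 0 := by nlinarith
    have h4 : 0 ≤ g (y' - δ) := by nlinarith
    obtain ⟨y, hy, hy0⟩ := intermediate_value_Icc' hle hg.continuousOn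
      (show (0 : ℝ) ∈ Set.Icc (g (y' + δ)) (g (y' - δ)) from ⟨h3, h4⟩)
    exact ⟨y, hy0, abs_le.2 ⟨by linarith [hy.1], by linarith [hy.2]⟩⟩
  · rw [abs_of_neg hm] at hδm
    have h3 : 0 ≤ g (y' + δ) := by nlinarith
    have h4 : g (y' - δ) ≤ 0 := by nlinarith
    obtain ⟨y, hy, hy0⟩ := intermediate_value_Icc hle hg.continuousOn
      (show (0 : ℝ) ∈ Set.Icc (g (y' - δ)) (g (y' + δ)) from ⟨h4, h3⟩)
    exact ⟨y, hy0, abs_le.2 ⟨by linarith [hy.1], by linarith [hy.2]⟩⟩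

/-- A polynomial vanishing at `x` has an irreducible primitive factor vanishing at `x`. -/
lemma exists_irreducible_factor {P : ℤ[X]} (hP0 : P ≠ 0) {x : ℝ} (hx : aeval x P = 0) :
    ∃ A B : ℤ[X], P = A * B ∧ Irreducible A ∧ A.IsPrimitive ∧ 1 ≤ A.natDegree ∧
      aeval x A = 0 := by
  obtain ⟨f, hf, hprod⟩ := WfDvdMonoid.exists_factors P hP0
  have h1 : aeval x f.prod = 0 := by
    obtain ⟨u, hu⟩ := hprod
    have h2 : aeval x f.prod * aeval x (u : ℤ[X]) = 0 := by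
      rw [← map_mul, hu, hx]
    rcases mul_eq_zero.1 h2 with h3 | h3
    · exact h3
    · exfalso
      have h4 : aeval x ((u : ℤ[X]) * (↑u⁻¹ : ℤ[X])) = 0 := by rw [map_mul, h3, zero_mul]
      rw [Units.mul_inv] at h4
      simp at h4
  rw [map_multiset_prod, Multiset.prod_eq_zero_iff, Multiset.mem_map] at h1
  obtain ⟨A, hA, hA0⟩ := h1
  have hirr := hf A hA
  have hdeg : A.natDegree ≠ 0 := by
    intro h0
    obtain ⟨k, rfl⟩ := natDegree_eq_zero.1 h0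
    rw [aeval_C] at hA0
    have : k = 0 := by simpa using hA0
    apply hirr.ne_zero
    rw [this, C_0]
  have hdvd : A ∣ P := (Multiset.dvd_prod hA).trans hprod.dvd
  obtain ⟨B, hB⟩ := hdvd
  exact ⟨A, B, hB, hirr, hirr.isPrimitive hdeg, by omega, hA0⟩

lemma ht_le_of_mul_const {n : ℕ} {A B : ℤ[X]} (hAB : (A * B).natDegree ≤ n) (h0 : A * B ≠ 0)
    (hA : A.natDegree = n) : ht n A ≤ ht n (A * B) := by
  have hA0 : A ≠ 0 := left_ne_zero_of_mul h0
  have hB0 : B ≠ 0 := right_ne_zero_of_mul h0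
  have hB : B.natDegree = 0 := by
    rw [natDegree_mul hA0 hB0] at hAB; omega
  obtain ⟨k, rfl⟩ := natDegree_eq_zero.1 hB
  have hk : k ≠ 0 := by rintro rfl; simp at hB0
  refine ht_le_of ?_
  intro i _
  have h1 := abs_coeff_le_ht_int hAB i
  rw [coeff_mul_C, abs_mul] at h1
  have h2 := Int.one_le_abs hk
  have h3 : 0 ≤ |A.coeff i| := abs_nonneg _
  nlinarith

/-- The correction polynomial. -/
noncomputable def Gpoly (p : ℕ → ℤ) (b : ℤ) (k : ℕ) (a : ℤ) : ℤ[X] :=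
  ∑ j ∈ Finset.range k, C (Jr p b j) * (X - C a) ^ (j + 1)

lemma aeval_Gpoly (p : ℕ → ℤ) (b : ℤ) (k : ℕ) (a : ℤ) (y : ℝ) :
    aeval ((a : ℝ) + y) (Gpoly p b k a) = y * Gv p b k y := by
  rw [Gpoly, map_sum, Gv, Finset.mul_sum]
  refine Finset.sum_congr rfl ?_
  intro j _
  simp only [map_mul, map_pow, map_sub, aeval_C, aeval_X]
  simp only [eq_intCast, add_sub_cancel_left]
  ring

lemma natDegree_Gpoly_le (p : ℕ → ℤ) (b : ℤ) (k : ℕ) (a : ℤ) : (Gpoly p b k a).natDegree ≤ k := by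
  refine natDegree_sum_le_of_forall_le _ _ ?_
  intro j hj
  rw [Finset.mem_range] at hj
  refine (natDegree_C_mul_le _ _).trans ?_
  rw [natDegree_pow, natDegree_X_sub_C]
  omega

lemma L1_Gpoly_le {p : ℕ → ℤ} {b : ℤ} {k n a : ℕ} (ha : 1 ≤ a) (hk : k ≤ n) {D : ℝ} (hD0 : 0 ≤ D)
    (hD : ∀ j < k, |(Jr p b j : ℝ)| * (a : ℝ) ^ j ≤ D) :
    L1 (Gpoly p b k a) ≤ n * 2 ^ n * (D * a) := by
  have ha1 : (1 : ℝ) ≤ a := by exact_mod_cast ha
  refine (L1_sum_le _ _).trans ?_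
  have h1 : ∀ j ∈ Finset.range k, L1 (C (Jr p b j) * (X - C (a : ℤ)) ^ (j + 1)) ≤ 2 ^ n * (D * a) := by
    intro j hj
    rw [Finset.mem_range] at hj
    refine (L1_C_mul _ _).trans ?_
    have h2 : L1 (X - C (a : ℤ)) ≤ 2 * a := by
      refine (L1_sub_le _ _).trans ?_
      rw [L1_X, L1_C, Int.cast_natCast, Nat.abs_cast]; linarith
    have h3 : L1 ((X - C (a : ℤ)) ^ (j + 1)) ≤ (2 * a) ^ (j + 1) :=
      (L1_pow_le _ _).trans (pow_le_pow_left₀ (L1_nonneg _) h2 _)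
    calc |(Jr p b j : ℝ)| * L1 ((X - C (a : ℤ)) ^ (j + 1))
        ≤ |(Jr p b j : ℝ)| * (2 * a) ^ (j + 1) := mul_le_mul_of_nonneg_left h3 (abs_nonneg _)
      _ = 2 ^ (j + 1) * ((|(Jr p b j : ℝ)| * (a : ℝ) ^ j) * a) := by rw [mul_pow]; ring
      _ ≤ 2 ^ n * (D * a) := by
          refine mul_le_mul (pow_le_pow_right₀ (by norm_num) (by omega))
            (mul_le_mul_of_nonneg_right (hD j hj) (by positivity)) (by positivity) (by positivity)
  refine (Finset.sum_le_sum h1).trans ?_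
  rw [Finset.sum_const, Finset.card_range, nsmul_eq_mul, mul_assoc]
  refine mul_le_mul_of_nonneg_right ?_ (by positivity)
  exact_mod_cast hk

namespace Crd

variable (c : Crd)

/-- inverse coordinate -/
noncomputable def inv (β : ℝ) : ℝ := (c.t * β - c.r) / (c.q * (c.z - β))

lemma w_inv {β : ℝ} (hβ : β < c.z) : c.w (c.inv β) = 1 / (c.q * (c.z - β)) := by
  have h := c.det_real
  have hq := c.hq0.ne'
  have h1 : c.z - β ≠ 0 := (sub_pos.2 hβ).ne'
  have h2 : (c.q : ℝ) * (c.z - β) ≠ 0 := mul_ne_zero hq h1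
  rw [w, inv]
  field_simp
  rw [z]
  field_simp
  linear_combination h

lemma M_inv {β : ℝ} (hβ : β < c.z) : c.M (c.inv β) = β := by
  have h := c.det_real
  have hq := c.hq0.ne'
  have h1 : c.z - β ≠ 0 := (sub_pos.2 hβ).ne'
  have h2 : (c.q : ℝ) * (c.z - β) ≠ 0 := mul_ne_zero hq h1
  rw [M, c.w_inv hβ, inv]
  field_simp
  rw [z]
  field_simp
  linear_combination β * h

/-- The weight `w` is nearly constant. -/
lemma w_mono {X Y : ℝ} (h : X ≤ Y) : c.w X ≤ c.w Y := by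
  rw [w, w]
  have := c.hq0
  nlinarith

lemma w_ratio {a ε : ℝ} (haT : c.T₀ ≤ a) (hε : 0 < ε) (ha : 4 * c.q ≤ ε * a) :
    c.w (a + 1) ≤ (1 + ε) * c.w (a - 1) := by
  have h1 := c.w_lower haT (le_refl (a - 1))
  have h2 : c.w (a + 1) = c.w (a - 1) + 2 * c.q := by rw [w, w]; ring
  rw [h2]
  nlinarith

end Crd

lemma Good.irrational {n : ℕ} (hn : 2 ≤ n) {P : ℤ[X]} {β : ℝ} (h : Good n P β) (x : ℚ) :
    (x : ℝ) ≠ β := by
  intro h0
  apply h.aeval_rat_ne_zero hn x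
  rw [h0]; exact h.aeval

/-- Good numbers close to a rational number have large height. -/
lemma height_large_near (c : Crd) (n : ℕ) (hn : 2 ≤ n) (B : ℕ) :
    ∃ δ : ℝ, 0 < δ ∧ ∀ (P : ℤ[X]) (β : ℝ), Good n P β → |c.z - β| < δ → B ≤ ht n P := by
  obtain ⟨x, hx⟩ := c.z_rat
  obtain ⟨δ, hδ0, hδ⟩ := exists_pos_le_of_finite (finite_good n B)
    (fun q => |c.z - q.2|) (fun q hq => abs_pos.2 (sub_ne_zero.2 (by
      rw [← hx]; exact hq.1.irrational hn x)))
  refine ⟨δ, hδ0, ?_⟩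
  intro P β hP hd
  by_contra hlt
  push Not at hlt
  have := hδ (P, β) ⟨hP, hlt.le⟩
  simp only at this
  linarith

lemma ht_eq_of_le {m n : ℕ} {A : ℤ[X]} (hA : A.natDegree ≤ m) (hmn : m ≤ n) : ht m A = ht n A := by
  refine le_antisymm ?_ ?_
  · exact ht_le_of (fun i _ => abs_coeff_le_ht_int (hA.trans hmn) i)
  · exact ht_le_of (fun i _ => abs_coeff_le_ht_int hA i)

/-- Numbers of degree smaller than `n` do not approximate the points `M(a + 1/b)` well. -/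
lemma lower_excluded (c : Crd) (n : ℕ) (hn : 2 ≤ n) (s : ℝ) (hs : (n : ℝ) + 1 < s) (C : ℝ)
    (hC : 0 < C) :
    ∃ a₀ : ℕ, ∀ a b : ℕ, a₀ ≤ a → a ^ (n - 1) ≤ b → ∀ (A : ℤ[X]) (α X : ℝ), Irreducible A →
      A.natDegree ≤ n - 1 → 1 ≤ A.natDegree → A.IsPrimitive → aeval α A = 0 →
      (a : ℝ) - 1 ≤ X → α = c.M X → aeval (c.M a) A ≠ 0 → aeval (c.M ((a : ℝ) + 1 / b)) A ≠ 0 →
      |c.M ((a : ℝ) + 1 / b) - α| ≤ C * (ht n A : ℝ) ^ (-s) → False := by
  obtain ⟨m, rfl⟩ : ∃ m, n = m + 1 := ⟨n - 1, by omega⟩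
  simp only [Nat.add_sub_cancel]
  have hm1 : 1 ≤ m := by omega
  have hm1' : (1 : ℝ) ≤ m := by exact_mod_cast hm1
  set R : ℝ := |c.z| + 2 with hR
  have hR1 : 1 ≤ R := by rw [hR]; linarith [abs_nonneg c.z]
  have hq := c.hq0
  have hQ := c.Q_ge_one
  set D : ℝ := (c.q : ℝ) ^ m * ((m + 1) * m * R ^ m) with hD
  have hD0 : 0 < D := by positivity
  set C₁ : ℝ := (3 * c.Q) ^ m * ((m + 1) * m * R ^ m) * C with hC₁
  have hC₁0 : 0 < C₁ := by positivity
  set C₂ : ℝ := c.Q ^ m * (m + 1) with hC₂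
  have hC₂0 : 0 < C₂ := by positivity
  obtain ⟨a₁, ha₁⟩ := lower_degree (m + 1) hn s hs (C₁ + C₂) (1 / (2 * D)) (by positivity)
    (by positivity)
  simp only [Nat.add_sub_cancel] at ha₁
  obtain ⟨a₂, ha₂⟩ := exists_nat_ge c.T₀
  refine ⟨max a₁ a₂, ?_⟩
  intro a b ha hab A α X hirr hdeg hdeg1 hprim hα0 hX hαX hMa hMb hd
  have haT : c.T₀ ≤ a := by
    have : (a₂ : ℝ) ≤ a := by exact_mod_cast (le_max_right _ _).trans ha
    linarith
  have ha4 : (4 : ℝ) ≤ a := c.T₀_ge.trans haT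
  have ha0 : (0 : ℝ) < a := by linarith
  have haN1 : 1 ≤ a := by exact_mod_cast (by linarith : (1 : ℝ) ≤ a)
  have hbN1 : 1 ≤ b := (Nat.one_le_pow _ _ haN1).trans hab
  have hb1 : (1 : ℝ) ≤ b := by exact_mod_cast hbN1
  have hb0 : (0 : ℝ) < b := by linarith
  have hinv0 : (0 : ℝ) < 1 / b := by positivity
  have hinv1 : (1 : ℝ) / b ≤ 1 := by rw [div_le_one hb0]; exact hb1
  set Y : ℝ := (a : ℝ) + 1 / b with hY
  have hY1 : (a : ℝ) - 1 ≤ Y := by rw [hY]; linarith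
  have hY2 : Y ≤ (a : ℝ) + 1 := by rw [hY]; linarith
  have hdX := c.dist_z_M haT hX
  have hdY := c.dist_z_M haT hY1
  rw [← hαX] at hdX
  have h2a : 2 / (a : ℝ) ≤ 1 := by rw [div_le_one ha0]; linarith
  have hnear : ∀ x : ℝ, 0 < c.z - x → c.z - x ≤ 2 / a → |x| ≤ R := by
    intro x h1 h2
    calc |x| = |c.z - (c.z - x)| := by ring_nf
      _ ≤ |c.z| + |c.z - x| := abs_sub _ _
      _ ≤ R := by rw [hR, abs_of_pos h1]; linarith
  have hαR := hnear α hdX.1 hdX.2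
  have hMR := hnear (c.M Y) hdY.1 hdY.2
  have hA0 : A ≠ 0 := hirr.ne_zero
  have hzne : aeval c.z A ≠ 0 := by
    intro h0
    have hgood := good_of_irreducible hprim hirr rfl hα0
    obtain ⟨x, hx⟩ := c.z_rat
    by_cases h2 : 2 ≤ A.natDegree
    · apply hgood.aeval_rat_ne_zero h2 x
      rw [hx]; exact h0
    · have h3 : A.natDegree ≤ 1 := by omega
      rw [aeval_eq_sum h3] at h0 hα0
      simp only [Finset.sum_range_succ, Finset.sum_range_zero, zero_add, pow_zero, mul_one,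
        pow_one] at h0 hα0
      have h4 : ((A.coeff 1 : ℤ) : ℝ) ≠ 0 := by
        have : A.natDegree = 1 := by omega
        have h5 : A.coeff 1 ≠ 0 := by
          rw [← this, coeff_natDegree]; exact leadingCoeff_ne_zero.2 hA0
        exact_mod_cast h5
      have h5 : ((A.coeff 1 : ℤ) : ℝ) * (c.z - α) = 0 := by linarith
      rcases mul_eq_zero.1 h5 with h6 | h6
      · exact h4 h6
      · linarith [hdX.1]
  have hht : ht m A = ht (m + 1) A := ht_eq_of_le hdeg (by omega)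
  have hH1N : 1 ≤ ht m A := one_le_ht hdeg hA0
  have hH0 : (0 : ℝ) < ht m A := by exact_mod_cast hH1N
  have h1 := c.one_le_dist hdeg hzne hα0 hR1 (by rw [hR]; linarith) hαR
  rw [← hD, abs_of_pos hdX.1] at h1
  have hκ : 1 / (2 * D) * a ≤ (ht m A : ℝ) := by
    have h2 : 1 ≤ D * ht m A * (2 / a) :=
      h1.trans (mul_le_mul_of_nonneg_left hdX.2 (by positivity))
    rw [mul_div_assoc', le_div_iff₀ ha0] at h2
    rw [div_mul_eq_mul_div, div_le_iff₀ (by positivity)]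
    linarith
  set F := subst m c.p c.r c.q c.t A with hF
  have hwY : 0 < c.w Y := by have := c.w_lower haT hY1; linarith
  have hwa : 0 < c.w a := by have := c.w_lower haT (by linarith : (a : ℝ) - 1 ≤ a); linarith
  have hd' : |c.M Y - α| ≤ C * (ht m A : ℝ) ^ (-s) := by rw [hht]; exact hd
  have hρ := rho_bound c hdeg haT hY1 hY2 hα0 hR1 hMR hαR hH1N hd'
  rw [← hF, ← hC₁] at hρ
  refine ha₁ a b ((le_max_left _ _).trans ha) hab F (natDegree_subst_le _ _ _ _ _ _)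
    (ht m A) hκ ?_ ?_ ?_ ?_
  · intro i
    refine (abs_coeff_le_L1 F i).trans ?_
    refine (L1_subst_le _ _ _ _ A hdeg).trans ?_
    have h2 := L1_le_ht hdeg
    calc (|(c.p : ℝ)| + |(c.r : ℝ)| + |(c.q : ℝ)| + |(c.t : ℝ)|) ^ m * L1 A
        ≤ c.Q ^ m * ((m + 1) * ht m A) := mul_le_mul_of_nonneg_left h2 (by positivity)
      _ = C₂ * ht m A := by rw [hC₂]; ring
      _ ≤ (C₁ + C₂) * ht m A := mul_le_mul_of_nonneg_right (by linarith) hH0.le
  · intro h0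
    have h2 := aeval_int F (a : ℤ)
    rw [h0, Int.cast_zero, Int.cast_natCast] at h2
    rw [hF, c.aeval_sub hdeg hwa.ne'] at h2
    exact (mul_ne_zero (pow_ne_zero _ hwa.ne') hMa) h2
  · rw [hF, c.aeval_sub hdeg hwY.ne']
    exact mul_ne_zero (pow_ne_zero _ hwY.ne') hMb
  · refine hρ.trans ?_
    refine mul_le_mul_of_nonneg_right ?_ (by positivity)
    refine mul_le_mul_of_nonneg_right ?_ (by positivity)
    linarith

end Pool.Agent.H89.Alg
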